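import Pool.Agent.TLW.Defs

set_option autoImplicit false

namespace Pool.Agent.TLW

open Polynomial Pool.Agent.LFZ

open scoped IntermediateField.algebraAdjoinAdjoin in
theorem sameRel_hom {k L ι : Type} [Field k] [Field L] [Algebra k L] (f h : ι → L)
    (hfh : SameRel k f h) :
    ∃ σ : IntermediateField.adjoin k (Set.range h) →ₐ[k] L,
      ∀ (i : ι) (hi : h i ∈ IntermediateField.adjoin k (Set.range h)), σ ⟨h i, hi⟩ = f i := by
  classical
  let φh : MvPolynomial ι k →ₐ[k] L := MvPolynomial.aeval h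
  let φf : MvPolynomial ι k →ₐ[k] L := MvPolynomial.aeval f
  let e : (MvPolynomial ι k ⧸ RingHom.ker φh) ≃ₐ[k] φh.range := Ideal.quotientKerEquivRange φh
  let g : (MvPolynomial ι k ⧸ RingHom.ker φh) →ₐ[k] L :=
    Ideal.Quotient.liftₐ (RingHom.ker φh) φf (fun P hP => (hfh P).mpr hP)
  have hginj : Function.Injective g := by
    rw [injective_iff_map_eq_zero]
    intro x
    obtain ⟨P, rfl⟩ := Ideal.Quotient.mk_surjective x
    intro hx
    have hx' : φf P = 0 := hx
    rw [Ideal.Quotient.eq_zero_iff_mem]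
    exact (hfh P).mp hx'
  have hA : Algebra.adjoin k (Set.range h) = φh.range := Algebra.adjoin_range_eq_range_aeval k h
  let g1 : Algebra.adjoin k (Set.range h) →ₐ[k] L :=
    (g.comp e.symm.toAlgHom).comp (Subalgebra.equivOfEq _ _ hA).toAlgHom
  have hg1 : Function.Injective g1 := by
    refine (hginj.comp e.symm.injective).comp (Subalgebra.equivOfEq _ _ hA).injective
  have hval : ∀ (i : ι) (hi : h i ∈ Algebra.adjoin k (Set.range h)), g1 ⟨h i, hi⟩ = f i := by
    intro i hi
    have h1 : (⟨h i, hA ▸ hi⟩ : φh.range) = e (Ideal.Quotient.mk _ (MvPolynomial.X i)) := by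
      apply Subtype.ext
      show h i = φh (MvPolynomial.X i)
      simp [φh]
    show g (e.symm ⟨h i, _⟩) = f i
    rw [h1, AlgEquiv.symm_apply_apply]
    show φf (MvPolynomial.X i) = f i
    simp [φf]
  let σ : IntermediateField.adjoin k (Set.range h) →ₐ[k] L :=
    IsFractionRing.liftAlgHom (g := g1) hg1
  refine ⟨σ, fun i hi => ?_⟩
  have hi' : h i ∈ Algebra.adjoin k (Set.range h) := Algebra.subset_adjoin ⟨i, rfl⟩
  have h2 : (⟨h i, hi⟩ : IntermediateField.adjoin k (Set.range h)) =
      algebraMap (Algebra.adjoin k (Set.range h)) _ ⟨h i, hi'⟩ := rfl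
  rw [h2]
  show IsFractionRing.lift hg1 _ = _
  rw [IsFractionRing.lift_algebraMap]
  exact hval i hi'

section

variable {k A : Type} [Field k] [CommRing A] [IsDomain A] [Algebra k A]

theorem fam_coeff {ι τ : Type} (h : ι → A) (z : τ → A)
    (hz : AlgebraicIndependent (Algebra.adjoin k (Set.range h)) z) (P : MvPolynomial (τ ⊕ ι) k) :
    MvPolynomial.aeval (Sum.elim z h) P = 0 ↔
      ∀ α, MvPolynomial.aeval h ((MvPolynomial.sumAlgEquiv k τ ι P).coeff α) = 0 := by
  classical
  have hmem : ∀ Q : MvPolynomial ι k, MvPolynomial.aeval h Q ∈ Algebra.adjoin k (Set.range h) := by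
    intro Q
    rw [Algebra.adjoin_range_eq_range_aeval]
    exact ⟨Q, rfl⟩
  let g : MvPolynomial ι k →ₐ[k] Algebra.adjoin k (Set.range h) :=
    (MvPolynomial.aeval h).codRestrict _ hmem
  have key : ∀ P : MvPolynomial (τ ⊕ ι) k, MvPolynomial.aeval (Sum.elim z h) P =
      MvPolynomial.aeval z (MvPolynomial.mapAlgHom g (MvPolynomial.sumAlgEquiv k τ ι P)) := by
    intro P
    have : (MvPolynomial.aeval (Sum.elim z h) : MvPolynomial (τ ⊕ ι) k →ₐ[k] A) =
        ((MvPolynomial.aeval z : MvPolynomial τ (Algebra.adjoin k (Set.range h)) →ₐ[_] A).restrictScalars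
          k).comp ((MvPolynomial.mapAlgHom g).comp (MvPolynomial.sumAlgEquiv k τ ι).toAlgHom) := by
      apply MvPolynomial.algHom_ext
      rintro (t | i)
      · simp
      · simp [g]
    rw [this]
    rfl
  rw [key]
  rw [map_eq_zero_iff _ hz]
  rw [MvPolynomial.ext_iff]
  refine forall_congr' fun α => ?_
  have e1 : MvPolynomial.mapAlgHom g (MvPolynomial.sumAlgEquiv k τ ι P) =
      MvPolynomial.map (g : MvPolynomial ι k →+* Algebra.adjoin k (Set.range h))
        (MvPolynomial.sumAlgEquiv k τ ι P) := rfl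
  have e2 : MvPolynomial.coeff α (MvPolynomial.mapAlgHom g (MvPolynomial.sumAlgEquiv k τ ι P)) =
      g ((MvPolynomial.sumAlgEquiv k τ ι P).coeff α) := by
    rw [e1, MvPolynomial.coeff_map]
    rfl
  rw [e2, MvPolynomial.coeff_zero]
  constructor
  · intro h1
    exact congrArg Subtype.val h1
  · intro h1
    exact Subtype.ext h1

theorem fam_step (S : Set A) (hS : Algebra.adjoin k S = ⊤) {ι : Type} (h : ι → A) (I : Set ι)
    (hI : AlgebraicIndependent k (fun i : I => h i))
    (hmax : ∀ j, IsAlgebraic (Algebra.adjoin k (h '' I)) (h j)) :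
    ∃ Z : Set A, Z ⊆ S ∧ AlgebraicIndependent (Algebra.adjoin k (Set.range h)) ((↑) : Z → A) ∧
      IsTranscendenceBasis k (Sum.elim ((↑) : Z → A) (fun i : I => h i)) := by
  classical
  have htop : (⊤ : Subalgebra (Algebra.adjoin k (Set.range h)) A) =
      Algebra.adjoin (Algebra.adjoin k (Set.range h)) S := by
    symm
    rw [eq_top_iff]
    intro a _
    have h1 : a ∈ Algebra.adjoin k S := by
      rw [hS]
      trivial
    have h2 : Algebra.adjoin k S ≤
        (Algebra.adjoin (Algebra.adjoin k (Set.range h)) S).restrictScalars k :=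
      Algebra.adjoin_le Algebra.subset_adjoin
    exact h2 h1
  have halg : Algebra.IsAlgebraic (Algebra.adjoin (Algebra.adjoin k (Set.range h)) S) A := by
    refine ⟨fun a => ?_⟩
    have ha : a ∈ Algebra.adjoin (Algebra.adjoin k (Set.range h)) S := by
      rw [← htop]
      trivial
    exact isAlgebraic_algebraMap (⟨a, ha⟩ : Algebra.adjoin (Algebra.adjoin k (Set.range h)) S)
  obtain ⟨Z, hZS, hZ⟩ := exists_isTranscendenceBasis_subset
    (R := Algebra.adjoin k (Set.range h)) (A := A) S
  have hind : AlgebraicIndependent k (Sum.elim ((↑) : Z → A) (fun i : I => h i)) := by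
    refine hI.sumElim_of_tower (S := Algebra.adjoin k (Set.range h)) ?_ hZ.1
    rintro _ ⟨i, rfl⟩
    exact ⟨⟨h i, Algebra.subset_adjoin ⟨i, rfl⟩⟩, rfl⟩
  refine ⟨Z, hZS, hZ.1, ?_⟩
  rw [hind.isTranscendenceBasis_iff_isAlgebraic]
  set D : Subalgebra k A := Algebra.adjoin k (Set.range (Sum.elim ((↑) : Z → A) (fun i : I => h i)))
    with hD
  let Cl : Subalgebra D A := Subalgebra.algebraicClosure D A
  have hCl : ∀ a : A, a ∈ Cl ↔ IsAlgebraic D a := fun a => Iff.rfl
  have hhC : ∀ j, h j ∈ Cl := by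
    intro j
    rw [hCl]
    have hle : Algebra.adjoin k (h '' I) ≤ D := by
      apply Algebra.adjoin_mono
      rintro _ ⟨i, hi, rfl⟩
      exact ⟨Sum.inr ⟨i, hi⟩, rfl⟩
    exact (hmax j).ringHom_of_comp_eq (Subalgebra.inclusion hle) (RingHom.id A)
      (Subalgebra.inclusion_injective hle) rfl
  have hAh : ∀ a ∈ Algebra.adjoin k (Set.range h), a ∈ Cl := by
    intro a ha
    have h1 : Algebra.adjoin k (Set.range h) ≤ Cl.restrictScalars k := by
      apply Algebra.adjoin_le
      rintro _ ⟨j, rfl⟩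
      exact hhC j
    exact h1 ha
  have hz : ∀ a ∈ Algebra.adjoin (Algebra.adjoin k (Set.range h)) (Set.range ((↑) : Z → A)),
      a ∈ Cl := by
    intro a ha
    refine Algebra.adjoin_induction (p := fun x _ => x ∈ Cl) ?_ ?_ ?_ ?_ ha
    · rintro _ ⟨z, rfl⟩
      have : (z : A) ∈ D := Algebra.subset_adjoin ⟨Sum.inl z, rfl⟩
      exact Cl.algebraMap_mem ⟨(z : A), this⟩
    · intro r
      exact hAh _ r.2
    · intro x y _ _ hx hy
      exact Cl.add_mem hx hy
    · intro x y _ _ hx hy
      exact Cl.mul_mem hx hy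
  have hclA : Algebra.IsAlgebraic Cl A := by
    refine ⟨fun a => ?_⟩
    have h1 := hZ.isAlgebraic.1 a
    let inc : Algebra.adjoin (Algebra.adjoin k (Set.range h)) (Set.range ((↑) : Z → A)) →+* Cl :=
      { toFun := fun x => ⟨x.1, hz _ x.2⟩
        map_one' := rfl
        map_mul' := fun _ _ => rfl
        map_zero' := rfl
        map_add' := fun _ _ => rfl }
    refine h1.ringHom_of_comp_eq inc (RingHom.id A) ?_ rfl
    intro x y hxy
    exact Subtype.ext (congrArg (fun t : Cl => (t : A)) hxy)
  have hDC : Algebra.IsAlgebraic D Cl := by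
    refine ⟨fun a => ?_⟩
    have h1 : IsAlgebraic D (a : A) := a.2
    exact h1.of_ringHom_of_comp_eq (RingHom.id D) (Cl.val : Cl →+* A) Function.surjective_id
      Subtype.val_injective rfl
  exact Algebra.IsAlgebraic.trans D Cl A

end

theorem exists_complete {p : ℕ} [Fact p.Prime] {k L : Type} [Field k] [Field L] [Algebra k L]
    [Algebra (ZMod p) L] (R₀ : Subalgebra (ZMod p) L) (hR : R₀.FG) {ι : Type} [Finite ι]
    (f h : ι → R₀) (hfh : SameRel k (fun i => (f i : L)) (fun i => (h i : L))) :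
    ∃ (κ : Type) (_ : Finite κ) (F H : κ → R₀) (j : ι → κ) (n : ℕ) (Y : Fin n → κ),
      (∀ i, F (j i) = f i ∧ H (j i) = h i) ∧
      SameRel k (fun i => (F i : L)) (fun i => (H i : L)) ∧
      AlgebraicIndependent k (fun i => (H (Y i) : L)) ∧
      AlgebraicIndependent k (fun i => (F (Y i) : L)) ∧
      ∀ r : R₀, IsAlgebraic (IntermediateField.adjoin k (Set.range fun i => (H (Y i) : L)))
        (r : L) := by
  classical
  obtain ⟨S, hS⟩ := hR
  let A : Subalgebra k L := Algebra.adjoin k (S : Set L)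
  have hSA : ∀ x ∈ S, x ∈ A := fun x hx => Algebra.subset_adjoin hx
  have hSR : ∀ x ∈ S, x ∈ R₀ := by
    intro x hx
    rw [← hS]
    exact Algebra.subset_adjoin hx
  have hRA : ∀ r ∈ R₀, r ∈ A := by
    intro r hr
    rw [← hS] at hr
    refine Algebra.adjoin_induction (p := fun x _ => x ∈ A) ?_ ?_ ?_ ?_ hr
    · intro x hx
      exact hSA x hx
    · intro c
      obtain ⟨n, rfl⟩ := ZMod.natCast_zmod_surjective c
      rw [map_natCast]
      exact natCast_mem A n
    · intro x y _ _ hx hy
      exact A.add_mem hx hy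
    · intro x y _ _ hx hy
      exact A.mul_mem hx hy
  let hA : ι → A := fun i => ⟨(h i : L), hRA _ (h i).2⟩
  let fA : ι → A := fun i => ⟨(f i : L), hRA _ (f i).2⟩
  let SA : Set A := {x | (x : L) ∈ S}
  have hSfin : SA.Finite := by
    have : SA = (fun x : A => (x : L)) ⁻¹' (S : Set L) := rfl
    rw [this]
    exact S.finite_toSet.preimage Subtype.val_injective.injOn
  have hStop : Algebra.adjoin k SA = ⊤ := by
    rw [eq_top_iff]
    rintro ⟨a, ha⟩ _
    have h1 : a ∈ (Algebra.adjoin k SA).map A.val := by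
      rw [AlgHom.map_adjoin]
      have h2 : A.val '' SA = (S : Set L) := by
        ext x
        constructor
        · rintro ⟨y, hy, rfl⟩
          exact hy
        · intro hx
          exact ⟨⟨x, hSA x hx⟩, hx, rfl⟩
      rw [h2]
      exact ha
    obtain ⟨y, hy, hya⟩ := h1
    have : y = ⟨a, ha⟩ := Subtype.ext hya
    rwa [this] at hy
  have hval : ∀ {τ : Type} (x : τ → A) (P : MvPolynomial τ k),
      MvPolynomial.aeval (fun i => (x i : L)) P = (MvPolynomial.aeval x P : A) := by
    intro τ x P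
    have : (MvPolynomial.aeval (fun i => (x i : L)) : MvPolynomial τ k →ₐ[k] L) =
        A.val.comp (MvPolynomial.aeval x) := by
      apply MvPolynomial.algHom_ext
      intro i
      simp
    rw [this]
    rfl
  have hval0 : ∀ {τ : Type} (x : τ → A) (P : MvPolynomial τ k),
      MvPolynomial.aeval (fun i => (x i : L)) P = 0 ↔ MvPolynomial.aeval x P = 0 := by
    intro τ x P
    rw [hval]
    exact ⟨fun h => Subtype.ext h, fun h => congrArg Subtype.val h⟩
  have hrel : ∀ P : MvPolynomial ι k, MvPolynomial.aeval fA P = 0 ↔ MvPolynomial.aeval hA P = 0 := by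
    intro P
    rw [← hval0, ← hval0]
    exact hfh P
  have hindiff : ∀ {τ : Type} (u : τ → ι), AlgebraicIndependent k (fun i => hA (u i)) ↔
      AlgebraicIndependent k (fun i => fA (u i)) := by
    intro τ u
    have h1 : ∀ (x : ι → A) (P : MvPolynomial τ k),
        MvPolynomial.aeval (fun i => x (u i)) P = MvPolynomial.aeval x (MvPolynomial.rename u P) := by
      intro x P
      rw [MvPolynomial.aeval_rename]
      rfl
    rw [algebraicIndependent_iff, algebraicIndependent_iff]
    constructor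
    · intro h2 P hP
      apply h2
      rw [h1, ← hrel, ← h1]
      exact hP
    · intro h2 P hP
      apply h2
      rw [h1, hrel, ← h1]
      exact hP
  -- a maximal independent subfamily
  have hIex : ∃ I : Set ι, AlgebraicIndependent k (fun i : I => hA i) ∧
      ∀ J : Set ι, AlgebraicIndependent k (fun i : J => hA i) → I ⊆ J → J ⊆ I := by
    have hfin : {I : Set ι | AlgebraicIndependent k (fun i : I => hA i)}.Finite := Set.toFinite _
    have hne : {I : Set ι | AlgebraicIndependent k (fun i : I => hA i)}.Nonempty := by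
      refine ⟨∅, ?_⟩
      rw [Set.mem_ofPred_eq, algebraicIndependent_empty_type_iff]
      exact (algebraMap k A).injective
    obtain ⟨I, hI⟩ := hfin.exists_maximal hne
    exact ⟨I, hI.1, fun J hJ hIJ => hI.2 hJ hIJ⟩
  obtain ⟨I, hI, hImax⟩ := hIex
  have halgh : ∀ j, IsAlgebraic (Algebra.adjoin k (hA '' I)) (hA j) := by
    intro j
    by_cases hj : j ∈ I
    · exact isAlgebraic_algebraMap
        (⟨hA j, Algebra.subset_adjoin ⟨j, hj, rfl⟩⟩ : Algebra.adjoin k (hA '' I))
    · by_contra hc
      have h1 : AlgebraicIndepOn k hA (insert j I) :=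
        (AlgebraicIndepOn.insert_iff hj).mpr ⟨hI, hc⟩
      exact hj (hImax _ h1 (Set.subset_insert j I) (Set.mem_insert j I))
  have hIf : AlgebraicIndependent k (fun i : I => fA i) := (hindiff fun i : I => (i : ι)).mp hI
  have halgf : ∀ j, IsAlgebraic (Algebra.adjoin k (fA '' I)) (fA j) := by
    intro j
    by_cases hj : j ∈ I
    · exact isAlgebraic_algebraMap
        (⟨fA j, Algebra.subset_adjoin ⟨j, hj, rfl⟩⟩ : Algebra.adjoin k (fA '' I))
    · by_contra hc
      have h1 : AlgebraicIndepOn k fA (insert j I) :=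
        (AlgebraicIndepOn.insert_iff hj).mpr ⟨hIf, hc⟩
      have h2 := (hindiff fun i : (insert j I : Set ι) => (i : ι)).mpr h1
      exact hj (hImax _ h2 (Set.subset_insert j I) (Set.mem_insert j I))
  obtain ⟨Z, hZS, hZind, hZbas⟩ := fam_step SA hStop hA I hI halgh
  obtain ⟨Z', hZS', hZind', hZbas'⟩ := fam_step SA hStop fA I hIf halgf
  have hZfin : Finite Z := (hSfin.subset hZS)
  have hZfin' : Finite Z' := (hSfin.subset hZS')
  have hcard : Nat.card Z = Nat.card Z' := by
    have h1 := hZbas.cardinalMk_eq hZbas'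
    have h2 : Nat.card (Z ⊕ I) = Nat.card (Z' ⊕ I) := by
      unfold Nat.card
      rw [h1]
    rw [Nat.card_sum, Nat.card_sum] at h2
    omega
  let eZ : Fin (Nat.card Z) ≃ Z := (Finite.equivFin Z).symm
  let eZ' : Fin (Nat.card Z) ≃ Z' := (finCongr hcard).trans (Finite.equivFin Z').symm
  let z : Fin (Nat.card Z) → A := fun i => (eZ i : A)
  let z' : Fin (Nat.card Z) → A := fun i => (eZ' i : A)
  have hzR : ∀ i, ((z i : A) : L) ∈ R₀ := fun i => hSR _ (hZS (eZ i).2)
  have hzR' : ∀ i, ((z' i : A) : L) ∈ R₀ := fun i => hSR _ (hZS' (eZ' i).2)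
  have hzind : AlgebraicIndependent (Algebra.adjoin k (Set.range hA)) z :=
    hZind.comp eZ eZ.injective
  have hzind' : AlgebraicIndependent (Algebra.adjoin k (Set.range fA)) z' :=
    hZind'.comp eZ' eZ'.injective
  let H : Fin (Nat.card Z) ⊕ ι → R₀ := Sum.elim (fun i => ⟨(z i : L), hzR i⟩) h
  let F : Fin (Nat.card Z) ⊕ ι → R₀ := Sum.elim (fun i => ⟨(z' i : L), hzR' i⟩) f
  have hH : (fun i => (H i : L)) = fun i => ((Sum.elim z hA i : A) : L) := by
    funext i
    rcases i with i | i <;> rfl
  have hF : (fun i => (F i : L)) = fun i => ((Sum.elim z' fA i : A) : L) := by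
    funext i
    rcases i with i | i <;> rfl
  let n := Nat.card (Z ⊕ I)
  let eY : Fin n ≃ Z ⊕ I := (Finite.equivFin (Z ⊕ I)).symm
  let Y : Fin n → Fin (Nat.card Z) ⊕ ι := fun i => Sum.map eZ.symm (fun i : I => (i : ι)) (eY i)
  have hHY : (fun i => (H (Y i) : L)) =
      A.val ∘ ((Sum.elim ((↑) : Z → A) (fun i : I => hA i)) ∘ eY) := by
    funext i
    show (H (Sum.map eZ.symm (fun i : I => (i : ι)) (eY i)) : L) =
      ((Sum.elim ((↑) : Z → A) (fun i : I => hA i) (eY i) : A) : L)
    rcases eY i with u | u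
    · show (((eZ (eZ.symm u) : Z) : A) : L) = ((u : A) : L)
      rw [Equiv.apply_symm_apply]
    · rfl
  have hFY : (fun i => (F (Y i) : L)) =
      A.val ∘ ((Sum.elim ((↑) : Z' → A) (fun i : I => fA i)) ∘
        (fun i => Sum.map (fun u => eZ' (eZ.symm u)) id (eY i))) := by
    funext i
    show (F (Sum.map eZ.symm (fun i : I => (i : ι)) (eY i)) : L) =
      ((Sum.elim ((↑) : Z' → A) (fun i : I => fA i)
        (Sum.map (fun u => eZ' (eZ.symm u)) id (eY i)) : A) : L)
    rcases eY i with u | u
    · rfl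
    · rfl
  refine ⟨Fin (Nat.card Z) ⊕ ι, inferInstance, F, H, Sum.inr, n, Y, fun i => ⟨rfl, rfl⟩, ?_, ?_, ?_,
    ?_⟩
  · intro P
    rw [hH, hF, hval0, hval0, fam_coeff hA z hzind, fam_coeff fA z' hzind']
    exact forall_congr' fun α => hrel _
  · rw [hHY]
    exact (hZbas.1.comp eY eY.injective).map' Subtype.val_injective
  · rw [hFY]
    refine (hZbas'.1.comp _ ?_).map' Subtype.val_injective
    intro i j hij
    apply eY.injective
    have hinj : Function.Injective (Sum.map (fun u => eZ' (eZ.symm u)) (id : I → I)) :=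
      Function.Injective.sumMap (eZ'.injective.comp eZ.symm.injective) Function.injective_id
    exact hinj hij
  · intro r
    have h1 : IsAlgebraic (Algebra.adjoin k (Set.range
        (Sum.elim ((↑) : Z → A) (fun i : I => hA i)))) (⟨(r : L), hRA _ r.2⟩ : A) :=
      hZbas.isAlgebraic.1 _
    let K := IntermediateField.adjoin k (Set.range fun i => (H (Y i) : L))
    have hK : ∀ x ∈ Algebra.adjoin k (Set.range (Sum.elim ((↑) : Z → A) (fun i : I => hA i))),
        (x : L) ∈ K := by
      intro x hx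
      have h2 : Algebra.adjoin k (Set.range (Sum.elim ((↑) : Z → A) (fun i : I => hA i))) ≤
          K.toSubalgebra.comap A.val := by
        apply Algebra.adjoin_le
        rintro _ ⟨i, rfl⟩
        show ((Sum.elim ((↑) : Z → A) (fun i : I => hA i) i : A) : L) ∈ K
        apply IntermediateField.subset_adjoin
        refine ⟨eY.symm i, ?_⟩
        have h3 := congrFun hHY (eY.symm i)
        simp only [Function.comp, Equiv.apply_symm_apply] at h3
        exact h3
      exact h2 hx
    let inc : Algebra.adjoin k (Set.range (Sum.elim ((↑) : Z → A) (fun i : I => hA i))) →+* K :=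
      { toFun := fun x => ⟨((x : A) : L), hK _ x.2⟩
        map_one' := rfl
        map_mul' := fun _ _ => rfl
        map_zero' := rfl
        map_add' := fun _ _ => rfl }
    refine h1.ringHom_of_comp_eq inc (A.val : A →+* L) ?_ rfl
    intro x y hxy
    exact Subtype.ext (Subtype.ext (congrArg (fun t : K => (t : L)) hxy))

end Pool.Agent.TLW
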