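import Pool.Agent.TLW.Fam

set_option autoImplicit false
set_option linter.style.haveILetI false

namespace Pool.Agent.TLW

open Polynomial Pool.Agent.LFZ

section core

variable {R K L : Type} [CommRing R] [IsDomain R] [Field K] [Algebra R K] [IsFractionRing R K]
  [Field L] [Algebra R L] [Algebra K L] [IsScalarTower R K L]

/-- clearing denominators -/
lemma prim_clear (R : Type) {K : Type} [CommRing R] [IsDomain R] [Field K] [Algebra R K]
    [IsFractionRing R K] (q : K[X]) :
    ∃ (b : R) (H : R[X]), b ≠ 0 ∧ H.map (algebraMap R K) = C (algebraMap R K b) * q := by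
  obtain ⟨b, hb₁, hb₂⟩ := IsLocalization.integerNormalization_spec (nonZeroDivisors R) q
  refine ⟨b, IsLocalization.integerNormalization (nonZeroDivisors R) q,
    nonZeroDivisors.ne_zero hb₁, ?_⟩
  rw [hb₂, ← algebraMap_smul K b q, smul_eq_C_mul]

omit [IsDomain R] [Algebra R K] [IsFractionRing R K] [Algebra R L] [IsScalarTower R K L]
  [CommRing R] in
lemma prim_sep (p : ℕ) [ExpChar K p] {x : L} (hx : IsAlgebraic K x) :
    ∃ m, ∀ ν, m ≤ ν → IsSeparable K (x ^ p ^ ν) := by
  obtain ⟨g, hg, m, hm⟩ := (minpoly.irreducible hx.isIntegral).hasSeparableContraction p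
  refine ⟨m, fun ν hν => ?_⟩
  have h1 : IsSeparable K (x ^ p ^ m) := by
    have h0 : aeval (x ^ p ^ m) g = 0 := by
      have := minpoly.aeval K x
      rw [← hm, expand_aeval] at this
      exact this
    exact hg.of_dvd (minpoly.dvd K _ h0)
  have h2 : x ^ p ^ m ∈ separableClosure K L := mem_separableClosure_iff.2 h1
  obtain ⟨d, rfl⟩ := Nat.exists_eq_add_of_le hν
  have h3 : x ^ p ^ (m + d) = (x ^ p ^ m) ^ p ^ d := by rw [pow_add, pow_mul]
  rw [h3]
  exact mem_separableClosure_iff.1 (pow_mem h2 _)

theorem prim_core [IsIntegrallyClosed R] (p : ℕ) [ExpChar K p] {ι : Type} [Finite ι] (h : ι → L)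
    (halg : ∀ i, IsAlgebraic K (h i)) :
    ∃ (ν : ℕ) (M : R[X]) (H : ι → R[X]) (b : ι → R) (θ : L), M.Monic ∧
      (∀ P : R[X], P ≠ 0 → P.natDegree < M.natDegree → aeval θ P ≠ 0) ∧
      (∃ (A B : R[X]) (D : R), D ≠ 0 ∧ A * M + B * derivative M = C D) ∧
      aeval θ M = 0 ∧
      (∀ i, b i ≠ 0 ∧ algebraMap R L (b i) * h i ^ p ^ ν = aeval θ (H i)) ∧
      θ ∈ IntermediateField.adjoin K (Set.range h) := by
  classical
  choose m hm using fun i => prim_sep p (halg i)
  obtain ⟨ν, hν⟩ : ∃ ν, ∀ i, m i ≤ ν := by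
    cases nonempty_fintype ι
    exact ⟨Finset.univ.sup m, fun i => Finset.le_sup (Finset.mem_univ i)⟩
  let S : Set L := Set.range fun i => h i ^ p ^ ν
  have hS : ∀ x ∈ S, IsSeparable K x := by
    rintro _ ⟨i, rfl⟩
    exact hm i ν (hν i)
  haveI hE1 : Algebra.IsSeparable K (IntermediateField.adjoin K S) :=
    (IntermediateField.isSeparable_adjoin_iff_isSeparable K L).2 hS
  haveI : Finite S := Set.finite_range _
  haveI hE2 : FiniteDimensional K (IntermediateField.adjoin K S) :=
    IntermediateField.finiteDimensional_adjoin fun x hx => (hS x hx).isIntegral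
  obtain ⟨α, hα⟩ := Field.exists_primitive_element K (IntermediateField.adjoin K S)
  have hαE : (α : L) ∈ IntermediateField.adjoin K S := α.2
  have hαsep : IsSeparable K (α : L) := IntermediateField.isSeparable_of_mem_isSeparable K L hαE
  have hαalg : IsAlgebraic K (α : L) := hαsep.isIntegral.isAlgebraic
  -- elements of `S` are polynomials in `α`
  have hpoly : ∀ i, ∃ q : K[X], aeval (α : L) q = h i ^ p ^ ν := by
    intro i
    let s : IntermediateField.adjoin K S :=
      ⟨h i ^ p ^ ν, IntermediateField.subset_adjoin K S ⟨i, rfl⟩⟩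
    have hs : s ∈ IntermediateField.adjoin K {α} := by rw [hα]; trivial
    rw [← IntermediateField.mem_toSubalgebra,
      IntermediateField.adjoin_simple_toSubalgebra_of_isAlgebraic (IsAlgebraic.of_finite K α),
      Algebra.adjoin_singleton_eq_range_aeval] at hs
    obtain ⟨q, hq⟩ := hs
    refine ⟨q, ?_⟩
    have h1 : algebraMap (IntermediateField.adjoin K S) L (aeval α q) = aeval (α : L) q := by
      rw [← aeval_algebraMap_apply]; rfl
    rw [← h1]
    have h2 : aeval α q = s := hq
    rw [h2]; rfl
  -- make it integral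
  have hαR : IsAlgebraic R (α : L) := (IsFractionRing.isAlgebraic_iff R K L).2 hαalg
  obtain ⟨r, hr0, hr⟩ := hαR.exists_integral_multiple
  have hrK : algebraMap R K r ≠ 0 := by
    intro h0
    exact hr0 ((IsFractionRing.injective R K) (by rw [h0, map_zero]))
  set θ : L := r • (α : L) with hθ
  have hθK : θ = algebraMap K L (algebraMap R K r) * (α : L) := by
    rw [hθ, Algebra.smul_def, IsScalarTower.algebraMap_apply R K L]
  have hθE : θ ∈ IntermediateField.adjoin K S := by
    rw [hθK]
    exact mul_mem (IntermediateField.algebraMap_mem _ _) hαE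
  have hθsep : IsSeparable K θ := IntermediateField.isSeparable_of_mem_isSeparable K L hθE
  have hαθ : (α : L) = aeval θ (C (algebraMap R K r)⁻¹ * X : K[X]) := by
    rw [map_mul, aeval_C, aeval_X, hθK, ← mul_assoc, ← map_mul, inv_mul_cancel₀ hrK, map_one,
      one_mul]
  have hpolyθ : ∀ i, ∃ q : K[X], aeval θ q = h i ^ p ^ ν := by
    intro i
    obtain ⟨q, hq⟩ := hpoly i
    refine ⟨q.comp (C (algebraMap R K r)⁻¹ * X), ?_⟩
    rw [aeval_comp, ← hαθ, hq]
  choose q hq using hpolyθ
  have hcl := fun i => prim_clear R (q i)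
  choose b H hb hH using hcl
  have hmin : minpoly K θ = (minpoly R θ).map (algebraMap R K) :=
    minpoly.isIntegrallyClosed_eq_field_fractions' K hr
  have hmonic : (minpoly R θ).Monic := minpoly.monic hr
  have hinj := IsFractionRing.injective R K
  refine ⟨ν, minpoly R θ, H, b, θ, hmonic, ?_, ?_, minpoly.aeval R θ, ?_, ?_⟩
  · intro P hP hdeg h0
    have h1 : aeval θ (P.map (algebraMap R K)) = 0 := by rw [aeval_map_algebraMap, h0]
    have h2 : P.map (algebraMap R K) ≠ 0 := (Polynomial.map_ne_zero_iff hinj).2 hP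
    have h3 := minpoly.degree_le_of_ne_zero K θ h2 h1
    have h4 := natDegree_le_natDegree h3
    rw [hmin, hmonic.natDegree_map, natDegree_map_eq_of_injective hinj] at h4
    omega
  · obtain ⟨a, b', hab⟩ := hθsep
    obtain ⟨c1, A0, hc1, hA0⟩ := prim_clear R a
    obtain ⟨c2, B0, hc2, hB0⟩ := prim_clear R b'
    refine ⟨C c2 * A0, C c1 * B0, c1 * c2, mul_ne_zero hc1 hc2, ?_⟩
    apply Polynomial.map_injective (algebraMap R K) hinj
    rw [Polynomial.map_add, Polynomial.map_mul, Polynomial.map_mul, Polynomial.map_mul,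
      Polynomial.map_mul, Polynomial.map_C, Polynomial.map_C, Polynomial.map_C, hA0, hB0,
      ← Polynomial.derivative_map, ← hmin, map_mul, C_mul]
    calc C (algebraMap R K c2) * (C (algebraMap R K c1) * a) * minpoly K θ +
          C (algebraMap R K c1) * (C (algebraMap R K c2) * b') * derivative (minpoly K θ)
        = C (algebraMap R K c1) * C (algebraMap R K c2) *
          (a * minpoly K θ + b' * derivative (minpoly K θ)) := by ring
      _ = _ := by rw [hab, mul_one]
  · intro i
    refine ⟨hb i, ?_⟩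
    have h1 : aeval θ (H i) = aeval θ ((H i).map (algebraMap R K)) := by
      rw [aeval_map_algebraMap]
    rw [h1, hH i, map_mul, aeval_C, hq i, ← IsScalarTower.algebraMap_apply R K L]
  · refine (IntermediateField.adjoin_le_iff.2 ?_) hθE
    rintro _ ⟨i, rfl⟩
    exact pow_mem (IntermediateField.subset_adjoin K (Set.range h) ⟨i, rfl⟩) _

end core

theorem exists_prim {p : ℕ} [Fact p.Prime] {k L ι : Type} [Finite ι] [Field k] [IsAlgClosed k]
    [CharP k p] [Field L] [Algebra k L] (f h : ι → L) (hfh : SameRel k f h) {n : ℕ}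
    (Y : Fin n → ι) (hy : AlgebraicIndependent k (fun i => h (Y i)))
    (halg : ∀ i, IsAlgebraic (IntermediateField.adjoin k (Set.range fun i => h (Y i))) (h i)) :
    ∃ (ν : ℕ) (M : Polynomial (MvPolynomial (Fin n) k))
      (H : ι → Polynomial (MvPolynomial (Fin n) k)) (b : ι → MvPolynomial (Fin n) k) (θ θ' : L),
      M.Monic ∧
      (∀ P : Polynomial (MvPolynomial (Fin n) k), P ≠ 0 → P.natDegree < M.natDegree →
        (evG (fun i => h (Y i)) P).eval θ ≠ 0) ∧
      (∃ (A B : Polynomial (MvPolynomial (Fin n) k)) (D : MvPolynomial (Fin n) k), D ≠ 0 ∧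
        A * M + B * derivative M = C D) ∧
      (evG (fun i => h (Y i)) M).eval θ = 0 ∧ (evG (fun i => f (Y i)) M).eval θ' = 0 ∧
      ∀ i, b i ≠ 0 ∧
        MvPolynomial.aeval (fun i => h (Y i)) (b i) * h i ^ (p ^ ν) =
          (evG (fun i => h (Y i)) (H i)).eval θ ∧
        MvPolynomial.aeval (fun i => f (Y i)) (b i) * f i ^ (p ^ ν) =
          (evG (fun i => f (Y i)) (H i)).eval θ' := by
  classical
  let R := MvPolynomial (Fin n) k
  let K := FractionRing R
  let y : Fin n → L := fun i => h (Y i)
  let φ : R →ₐ[k] L := MvPolynomial.aeval y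
  have hφ : Function.Injective φ := hy
  letI algRL : Algebra R L := φ.toRingHom.toAlgebra
  have hmap : ∀ r : R, algebraMap R L r = φ r := fun _ => rfl
  haveI : FaithfulSMul R L := (faithfulSMul_iff_algebraMap_injective R L).2 hφ
  letI algKL : Algebra K L := FractionRing.liftAlgebra R L
  haveI : IsScalarTower R K L := FractionRing.isScalarTower_liftAlgebra R L
  haveI : CharP K p := charP_of_injective_algebraMap
    (RingHom.injective (algebraMap k K)) p
  haveI : ExpChar K p := ExpChar.prime (Fact.out)
  haveI : IsIntegrallyClosed R := inferInstance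
  have hdiv : ∀ r s : R, algebraMap K L (algebraMap R K r / algebraMap R K s) = φ r / φ s := by
    intro r s
    rw [map_div₀, ← IsScalarTower.algebraMap_apply R K L, ← IsScalarTower.algebraMap_apply R K L]
    rfl
  -- `K → k(y)`
  have hKmem : ∀ c : K, algebraMap K L c ∈ IntermediateField.adjoin k (Set.range y) := by
    intro c
    obtain ⟨r, s, _, rfl⟩ := IsFractionRing.div_surjective (A := R) c
    rw [hdiv, IntermediateField.mem_adjoin_range_iff]
    exact ⟨r, s, rfl⟩
  let g : K →+* IntermediateField.adjoin k (Set.range y) :=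
    (algebraMap K L).codRestrict (IntermediateField.adjoin k (Set.range y)) hKmem
  have hg : Function.Surjective g := by
    intro x
    obtain ⟨r, s, hrs⟩ := (IntermediateField.mem_adjoin_range_iff k y (x : L)).1 x.2
    refine ⟨algebraMap R K r / algebraMap R K s, ?_⟩
    apply Subtype.ext
    rw [hrs]
    exact hdiv r s
  have halg' : ∀ i, IsAlgebraic K (h i) := by
    intro i
    exact IsAlgebraic.of_ringHom_of_comp_eq (a := h i) g (RingHom.id L) (halg i) hg
      (Function.injective_id) (by ext c; rfl)
  obtain ⟨ν, M, H, b, θ, h1, h2, h3, h4, h5, h6⟩ := prim_core (R := R) (K := K) p h halg'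
  have hev : ∀ (z : Fin n → L) (P : Polynomial R) (t : L),
      (evG z P).eval t = eval₂ (MvPolynomial.aeval z : R →ₐ[k] L).toRingHom t P := by
    intro z P t
    unfold evG
    rw [eval_map]
    rfl
  have hevφ : ∀ (P : Polynomial R) (t : L), (evG y P).eval t = aeval t P := by
    intro P t
    rw [hev, aeval_def]
    rfl
  -- `θ` lies in `k(h)`
  have hyT : ∀ c : K, algebraMap K L c ∈ (IntermediateField.adjoin k (Set.range h)).toSubfield := by
    intro c
    have h0 := hKmem c
    have hle : IntermediateField.adjoin k (Set.range y) ≤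
        IntermediateField.adjoin k (Set.range h) := by
      apply IntermediateField.adjoin.mono
      rintro _ ⟨i, rfl⟩
      exact ⟨Y i, rfl⟩
    exact hle h0
  have hθ : θ ∈ IntermediateField.adjoin k (Set.range h) := by
    let T : IntermediateField K L :=
      Subfield.toIntermediateField (IntermediateField.adjoin k (Set.range h)).toSubfield hyT
    have hle : IntermediateField.adjoin K (Set.range h) ≤ T := by
      rw [IntermediateField.adjoin_le_iff]
      rintro _ ⟨i, rfl⟩
      exact IntermediateField.subset_adjoin k (Set.range h) ⟨i, rfl⟩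
    exact hle h6
  obtain ⟨σ, hσ⟩ := sameRel_hom f h hfh
  have hmem : ∀ i, h i ∈ IntermediateField.adjoin k (Set.range h) := fun i =>
    IntermediateField.subset_adjoin k (Set.range h) ⟨i, rfl⟩
  let ζ : IntermediateField.adjoin k (Set.range h) := ⟨θ, hθ⟩
  let yy : Fin n → IntermediateField.adjoin k (Set.range h) := fun i => ⟨h (Y i), hmem (Y i)⟩
  -- transport of evaluations
  have key : ∀ P : Polynomial R, ∃ w : IntermediateField.adjoin k (Set.range h),
      (w : L) = (evG y P).eval θ ∧ σ w = (evG (fun i => f (Y i)) P).eval (σ ζ) := by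
    intro P
    refine ⟨(evG yy P).eval ζ, ?_, ?_⟩
    · change (IntermediateField.adjoin k (Set.range h)).val ((evG yy P).eval ζ) = _
      rw [hev]
      unfold evG
      rw [eval_map]
      have e2 := Polynomial.hom_eval₂ P
        ((MvPolynomial.aeval yy : R →ₐ[k] _) : R →+* IntermediateField.adjoin k (Set.range h))
        ((IntermediateField.adjoin k (Set.range h)).val : _ →+* L) ζ
      refine e2.trans ?_
      congr 1
      apply MvPolynomial.ringHom_ext
      · intro r; simp
      · intro i; simp [yy, y]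
    · rw [hev]
      unfold evG
      rw [eval_map]
      have e2 := Polynomial.hom_eval₂ P
        ((MvPolynomial.aeval yy : R →ₐ[k] _) : R →+* IntermediateField.adjoin k (Set.range h))
        (σ : _ →+* L) ζ
      refine e2.trans ?_
      congr 1
      apply MvPolynomial.ringHom_ext
      · intro r; simp
      · intro i; simp [yy, hσ]
  have key2 : ∀ r : R, ∃ w : IntermediateField.adjoin k (Set.range h),
      (w : L) = MvPolynomial.aeval y r ∧ σ w = MvPolynomial.aeval (fun i => f (Y i)) r := by
    intro r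
    obtain ⟨w, hw1, hw2⟩ := key (C r)
    refine ⟨w, ?_, ?_⟩
    · rw [hw1]
      unfold evG
      rw [Polynomial.map_C, eval_C]
      rfl
    · rw [hw2]
      unfold evG
      rw [Polynomial.map_C, eval_C]
      rfl
  refine ⟨ν, M, H, b, θ, σ ζ, h1, ?_, h3, ?_, ?_, ?_⟩
  · intro P hP hd
    have := h2 P hP hd
    rw [← hevφ] at this
    exact this
  · rw [← h4]; exact hevφ M θ
  · obtain ⟨w, hw1, hw2⟩ := key M
    rw [← hw2]
    have : w = 0 := by
      apply Subtype.ext
      rw [hw1, hevφ, h4]; rfl
    rw [this, map_zero]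
  · intro i
    obtain ⟨hb0, hbi⟩ := h5 i
    have hbi' : MvPolynomial.aeval y (b i) * h i ^ (p ^ ν) = (evG y (H i)).eval θ := by
      rw [hevφ]; exact hbi
    refine ⟨hb0, hbi', ?_⟩
    obtain ⟨w, hw1, hw2⟩ := key (H i)
    obtain ⟨v, hv1, hv2⟩ := key2 (b i)
    rw [← hw2, ← hv2]
    have e1 : v * ⟨h i, hmem i⟩ ^ (p ^ ν) = w := by
      apply Subtype.ext
      rw [hw1, ← hbi', ← hv1]
      rfl
    rw [← e1, map_mul, map_pow, hσ]

end Pool.Agent.TLW
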