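import Pool.Agent.TLW.Defs

set_option autoImplicit false

namespace Pool.Agent.TLW

open Polynomial Pool.Agent.LFZ

lemma minor_field {K J : Type} [Field K] [Fintype J] [DecidableEq J]
    (v : J → ℕ → K) (hv : LinearIndependent K v) :
    ∃ n : J → ℕ, (Matrix.of fun i j => v j (n i)).det ≠ 0 := by
  classical
  let c : ℕ → (J → K) := fun n j => v j n
  have hspan : Submodule.span K (Set.range c) = ⊤ := by
    by_contra hne
    obtain ⟨φ, φne, hφ⟩ := Submodule.exists_le_ker_of_lt_top _ (lt_top_iff_ne_top.2 hne)
    have h1 : ∀ n, φ (c n) = 0 := fun n => hφ (Submodule.subset_span ⟨n, rfl⟩)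
    apply φne
    have h2 : ∑ j, φ (Pi.single j 1) • v j = 0 := by
      ext n
      have h3 := h1 n
      rw [pi_eq_sum_univ' (c n), map_sum] at h3
      rw [Finset.sum_apply, Pi.zero_apply, ← h3]
      apply Finset.sum_congr rfl
      intro j _
      rw [map_smul, Pi.smul_apply, smul_eq_mul, smul_eq_mul, mul_comm]
    have h4 := Fintype.linearIndependent_iff.1 hv _ h2
    apply LinearMap.pi_ext'
    intro j
    ext
    simp [h4 j]
  obtain ⟨κ, a, -, hsp, hli⟩ := exists_linearIndependent' K c
  rw [hspan] at hsp
  let b : Module.Basis κ K (J → K) := Module.Basis.mk hli hsp.ge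
  let e : J ≃ κ := (Pi.basisFun K J).indexEquiv b
  refine ⟨fun i => a (e i), ?_⟩
  have hli2 : LinearIndependent K (fun i : J => c (a (e i))) := hli.comp e e.injective
  have h5 := (Matrix.linearIndependent_rows_iff_isUnit
    (A := Matrix.of fun i j => v j (a (e i)))).1 hli2
  exact ((Matrix.isUnit_iff_isUnit_det _).1 h5).ne_zero

/-- a linearly independent finite family of sequences over a domain has a nonzero maximal minor -/
theorem exists_minor {R J : Type} [CommRing R] [IsDomain R] [Fintype J] [DecidableEq J]
    (v : J → ℕ → R) (hv : LinearIndependent R v) :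
    ∃ n : J → ℕ, (Matrix.of fun i j => v j (n i)).det ≠ 0 := by
  let K := FractionRing R
  have h1 : LinearIndependent K (fun j => (fun n => algebraMap R K (v j n) : ℕ → K)) := by
    rw [← LinearIndependent.iff_fractionRing (R := R) (K := K)]
    rw [Fintype.linearIndependent_iff] at hv ⊢
    intro g hg
    apply hv g
    ext n
    have h2 := congrFun hg n
    simp only [Finset.sum_apply, Pi.zero_apply, Algebra.smul_def] at h2 ⊢
    apply IsFractionRing.injective R K
    rw [map_sum, map_zero, ← h2]
    apply Finset.sum_congr rfl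
    intro j _
    simp
  obtain ⟨n, hn⟩ := minor_field _ h1
  refine ⟨n, fun h => hn ?_⟩
  have h3 := congrArg (algebraMap R K) h
  rw [RingHom.map_det, map_zero] at h3
  rw [← h3]
  congr 1

theorem linearIndependent_of_minor {Ω J : Type} [Field Ω] [Fintype J] [DecidableEq J]
    (v : J → ℕ → Ω) (n : J → ℕ) (h : (Matrix.of fun i j => v j (n i)).det ≠ 0) :
    LinearIndependent Ω v := by
  rw [Fintype.linearIndependent_iff]
  intro g hg
  have h1 : (Matrix.of fun i j => v j (n i)).mulVec g = 0 := by
    ext i
    have h2 := congrFun hg (n i)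
    simp only [Finset.sum_apply, Pi.smul_apply, Pi.zero_apply, smul_eq_mul] at h2
    rw [Matrix.mulVec, dotProduct, Pi.zero_apply, ← h2]
    apply Finset.sum_congr rfl
    intro j _
    rw [Matrix.of_apply, mul_comm]
  have h3 := Matrix.eq_zero_of_mulVec_eq_zero h h1
  intro i
  rw [h3, Pi.zero_apply]

end Pool.Agent.TLW
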