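import Pool.Agent.TLW.Hensel
import Pool.Agent.TLW.Minor

set_option autoImplicit false

namespace Pool.Agent.TLW

open Polynomial Pool.Agent.LFZ

/-! ### degrees in the inner variable -/

theorem ai_coeff_swap {Ω : Type} [Field Ω] (f : Polynomial (Polynomial Ω)) (n m : ℕ) :
    ((Bivariate.swap f).coeff n).coeff m = (f.coeff m).coeff n := by
  induction f using Polynomial.induction_on' with
  | add p q hp hq => simp [hp, hq]
  | monomial a p =>
    induction p using Polynomial.induction_on' with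
    | add p q hp hq =>
      rw [map_add (monomial a), map_add (Bivariate.swap)]
      simp only [coeff_add, hp, hq]
    | monomial b r =>
      rw [Bivariate.swap_monomial_monomial]
      simp only [coeff_monomial]
      by_cases h1 : b = n <;> by_cases h2 : a = m <;> simp [h1, h2, coeff_monomial]

theorem ai_natDegree_swap_le {Ω : Type} [Field Ω] (f : Polynomial (Polynomial Ω)) (S : ℕ)
    (h : ∀ r, (f.coeff r).natDegree ≤ S) : (Bivariate.swap f).natDegree ≤ S := by
  rw [natDegree_le_iff_coeff_eq_zero]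
  intro n hn
  ext m
  rw [ai_coeff_swap]
  simp only [coeff_zero]
  exact coeff_eq_zero_of_natDegree_lt (lt_of_le_of_lt (h m) hn)

theorem ai_coeff_natDegree_le {Ω : Type} [Field Ω] (f : Polynomial (Polynomial Ω)) (r : ℕ) :
    (f.coeff r).natDegree ≤ (Bivariate.swap f).natDegree := by
  rw [natDegree_le_iff_coeff_eq_zero]
  intro n hn
  rw [← ai_coeff_swap, coeff_eq_zero_of_natDegree_lt hn, coeff_zero]

theorem ai_factor_le {Ω : Type} [Field Ω] (f g P : Polynomial (Polynomial Ω)) (hf : f ≠ 0)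
    (hg : g ≠ 0) (h : f * g = P) (S : ℕ) (hS : ∀ r, (P.coeff r).natDegree ≤ S) (r : ℕ) :
    (f.coeff r).natDegree ≤ S := by
  have h1 := ai_natDegree_swap_le P S hS
  rw [← h, map_mul, natDegree_mul] at h1
  · exact le_trans (ai_coeff_natDegree_le f r) (by omega)
  · intro h0
    exact hf ((EmbeddingLike.map_eq_zero_iff (f := (Bivariate.swap (R := Ω)))).mp h0)
  · intro h0
    exact hg ((EmbeddingLike.map_eq_zero_iff (f := (Bivariate.swap (R := Ω)))).mp h0)

theorem ai_aeval_line_le {e : ℕ} {𝔽 : Type} [Field 𝔽] {Ω : Type} [Field Ω] [Algebra 𝔽 Ω]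
    (η : Fin (e + 1) → Ω) (p : MvPolynomial (Fin (e + 1)) 𝔽) :
    (MvPolynomial.aeval (line η) p).natDegree ≤ p.totalDegree := by
  rw [MvPolynomial.aeval_def, MvPolynomial.eval₂_eq']
  refine natDegree_sum_le_of_forall_le _ _ fun d hd => ?_
  have h1 : (∏ i, line η i ^ d i).natDegree ≤ ∑ i, d i := by
    refine (natDegree_prod_le _ _).trans (Finset.sum_le_sum fun i _ => ?_)
    refine natDegree_pow_le.trans ?_
    have : (line η i).natDegree ≤ 1 := by
      unfold line
      split_ifs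
      · simp
      · simp
    calc d i * (line η i).natDegree ≤ d i * 1 := Nat.mul_le_mul_left _ this
      _ = d i := mul_one _
  refine natDegree_mul_le.trans ?_
  have h2 : ((algebraMap 𝔽 (Polynomial Ω)) (MvPolynomial.coeff d p)).natDegree = 0 := by
    rw [Polynomial.algebraMap_apply, natDegree_C]
  rw [h2, zero_add]
  refine h1.trans ?_
  have h3 := MvPolynomial.le_totalDegree hd
  rwa [Finsupp.sum_fintype _ _ (fun _ => rfl)] at h3

/-! ### the embedding into power series -/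

/-- `Y_i ↦ W_i` for `i < e`, `Y_e ↦ T` -/
noncomputable def aiMu (e : ℕ) (𝔽 : Type) [Field 𝔽] :
    MvPolynomial (Fin (e + 1)) 𝔽 →+* PowerSeries (MvPolynomial (Fin e) 𝔽) :=
  (Polynomial.coeToPowerSeries.ringHom (R := MvPolynomial (Fin e) 𝔽)).comp
    (((MvPolynomial.renameEquiv 𝔽 (finSuccEquivLast (n := e))).trans
      (MvPolynomial.optionEquivLeft 𝔽 (Fin e)) : MvPolynomial (Fin (e + 1)) 𝔽 →+*
        Polynomial (MvPolynomial (Fin e) 𝔽)))

theorem aiMu_injective (e : ℕ) (𝔽 : Type) [Field 𝔽] : Function.Injective (aiMu e 𝔽) := by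
  intro a b h
  unfold aiMu at h
  simp only [RingHom.coe_comp, Function.comp_apply, Polynomial.coeToPowerSeries.ringHom_apply] at h
  have h2 := Polynomial.coe_injective _ h
  exact ((MvPolynomial.renameEquiv 𝔽 (finSuccEquivLast (n := e))).trans
      (MvPolynomial.optionEquivLeft 𝔽 (Fin e))).injective h2

theorem aiMu_C (e : ℕ) (𝔽 : Type) [Field 𝔽] (a : 𝔽) :
    aiMu e 𝔽 (MvPolynomial.C a) = PowerSeries.C (MvPolynomial.C a) := by
  unfold aiMu
  simp

theorem aiMu_last (e : ℕ) (𝔽 : Type) [Field 𝔽] :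
    aiMu e 𝔽 (MvPolynomial.X (Fin.last e)) = PowerSeries.X := by
  unfold aiMu
  simp [MvPolynomial.optionEquivLeft_X_none]

theorem aiMu_castSucc (e : ℕ) (𝔽 : Type) [Field 𝔽] (i : Fin e) :
    aiMu e 𝔽 (MvPolynomial.X i.castSucc) = PowerSeries.C (MvPolynomial.X i) := by
  unfold aiMu
  simp [MvPolynomial.optionEquivLeft_X_some]

theorem aiMu_rename (e : ℕ) (𝔽 : Type) [Field 𝔽] (p : MvPolynomial (Fin e) 𝔽) :
    aiMu e 𝔽 (MvPolynomial.rename Fin.castSucc p) = PowerSeries.C p := by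
  have : (aiMu e 𝔽).comp ((MvPolynomial.rename Fin.castSucc :
      MvPolynomial (Fin e) 𝔽 →ₐ[𝔽] MvPolynomial (Fin (e + 1)) 𝔽) :
      MvPolynomial (Fin e) 𝔽 →+* MvPolynomial (Fin (e + 1)) 𝔽) = PowerSeries.C := by
    apply MvPolynomial.ringHom_ext
    · intro r
      simp [aiMu_C]
    · intro i
      simp [aiMu_castSucc]
  exact congrArg (fun f => f p) this

/-- `Y_i ↦ W_i` for `i < e`, `Y_e ↦ 0` -/
noncomputable def aiRho (e : ℕ) (𝔽 : Type) [Field 𝔽] :
    MvPolynomial (Fin (e + 1)) 𝔽 →+* MvPolynomial (Fin e) 𝔽 :=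
  (PowerSeries.constantCoeff (R := MvPolynomial (Fin e) 𝔽)).comp (aiMu e 𝔽)

theorem aiRho_comp (e : ℕ) (𝔽 : Type) [Field 𝔽] :
    (PowerSeries.constantCoeff (R := MvPolynomial (Fin e) 𝔽)).comp (aiMu e 𝔽) =
      (aiRho e 𝔽).comp ((MvPolynomial.aeval (fun i => if i = Fin.last e then 0 else
      (MvPolynomial.X i : MvPolynomial (Fin (e + 1)) 𝔽)) :
      MvPolynomial (Fin (e + 1)) 𝔽 →ₐ[𝔽] MvPolynomial (Fin (e + 1)) 𝔽) :
      MvPolynomial (Fin (e + 1)) 𝔽 →+* MvPolynomial (Fin (e + 1)) 𝔽) := by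
  apply MvPolynomial.ringHom_ext
  · intro r
    simp [aiRho, aiMu_C]
  · intro i
    induction i using Fin.lastCases with
    | last => simp [aiRho, aiMu_last]
    | cast i => simp [aiRho, aiMu_castSucc, Fin.castSucc_ne_last]

theorem aiRho_C (e : ℕ) (𝔽 : Type) [Field 𝔽] :
    (aiRho e 𝔽).comp MvPolynomial.C = MvPolynomial.C := by
  ext1 r
  simp [aiRho, aiMu_C]

theorem ai_hensel {e : ℕ} {𝔽 : Type} [Field 𝔽]
    (M : Polynomial (MvPolynomial (Fin (e + 1)) 𝔽))
    (M₀ : Polynomial 𝔽)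
    (h0 : M.map ((MvPolynomial.aeval (fun i => if i = Fin.last e then 0 else
      (MvPolynomial.X i : MvPolynomial (Fin (e + 1)) 𝔽)) :
      MvPolynomial (Fin (e + 1)) 𝔽 →ₐ[𝔽] MvPolynomial (Fin (e + 1)) 𝔽) :
      MvPolynomial (Fin (e + 1)) 𝔽 →+* MvPolynomial (Fin (e + 1)) 𝔽) = M₀.map MvPolynomial.C)
    (θ₀ : 𝔽) (hroot : M₀.eval θ₀ = 0) (hsimple : (derivative M₀).eval θ₀ ≠ 0) :
    ∃ z : PowerSeries (MvPolynomial (Fin e) 𝔽), M.eval₂ (aiMu e 𝔽) z = 0 := by
  have h1 : (M.map (aiMu e 𝔽)).map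
      (PowerSeries.constantCoeff (R := MvPolynomial (Fin e) 𝔽)) = M₀.map MvPolynomial.C := by
    rw [Polynomial.map_map, aiRho_comp, ← Polynomial.map_map, h0, Polynomial.map_map, aiRho_C]
  obtain ⟨z, -, hz⟩ := powerSeries_hensel (M.map (aiMu e 𝔽)) (MvPolynomial.C θ₀)
    (MvPolynomial.C ((derivative M₀).eval θ₀)⁻¹) (by
      rw [h1, Polynomial.eval_map, Polynomial.eval₂_at_apply, hroot, map_zero]) (by
      rw [h1, Polynomial.derivative_map, Polynomial.eval_map, Polynomial.eval₂_at_apply,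
        ← map_mul, inv_mul_cancel₀ hsimple, map_one])
  exact ⟨z, by rw [← Polynomial.eval_map]; exact hz⟩

theorem ai_zero {A B : Type} [CommRing A] [IsDomain A] [IsIntegrallyClosed A] [CommRing B]
    [IsDomain B] (μ : A →+* B) (hμ : Function.Injective μ) (M : Polynomial A) (hM : M.Monic)
    (hirr : Irreducible M) (z : B) (hz : M.eval₂ μ z = 0) (P : Polynomial A)
    (hP : P.degree < M.degree) (h : P.eval₂ μ z = 0) : P = 0 := by
  letI : Algebra A B := μ.toAlgebra
  haveI : FaithfulSMul A B := (faithfulSMul_iff_algebraMap_injective A B).mpr hμ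
  haveI : Module.IsTorsionFree A B := by
    infer_instance
  have hint : IsIntegral A z := ⟨M, hM, hz⟩
  have hd : minpoly A z ∣ M := minpoly.isIntegrallyClosed_dvd hint hz
  have ha : Associated M (minpoly A z) := by
    rcases hirr.dvd_iff.mp hd with h1 | h1
    · exact absurd h1 (minpoly.not_isUnit A z)
    · exact h1
  have he : M = minpoly A z := eq_of_monic_of_associated hM (minpoly.monic hint) ha
  by_contra hne
  have := minpoly.IsIntegrallyClosed.degree_le_of_ne_zero (R := A) (s := z) hne h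
  rw [← he] at this
  exact absurd hP (not_lt.mpr this)

/-- the family of the series `T^s z^r` -/
noncomputable def aiFam {R : Type} [CommRing R] (S δ : ℕ) (z : PowerSeries R) :
    Fin (S + 1) × Fin δ → ℕ → R :=
  fun j n => PowerSeries.coeff n (PowerSeries.X ^ (j.1 : ℕ) * z ^ (j.2 : ℕ))

theorem ai_sum_zero {R : Type} [CommRing R] (S δ : ℕ) (z : PowerSeries R)
    (g : Fin (S + 1) × Fin δ → R) (h : ∑ j, g j • aiFam S δ z j = 0) :
    ∑ j : Fin (S + 1) × Fin δ, PowerSeries.C (g j) *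
      (PowerSeries.X ^ (j.1 : ℕ) * z ^ (j.2 : ℕ)) = 0 := by
  ext n
  have := congrFun h n
  simp only [Finset.sum_apply, Pi.smul_apply, smul_eq_mul, Pi.zero_apply] at this
  rw [map_sum, map_zero, ← this]
  refine Finset.sum_congr rfl fun j _ => ?_
  rw [PowerSeries.coeff_C_mul, aiFam]

theorem ai_sum_zero' {R : Type} [CommRing R] (S δ : ℕ) (z : PowerSeries R)
    (g : Fin (S + 1) × Fin δ → R)
    (h : ∑ j : Fin (S + 1) × Fin δ, PowerSeries.C (g j) *
      (PowerSeries.X ^ (j.1 : ℕ) * z ^ (j.2 : ℕ)) = 0) : ∑ j, g j • aiFam S δ z j = 0 := by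
  funext n
  have := congrArg (PowerSeries.coeff n) h
  rw [map_sum, map_zero] at this
  simp only [Finset.sum_apply, Pi.smul_apply, smul_eq_mul, Pi.zero_apply]
  rw [← this]
  refine Finset.sum_congr rfl fun j _ => ?_
  rw [PowerSeries.coeff_C_mul, aiFam]

theorem ai_powers {R : Type} [CommRing R] (S : ℕ) (g : Fin (S + 1) → R)
    (h : ∑ s : Fin (S + 1), PowerSeries.C (g s) * PowerSeries.X ^ (s : ℕ) = 0) (s : Fin (S + 1)) :
    g s = 0 := by
  have := congrArg (PowerSeries.coeff (s : ℕ)) h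
  rw [map_sum, map_zero, Finset.sum_eq_single s] at this
  · rwa [PowerSeries.coeff_C_mul, PowerSeries.coeff_X_pow_self, mul_one] at this
  · intro t _ ht
    rw [PowerSeries.coeff_C_mul, PowerSeries.coeff_X_pow, if_neg, mul_zero]
    intro h1
    exact ht (Fin.ext h1.symm)
  · intro h1
    exact absurd (Finset.mem_univ _) h1

theorem ai_indep {e : ℕ} {𝔽 : Type} [Field 𝔽]
    (M : Polynomial (MvPolynomial (Fin (e + 1)) 𝔽)) (hM : M.Monic) (hirr : Irreducible M)
    (z : PowerSeries (MvPolynomial (Fin e) 𝔽)) (hz : M.eval₂ (aiMu e 𝔽) z = 0) (S : ℕ) :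
    LinearIndependent (MvPolynomial (Fin e) 𝔽) (aiFam S M.natDegree z) := by
  rw [Fintype.linearIndependent_iff]
  intro g hg
  have h1 := ai_sum_zero _ _ _ _ hg
  set P : Polynomial (MvPolynomial (Fin (e + 1)) 𝔽) :=
    ∑ j : Fin (S + 1) × Fin M.natDegree, Polynomial.monomial (j.2 : ℕ)
      (MvPolynomial.rename Fin.castSucc (g j) * MvPolynomial.X (Fin.last e) ^ (j.1 : ℕ)) with hP
  have hPz : P.eval₂ (aiMu e 𝔽) z = 0 := by
    rw [hP, Polynomial.eval₂_finsetSum, ← h1]
    refine Finset.sum_congr rfl fun j _ => ?_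
    rw [Polynomial.eval₂_monomial, map_mul, map_pow, aiMu_rename, aiMu_last, mul_assoc]
  have hdeg : P.degree < M.degree := by
    rw [hP]
    refine lt_of_le_of_lt (Polynomial.degree_sum_le _ _) ?_
    rw [Finset.sup_lt_iff]
    · intro j _
      refine lt_of_le_of_lt (Polynomial.degree_monomial_le _ _) ?_
      rw [Polynomial.degree_eq_natDegree hM.ne_zero]
      exact_mod_cast j.2.2
    · rw [bot_lt_iff_ne_bot, Ne, Polynomial.degree_eq_bot]
      exact hM.ne_zero
  have hP0 := ai_zero (aiMu e 𝔽) (aiMu_injective e 𝔽) M hM hirr z hz P hdeg hPz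
  rintro ⟨s, r⟩
  have h2 := congrArg (fun Q => aiMu e 𝔽 (Q.coeff (r : ℕ))) hP0
  simp only [hP, Polynomial.finsetSum_coeff, Polynomial.coeff_zero, map_zero, map_sum] at h2
  rw [Fintype.sum_prod_type] at h2
  refine ai_powers S (fun s => g (s, r)) ?_ s
  rw [← h2]
  refine Finset.sum_congr rfl fun t _ => ?_
  rw [Finset.sum_eq_single r]
  · simp only
    rw [Polynomial.coeff_monomial, if_pos rfl, map_mul, map_pow, aiMu_rename, aiMu_last]
  · intro r' _ hr'
    rw [Polynomial.coeff_monomial, if_neg, map_zero]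
    intro h3
    exact hr' (Fin.ext h3)
  · intro h3
    exact absurd (Finset.mem_univ _) h3

/-! ### specialisation -/

/-- the specialisation `R[[T]] → Ω[[T]]` -/
noncomputable def aiSp {e : ℕ} {𝔽 : Type} [Field 𝔽] {Ω : Type} [Field Ω] [Algebra 𝔽 Ω]
    (η : Fin (e + 1) → Ω) : MvPolynomial (Fin e) 𝔽 →+* Ω :=
  ((MvPolynomial.aeval (fun i => η i.castSucc) : MvPolynomial (Fin e) 𝔽 →ₐ[𝔽] Ω) :
    MvPolynomial (Fin e) 𝔽 →+* Ω)

theorem aiSp_comp {e : ℕ} {𝔽 : Type} [Field 𝔽] {Ω : Type} [Field Ω] [Algebra 𝔽 Ω]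
    (η : Fin (e + 1) → Ω) :
    (PowerSeries.map (aiSp (𝔽 := 𝔽) η)).comp (aiMu e 𝔽) =
      (Polynomial.coeToPowerSeries.ringHom (R := Ω)).comp
        ((MvPolynomial.aeval (line η) : MvPolynomial (Fin (e + 1)) 𝔽 →ₐ[𝔽] Polynomial Ω) :
          MvPolynomial (Fin (e + 1)) 𝔽 →+* Polynomial Ω) := by
  apply MvPolynomial.ringHom_ext
  · intro r
    simp [aiMu_C, aiSp, Polynomial.algebraMap_apply]
  · intro i
    induction i using Fin.lastCases with
    | last => simp [aiMu_last, line]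
    | cast i => simp [aiMu_castSucc, line, Fin.castSucc_ne_last, aiSp]

theorem aiFam_sp {e : ℕ} {𝔽 : Type} [Field 𝔽] {Ω : Type} [Field Ω] [Algebra 𝔽 Ω]
    (η : Fin (e + 1) → Ω) (S δ : ℕ) (z : PowerSeries (MvPolynomial (Fin e) 𝔽))
    (j : Fin (S + 1) × Fin δ) (n : ℕ) :
    aiFam S δ (PowerSeries.map (aiSp (𝔽 := 𝔽) η) z) j n = aiSp (𝔽 := 𝔽) η (aiFam S δ z j n) := by
  unfold aiFam
  rw [← PowerSeries.coeff_map, map_mul (PowerSeries.map _), map_pow (PowerSeries.map _),
    map_pow (PowerSeries.map _), PowerSeries.map_X]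

/-- a polynomial of small degree killed by `ζ` is zero -/
theorem ai_small {Ω : Type} [Field Ω] (S δ : ℕ) (ζ : PowerSeries Ω)
    (hli : LinearIndependent Ω (aiFam S δ ζ)) (f : Polynomial (Polynomial Ω))
    (hf : f.natDegree < δ) (hS : ∀ r, (f.coeff r).natDegree ≤ S)
    (h : f.eval₂ (Polynomial.coeToPowerSeries.ringHom (R := Ω)) ζ = 0) : f = 0 := by
  rw [Fintype.linearIndependent_iff] at hli
  have h1 := hli (fun j => (f.coeff (j.2 : ℕ)).coeff (j.1 : ℕ)) (by
    apply ai_sum_zero'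
    rw [← h, Fintype.sum_prod_type, Finset.sum_comm, Polynomial.eval₂_eq_sum_range' _ hf,
      ← Fin.sum_univ_eq_sum_range (fun r => (Polynomial.coeToPowerSeries.ringHom (R := Ω))
        (f.coeff r) * ζ ^ r) δ]
    refine Finset.sum_congr rfl fun r _ => ?_
    have h2 : (Polynomial.coeToPowerSeries.ringHom (R := Ω)) (f.coeff r) =
        ∑ s : Fin (S + 1), PowerSeries.C ((f.coeff r).coeff (s : ℕ)) *
          PowerSeries.X ^ (s : ℕ) := by
      conv_lhs => rw [Polynomial.as_sum_range' (f.coeff r) (S + 1) (Nat.lt_succ_of_le (hS r))]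
      rw [map_sum, ← Fin.sum_univ_eq_sum_range (fun s =>
        (Polynomial.coeToPowerSeries.ringHom (R := Ω)) (monomial s ((f.coeff r).coeff s))) (S + 1)]
      refine Finset.sum_congr rfl fun s _ => ?_
      rw [← Polynomial.C_mul_X_pow_eq_monomial, map_mul, map_pow]
      simp
    rw [h2, Finset.sum_mul]
    refine Finset.sum_congr rfl fun s _ => ?_
    rw [mul_assoc])
  ext r s
  simp only [Polynomial.coeff_zero]
  by_cases hr : r < δ
  · by_cases hs : s < S + 1
    · exact h1 (⟨s, hs⟩, ⟨r, hr⟩)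
    · exact Polynomial.coeff_eq_zero_of_natDegree_lt (lt_of_le_of_lt (hS r) (by omega))
  · rw [Polynomial.coeff_eq_zero_of_natDegree_lt (n := r) (lt_of_lt_of_le hf (not_lt.mp hr))]
    simp

/-- (AI) -/
theorem exists_irrOff {e : ℕ} {𝔽 : Type} [Field 𝔽]
    (M : Polynomial (MvPolynomial (Fin (e + 1)) 𝔽)) (hM : M.Monic) (hirr : Irreducible M)
    (M₀ : Polynomial 𝔽)
    (h0 : M.map ((MvPolynomial.aeval (fun i => if i = Fin.last e then 0 else
      (MvPolynomial.X i : MvPolynomial (Fin (e + 1)) 𝔽)) :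
      MvPolynomial (Fin (e + 1)) 𝔽 →ₐ[𝔽] MvPolynomial (Fin (e + 1)) 𝔽) :
      MvPolynomial (Fin (e + 1)) 𝔽 →+* MvPolynomial (Fin (e + 1)) 𝔽) = M₀.map MvPolynomial.C)
    (θ₀ : 𝔽) (hroot : M₀.eval θ₀ = 0) (hsimple : (derivative M₀).eval θ₀ ≠ 0) :
    ∃ G : MvPolynomial (Fin (e + 1)) 𝔽, G ≠ 0 ∧ IrrOff G M := by
  obtain ⟨z, hz⟩ := ai_hensel M M₀ h0 θ₀ hroot hsimple
  obtain ⟨S, hS⟩ : ∃ S : ℕ, ∀ r, (M.coeff r).totalDegree ≤ S := by
    refine ⟨∑ r ∈ Finset.range (M.natDegree + 1), (M.coeff r).totalDegree, fun r => ?_⟩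
    by_cases hr : r < M.natDegree + 1
    · exact Finset.single_le_sum (f := fun r => (M.coeff r).totalDegree) (fun _ _ => Nat.zero_le _)
        (Finset.mem_range.mpr hr)
    · rw [Polynomial.coeff_eq_zero_of_natDegree_lt (by omega)]
      simp
  obtain ⟨n, hn⟩ := exists_minor _ (ai_indep M hM hirr z hz S)
  refine ⟨MvPolynomial.rename Fin.castSucc
    (Matrix.of fun i j => aiFam S M.natDegree z j (n i)).det, ?_, ?_⟩
  · intro h
    apply hn
    apply MvPolynomial.rename_injective _ (Fin.castSucc_injective e)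
    rw [h, map_zero]
  intro Ω _ _ η hη
  rw [MvPolynomial.aeval_rename] at hη
  have hη2 : aiSp (𝔽 := 𝔽) η (Matrix.of fun i j => aiFam S M.natDegree z j (n i)).det ≠ 0 := hη
  rw [RingHom.map_det] at hη2
  have hli : LinearIndependent Ω (aiFam S M.natDegree (PowerSeries.map (aiSp (𝔽 := 𝔽) η) z)) := by
    apply linearIndependent_of_minor _ n
    convert hη2 using 2
    ext i j
    simp only [Matrix.of_apply, RingHom.mapMatrix_apply, Matrix.map_apply]
    exact aiFam_sp η S M.natDegree z j (n i)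
  have hmon : (specM η M).Monic := hM.map _
  have hdeg : (specM η M).natDegree = M.natDegree := hM.natDegree_map _
  have hroot2 : (specM η M).eval₂ (Polynomial.coeToPowerSeries.ringHom (R := Ω))
      (PowerSeries.map (aiSp (𝔽 := 𝔽) η) z) = 0 := by
    rw [specM, Polynomial.eval₂_map, ← aiSp_comp, ← Polynomial.hom_eval₂, hz, map_zero]
  have hpos : 0 < M.natDegree := by
    rw [Nat.pos_iff_ne_zero]
    intro h
    rw [hM.natDegree_eq_zero] at h
    exact hirr.not_isUnit (h ▸ isUnit_one)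
  have htd : ∀ r, ((specM η M).coeff r).natDegree ≤ S := by
    intro r
    rw [specM, Polynomial.coeff_map]
    exact (ai_aeval_line_le η (M.coeff r)).trans (hS r)
  rw [hmon.irreducible_iff_natDegree]
  refine ⟨?_, ?_⟩
  · intro h
    rw [← hmon.natDegree_eq_zero, hdeg] at h
    omega
  · intro f g hf hg hfg
    by_contra hcon
    push Not at hcon
    have hsum : f.natDegree + g.natDegree = M.natDegree := by
      rw [← hf.natDegree_mul hg, hfg, hdeg]
    have hprod : f.eval₂ (Polynomial.coeToPowerSeries.ringHom (R := Ω))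
        (PowerSeries.map (aiSp (𝔽 := 𝔽) η) z) * g.eval₂
        (Polynomial.coeToPowerSeries.ringHom (R := Ω))
        (PowerSeries.map (aiSp (𝔽 := 𝔽) η) z) = 0 := by
      rw [← Polynomial.eval₂_mul, hfg, hroot2]
    rcases mul_eq_zero.mp hprod with h | h
    · exact hf.ne_zero (ai_small S M.natDegree _ hli f (by omega)
        (ai_factor_le f g _ hf.ne_zero hg.ne_zero hfg S htd) h)
    · exact hg.ne_zero (ai_small S M.natDegree _ hli g (by omega)
        (ai_factor_le g f _ hg.ne_zero hf.ne_zero (by rw [mul_comm]; exact hfg) S htd) h)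

end Pool.Agent.TLW
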