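import Pool.Agent.TLW.Defs

set_option autoImplicit false

namespace Pool.Agent.TLW

open Polynomial Pool.Agent.LFZ

lemma blow_algInd {n : ℕ} {k L : Type} [Field k] [Field L] [Algebra k L] (x y : Fin n → L)
    (hy : AlgebraicIndependent k y) (hyx : ∀ i, y i ∈ Algebra.adjoin k (Set.range x)) :
    AlgebraicIndependent k x := by
  let A := Algebra.adjoin k (Set.range x)
  let x' : Fin n → A := fun i => ⟨x i, Algebra.subset_adjoin ⟨i, rfl⟩⟩
  let y' : Fin n → A := fun i => ⟨y i, hyx i⟩
  have hy' : AlgebraicIndependent k y' := by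
    apply AlgebraicIndependent.of_comp A.val
    exact hy
  have htop : Algebra.adjoin k (Set.range x') = ⊤ := by
    have h1 := Algebra.adjoin_adjoin_coe_preimage (R := k) (s := Set.range x)
    have h2 : ((↑) ⁻¹' Set.range x : Set (Algebra.adjoin k (Set.range x))) = Set.range x' := by
      ext a
      constructor
      · rintro ⟨i, hi⟩
        exact ⟨i, Subtype.ext hi⟩
      · rintro ⟨i, hi⟩
        exact ⟨i, congrArg Subtype.val hi⟩
    rw [h2] at h1
    exact h1
  have : Algebra.IsAlgebraic (Algebra.adjoin k (Set.range x')) A := by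
    rw [htop]
    refine ⟨fun a => ?_⟩
    exact isAlgebraic_algebraMap (⟨a, Algebra.mem_top⟩ : (⊤ : Subalgebra k A))
  have hb := Algebra.IsAlgebraic.isTranscendenceBasis_of_le_trdeg_of_finite (R := k) x'
    hy'.cardinalMk_le_trdeg
  exact hb.1.map' (f := A.val) Subtype.val_injective

section

variable {e : ℕ} {k L : Type} [Field k] [Field L] [Algebra k L]

/-- the substitution of the blow-up -/
noncomputable def blowHom (y₀ : Fin (e + 1) → k) :
    MvPolynomial (Fin (e + 1)) k →ₐ[k] MvPolynomial (Fin (e + 1)) k :=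
  MvPolynomial.aeval (fun i => MvPolynomial.C (y₀ i) +
    (if i = Fin.last e then MvPolynomial.X (Fin.last e) else
      MvPolynomial.X i * MvPolynomial.X (Fin.last e)))

lemma blow_last_ne (y₀ : Fin (e + 1) → k) (y : Fin (e + 1) → L) (hy : AlgebraicIndependent k y) :
    y (Fin.last e) - algebraMap k L (y₀ (Fin.last e)) ≠ 0 := by
  intro h
  have h1 := hy.transcendental (Fin.last e)
  apply h1
  rw [sub_eq_zero.1 h]
  exact isAlgebraic_algebraMap _

lemma blow_coord (y₀ : Fin (e + 1) → k) (y : Fin (e + 1) → L) (hy : AlgebraicIndependent k y)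
    (i : Fin (e + 1)) : y i = algebraMap k L (y₀ i) + (if i = Fin.last e then blowPt y₀ y i else
      blowPt y₀ y i * blowPt y₀ y (Fin.last e)) := by
  have h := blow_last_ne y₀ y hy
  by_cases hi : i = Fin.last e
  · subst hi
    simp [blowPt]
  · simp only [blowPt, hi, if_false, if_true]
    rw [div_mul_cancel₀ _ h]
    ring

lemma blow_pt_algInd (y₀ : Fin (e + 1) → k) (y : Fin (e + 1) → L)
    (hy : AlgebraicIndependent k y) : AlgebraicIndependent k (blowPt y₀ y) := by
  apply blow_algInd _ y hy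
  intro i
  rw [blow_coord y₀ y hy i]
  apply Subalgebra.add_mem _ (Subalgebra.algebraMap_mem _ _)
  split_ifs
  · exact Algebra.subset_adjoin ⟨i, rfl⟩
  · exact Subalgebra.mul_mem _ (Algebra.subset_adjoin ⟨i, rfl⟩) (Algebra.subset_adjoin ⟨_, rfl⟩)

lemma blow_comp (y₀ : Fin (e + 1) → k) (y : Fin (e + 1) → L) (hy : AlgebraicIndependent k y) :
    (MvPolynomial.aeval (blowPt y₀ y) : MvPolynomial (Fin (e + 1)) k →ₐ[k] L).comp (blowHom y₀) =
      MvPolynomial.aeval y := by
  apply MvPolynomial.algHom_ext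
  intro i
  rw [AlgHom.comp_apply, blowHom, MvPolynomial.aeval_X, MvPolynomial.aeval_X, map_add,
    MvPolynomial.aeval_C, blow_coord y₀ y hy i]
  congr 1
  split_ifs with h
  · rw [MvPolynomial.aeval_X, h]
  · rw [map_mul, MvPolynomial.aeval_X, MvPolynomial.aeval_X]

lemma blow_evG (M : Polynomial (MvPolynomial (Fin (e + 1)) k)) (y₀ : Fin (e + 1) → k)
    (y : Fin (e + 1) → L) (hy : AlgebraicIndependent k y) :
    evG (blowPt y₀ y) (blowM y₀ M) = evG y M := by
  have h : blowM y₀ M = M.map ((blowHom y₀ : MvPolynomial (Fin (e + 1)) k →+* _)) := rfl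
  rw [h, evG, evG, Polynomial.map_map, ← blow_comp y₀ y hy]
  rfl

lemma blow_zero (y₀ : Fin (e + 1) → k) :
    ((MvPolynomial.aeval (fun i => if i = Fin.last e then 0 else
      (MvPolynomial.X i : MvPolynomial (Fin (e + 1)) k)) :
      MvPolynomial (Fin (e + 1)) k →ₐ[k] MvPolynomial (Fin (e + 1)) k)).comp (blowHom y₀) =
      (Algebra.ofId k (MvPolynomial (Fin (e + 1)) k)).comp (MvPolynomial.aeval y₀) := by
  apply MvPolynomial.algHom_ext
  intro i
  rw [AlgHom.comp_apply, AlgHom.comp_apply, blowHom, MvPolynomial.aeval_X, MvPolynomial.aeval_X,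
    map_add, MvPolynomial.aeval_C]
  have : (MvPolynomial.aeval (fun i => if i = Fin.last e then 0 else
      (MvPolynomial.X i : MvPolynomial (Fin (e + 1)) k)) :
      MvPolynomial (Fin (e + 1)) k →ₐ[k] MvPolynomial (Fin (e + 1)) k)
      (if i = Fin.last e then MvPolynomial.X (Fin.last e) else
      MvPolynomial.X i * MvPolynomial.X (Fin.last e)) = 0 := by
    split_ifs with h
    · rw [MvPolynomial.aeval_X]; simp
    · rw [map_mul, MvPolynomial.aeval_X, MvPolynomial.aeval_X]; simp
  rw [this, add_zero]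
  rfl

lemma blow_denom (y₀ : Fin (e + 1) → k) (y : Fin (e + 1) → L)
    (a : MvPolynomial (Fin (e + 1)) k) : ∃ N : ℕ, ∀ n ≥ N, ∃ b : MvPolynomial (Fin (e + 1)) k,
      MvPolynomial.aeval y b = (y (Fin.last e) - algebraMap k L (y₀ (Fin.last e))) ^ n *
        MvPolynomial.aeval (blowPt y₀ y) a := by
  by_cases ht : y (Fin.last e) - algebraMap k L (y₀ (Fin.last e)) = 0
  · refine ⟨1, fun n hn => ⟨0, ?_⟩⟩
    rw [ht, zero_pow (by omega), zero_mul, map_zero]
  induction a using MvPolynomial.induction_on with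
  | C c =>
    refine ⟨0, fun n _ => ⟨(MvPolynomial.X (Fin.last e) - MvPolynomial.C (y₀ (Fin.last e))) ^ n *
      MvPolynomial.C c, ?_⟩⟩
    rw [map_mul, map_pow, map_sub, MvPolynomial.aeval_X, MvPolynomial.aeval_C,
      MvPolynomial.aeval_C, MvPolynomial.aeval_C]
  | add p q hp hq =>
    obtain ⟨N, hN⟩ := hp
    obtain ⟨N', hN'⟩ := hq
    refine ⟨max N N', fun n hn => ?_⟩
    obtain ⟨b, hb⟩ := hN n (le_trans (le_max_left _ _) hn)
    obtain ⟨b', hb'⟩ := hN' n (le_trans (le_max_right _ _) hn)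
    exact ⟨b + b', by rw [map_add, map_add, hb, hb', mul_add]⟩
  | mul_X p i hp =>
    obtain ⟨N, hN⟩ := hp
    refine ⟨N + 1, fun n hn => ?_⟩
    obtain ⟨m, rfl⟩ : ∃ m, n = m + 1 := ⟨n - 1, by omega⟩
    obtain ⟨b, hb⟩ := hN m (by omega)
    by_cases hi : i = Fin.last e
    · subst hi
      refine ⟨b * (MvPolynomial.X (Fin.last e) - MvPolynomial.C (y₀ (Fin.last e))) ^ 2, ?_⟩
      rw [map_mul, hb, map_pow, map_sub, MvPolynomial.aeval_X, MvPolynomial.aeval_C, map_mul,
        MvPolynomial.aeval_X]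
      have : blowPt y₀ y (Fin.last e) = y (Fin.last e) - algebraMap k L (y₀ (Fin.last e)) := by
        simp [blowPt]
      rw [this]
      ring
    · refine ⟨b * (MvPolynomial.X i - MvPolynomial.C (y₀ i)), ?_⟩
      rw [map_mul, hb, map_sub, MvPolynomial.aeval_X, MvPolynomial.aeval_C, map_mul,
        MvPolynomial.aeval_X]
      have : blowPt y₀ y i = (y i - algebraMap k L (y₀ i)) /
          (y (Fin.last e) - algebraMap k L (y₀ (Fin.last e))) := by
        simp [blowPt, hi]
      rw [this, pow_succ]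
      field_simp

lemma blow_denom_poly (y₀ : Fin (e + 1) → k) (y : Fin (e + 1) → L)
    (A : Polynomial (MvPolynomial (Fin (e + 1)) k)) :
    ∃ (n : ℕ) (P : Polynomial (MvPolynomial (Fin (e + 1)) k)), P.natDegree ≤ A.natDegree ∧
      evG y P = C ((y (Fin.last e) - algebraMap k L (y₀ (Fin.last e))) ^ n) *
        evG (blowPt y₀ y) A := by
  choose N hN using blow_denom (L := L) y₀ y
  obtain ⟨n, hn⟩ : ∃ n, n = A.support.sup (fun j => N (A.coeff j)) := ⟨_, rfl⟩
  have h1 : ∀ j, ∃ b : MvPolynomial (Fin (e + 1)) k,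
      MvPolynomial.aeval y b = (y (Fin.last e) - algebraMap k L (y₀ (Fin.last e))) ^ n *
        MvPolynomial.aeval (blowPt y₀ y) (A.coeff j) := by
    intro j
    by_cases hj : j ∈ A.support
    · apply hN
      rw [hn]
      exact Finset.le_sup (f := fun j => N (A.coeff j)) hj
    · rw [Polynomial.notMem_support_iff] at hj
      exact ⟨0, by rw [hj, map_zero, map_zero, mul_zero]⟩
  choose b hb using h1
  refine ⟨n, ∑ j ∈ Finset.range (A.natDegree + 1), Polynomial.monomial j (b j), ?_, ?_⟩
  · apply Polynomial.natDegree_sum_le_of_forall_le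
    intro j hj
    rw [Finset.mem_range] at hj
    exact (Polynomial.natDegree_monomial_le _).trans (by omega)
  · ext j
    rw [evG, evG, Polynomial.coeff_map, Polynomial.coeff_C_mul, Polynomial.coeff_map,
      Polynomial.finsetSum_coeff]
    simp only [Polynomial.coeff_monomial, Finset.sum_ite_eq', Finset.mem_range]
    split_ifs with h
    · exact hb j
    · have : A.coeff j = 0 := Polynomial.coeff_eq_zero_of_natDegree_lt (by omega)
      rw [this]
      simp

end

theorem blow_facts {e : ℕ} {k L : Type} [Field k] [Field L] [Algebra k L]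
    (M : Polynomial (MvPolynomial (Fin (e + 1)) k)) (hM : M.Monic) (y₀ : Fin (e + 1) → k)
    (y : Fin (e + 1) → L) (hy : AlgebraicIndependent k y) :
    (blowM y₀ M).Monic ∧ (blowM y₀ M).natDegree = M.natDegree ∧
    AlgebraicIndependent k (blowPt y₀ y) ∧ blowPt y₀ y (Fin.last e) ≠ 0 ∧
    evG (blowPt y₀ y) (blowM y₀ M) = evG y M ∧
    (∀ i, y i = algebraMap k L (y₀ i) + (if i = Fin.last e then blowPt y₀ y i else
      blowPt y₀ y i * blowPt y₀ y (Fin.last e))) ∧
    (blowM y₀ M).map ((MvPolynomial.aeval (fun i => if i = Fin.last e then 0 else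
      (MvPolynomial.X i : MvPolynomial (Fin (e + 1)) k)) :
      MvPolynomial (Fin (e + 1)) k →ₐ[k] MvPolynomial (Fin (e + 1)) k) :
      MvPolynomial (Fin (e + 1)) k →+* MvPolynomial (Fin (e + 1)) k) =
      (evG y₀ M).map MvPolynomial.C := by
  refine ⟨hM.map _, hM.natDegree_map _, blow_pt_algInd y₀ y hy, ?_, blow_evG M y₀ y hy,
    blow_coord y₀ y hy, ?_⟩
  · have h := blow_last_ne y₀ y hy
    simpa [blowPt] using h
  · have h : blowM y₀ M = M.map ((blowHom y₀ : MvPolynomial (Fin (e + 1)) k →+* _)) := rfl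
    rw [h, Polynomial.map_map, evG, Polynomial.map_map]
    congr 1
    exact congrArg (fun f : MvPolynomial (Fin (e + 1)) k →ₐ[k]
      MvPolynomial (Fin (e + 1)) k => (f : MvPolynomial (Fin (e + 1)) k →+*
        MvPolynomial (Fin (e + 1)) k)) (blow_zero y₀)

theorem blow_irreducible {e : ℕ} {k L : Type} [Field k] [Field L] [Algebra k L]
    (M : Polynomial (MvPolynomial (Fin (e + 1)) k)) (hM : M.Monic) (y₀ : Fin (e + 1) → k)
    (y : Fin (e + 1) → L) (hy : AlgebraicIndependent k y) (θ : L) (hθ : (evG y M).eval θ = 0)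
    (hmin : ∀ P : Polynomial (MvPolynomial (Fin (e + 1)) k), P ≠ 0 → P.natDegree < M.natDegree →
      (evG y P).eval θ ≠ 0) :
    Irreducible (blowM y₀ M) := by
  obtain ⟨h1, h2, h3, h4, h5, h6, -⟩ := blow_facts M hM y₀ y hy
  have ht := blow_last_ne y₀ y hy
  have hinj : Function.Injective (MvPolynomial.aeval (blowPt y₀ y) :
      MvPolynomial (Fin (e + 1)) k →ₐ[k] L) := h3
  -- a nonzero polynomial of small degree does not vanish at the new point
  have key : ∀ A : Polynomial (MvPolynomial (Fin (e + 1)) k), A ≠ 0 →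
      (evG (blowPt y₀ y) A).eval θ = 0 → M.natDegree ≤ A.natDegree := by
    intro A hA hA0
    by_contra hlt
    obtain ⟨n, P, hP, hPe⟩ := blow_denom_poly (L := L) y₀ y A
    have hA1 : evG (blowPt y₀ y) A ≠ 0 := by
      rw [evG]
      exact (Polynomial.map_ne_zero_iff hinj).2 hA
    have hP0 : P ≠ 0 := by
      rintro rfl
      rw [evG, Polynomial.map_zero] at hPe
      have := mul_ne_zero (Polynomial.C_ne_zero.2 (pow_ne_zero n ht)) hA1
      exact this hPe.symm
    apply hmin P hP0 (by omega)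
    rw [hPe, Polynomial.eval_mul, hA0, mul_zero]
  have hdeg : 0 < M.natDegree := by
    by_contra h
    have h0 : M.natDegree = 0 := by omega
    rw [hM.natDegree_eq_zero.1 h0] at hθ
    rw [evG, Polynomial.map_one, Polynomial.eval_one] at hθ
    exact one_ne_zero hθ
  have hunit : ∀ A B : Polynomial (MvPolynomial (Fin (e + 1)) k), blowM y₀ M = A * B →
      (evG (blowPt y₀ y) A).eval θ = 0 → IsUnit B := by
    intro A B hAB hA0
    have hAB0 : A * B ≠ 0 := hAB ▸ h1.ne_zero
    have hA := left_ne_zero_of_mul hAB0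
    have hB := right_ne_zero_of_mul hAB0
    have h7 := key A hA hA0
    have h8 : (blowM y₀ M).natDegree = A.natDegree + B.natDegree := by
      rw [hAB, Polynomial.natDegree_mul hA hB]
    have h9 : B.natDegree = 0 := by omega
    have h10 : A.leadingCoeff * B.leadingCoeff = 1 := by
      rw [← Polynomial.leadingCoeff_mul, ← hAB]
      exact h1
    rw [Polynomial.eq_C_of_natDegree_eq_zero h9]
    apply Polynomial.isUnit_C.2
    have h11 : B.leadingCoeff = B.coeff 0 := by rw [Polynomial.leadingCoeff, h9]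
    rw [← h11]
    exact IsUnit.of_mul_eq_one _ (by rw [mul_comm]; exact h10)
  refine ⟨?_, ?_⟩
  · intro hu
    have hd : (blowM y₀ M).natDegree = 0 := Polynomial.natDegree_eq_zero_of_isUnit hu
    omega
  · intro A B hAB
    have h7 : (evG (blowPt y₀ y) A).eval θ * (evG (blowPt y₀ y) B).eval θ = 0 := by
      rw [← Polynomial.eval_mul, evG, evG, ← Polynomial.map_mul, ← hAB]
      change (evG (blowPt y₀ y) (blowM y₀ M)).eval θ = 0
      rw [h5]
      exact hθ
    rcases mul_eq_zero.1 h7 with h | h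
    · right
      exact hunit A B hAB h
    · left
      exact hunit B A (by rw [hAB, mul_comm]) h

end Pool.Agent.TLW
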