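import Pool.Agent.TLW.Defs

set_option autoImplicit false

namespace Pool.Agent.TLW

open Polynomial Pool.Agent.LFZ

/-- finitely many elements of `k` lie in a finite subfield -/
theorem exists_finite_subfield {p : ℕ} [Fact p.Prime] (S : Set (AlgebraicClosure (ZMod p)))
    (hS : S.Finite) :
    ∃ (F : IntermediateField (ZMod p) (AlgebraicClosure (ZMod p))) (s : ℕ), Finite F ∧ 0 < s ∧
      Nat.card F = p ^ s ∧ S ⊆ F := by
  have : Finite S := hS
  have hfd : FiniteDimensional (ZMod p) (IntermediateField.adjoin (ZMod p) S) :=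
    IntermediateField.finiteDimensional_adjoin fun x _ =>
      Algebra.IsIntegral.isIntegral x
  refine ⟨IntermediateField.adjoin (ZMod p) S,
    Module.finrank (ZMod p) (IntermediateField.adjoin (ZMod p) S),
    Module.finite_of_finite (ZMod p), Module.finrank_pos, ?_, ?_⟩
  · rw [Module.natCard_eq_pow_finrank (K := ZMod p), Nat.card_zmod]
  · exact IntermediateField.subset_adjoin (ZMod p) S

/-- polynomials over `k` with coefficients in the subfield `F` come from `F` -/
theorem exists_descend {K k : Type} [Field K] [Field k] [Algebra K k]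
    (F : IntermediateField K k) {n : ℕ} (M : Polynomial (MvPolynomial (Fin n) k))
    (hM : ∀ i m, (M.coeff i).coeff m ∈ F) :
    ∃ M' : Polynomial (MvPolynomial (Fin n) F),
      M'.map (MvPolynomial.map (algebraMap F k)) = M ∧ M'.natDegree = M.natDegree ∧
      (M.Monic → M'.Monic) ∧ (M.Monic → Irreducible M → Irreducible M') := by
  have hinj : Function.Injective (MvPolynomial.map (σ := Fin n) (algebraMap F k)) :=
    MvPolynomial.map_injective _ (algebraMap F k).injective
  have h1 : M ∈ Polynomial.lifts (MvPolynomial.map (σ := Fin n) (algebraMap F k)) := by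
    rw [Polynomial.lifts_iff_coeff_lifts]
    intro i
    rw [MvPolynomial.mem_range_map_iff_coeffs_subset]
    intro c hc
    simp only [Finset.mem_coe, MvPolynomial.mem_coeffs_iff] at hc
    obtain ⟨m, -, rfl⟩ := hc
    exact ⟨⟨_, hM i m⟩, rfl⟩
  rw [Polynomial.mem_lifts] at h1
  obtain ⟨M', hM'⟩ := h1
  have hmon : M.Monic → M'.Monic := by
    intro h
    rw [← hM'] at h
    exact Polynomial.monic_of_injective hinj h
  refine ⟨M', hM', ?_, hmon, ?_⟩
  · rw [← hM', Polynomial.natDegree_map_eq_of_injective hinj]
  · intro h hirr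
    rw [← hM'] at hirr
    exact Polynomial.Monic.irreducible_of_irreducible_map _ _ (hmon h) hirr

end Pool.Agent.TLW
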