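import Pool.Agent.TLW.Defs
import Pool.Agent.LFZ.Deg3

set_option autoImplicit false

namespace Pool.Agent.TLW

open Polynomial Pool.Agent.LFZ

section

/-- a nonzero element divides a nonzero polynomial in `h` -/
theorem exists_avoid {p n : ℕ} [Fact p.Prime] {R₀ : Type} [CommRing R₀] [IsDomain R₀]
    [Algebra (ZMod p) R₀] (h : Fin n → R₀) (hh : AlgebraicIndependent (ZMod p) h)
    (halg : ∀ r : R₀, IsAlgebraic (Algebra.adjoin (ZMod p) (Set.range h)) r) (s : R₀)
    (hs : s ≠ 0) :
    ∃ (D : MvPolynomial (Fin n) (ZMod p)) (s' : R₀), D ≠ 0 ∧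
      MvPolynomial.aeval h D = s * s' := by
  obtain ⟨r, hr, hd⟩ := (halg s).exists_nonzero_dvd (mem_nonZeroDivisors_of_ne_zero hs)
  have hr' : (r : R₀) ∈ (MvPolynomial.aeval h :
      MvPolynomial (Fin n) (ZMod p) →ₐ[ZMod p] R₀).range := by
    rw [← Algebra.adjoin_range_eq_range_aeval]
    exact r.2
  obtain ⟨D, hD⟩ := hr'
  obtain ⟨s', hs'⟩ := hd
  refine ⟨D, s', ?_, ?_⟩
  · rintro rfl
    apply hr
    apply Subtype.ext
    rw [← hD]
    simp
  · rw [← hs']
    exact hD

/-- some Frobenius power is a simple root of a polynomial -/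
theorem claimC_sep {p : ℕ} [Fact p.Prime] {R₀ : Type} [CommRing R₀] [IsDomain R₀]
    [Algebra (ZMod p) R₀] (A₀ : Subalgebra (ZMod p) R₀) (r : R₀) (hr : IsAlgebraic A₀ r) :
    ∃ (m : ℕ) (S : Polynomial A₀), aeval (r ^ (p ^ m)) S = 0 ∧
      aeval (r ^ (p ^ m)) (derivative S) ≠ 0 := by
  classical
  have hp := (Fact.out : p.Prime)
  haveI : CharP A₀ p := charP_of_injective_algebraMap (algebraMap (ZMod p) A₀).injective p
  have hex : ∃ n : ℕ, ∃ (m : ℕ) (S : Polynomial A₀), S ≠ 0 ∧ aeval (r ^ (p ^ m)) S = 0 ∧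
      S.natDegree = n := by
    obtain ⟨S, hS0, hS⟩ := hr
    exact ⟨S.natDegree, 0, S, hS0, by rwa [pow_zero, pow_one], rfl⟩
  obtain ⟨m, S, hS0, hS1, hS2⟩ := Nat.find_spec hex
  have hmin := fun k (hk : k < Nat.find hex) => Nat.find_min hex hk
  refine ⟨m, S, hS1, ?_⟩
  intro hd
  have hpos : 0 < S.natDegree := by
    by_contra h0
    have h0' : S.natDegree = 0 := by omega
    rw [eq_C_of_natDegree_eq_zero h0', aeval_C] at hS1
    have : S.coeff 0 = 0 := by
      apply Subtype.ext
      simpa using hS1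
    apply hS0
    rw [eq_C_of_natDegree_eq_zero h0', this, C_0]
  by_cases hd0 : derivative S = 0
  · have he := expand_contract p hd0 hp.ne_zero
    have h1 : contract p S ≠ 0 := by
      intro h1
      rw [h1, map_zero] at he
      exact hS0 he.symm
    have h2 : (contract p S).natDegree * p = S.natDegree := by
      rw [← natDegree_expand, he]
    have h3 : (contract p S).natDegree < Nat.find hex := by
      rw [← hS2, ← h2]
      rw [← h2] at hpos
      have := hp.two_le
      have h4 : 0 < (contract p S).natDegree := Nat.pos_of_mul_pos_right hpos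
      nlinarith
    refine hmin _ h3 ⟨m + 1, contract p S, h1, ?_, rfl⟩
    rw [← he, expand_aeval] at hS1
    rwa [pow_succ, pow_mul]
  · refine hmin _ ?_ ⟨m, derivative S, hd0, hd, rfl⟩
    rw [← hS2]
    exact natDegree_derivative_lt hpos.ne'

theorem claimC_mem {p : ℕ} [Fact p.Prime] {R₀ E : Type} [CommRing R₀] [Field E]
    [Algebra (ZMod p) R₀] [Algebra (ZMod p) E] (ψ : R₀ →ₐ[ZMod p] E) (F : Subfield E)
    (T : Set R₀) (hT : ∀ t ∈ T, ψ t ∈ F) {c : R₀} (hc : c ∈ Algebra.adjoin (ZMod p) T) :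
    ψ c ∈ F := by
  induction hc using Algebra.adjoin_induction with
  | mem x hx => exact hT x hx
  | algebraMap r =>
    rw [AlgHom.commutes, ← ZMod.natCast_zmod_val r, map_natCast]
    exact natCast_mem F _
  | add x y _ _ hx hy => rw [map_add]; exact F.add_mem hx hy
  | mul x y _ _ hx hy => rw [map_mul]; exact F.mul_mem hx hy

theorem claimC {p e : ℕ} [Fact p.Prime] {R₀ : Type} [CommRing R₀] [IsDomain R₀]
    [Algebra (ZMod p) R₀] [Algebra.FiniteType (ZMod p) R₀] (f h : Fin (e + 1) → R₀)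
    (hf : AlgebraicIndependent (ZMod p) f) (hh : AlgebraicIndependent (ZMod p) h)
    (halg : ∀ r : R₀, IsAlgebraic (Algebra.adjoin (ZMod p) (Set.range h)) r) :
    ∃ (ν : ℕ) (D : MvPolynomial (Fin (e + 1)) (ZMod p)), D ≠ 0 ∧
      ∀ (k E : Type) [Field k] [IsAlgClosed k] [Field E] [Algebra k E] [Algebra (ZMod p) k]
        [Algebra (ZMod p) E] [IsScalarTower (ZMod p) k E] (ψ : R₀ →ₐ[ZMod p] E) (r : ℕ),
        ν ≤ r → IsFF k E → IntermediateField.adjoin k (Set.range ψ) = ⊤ →
        (∀ i, i ≠ Fin.last e → ψ (f i) = ψ (h i) ^ (p ^ r)) →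
        MvPolynomial.aeval (fun i => ψ (h i)) D ≠ 0 →
        ∀ z : E, ψ (f (Fin.last e)) ≠ z ^ (p ^ ν) := by
  classical
  have hp := (Fact.out : p.Prime)
  -- `R₀` is algebraic over the polynomials in `f`
  have hfalg : ∀ r : R₀, IsAlgebraic (Algebra.adjoin (ZMod p) (Set.range f)) r := by
    have hbh : IsTranscendenceBasis (ZMod p) h :=
      hh.isTranscendenceBasis_iff_isAlgebraic.mpr ⟨halg⟩
    have hbf : IsTranscendenceBasis (ZMod p) f :=
      hf.isTranscendenceBasis_of_trdeg_le_of_finite hbh.cardinalMk_eq_trdeg.symm.le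
    exact (hf.isTranscendenceBasis_iff_isAlgebraic.mp hbf).1
  choose m S hS1 hS2 using fun r : R₀ =>
    claimC_sep (Algebra.adjoin (ZMod p) (Set.range f)) r (hfalg r)
  choose Dr s' hDr hs' using fun r : R₀ => exists_avoid h hh halg _ (hS2 r)
  obtain ⟨T, hT⟩ := (inferInstance : Algebra.FiniteType (ZMod p) R₀).out
  refine ⟨T.sup m + 1, ∏ r ∈ T, Dr r, Finset.prod_ne_zero_iff.mpr fun r _ => hDr r, ?_⟩
  intro k E _ _ _ _ _ _ _ ψ r hr hFF hadj hfh hD z hz
  set ν : ℕ := T.sup m + 1 with hν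
  haveI : CharP E p := charP_of_injective_algebraMap (algebraMap (ZMod p) E).injective p
  haveI : CharP k p := charP_of_injective_algebraMap (algebraMap (ZMod p) k).injective p
  haveI : ExpChar E p := ExpChar.prime hp
  set F : Subfield E := (iterateFrobenius E p ν).fieldRange with hF
  have hFmem : ∀ x : E, x ^ (p ^ ν) ∈ F := fun x => ⟨x, iterateFrobenius_def p ν x⟩
  have hfF : ∀ i, ψ (f i) ∈ F := by
    intro i
    by_cases hi : i = Fin.last e
    · rw [hi, hz]
      exact hFmem z
    · rw [hfh i hi]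
      have : p ^ r = p ^ (r - ν) * p ^ ν := by
        rw [← pow_add]
        congr 1
        omega
      rw [this, pow_mul]
      exact hFmem _
  have hAF : ∀ c : Algebra.adjoin (ZMod p) (Set.range f), ψ c ∈ F := fun c =>
    claimC_mem ψ F (Set.range f) (by rintro _ ⟨i, rfl⟩; exact hfF i) c.2
  have hPI : IsPurelyInseparable F E := by
    rw [isPurelyInseparable_iff_pow_mem F p]
    intro x
    exact ⟨ν, ⟨⟨_, hFmem x⟩, rfl⟩⟩
  let g : Algebra.adjoin (ZMod p) (Set.range f) →+* F :=
    ((ψ : R₀ →+* E).comp (algebraMap (Algebra.adjoin (ZMod p) (Set.range f)) R₀)).codRestrict F hAF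
  have hg : ∀ (P : Polynomial (Algebra.adjoin (ZMod p) (Set.range f))) (a : R₀),
      aeval (ψ a) (P.map g) = ψ (aeval a P) := by
    intro P a
    rw [aeval_def, eval₂_map, aeval_def, ← AlgHom.coe_toRingHom, hom_eval₂]
    rfl
  -- every generator is a `p`-th power
  have hgen : ∀ t ∈ T, ψ t ∈ (frobenius E p).fieldRange := by
    intro t ht
    have hmν : m t < ν := Nat.lt_succ_of_le (Finset.le_sup ht)
    have h1 : aeval (ψ (t ^ (p ^ m t))) ((S t).map g) = 0 := by
      rw [hg, hS1, map_zero]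
    have hne : ψ (aeval (t ^ (p ^ m t)) (derivative (S t))) ≠ 0 := by
      intro h0
      apply hD
      have h2 : MvPolynomial.aeval (fun i => ψ (h i)) (Dr t) = 0 := by
        have h3 : MvPolynomial.aeval (fun i => ψ (h i)) (Dr t) =
            ψ (MvPolynomial.aeval h (Dr t)) := (MvPolynomial.comp_aeval_apply h ψ (Dr t)).symm
        rw [h3, hs' t, map_mul, h0, zero_mul]
      rw [map_prod]
      exact Finset.prod_eq_zero ht h2
    have h2 : aeval (ψ (t ^ (p ^ m t))) (derivative ((S t).map g)) ≠ 0 := by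
      rw [derivative_map, hg]
      exact hne
    set a : E := ψ (t ^ (p ^ m t)) with ha
    have hint : IsIntegral F a := hPI.isIntegral.1 a
    have hsep : IsSeparable F a := by
      rw [IsSeparable, separable_iff_derivative_ne_zero (minpoly.irreducible hint)]
      intro h0
      obtain ⟨q, hq⟩ := minpoly.dvd F a h1
      apply h2
      rw [hq, derivative_mul, h0, zero_mul, zero_add, map_mul, minpoly.aeval, zero_mul]
    obtain ⟨w, hw⟩ := IsPurelyInseparable.inseparable F a hsep
    obtain ⟨w', hw'⟩ := w.2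
    have h3 : ψ t ^ (p ^ m t) = w' ^ (p ^ ν) := by
      rw [← map_pow, ← ha, ← hw, ← iterateFrobenius_def p ν w', hw']
      rfl
    have h4 : p ^ ν = p ^ (ν - m t) * p ^ m t := by
      rw [← pow_add]
      congr 1
      omega
    rw [h4, pow_mul] at h3
    have h5 : ψ t = w' ^ (p ^ (ν - m t)) := by
      apply (iterateFrobenius E p (m t)).injective
      rw [iterateFrobenius_def, iterateFrobenius_def]
      exact h3
    have h6 : p ^ (ν - m t) = p ^ (ν - m t - 1) * p := by
      rw [← pow_succ]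
      congr 1
      omega
    refine ⟨w' ^ (p ^ (ν - m t - 1)), ?_⟩
    rw [frobenius_def, ← pow_mul, ← h6, ← h5]
  have hrange : ∀ c : R₀, ψ c ∈ (frobenius E p).fieldRange := by
    intro c
    refine claimC_mem ψ _ (T : Set R₀) hgen ?_
    rw [hT]
    trivial
  have hk : ∀ c : k, algebraMap k E c ∈ (frobenius E p).fieldRange := by
    intro c
    obtain ⟨d, hd⟩ := IsAlgClosed.exists_pow_nat_eq c hp.pos
    exact ⟨algebraMap k E d, by rw [frobenius_def, ← map_pow, hd]⟩
  have hall : ∀ x : E, ∃ y : E, y ^ p = x := by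
    intro x
    have hx : x ∈ IntermediateField.adjoin k (Set.range ψ) := by rw [hadj]; trivial
    have hle : IntermediateField.adjoin k (Set.range ψ) ≤
        (frobenius E p).fieldRange.toIntermediateField hk := by
      rw [IntermediateField.adjoin_le_iff]
      rintro _ ⟨c, rfl⟩
      exact hrange c
    obtain ⟨y, hy⟩ := hle hx
    exact ⟨y, by rw [← hy, frobenius_def]⟩
  have hall' : ∀ (j : ℕ) (x : E), ∃ y : E, y ^ (p ^ j) = x := by
    intro j
    induction j with
    | zero => exact fun x => ⟨x, by simp⟩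
    | succ j ih =>
      intro x
      obtain ⟨y, hy⟩ := ih x
      obtain ⟨w, hw⟩ := hall y
      exact ⟨w, by rw [pow_succ', pow_mul, hw, hy]⟩
  obtain ⟨z₀, hz₀, _⟩ := id hFF
  have hpos := dg_pos hFF hz₀
  obtain ⟨y, hy⟩ := hall' (dg k E z₀) z₀
  have h1 := dg_pow hFF y (m := p ^ dg k E z₀) (pow_ne_zero _ hp.ne_zero)
  rw [hy] at h1
  have h2 : dg k E z₀ < p ^ dg k E z₀ := Nat.lt_pow_self hp.one_lt
  have h3 : 0 < dg k E y := by
    rcases Nat.eq_zero_or_pos (dg k E y) with h0 | h0
    · rw [h0, mul_zero] at h1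
      omega
    · exact h0
  nlinarith

end

end Pool.Agent.TLW
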