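import Pool.Agent.TLW.Defs
import Pool.Agent.LFZ.Deg3
import Pool.Agent.LFZ.CoreLem

set_option autoImplicit false

namespace Pool.Agent.TLW

open Polynomial Pool.Agent.LFZ

section

theorem contra_prod {δ : ℕ} {k E : Type} [Field k] [Field E] [Algebra k E] {g : E}
    {W : Subalgebra k E} (hg : g ∈ W) (om : Fin δ → E) (hom : ∀ i, om i ∈ W) (i0 : Fin δ)
    (Φ : Fin δ → E) (hΦ : ∀ i, i ≠ i0 → ∃ w ∈ W, ∃ w' ∈ W, Φ i = g * w + om i * w')
    (s : Finset (Fin δ)) :
    (∀ i ∈ s, i ≠ i0) → ∃ w ∈ W, ∃ w' ∈ W, ∏ i ∈ s, Φ i = g * w + (∏ i ∈ s, om i) * w' := by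
  classical
  induction s using Finset.induction_on with
  | empty =>
    intro _
    exact ⟨0, W.zero_mem, 1, W.one_mem, by simp⟩
  | insert a s ha ih =>
    intro hs
    obtain ⟨w, hw, w', hw', h⟩ := ih (fun i hi => hs i (Finset.mem_insert_of_mem hi))
    obtain ⟨v, hv, v', hv', h'⟩ := hΦ a (hs a (Finset.mem_insert_self a s))
    have hPW : ∏ i ∈ s, om i ∈ W := W.prod_mem fun i _ => hom i
    refine ⟨v * (g * w + (∏ i ∈ s, om i) * w') + om a * v' * w, ?_, v' * w', W.mul_mem hv' hw', ?_⟩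
    · exact W.add_mem (W.mul_mem hv (W.add_mem (W.mul_mem hg hw) (W.mul_mem hPW hw')))
        (W.mul_mem (W.mul_mem (hom a) hv') hw)
    · rw [Finset.prod_insert ha, Finset.prod_insert ha, h, h']
      ring

theorem contra {δ : ℕ} {k E : Type} [Field k] [Infinite k] [Field E] [Algebra k E]
    (hE : IsFF k E) {g : E} {W : Subalgebra k E} (hW : IsW k g W) (om : Fin δ → E)
    (hom : ∀ i, om i ∈ W) (hprod : ∃ w ∈ W, ∏ i, om i = g * w) (i0 : Fin δ) (y0 : E)
    (hy0 : y0 ∈ W) (hnil : ∃ m : ℕ, ∃ w ∈ W, ∃ w' ∈ W, y0 ^ m = g * w + om i0 * w')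
    (Φ : Fin δ → E) (hΦ : ∀ i, i ≠ i0 → Φ i ≠ 0 ∧ Φ i ∈ W ∧
      ∃ w ∈ W, ∃ w' ∈ W, Φ i = g * w + om i * w')
    (N0 : ℕ) (hN0 : dg k E g ≤ N0) (yK : E) (hyK : yK ∈ W) (hyK0 : yK ≠ 0)
    (hyKe : ∃ w ∈ W, ∃ w' ∈ W, yK = w * y0 ^ N0 + g * w') :
    dg k E g ≤ dg k E yK + ∑ i ∈ Finset.univ.erase i0, dg k E (Φ i) := by
  classical
  set P : E := ∏ i ∈ Finset.univ.erase i0, Φ i with hP
  have hPW : P ∈ W := W.prod_mem fun i hi => (hΦ i (Finset.ne_of_mem_erase hi)).2.1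
  obtain ⟨hgW, hfin, hrank, -⟩ := id hW
  -- `om i0 * P ∈ g W`
  have homP : ∃ v ∈ W, om i0 * P = g * v := by
    obtain ⟨w, hw, w', hw', h⟩ := contra_prod hgW om hom i0 Φ (fun i hi => (hΦ i hi).2.2)
      (Finset.univ.erase i0) (fun i hi => Finset.ne_of_mem_erase hi)
    obtain ⟨v, hv, hv'⟩ := hprod
    refine ⟨om i0 * w + v * w', W.add_mem (W.mul_mem (hom i0) hw) (W.mul_mem hv hw'), ?_⟩
    have h1 : om i0 * ∏ i ∈ Finset.univ.erase i0, om i = g * v := by
      rw [Finset.mul_prod_erase Finset.univ om (Finset.mem_univ i0)]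
      exact hv'
    rw [hP, h, mul_add]
    calc om i0 * (g * w) + om i0 * ((∏ i ∈ Finset.univ.erase i0, om i) * w')
        = om i0 * (g * w) + (om i0 * ∏ i ∈ Finset.univ.erase i0, om i) * w' := by ring
      _ = _ := by rw [h1]; ring
  -- the ideal `J`
  let J : Ideal W :=
    { carrier := {w | ∃ v ∈ W, (w : E) * P = g * v}
      add_mem' := by
        rintro a b ⟨v, hv, h⟩ ⟨v', hv', h'⟩
        refine ⟨v + v', W.add_mem hv hv', ?_⟩
        push_cast
        rw [add_mul, h, h']; ring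
      zero_mem' := ⟨0, W.zero_mem, by simp⟩
      smul_mem' := by
        rintro c a ⟨v, hv, h⟩
        refine ⟨(c : E) * v, W.mul_mem c.2 hv, ?_⟩
        rw [smul_eq_mul]
        push_cast
        rw [mul_assoc, h]; ring }
  have hJ : ∀ w : W, w ∈ J ↔ ∃ v ∈ W, (w : E) * P = g * v := fun w => Iff.rfl
  set I : Ideal W := Ideal.span {(⟨g, hgW⟩ : W)} with hI
  have hIJ : I ≤ J := by
    rw [hI, Ideal.span_singleton_le_iff_mem, hJ]
    exact ⟨P, hPW, rfl⟩
  have homJ : (⟨om i0, hom i0⟩ : W) ∈ J := (hJ _).2 homP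
  let fac : (W ⧸ I) →ₗ[k] (W ⧸ J) := (Ideal.Quotient.factorₐ k hIJ).toLinearMap
  have hsurj : Function.Surjective fac := Ideal.Quotient.factor_surjective hIJ
  have : Module.Finite k (W ⧸ I) := hfin
  have : Module.Finite k (W ⧸ J) := Module.Finite.of_surjective fac hsurj
  have hle : Module.finrank k (W ⧸ J) ≤ N0 := by
    refine (LinearMap.finrank_le_finrank_of_surjective hsurj).trans ?_
    rw [hrank]
    exact hN0
  have hyJ : (⟨y0, hy0⟩ : W) ^ N0 ∈ J := by
    have h1 : IsNilpotent (Ideal.Quotient.mk J (⟨y0, hy0⟩ : W)) := by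
      obtain ⟨m, w, hw, w', hw', h⟩ := hnil
      refine ⟨m, ?_⟩
      rw [← map_pow, Ideal.Quotient.eq_zero_iff_mem]
      have h2 : (⟨y0, hy0⟩ : W) ^ m = (⟨w, hw⟩ : W) * ⟨g, hgW⟩ + (⟨w', hw'⟩ : W) * ⟨om i0, hom i0⟩ := by
        apply Subtype.ext
        push_cast
        rw [h]; ring
      rw [h2]
      exact J.add_mem (J.mul_mem_left _ (hIJ (Ideal.mem_span_singleton_self _)))
        (J.mul_mem_left _ homJ)
    have h2 := pow_finrank_of_nilpotent (κ := k) h1 hle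
    rwa [← map_pow, Ideal.Quotient.eq_zero_iff_mem] at h2
  obtain ⟨v, hv, hyv⟩ := (hJ _).1 hyJ
  have hyv' : y0 ^ N0 * P = g * v := by simpa using hyv
  obtain ⟨w, hw, w', hw', hK⟩ := hyKe
  -- conclusion
  have hfinal := hW.dg_le hE (Finset.univ : Finset (Fin δ))
    (fun i => if i = i0 then yK else Φ i)
    (by
      intro i _
      by_cases hi : i = i0
      · simp only [hi, if_true]
        exact ⟨hyK, hyK0⟩
      · simp only [hi, if_false]
        exact ⟨(hΦ i hi).2.1, (hΦ i hi).1⟩)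
    (by
      refine ⟨w * v + w' * P, W.add_mem (W.mul_mem hw hv) (W.mul_mem hw' hPW), ?_⟩
      rw [← Finset.mul_prod_erase Finset.univ _ (Finset.mem_univ i0)]
      have h1 : ∏ x ∈ Finset.univ.erase i0, (if x = i0 then yK else Φ x) = P := by
        rw [hP]
        refine Finset.prod_congr rfl fun i hi => ?_
        rw [if_neg (Finset.ne_of_mem_erase hi)]
      simp only [if_true]
      rw [h1, hK]
      calc (w * y0 ^ N0 + g * w') * P = w * (y0 ^ N0 * P) + g * (w' * P) := by ring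
        _ = _ := by rw [hyv']; ring)
  rw [← Finset.add_sum_erase Finset.univ _ (Finset.mem_univ i0)] at hfinal
  have h1 : ∑ x ∈ Finset.univ.erase i0, dg k E (if x = i0 then yK else Φ x)
      = ∑ i ∈ Finset.univ.erase i0, dg k E (Φ i) := by
    refine Finset.sum_congr rfl fun i hi => ?_
    rw [if_neg (Finset.ne_of_mem_erase hi)]
  simp only [if_true] at hfinal
  rwa [h1] at hfinal

end

end Pool.Agent.TLW
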