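import Pool.Agent.TLW.Defs
import Pool.Agent.LFZ.Rel
import Pool.Agent.LFZ.Wring

set_option autoImplicit false

namespace Pool.Agent.TLW

open Polynomial Pool.Agent.LFZ

/-- nonzero polynomials over a finite field do not vanish at algebraically independent elements -/
theorem last_aeval_ne_zero {p n : ℕ} [Fact p.Prime] {𝔽 R₁ : Type} [Field 𝔽] [Finite 𝔽]
    [CommRing R₁] [IsDomain R₁] [Algebra (ZMod p) R₁] [Algebra 𝔽 R₁] (h : Fin n → R₁)
    (hh : AlgebraicIndependent (ZMod p) h) (G : MvPolynomial (Fin n) 𝔽) (hG : G ≠ 0) :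
    MvPolynomial.aeval h G ≠ 0 := by
  have : CharP R₁ p := charP_of_injective_algebraMap (algebraMap (ZMod p) R₁).injective p
  have : CharP 𝔽 p := (RingHom.charP_iff (algebraMap 𝔽 R₁) (algebraMap 𝔽 R₁).injective p).2
    inferInstance
  let : Algebra (ZMod p) 𝔽 := ZMod.algebra 𝔽 p
  have : IsScalarTower (ZMod p) 𝔽 R₁ := IsScalarTower.of_algebraMap_eq' (Subsingleton.elim _ _)
  have : Module.Finite (ZMod p) 𝔽 := Module.Finite.of_finite
  have : Algebra.IsAlgebraic (ZMod p) 𝔽 := Algebra.IsAlgebraic.of_finite _ _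
  have h1 : AlgebraicIndependent 𝔽 h := hh.extendScalars 𝔽
  intro h0
  exact hG (h1 (by rw [h0, map_zero]))

/-- the image of a finite field in `E` is contained in `k` -/
theorem last_embed {k 𝔽 E : Type} [Field k] [IsAlgClosed k] [Field 𝔽] [Finite 𝔽] [Field E]
    [Algebra k E] (j : 𝔽 →+* E) : ∃ i : 𝔽 →+* k, ∀ c, algebraMap k E (i c) = j c := by
  have hex : ∀ c : 𝔽, j c ∈ (algebraMap k E).range := by
    intro c
    have hfin : ∃ n : ℕ, 1 < n ∧ c ^ n = c := by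
      have := Fintype.ofFinite 𝔽
      exact ⟨Fintype.card 𝔽, Fintype.one_lt_card, FiniteField.pow_card c⟩
    obtain ⟨n, hn, hc⟩ := hfin
    have hint : IsIntegral k (j c) := by
      refine ⟨X ^ n - X, monic_X_pow_sub (by rw [degree_X]; exact_mod_cast hn), ?_⟩
      rw [eval₂_sub, eval₂_X_pow, eval₂_X, ← map_pow, hc, sub_self]
    have h : (minpoly k (j c)).degree = 1 :=
      IsAlgClosed.degree_eq_one_of_irreducible k (minpoly.irreducible hint)
    exact minpoly.mem_range_of_degree_eq_one k _ h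
  let e : k ≃+* (algebraMap k E).range :=
    RingEquiv.ofBijective (algebraMap k E).rangeRestrict
      ⟨fun a b hab => (algebraMap k E).injective (congrArg Subtype.val hab),
        (algebraMap k E).rangeRestrict_surjective⟩
  refine ⟨(e.symm : (algebraMap k E).range →+* k).comp (j.codRestrict _ hex), fun c => ?_⟩
  have h1 : e (e.symm (j.codRestrict (algebraMap k E).range hex c)) =
    j.codRestrict (algebraMap k E).range hex c := e.apply_symm_apply _
  exact congrArg Subtype.val h1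


/-- heights at the last stage -/
theorem last_heights {e : ℕ} {k E : Type} [Field k] [Infinite k] [Field E] [Algebra k E]
    (hE : IsFF k E) (x φ : Fin (e + 1) → E) (Q C₁ : ℕ) (hQ : 2 * e * C₁ + 2 * C₁ + 1 ≤ Q)
    (hfrob : ∀ i, i ≠ Fin.last e → φ i = x i ^ Q)
    (hφ : ∀ i, dg k E (φ i) ≤ C₁ * ∑ i, dg k E (x i))
    (ht : Transcendental k (x (Fin.last e))) :
    ∑ i, dg k E (x i) ≤ 2 * dg k E (x (Fin.last e)) ∧
    Q * ∑ j, dg k E (lt x j) ≤ 2 * e * C₁ * dg k E (x (Fin.last e)) ∧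
    Q * dg k E (x (Fin.last e)) ≤ 2 * C₁ * dg k E (x (Fin.last e)) + dg k E (gg Q x φ) ∧
    dg k E (gg Q x φ) ≤ 2 * Q * dg k E (x (Fin.last e)) ∧
    Transcendental k (gg Q x φ) := by
  set N := dg k E (x (Fin.last e)) with hN
  set H := ∑ i, dg k E (x i) with hH
  have hNpos : 0 < N := dg_pos hE ht
  have hQ0 : Q ≠ 0 := by omega
  have hHs : H = ∑ j, dg k E (lt x j) + N := by
    rw [hH, Fin.sum_univ_castSucc]
    rfl
  have hlt : Q * ∑ j, dg k E (lt x j) ≤ e * (C₁ * H) := by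
    rw [Finset.mul_sum]
    calc ∑ j, Q * dg k E (lt x j) ≤ ∑ _j : Fin e, C₁ * H := by
          refine Finset.sum_le_sum fun j _ => ?_
          have h1 := hφ j.castSucc
          rw [hfrob j.castSucc (Fin.castSucc_lt_last j).ne, dg_pow hE _ hQ0] at h1
          exact h1
      _ = e * (C₁ * H) := by simp
  have hH2 : H ≤ 2 * N := by
    have h1 : Q * H ≤ e * (C₁ * H) + Q * N := by
      calc Q * H = Q * ∑ j, dg k E (lt x j) + Q * N := by rw [hHs, mul_add]
        _ ≤ _ := Nat.add_le_add_right hlt _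
    have h2 : 2 * (e * (C₁ * H)) ≤ Q * H := by
      calc 2 * (e * (C₁ * H)) = (2 * e * C₁) * H := by ring
        _ ≤ Q * H := Nat.mul_le_mul_right _ (by omega)
    have h4 : Q * H ≤ Q * (2 * N) := by
      calc Q * H ≤ 2 * (Q * N) := by omega
        _ = Q * (2 * N) := by ring
    exact Nat.le_of_mul_le_mul_left h4 (Nat.pos_of_ne_zero hQ0)
  have hφe : dg k E (φ (Fin.last e)) ≤ 2 * C₁ * N := by
    calc dg k E (φ (Fin.last e)) ≤ C₁ * H := hφ _
      _ ≤ C₁ * (2 * N) := Nat.mul_le_mul_left _ hH2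
      _ = _ := by ring
  have hg1 : Q * N ≤ 2 * C₁ * N + dg k E (gg Q x φ) := by
    have h1 : x (Fin.last e) ^ Q = φ (Fin.last e) + (-(gg Q x φ)) := by rw [gg]; ring
    rw [hN, ← dg_pow hE _ hQ0, h1]
    refine (dg_add_le hE _ _).trans ?_
    rw [dg_neg]
    exact Nat.add_le_add_right hφe _
  have hg2 : dg k E (gg Q x φ) ≤ 2 * Q * N := by
    have h1 : gg Q x φ = φ (Fin.last e) + -(x (Fin.last e) ^ Q) := by rw [gg]; ring
    rw [h1]
    refine (dg_add_le hE _ _).trans ?_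
    rw [dg_neg, dg_pow hE _ hQ0]
    have h2 : 2 * C₁ * N ≤ Q * N := Nat.mul_le_mul_right N (by omega)
    calc dg k E (φ (Fin.last e)) + Q * N ≤ 2 * C₁ * N + Q * N := Nat.add_le_add_right hφe _
      _ ≤ Q * N + Q * N := Nat.add_le_add_right h2 _
      _ = _ := by ring
  refine ⟨hH2, ?_, hg1, hg2, ?_⟩
  · calc Q * ∑ j, dg k E (lt x j) ≤ e * (C₁ * H) := hlt
      _ ≤ e * (C₁ * (2 * N)) := Nat.mul_le_mul_left _ (Nat.mul_le_mul_left _ hH2)
      _ = _ := by ring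
  · intro hc
    rw [dg_eq_zero_of_isAlgebraic hc, add_zero] at hg1
    have h1 : (2 * C₁ + 1) * N ≤ Q * N := Nat.mul_le_mul_right _ (by omega)
    have h2 : (2 * C₁ + 1) * N = 2 * C₁ * N + N := by ring
    omega

/-- the final arithmetic -/
theorem last_arith (δ C₁ C6 C7 Q N dgg dK sΦ : ℕ) (hN : 0 < N) (hδ : 1 ≤ δ)
    (h1 : Q * N ≤ 2 * C₁ * N + dgg) (h2 : dgg ≤ dK + sΦ) (h3 : dK ≤ C7 * (2 * N))
    (h4 : 2 * δ ^ 2 * sΦ ≤ (δ - 1) * (((2 * δ + 1) * Q + C6) * N))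
    (hQ : 2 * δ ^ 2 * (2 * C₁ + 2 * C7) + δ * C6 + 1 ≤ Q) : False := by
  obtain ⟨d, rfl⟩ : ∃ d, δ = d + 1 := ⟨δ - 1, by omega⟩
  rw [Nat.add_sub_cancel] at h4
  have h5 : 2 * (d + 1) ^ 2 * (Q * N) ≤
      2 * (d + 1) ^ 2 * (2 * C₁ * N + C7 * (2 * N)) + d * (((2 * (d + 1) + 1) * Q + C6) * N) := by
    calc 2 * (d + 1) ^ 2 * (Q * N) ≤ 2 * (d + 1) ^ 2 * (2 * C₁ * N + (C7 * (2 * N) + sΦ)) :=
          Nat.mul_le_mul_left _ (by omega)
      _ = 2 * (d + 1) ^ 2 * (2 * C₁ * N + C7 * (2 * N)) + 2 * (d + 1) ^ 2 * sΦ := by ring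
      _ ≤ _ := Nat.add_le_add_left h4 _
  have h6 : ((d + 2) * Q) * N ≤ (2 * (d + 1) ^ 2 * (2 * C₁ + 2 * C7) + d * C6) * N := by
    have h7 : 2 * (d + 1) ^ 2 * (Q * N) = ((d + 2) * Q) * N + d * (2 * (d + 1) + 1) * Q * N := by
      ring
    have h8 : 2 * (d + 1) ^ 2 * (2 * C₁ * N + C7 * (2 * N)) +
        d * (((2 * (d + 1) + 1) * Q + C6) * N) =
        (2 * (d + 1) ^ 2 * (2 * C₁ + 2 * C7) + d * C6) * N + d * (2 * (d + 1) + 1) * Q * N := by
      ring
    omega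
  have h9 := Nat.le_of_mul_le_mul_right h6 hN
  have h10 : Q ≤ (d + 2) * Q := Nat.le_mul_of_pos_left _ (by omega)
  have h11 : d * C6 ≤ (d + 1) * C6 := Nat.mul_le_mul_right _ (by omega)
  omega

end Pool.Agent.TLW
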