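import Pool.Agent.TLW.SStage
import Pool.Agent.LFZ.Levels
import Pool.Agent.LFZ.Nonvan
import Pool.Agent.LFZ.Deg3
import Pool.Agent.LFZ.CoreLem
import Pool.Agent.LFZ.StepQuot

set_option autoImplicit false

namespace Pool.Agent.TLW

open Polynomial Pool.Agent.LFZ

section

theorem levK_dg_pow_le {κ E : Type} [Field κ] [Field E] [Algebra κ E] [Infinite κ]
    (hE : IsFF κ E) (x : E) (m : ℕ) : dg κ E (x ^ m) ≤ m * dg κ E x := by
  rcases Nat.eq_zero_or_pos m with rfl | hm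
  · rw [pow_zero, Nat.zero_mul]
    exact (dg_eq_zero_of_isAlgebraic isAlgebraic_one).le
  · exact (dg_pow hE x hm.ne').le

theorem levK_filter_prod {e : ℕ} {E : Type} [Field E] (F : Fin (e + 1) → E) :
    (∏ i : Fin (e + 1) with i.val ≤ (Fin.last e).val, F i) = ∏ i, F i := by
  apply Finset.prod_subset (Finset.filter_subset _ _)
  intro i _ hi
  exfalso
  apply hi
  rw [Finset.mem_filter]
  exact ⟨Finset.mem_univ _, Fin.le_last i⟩

theorem exists_yK {p e : ℕ} [Fact p.Prime] {R₀ : Type} [CommRing R₀] [IsDomain R₀]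
    [Algebra (ZMod p) R₀] (f h : Fin (e + 1) → R₀)
    (hf : AlgebraicIndependent (ZMod p) f) (hh : AlgebraicIndependent (ZMod p) h)
    (halg : ∀ r : R₀, IsAlgebraic (Algebra.adjoin (ZMod p) (Set.range h)) r)
    (hC1 : ∃ (C₁ : ℕ) (D₁ : MvPolynomial (Fin (e + 1)) (ZMod p)), D₁ ≠ 0 ∧
      ∀ (κ E : Type) [Field κ] [Infinite κ] [Field E] [Algebra κ E] [Algebra (ZMod p) κ]
        [Algebra (ZMod p) E] [IsScalarTower (ZMod p) κ E] (ψ : R₀ →ₐ[ZMod p] E), IsFF κ E →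
        MvPolynomial.aeval (fun i => ψ (h i)) D₁ ≠ 0 →
        ∀ i, dg κ E (ψ (f i)) ≤ C₁ * ∑ i', dg κ E (ψ (h i')))
    (DD : MvPolynomial (Fin (e + 1)) (ZMod p)) (hDD : DD ≠ 0) (K : ℕ) :
    ∃ (Bs : MvPolynomial (Fin (e + 1)) (ZMod p)) (C C7 : ℕ), Bs ≠ 0 ∧
      ∀ (k E : Type) [Field k] [Infinite k] [Field E] [Algebra k E] [Algebra (ZMod p) k]
        [Algebra (ZMod p) E] [IsScalarTower (ZMod p) k E] (ψ : R₀ →ₐ[ZMod p] E) (r : ℕ)
        (T : Set k), C ≤ p ^ r → T.Finite → IsFF k E →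
        MvPolynomial.aeval (fun i => ψ (h i)) Bs ≠ 0 →
        Transcendental k (ψ (h (Fin.last e))) →
        (∀ i, i ≠ Fin.last e → ψ (f i) = ψ (h i) ^ (p ^ r)) →
        ∃ β : ℕ → k, (∀ l, β l ∉ T) ∧ ∀ W : Subalgebra k E,
          IsW k (gg (p ^ r) (fun i => ψ (h i)) (fun i => ψ (f i))) W →
          (∀ l ≤ K, ∀ i, ψ (h i) ≠ algebraMap k E (β l) ∧
            (ψ (h i) - algebraMap k E (β l))⁻¹ ∈ W) →
          ∃ yK ∈ W, yK ≠ 0 ∧ dg k E yK ≤ C7 * ∑ i, dg k E (ψ (h i)) ∧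
            ∃ w ∈ W, ∃ w' ∈ W, yK = w *
              (uP (fun i => ψ (h i)) (algebraMap k E (β 0)) ^ (DD.totalDegree + 1) *
                MvPolynomial.aeval (fun i => ψ (h i)) DD) ^ ((p ^ r) ^ K) +
              gg (p ^ r) (fun i => ψ (h i)) (fun i => ψ (f i)) * w' := by
  classical
  obtain ⟨C₁, D₁, hD₁, hC₁⟩ := hC1
  obtain ⟨B, a, hB, hlev⟩ := levels f h hf hh halg (Fin.last e) DD hDD (DD.totalDegree + 1)
    (Nat.le_succ _) K
  obtain ⟨Bs, CN, hBs, hnon⟩ := nonvanish C₁ (Fin.last e) K B hB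
  refine ⟨Bs * D₁, CN + 1, a + mvC B, mul_ne_zero hBs hD₁, ?_⟩
  intro k E _ _ _ _ _ _ _ ψ r T hC hT hE hBx htr hfi
  set x : Fin (e + 1) → E := fun i => ψ (h i) with hx
  rw [map_mul] at hBx
  have hBsx := left_ne_zero_of_mul hBx
  have hD₁x := right_ne_zero_of_mul hBx
  have hQpos : 0 < p ^ r := pow_pos (Fact.out : p.Prime).pos _
  obtain ⟨hind, hfin⟩ := last_facts hE x htr
  obtain ⟨β, hβT, hβB⟩ := hnon k E x r T (by omega) hT hBsx hind hfin
    (fun l hl i hi => by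
      obtain ⟨hEl, -, -⟩ := fieldOf_facts (k := k) x
        {i : Fin (e + 1) | (Fin.last e).val ≤ i.val} hind hfin l hl
      have : Infinite (fieldOf k x ({i : Fin (e + 1) | (Fin.last e).val ≤ i.val} \ {l})) :=
        Infinite.of_injective (algebraMap k _) (algebraMap k _).injective
      have hine : i ≠ Fin.last e := by
        intro h0
        rw [h0] at hi
        exact lt_irrefl _ hi
      rw [← dg_pow hEl (x i) hQpos.ne']
      have h1 := hfi i hine
      have h2 : x i ^ p ^ r = ψ (f i) := h1.symm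
      rw [h2]
      exact hC₁ _ E ψ hEl hD₁x i)
  refine ⟨β, hβT, ?_⟩
  intro W hW hWβ
  set β' : ℕ → E := fun l => algebraMap k E (β l) with hβ'
  set g : E := gg (p ^ r) x (fun i => ψ (f i)) with hg
  have hgW : g ∈ W := hW.choose
  obtain ⟨hyK, w, hw, w', hw', hyKe⟩ := hlev E ψ r β' W.toSubring g hgW
    (fun v hv => hW.inv_mem hv) (fun i hi => hfi i (by
        intro h0
        rw [h0] at hi
        exact lt_irrefl _ hi))
    (by
      rw [hg, gg, hx]
      ring)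
    (fun l hl i _ => hWβ l hl i) (fun l => W.algebraMap_mem _)
    (fun k' hk' => absurd (Fin.le_last k') (not_le.mpr hk'))
  rw [levK_filter_prod] at hyK hyKe
  rw [levK_filter_prod] at hyKe
  refine ⟨_, hyK, ?_, ?_, w, hw, w', hw', hyKe⟩
  · refine mul_ne_zero (pow_ne_zero _ ?_) hβB
    rw [Finset.prod_ne_zero_iff]
    intro i _
    exact inv_ne_zero (sub_ne_zero.2 (hWβ K le_rfl i).1)
  · have h2 : dg k E (∏ i, (ψ (h i) - β' K)⁻¹) ≤ ∑ i, dg k E (x i) := by
      calc dg k E (∏ i, (ψ (h i) - β' K)⁻¹) ≤ ∑ i, dg k E (ψ (h i) - β' K)⁻¹ :=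
            dg_prod_le hE _ _
        _ ≤ ∑ i, dg k E (x i) := Finset.sum_le_sum fun i _ => (dg_moeb (x i) (β K)).le
    have h3 : dg k E (lev (Fin.last e).val K (p ^ r) x β' B) ≤ mvC B * ∑ i, dg k E (x i) := by
      have h4 := dg_aeval_le (k₀ := ZMod p) hE B (Sum.elim x
        (fun v : Gam (e + 1) (Fin.last e).val K =>
          (Option.elim v.2 (β' v.1) (fun k => x k.1)) ^ ((p ^ r) ^ (K - v.1.val))))
      refine h4.trans (Nat.mul_le_mul_left _ ?_)
      rw [Fintype.sum_sum_type]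
      simp only [Sum.elim_inl, Sum.elim_inr]
      rw [Finset.sum_eq_zero (s := (Finset.univ : Finset (Gam (e + 1) (Fin.last e).val K))),
        add_zero]
      intro v _
      apply dg_eq_zero_of_isAlgebraic
      apply IsAlgebraic.pow
      rcases v.2 with _ | k'
      · exact isAlgebraic_algebraMap _
      · exact absurd (Fin.le_last k'.1) (not_le.mpr k'.2)
    calc dg k E _ ≤ dg k E ((∏ i, (ψ (h i) - β' K)⁻¹) ^ a) +
          dg k E (lev (Fin.last e).val K (p ^ r) x β' B) := dg_mul_le hE _ _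
      _ ≤ a * ∑ i, dg k E (x i) + mvC B * ∑ i, dg k E (x i) :=
          Nat.add_le_add ((levK_dg_pow_le hE _ _).trans (Nat.mul_le_mul_left _ h2)) h3
      _ = (a + mvC B) * ∑ i, dg k E (x i) := by ring

end

end Pool.Agent.TLW
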