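import Pool.Agent.TLW.Defs
import Pool.Agent.LFZ.CoreNil

set_option autoImplicit false

namespace Pool.Agent.TLW

open Polynomial Pool.Agent.LFZ

section

/-- lying over: if `1 = g a + ω a'` with `a`, `a'` integral over `S ∋ g, ω` then `g`, `ω` generate
the unit ideal of `S`. -/
theorem NilTwo_lying_over {E : Type} [Field E] (S : Subring E) (g ω a a' : E) (hg : g ∈ S)
    (hω : ω ∈ S) (h1 : 1 = g * a + ω * a') (ha : IsIntegral S a) (ha' : IsIntegral S a') :
    ∃ s ∈ S, ∃ s' ∈ S, 1 = g * s + ω * s' := by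
  set I : Ideal S := Ideal.span {⟨g, hg⟩, ⟨ω, hω⟩} with hI
  by_cases htop : I = ⊤
  · have h : (1 : S) ∈ I := by rw [htop]; exact Submodule.mem_top
    rw [hI, Ideal.mem_span_pair] at h
    obtain ⟨s, s', hs⟩ := h
    refine ⟨s, s.2, s', s'.2, ?_⟩
    have := congrArg (fun z : S => (z : E)) hs
    simp only [Subring.coe_add, Subring.coe_mul, Subring.coe_one] at this
    rw [← this]
    ring
  · exfalso
    obtain ⟨P, hP, hIP⟩ := Ideal.exists_le_maximal I htop
    let T : Subalgebra S E := Algebra.adjoin S {a, a'}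
    have hT : Algebra.IsIntegral S T := Algebra.IsIntegral.adjoin (by
      intro x hx
      rcases hx with rfl | hx
      · exact ha
      · rw [Set.mem_singleton_iff] at hx
        rw [hx]
        exact ha')
    have hker : RingHom.ker (algebraMap S T) ≤ P := by
      have : Function.Injective (algebraMap S T) := by
        intro x y hxy
        have h2 := congrArg (fun z : T => (z : E)) hxy
        exact Subtype.ext h2
      rw [(RingHom.injective_iff_ker_eq_bot _).1 this]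
      exact bot_le
    obtain ⟨Q, hQ, hQP⟩ := Ideal.exists_ideal_over_maximal_of_isIntegral (S := T) P hker
    have hgQ : algebraMap S T ⟨g, hg⟩ ∈ Q := by
      have : (⟨g, hg⟩ : S) ∈ Q.comap (algebraMap S T) := by
        rw [hQP]
        exact hIP (Ideal.subset_span (by simp))
      exact this
    have hωQ : algebraMap S T ⟨ω, hω⟩ ∈ Q := by
      have : (⟨ω, hω⟩ : S) ∈ Q.comap (algebraMap S T) := by
        rw [hQP]
        exact hIP (Ideal.subset_span (by simp))
      exact this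
    have haT : a ∈ T := Algebra.subset_adjoin (by simp)
    have haT' : a' ∈ T := Algebra.subset_adjoin (by simp)
    have h2 : (1 : T) = algebraMap S T ⟨g, hg⟩ * ⟨a, haT⟩ + algebraMap S T ⟨ω, hω⟩ * ⟨a', haT'⟩ := by
      apply Subtype.ext
      exact h1
    have h3 : (1 : T) ∈ Q := by
      rw [h2]
      exact Q.add_mem (Q.mul_mem_right _ hgQ) (Q.mul_mem_right _ hωQ)
    exact hQ.ne_top ((Ideal.eq_top_iff_one Q).2 h3)

/-- (2.3), the ring-theoretic core. `u' = u^q v` with a unit `v` of `W`. -/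
theorem nil_core {p e : ℕ} [Fact p.Prime] {k E : Type} [Field k] [Field E] [Algebra k E]
    [Algebra (ZMod p) k] [Algebra (ZMod p) E] [IsScalarTower (ZMod p) k E]
    (x : Fin (e + 1) → E) (b : k) (W : Subalgebra k E)
    (hx : ∀ i, x i ≠ algebraMap k E b ∧ (x i - algebraMap k E b)⁻¹ ∈ W)
    (DD : MvPolynomial (Fin (e + 1)) (ZMod p)) (hDD : MvPolynomial.aeval x DD ≠ 0)
    (g ω ω₁ u' : E) (q c : ℕ) (hg : g ∈ W) (hω : ω ∈ W) (hu' : ∃ v ∈ W, v ≠ 0 ∧ v⁻¹ ∈ W ∧
      u' = uP x (algebraMap k E b) ^ q * v) (hωω : ω = u' ^ c * ω₁)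
    (a a' : E) (h1 : 1 = g * a + ω₁ * a')
    (hint : ∀ S : Subring E, (∀ c : k, algebraMap k E c ∈ S) → (∀ i, x i ∈ S) →
      (MvPolynomial.aeval x DD)⁻¹ ∈ S → IsIntegral S a ∧ IsIntegral S a') :
    uP x (algebraMap k E b) ^ (DD.totalDegree + 1) * MvPolynomial.aeval x DD ∈ W ∧
    ∃ m : ℕ, ∃ w ∈ W, ∃ w' ∈ W,
      (uP x (algebraMap k E b) ^ (DD.totalDegree + 1) * MvPolynomial.aeval x DD) ^ m =
        g * w + ω * w' := by
  set u : E := uP x (algebraMap k E b) with hu
  set d : E := MvPolynomial.aeval x DD with hd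
  have hβ' : algebraMap k E b ∈ W.toSubring := W.algebraMap_mem b
  have hκW : ∀ c : ZMod p, algebraMap (ZMod p) E c ∈ W.toSubring := by
    intro c
    rw [IsScalarTower.algebraMap_apply (ZMod p) k E]
    exact W.algebraMap_mem _
  have hu0 : u ≠ 0 := by
    rw [hu]
    unfold uP
    exact Finset.prod_ne_zero_iff.2 fun i _ => inv_ne_zero (sub_ne_zero.2 (hx i).1)
  have huW : u ∈ W.toSubring := by
    rw [hu]
    unfold uP
    exact W.toSubring.prod_mem fun i _ => (hx i).2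
  have hfilter : (∏ i : Fin (e + 1) with i.val ≤ e, (x i - algebraMap k E b)⁻¹) = u := by
    rw [hu]
    unfold uP
    congr 1
    exact Finset.filter_true_of_mem fun i _ => by omega
  have hux : ∀ i, u * x i ∈ W.toSubring := by
    have := core_u_mul_mem W.toSubring x e (algebraMap k E b) hβ' (fun i _ => hx i)
      (fun i hi => by omega)
    rwa [hfilter] at this
  have hd1 : u ^ DD.totalDegree * d ∈ W.toSubring :=
    pow_mul_aeval_mem W.toSubring hκW u huW x hux DD _ le_rfl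
  have hd2 : u ^ (DD.totalDegree + 1) * d ∈ W.toSubring :=
    pow_mul_aeval_mem W.toSubring hκW u huW x hux DD _ (Nat.le_succ _)
  have hd2' : u ^ (DD.totalDegree + 1) * d ∈ W := hd2
  set y : E := u ^ (DD.totalDegree + 1) * d with hy
  refine ⟨hd2', ?_⟩
  set S : Subring E := satRing W y hd2' with hS
  have hxS : ∀ i, x i ∈ S := by
    intro i
    refine ⟨1, ?_⟩
    rw [pow_one]
    have : y * x i = (u ^ DD.totalDegree * d) * (u * x i) := by rw [hy]; ring
    rw [this]
    exact W.toSubring.mul_mem hd1 (hux i)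
  have hdS : d⁻¹ ∈ S := by
    refine ⟨1, ?_⟩
    rw [pow_one]
    have : y * d⁻¹ = u ^ (DD.totalDegree + 1) := by
      rw [hy, mul_assoc, mul_inv_cancel₀ hDD, mul_one]
    rw [this]
    exact W.toSubring.pow_mem huW _
  have huS : u⁻¹ ∈ S := by
    refine ⟨1, ?_⟩
    rw [pow_one]
    have : y * u⁻¹ = u ^ DD.totalDegree * d := by
      rw [hy, pow_succ]
      field_simp
    rw [this]
    exact hd1
  obtain ⟨ha, ha'⟩ := hint S (fun c => le_satRing (W.algebraMap_mem c)) hxS hdS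
  obtain ⟨v, hv, hv0, hv', huv⟩ := hu'
  have hu'0 : u' ≠ 0 := by
    rw [huv]
    exact mul_ne_zero (pow_ne_zero _ hu0) hv0
  have hu'S : u'⁻¹ ∈ S := by
    have : u'⁻¹ = u⁻¹ ^ q * v⁻¹ := by
      rw [huv, mul_inv, inv_pow]
    rw [this]
    exact S.mul_mem (S.pow_mem huS _) (le_satRing hv')
  have hucS : u'⁻¹ ^ c ∈ S := S.pow_mem hu'S c
  have hω₁ : ω₁ = ω * u'⁻¹ ^ c := by
    rw [hωω, mul_comm (u' ^ c) ω₁, mul_assoc, ← mul_pow, mul_inv_cancel₀ hu'0, one_pow, mul_one]
  have hω₁S : ω₁ ∈ S := by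
    rw [hω₁]
    exact S.mul_mem (le_satRing hω) hucS
  obtain ⟨s, hs, s', hs', hss⟩ := NilTwo_lying_over S g ω₁ a a' (le_satRing hg) hω₁S h1 ha ha'
  obtain ⟨m1, hm1⟩ := hs
  obtain ⟨m2, hm2⟩ := hs'
  obtain ⟨m3, hm3⟩ := hucS
  refine ⟨m1 + m2 + m3, y ^ (m2 + m3) * (y ^ m1 * s), W.mul_mem (W.pow_mem hd2' _) hm1,
    y ^ m1 * ((y ^ m3 * u'⁻¹ ^ c) * (y ^ m2 * s')),
    W.mul_mem (W.pow_mem hd2' _) (W.mul_mem hm3 hm2), ?_⟩
  have h2 : y ^ (m1 + m2 + m3) = y ^ (m1 + m2 + m3) * (g * s + ω₁ * s') := by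
    rw [← hss, mul_one]
  rw [h2, hω₁]
  ring

/-- Nullstellensatz step: if no homomorphism to `k` kills `g` and `ω₁`, they generate the unit
ideal. -/
theorem unit_or_point {p : ℕ} [Fact p.Prime] {k E R₀ : Type} [Field k] [IsAlgClosed k]
    [Field E] [Algebra k E] [CommRing R₀] [Algebra (ZMod p) R₀] [Algebra.FiniteType (ZMod p) R₀]
    [Algebra (ZMod p) k] [Algebra (ZMod p) E] [IsScalarTower (ZMod p) k E]
    (ψ : R₀ →ₐ[ZMod p] E) (d g ω₁ : E) (A : Subalgebra k E)
    (hA : A = Algebra.adjoin k (Set.range ψ ∪ {d})) (hg : g ∈ A) (hω : ω₁ ∈ A) :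
    (∃ a ∈ A, ∃ a' ∈ A, 1 = g * a + ω₁ * a') ∨
      ∃ φ : A →ₐ[k] k, φ ⟨g, hg⟩ = 0 ∧ φ ⟨ω₁, hω⟩ = 0 := by
  set I : Ideal A := Ideal.span {⟨g, hg⟩, ⟨ω₁, hω⟩} with hI
  by_cases htop : I = ⊤
  · left
    have h : (1 : A) ∈ I := by rw [htop]; exact Submodule.mem_top
    rw [hI, Ideal.mem_span_pair] at h
    obtain ⟨s, s', hs⟩ := h
    refine ⟨s, s.2, s', s'.2, ?_⟩
    have := congrArg (fun z : A => (z : E)) hs
    simp only [Subalgebra.coe_add, Subalgebra.coe_mul, Subalgebra.coe_one] at this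
    rw [← this]
    ring
  · right
    have hfg : Algebra.FiniteType k A := by
      obtain ⟨s, hs⟩ := (Algebra.FiniteType.out : (⊤ : Subalgebra (ZMod p) R₀).FG)
      have h2 : A = Algebra.adjoin k ((ψ '' (s : Set R₀)) ∪ {d}) := by
        rw [hA]
        refine le_antisymm (Algebra.adjoin_le ?_) (Algebra.adjoin_mono ?_)
        · rintro z (hz | hz)
          · obtain ⟨r, rfl⟩ := hz
            have hr : r ∈ Algebra.adjoin (ZMod p) (s : Set R₀) := by
              rw [hs]; exact Algebra.mem_top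
            have h3 : ψ r ∈ Algebra.adjoin (ZMod p) (ψ '' (s : Set R₀)) := by
              rw [← AlgHom.map_adjoin]
              exact Subalgebra.mem_map.2 ⟨r, hr, rfl⟩
            have h4 : Algebra.adjoin (ZMod p) (ψ '' (s : Set R₀)) ≤
                (Algebra.adjoin k ((ψ '' (s : Set R₀)) ∪ {d})).restrictScalars (ZMod p) :=
              Algebra.adjoin_le fun z hz => Algebra.subset_adjoin (Or.inl hz)
            exact h4 h3
          · exact Algebra.subset_adjoin (Or.inr hz)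
        · exact Set.union_subset_union_left _ (Set.image_subset_range _ _)
      rw [← Subalgebra.fg_iff_finiteType, h2]
      exact Subalgebra.fg_def.2 ⟨_, (s.finite_toSet.image ψ).union (Set.finite_singleton d), rfl⟩
    obtain ⟨P, hP, hIP⟩ := Ideal.exists_le_maximal I htop
    letI : Field (A ⧸ P) := Ideal.Quotient.field P
    have hfin : Module.Finite k (A ⧸ P) := finite_of_finite_type_of_isJacobsonRing k (A ⧸ P)
    have hbij : Function.Bijective (algebraMap k (A ⧸ P)) :=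
      IsAlgClosed.algebraMap_bijective_of_isIntegral
    let eqv : k ≃ₐ[k] (A ⧸ P) := AlgEquiv.ofBijective (Algebra.ofId k (A ⧸ P)) hbij
    refine ⟨(eqv.symm : (A ⧸ P) →ₐ[k] k).comp (Ideal.Quotient.mkₐ k P), ?_, ?_⟩
    · have h5 : Ideal.Quotient.mkₐ k P ⟨g, hg⟩ = 0 :=
        Ideal.Quotient.eq_zero_iff_mem.2 (hIP (Ideal.subset_span (by simp)))
      rw [AlgHom.comp_apply, h5, map_zero]
    · have h5 : Ideal.Quotient.mkₐ k P ⟨ω₁, hω⟩ = 0 :=
        Ideal.Quotient.eq_zero_iff_mem.2 (hIP (Ideal.subset_span (by simp)))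
      rw [AlgHom.comp_apply, h5, map_zero]

end

end Pool.Agent.TLW
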