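import Pool.Agent.TLW.WFacts

set_option autoImplicit false

namespace Pool.Agent.TLW

open Polynomial Pool.Agent.LFZ

section

variable {e δ c0 Q : ℕ} {k 𝔽 E : Type} [Field k] [Field 𝔽] [Field E] [Algebra k E]
  [Algebra 𝔽 k] [Algebra 𝔽 E] [IsScalarTower 𝔽 k E]
  {M : Polynomial (MvPolynomial (Fin (e + 1)) 𝔽)} {x φ : Fin (e + 1) → E} {θ : Fin δ → E} {θ' : E}
  {b : k} {W : Subalgebra k E}

/-- `u ^ a * P(v)` as an element of `W` -/
theorem WProd_form (W : Subalgebra k E) (u : E) (hu : u ∈ W) (v : Fin (e + 1) → E)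
    (hv : ∀ i, u * v i ∈ W) (P : MvPolynomial (Fin (e + 1)) 𝔽) (a : ℕ) (ha : P.totalDegree ≤ a) :
    ((∑ m ∈ P.support, algebraMap k W (algebraMap 𝔽 k (MvPolynomial.coeff m P)) *
      ((⟨u, hu⟩ : W) ^ (a - ∑ i, m i) * ∏ i, (⟨u * v i, hv i⟩ : W) ^ m i) : W) : E) =
      u ^ a * MvPolynomial.aeval v P := by
  classical
  rw [MvPolynomial.aeval_def, MvPolynomial.eval₂_eq', Finset.mul_sum]
  rw [AddSubmonoidClass.coe_finset_sum]
  refine Finset.sum_congr rfl fun m hm => ?_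
  have h1 : ∑ i, m i ≤ a := by
    refine le_trans ?_ ha
    have := MvPolynomial.le_totalDegree hm
    rwa [Finsupp.sum_fintype _ _ (fun _ => rfl)] at this
  have h3 : ∏ i, (u * v i) ^ m i = u ^ (∑ i, m i) * ∏ i, v i ^ m i := by
    rw [← Finset.prod_pow_eq_pow_sum, ← Finset.prod_mul_distrib]
    exact Finset.prod_congr rfl fun i _ => mul_pow _ _ _
  have h4 : u ^ a = u ^ (a - ∑ i, m i) * u ^ (∑ i, m i) := by
    rw [← pow_add]; congr 1; omega
  simp only [Subalgebra.coe_mul, Subalgebra.coe_pow, Subalgebra.coe_algebraMap,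
    SubmonoidClass.coe_finset_prod]
  rw [h3, h4, IsScalarTower.algebraMap_apply 𝔽 k E]
  ring

theorem WProd_mono (W : Subalgebra k E) (g u : E) (hg : g ∈ W) (hu : u ∈ W)
    (y z : Fin (e + 1) → E) (hy : ∀ i, u * y i ∈ W) (hz : ∀ i, u * z i ∈ W)
    (hyz : ∀ i, ∃ w ∈ W, u * y i - u * z i = g * w) (P : MvPolynomial (Fin (e + 1)) 𝔽) (a : ℕ)
    (ha : P.totalDegree ≤ a) :
    ∃ w ∈ W, u ^ a * MvPolynomial.aeval y P - u ^ a * MvPolynomial.aeval z P = g * w := by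
  have h1 := WProd_form W u hu y hy P a ha
  have h2 := WProd_form W u hu z hz P a ha
  set A : W := ∑ m ∈ P.support, algebraMap k W (algebraMap 𝔽 k (MvPolynomial.coeff m P)) *
      ((⟨u, hu⟩ : W) ^ (a - ∑ i, m i) * ∏ i, (⟨u * y i, hy i⟩ : W) ^ m i) with hA
  set B : W := ∑ m ∈ P.support, algebraMap k W (algebraMap 𝔽 k (MvPolynomial.coeff m P)) *
      ((⟨u, hu⟩ : W) ^ (a - ∑ i, m i) * ∏ i, (⟨u * z i, hz i⟩ : W) ^ m i) with hB
  let I : Ideal W := Ideal.span {(⟨g, hg⟩ : W)}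
  have hmk : ∀ i, Ideal.Quotient.mk I (⟨u * y i, hy i⟩ : W) =
      Ideal.Quotient.mk I (⟨u * z i, hz i⟩ : W) := by
    intro i
    rw [Ideal.Quotient.eq]
    obtain ⟨w, hw, hw'⟩ := hyz i
    refine Ideal.mem_span_singleton'.2 ⟨⟨w, hw⟩, ?_⟩
    apply Subtype.ext
    simp only [Subalgebra.coe_mul, Subalgebra.coe_sub]
    rw [hw', mul_comm]
  have hAB : Ideal.Quotient.mk I A = Ideal.Quotient.mk I B := by
    rw [hA, hB]
    simp only [map_sum, map_mul, map_pow, map_prod, hmk]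
  rw [Ideal.Quotient.eq] at hAB
  obtain ⟨w, hw⟩ := Ideal.mem_span_singleton'.1 hAB
  refine ⟨w, w.2, ?_⟩
  have h3 := congrArg (fun t : W => (t : E)) hw
  simp only [Subalgebra.coe_mul, Subalgebra.coe_sub] at h3
  rw [← h1, ← h2, ← h3, mul_comm]

theorem WProd_frob {p r : ℕ} [Fact p.Prime] [CharP E p] (hQ : Q = p ^ r)
    (hc : Conf k 𝔽 δ c0 Q M x φ θ θ') :
    evM (fun i => x i ^ Q) M = ∏ i, (X - C (θ i ^ Q)) := by
  have h1 := congrArg (fun P : Polynomial E => P.map (iterateFrobenius E p r)) hc.split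
  simp only [Polynomial.map_prod, Polynomial.map_sub, Polynomial.map_X, Polynomial.map_C,
    iterateFrobenius_def, ← hQ] at h1
  rw [← h1]
  unfold evM
  rw [Polynomial.map_map]
  congr 1
  refine MvPolynomial.ringHom_ext (fun c => ?_) (fun i => ?_)
  · have h2 : (algebraMap 𝔽 E c) ^ Q = algebraMap 𝔽 E c := by
      rw [← map_pow, hc.fixed c]
    simp only [RingHom.comp_apply, RingHom.coe_coe, MvPolynomial.aeval_C, iterateFrobenius_def,
      ← hQ, h2]
  · simp only [RingHom.comp_apply, RingHom.coe_coe, MvPolynomial.aeval_X, iterateFrobenius_def,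
      ← hQ]

/-- (2.2) -/
theorem prod_om_mem {p r : ℕ} [Fact p.Prime] [CharP E p] (hQ : Q = p ^ r)
    (hc : Conf k 𝔽 δ c0 Q M x φ θ θ') (hw : WConf k c0 Q x φ θ θ' b W) :
    ∃ w ∈ W, ∏ i, om c0 Q φ θ θ' b i = gg Q x φ * w := by
  classical
  obtain ⟨-, -, hu, huφ, hux, -, -, -, -⟩ := wconf_mem hQ hc hw
  set u : E := uP φ (algebraMap k E b ^ Q) with hudef
  obtain ⟨hg, -⟩ := hw.isW
  have hyz : ∀ i, ∃ w ∈ W, u * (x i ^ Q) - u * φ i = gg Q x φ * w := by
    intro i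
    by_cases hi : i = Fin.last e
    · refine ⟨-u, W.neg_mem hu, ?_⟩
      rw [hi]
      unfold gg
      ring
    · refine ⟨0, W.zero_mem, ?_⟩
      rw [hc.frob i hi]
      ring
  have h1 : ∏ i, om c0 Q φ θ θ' b i = (u ^ c0) ^ δ *
      ((evM (fun i => x i ^ Q) M).eval θ' - (evM φ M).eval θ') := by
    rw [hc.root, sub_zero, WProd_frob hQ hc, eval_prod]
    unfold om
    rw [Finset.prod_mul_distrib, Finset.prod_const, Finset.card_univ, Fintype.card_fin]
    congr 1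
    exact Finset.prod_congr rfl fun i _ => by simp
  have hev : ∀ y : Fin (e + 1) → E, (evM y M).eval θ' =
      ∑ r ∈ Finset.range (δ + 1), MvPolynomial.aeval y (M.coeff r) * θ' ^ r := by
    intro y
    unfold evM
    rw [eval_map, eval₂_eq_sum_range, hc.shape.deg]
    rfl
  have hterm : ∀ r ∈ Finset.range (δ + 1), ∃ w ∈ W,
      (u ^ c0) ^ δ * (MvPolynomial.aeval (fun i => x i ^ Q) (M.coeff r) * θ' ^ r) -
      (u ^ c0) ^ δ * (MvPolynomial.aeval φ (M.coeff r) * θ' ^ r) = gg Q x φ * w := by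
    intro r hr
    rw [Finset.mem_range] at hr
    rcases Nat.lt_or_ge r δ with h | h
    · obtain ⟨w, hw1, hw2⟩ := WProd_mono W (gg Q x φ) u hg hu (fun i => x i ^ Q) φ hux huφ hyz
        (M.coeff r) c0 (hc.shape.tot r)
      refine ⟨w * ((u ^ c0) ^ (δ - r - 1) * (u ^ c0 * θ') ^ r),
        W.mul_mem hw1 (W.mul_mem (W.pow_mem (W.pow_mem hu _) _) (W.pow_mem hw.th' _)), ?_⟩
      have h2 : (u ^ c0) ^ δ = u ^ c0 * ((u ^ c0) ^ (δ - r - 1) * (u ^ c0) ^ r) := by
        rw [← pow_add, ← pow_succ']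
        congr 1
        omega
      rw [← mul_assoc (gg Q x φ), ← hw2, h2, mul_pow]
      ring
    · have hr' : r = δ := by omega
      have h3 : M.coeff r = 1 := by
        rw [hr', ← hc.shape.deg]
        exact hc.shape.monic
      refine ⟨0, W.zero_mem, ?_⟩
      rw [h3]
      simp
  choose! w hw1 hw2 using hterm
  refine ⟨∑ r ∈ Finset.range (δ + 1), w r, W.sum_mem fun r hr => hw1 r hr, ?_⟩
  rw [h1, hev, hev, mul_sub, Finset.mul_sum, Finset.mul_sum, Finset.mul_sum,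
    ← Finset.sum_sub_distrib]
  exact Finset.sum_congr rfl fun r hr => hw2 r hr

end

end Pool.Agent.TLW
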