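import Pool.Agent.TLW.Phi
import Pool.Agent.TLW.WProd
import Pool.Agent.TLW.NilTwo
import Pool.Agent.TLW.Contra
import Pool.Agent.TLW.ClaimC
import Pool.Agent.TLW.LevK
import Pool.Agent.TLW.LastAux
import Pool.Agent.LFZ.Rel

set_option autoImplicit false

namespace Pool.Agent.TLW

open Polynomial Pool.Agent.LFZ

/-- **Theorem (S)** -/
theorem stepanov {p s : ℕ} [Fact p.Prime] {e δ c0 : ℕ} {𝔽 R₁ : Type} [Field 𝔽] [Finite 𝔽]
    (hcard : Nat.card 𝔽 = p ^ s) [CommRing R₁] [IsDomain R₁] [Algebra (ZMod p) R₁]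
    [Algebra.FiniteType (ZMod p) R₁] [Algebra 𝔽 R₁] (f h : Fin (e + 1) → R₁)
    (hf : AlgebraicIndependent (ZMod p) f) (hh : AlgebraicIndependent (ZMod p) h)
    (halg : ∀ r : R₁, IsAlgebraic (Algebra.adjoin (ZMod p) (Set.range h)) r)
    (M : Polynomial (MvPolynomial (Fin (e + 1)) 𝔽)) (hM : Shape δ c0 M)
    (G : MvPolynomial (Fin (e + 1)) 𝔽) (hG0 : G ≠ 0) (hG : IrrOff G M)
    (θ : Fin δ → R₁) (hθ : evM h M = ∏ i, (X - C (θ i))) (θ' : R₁)
    (hθ' : (evM f M).eval θ' = 0) (i0 : Fin δ) :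
    ∃ C : ℕ, ∀ m : ℕ, C ≤ m → ∃ φ : R₁ →ₐ[ZMod p] AlgebraicClosure (ZMod p),
      (∀ i, φ (f i) = φ (h i) ^ (p ^ (s * m))) ∧ φ θ' = φ (θ i0) ^ (p ^ (s * m)) := by
  classical
  have hδ : 1 ≤ δ := i0.pos
  -- `c0 ≥ 1`
  set c : ℕ := max c0 1 with hcdef
  have hc1 : 1 ≤ c := le_max_right _ _
  have hMc : Shape δ c M := ⟨hM.monic, hM.deg, fun r => (hM.tot r).trans (le_max_left _ _)⟩
  -- `s > 0`
  have hs : 0 < s := by
    rcases Nat.eq_zero_or_pos s with rfl | h1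
    · have h2 := Finite.one_lt_card (α := 𝔽)
      rw [hcard, pow_zero] at h2
      exact absurd h2 (lt_irrefl _)
    · exact h1
  -- the avoid polynomials
  obtain ⟨D₀, hD₀, hint0⟩ := exists_D0 h hh halg
  choose D1f C1f hD1f hC1f using fun i => exists_C1 h hh halg (f i)
  choose D1θ C1θ hD1θ hC1θ using fun i => exists_C1 h hh halg (θ i)
  obtain ⟨D1', C1', hD1', hC1'⟩ := exists_C1 h hh halg θ'
  obtain ⟨ν, DC, hDC, hclaimC⟩ := claimC f h hf hh halg
  obtain ⟨DG, sG, hDG, hsG⟩ := exists_avoid h hh halg (MvPolynomial.aeval h G)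
    (last_aeval_ne_zero h hh G hG0)
  set C₁ : ℕ := (∑ i, C1f i) + (∑ i, C1θ i) + C1' with hC₁
  have hC1f_le : ∀ i, C1f i ≤ C₁ := fun i => by
    have := Finset.single_le_sum (f := C1f) (fun _ _ => Nat.zero_le _) (Finset.mem_univ i)
    omega
  have hC1θ_le : ∀ i, C1θ i ≤ C₁ := fun i => by
    have := Finset.single_le_sum (f := C1θ) (fun _ _ => Nat.zero_le _) (Finset.mem_univ i)
    omega
  set K : ℕ := e + 2 with hK
  obtain ⟨Bs, CL, C7, hBs, hlev⟩ := exists_yK f h hf hh halg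
    ⟨C₁, ∏ i, D1f i, Finset.prod_ne_zero_iff.2 fun i _ => hD1f i, by
      intro κ E _ _ _ _ _ _ _ ψ hE hD i
      rw [map_prod] at hD
      exact (hC1f i κ E ψ hE (Finset.prod_ne_zero_iff.1 hD i (Finset.mem_univ i))).trans
        (Nat.mul_le_mul_right _ (hC1f_le i))⟩ D₀ hD₀ K
  obtain ⟨C', hC'⟩ := exists_sstage f h hf hh halg
  obtain ⟨Cst, hCst⟩ := hC' (D₀ * (∏ i, D1f i) * (∏ i, D1θ i) * D1' * DC * DG * Bs) (by
    refine mul_ne_zero (mul_ne_zero (mul_ne_zero (mul_ne_zero (mul_ne_zero (mul_ne_zero hD₀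
      ?_) ?_) hD1') hDC) hDG) hBs
    · exact Finset.prod_ne_zero_iff.2 fun i _ => hD1f i
    · exact Finset.prod_ne_zero_iff.2 fun i _ => hD1θ i)
  obtain ⟨C6, Q0, hphi⟩ := exists_phi (p := p) e δ c ν (2 * e * C₁) (2 * C₁) hδ hc1
  set Cb : ℕ := Cst + Q0 + CL + (2 * e * C₁ + 2 * C₁ + 1) + 2 * C' +
    (2 * δ ^ 2 * (2 * C₁ + 2 * C7) + δ * C6 + 1) with hCb
  refine ⟨Cb + ν, fun m hm => ?_⟩
  set r : ℕ := s * m with hr
  have hmr : m ≤ r := Nat.le_mul_of_pos_left _ hs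
  have hpr : Cb ≤ p ^ r := by
    have h1 : r < p ^ r := Nat.lt_pow_self (Fact.out : p.Prime).one_lt
    omega
  obtain ⟨E, i1, i2, i3, i4, ψ, hfi, hDx, hE, htr, hN, htop⟩ := hCst r (by omega)
  -- the algebra structures over `𝔽`
  obtain ⟨emb, hemb⟩ := last_embed (k := AlgebraicClosure (ZMod p)) (E := E)
    ((ψ : R₁ →+* E).comp (algebraMap 𝔽 R₁))
  let a1 : Algebra 𝔽 E := ((ψ : R₁ →+* E).comp (algebraMap 𝔽 R₁)).toAlgebra
  let a2 : Algebra 𝔽 (AlgebraicClosure (ZMod p)) := emb.toAlgebra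
  have a3 : IsScalarTower 𝔽 (AlgebraicClosure (ZMod p)) E :=
    IsScalarTower.of_algebraMap_eq fun c => (hemb c).symm
  let ψF : R₁ →ₐ[𝔽] E := { (ψ : R₁ →+* E) with commutes' := fun _ => rfl }
  have hψF : ∀ y, ψF y = ψ y := fun _ => rfl
  have hchar : CharP E p := charP_of_injective_algebraMap (algebraMap (ZMod p) E).injective p
  set x : Fin (e + 1) → E := fun i => ψ (h i) with hx
  set φ : Fin (e + 1) → E := fun i => ψ (f i) with hφ
  set Q : ℕ := p ^ r with hQ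
  have hmap : ∀ y : Fin (e + 1) → R₁, (evM y M).map (ψ : R₁ →+* E) = evM (fun i => ψ (y i)) M := by
    intro y
    rw [evM, evM, Polynomial.map_map]
    congr 1
    have h1 : ψF.comp (MvPolynomial.aeval y) = MvPolynomial.aeval (fun i => ψ (y i)) := by
      rw [MvPolynomial.comp_aeval]
      rfl
    rw [← h1]
    rfl
  have hfixed : ∀ c : 𝔽, c ^ Q = c := by
    intro c
    have := Fintype.ofFinite 𝔽
    have h1 := FiniteField.pow_card_pow m c
    rw [← Nat.card_eq_fintype_card, hcard, ← pow_mul] at h1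
    exact h1
  have hconf : Conf (AlgebraicClosure (ZMod p)) 𝔽 δ c Q M x φ (fun i => ψ (θ i)) (ψ θ') := by
    refine ⟨hE, hMc, hfixed, hfi, ?_, ?_⟩
    · rw [hx, ← hmap h, hθ, Polynomial.map_prod]
      refine Finset.prod_congr rfl fun i _ => ?_
      rw [Polynomial.map_sub, Polynomial.map_X, Polynomial.map_C]
      rfl
    · rw [hφ, ← hmap f]
      have h1 : ((evM f M).map (ψ : R₁ →+* E)).eval ((ψ : R₁ →+* E) θ') =
          (ψ : R₁ →+* E) ((evM f M).eval θ') := Polynomial.eval_map_apply _ _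
      rw [hθ', map_zero] at h1
      exact h1
  -- nonvanishing
  simp only [map_mul, map_prod, mul_ne_zero_iff, Finset.prod_ne_zero_iff] at hDx
  obtain ⟨⟨⟨⟨⟨⟨hx0, hx1⟩, hx2⟩, hx3⟩, hx4⟩, hx5⟩, hx6⟩ := hDx
  have hGx : MvPolynomial.aeval x G ≠ 0 := by
    intro h0
    apply hx5
    have h1 : MvPolynomial.aeval (fun i => ψ (h i)) DG = ψ (MvPolynomial.aeval h DG) := by
      rw [← AlgHom.comp_apply, MvPolynomial.comp_aeval]
    have h2 : MvPolynomial.aeval x G = ψ (MvPolynomial.aeval h G) := by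
      rw [← hψF, ← AlgHom.comp_apply, MvPolynomial.comp_aeval]
      rfl
    rw [h1, hsG, map_mul, ← h2, h0, zero_mul]
  -- heights
  have : Infinite (AlgebraicClosure (ZMod p)) := inferInstance
  obtain ⟨hHN, hlt, hg1, hg2, hgtr⟩ := last_heights hE x φ Q C₁ (by omega) hfi
    (fun i => (hC1f i _ E ψ hE (hx1 i (Finset.mem_univ i))).trans
      (Nat.mul_le_mul_right _ (hC1f_le i))) htr
  set N : ℕ := dg (AlgebraicClosure (ZMod p)) E (x (Fin.last e)) with hNdef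
  have hNpos : 0 < N := dg_pos hE htr
  have hdeg : ∀ (D : MvPolynomial (Fin (e + 1)) (ZMod p)) (c₁ : ℕ) (y : E), c₁ ≤ C₁ →
      dg (AlgebraicClosure (ZMod p)) E y ≤ c₁ * ∑ i, dg (AlgebraicClosure (ZMod p)) E (x i) →
      dg (AlgebraicClosure (ZMod p)) E y ≤ 2 * C₁ * N := by
    intro D c₁ y hc hy
    calc _ ≤ c₁ * ∑ i, dg (AlgebraicClosure (ZMod p)) E (x i) := hy
      _ ≤ C₁ * (2 * N) := Nat.mul_le_mul hc hHN
      _ = _ := by ring
  -- suppose that there is no homomorphism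
  by_contra hno
  set ω₁ : E := ψ θ' - ψ (θ i0) ^ Q with hω₁
  set A : Subalgebra (AlgebraicClosure (ZMod p)) E :=
    Algebra.adjoin (AlgebraicClosure (ZMod p)) (Set.range ψ ∪ {0}) with hA
  have hψA : ∀ y, ψ y ∈ A := fun y => Algebra.subset_adjoin (Or.inl ⟨y, rfl⟩)
  have hgA : gg Q x φ ∈ A := A.sub_mem (hψA _) (A.pow_mem (hψA _) _)
  have hωA : ω₁ ∈ A := A.sub_mem (hψA _) (A.pow_mem (hψA _) _)
  rcases unit_or_point ψ 0 (gg Q x φ) ω₁ A hA hgA hωA with ⟨a, ha, a', ha', h1⟩ | ⟨φA, hφg, hφω⟩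
  swap
  · apply hno
    let ψA : R₁ →ₐ[ZMod p] A :=
      { toFun := fun y => ⟨ψ y, hψA y⟩
        map_one' := Subtype.ext (map_one ψ)
        map_mul' := fun y z => Subtype.ext (map_mul ψ y z)
        map_zero' := Subtype.ext (map_zero ψ)
        map_add' := fun y z => Subtype.ext (map_add ψ y z)
        commutes' := fun c => Subtype.ext (ψ.commutes c) }
    refine ⟨(φA.restrictScalars (ZMod p)).comp ψA, fun i => ?_, ?_⟩
    · rcases eq_or_ne i (Fin.last e) with rfl | hi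
      · have h1 : ψA (f (Fin.last e)) = ψA (h (Fin.last e)) ^ Q + ⟨gg Q x φ, hgA⟩ := by
          apply Subtype.ext
          change ψ (f (Fin.last e)) = ψ (h (Fin.last e)) ^ Q + gg Q x φ
          rw [gg]; ring
        rw [AlgHom.comp_apply, AlgHom.comp_apply, h1, map_add, map_pow]
        change _ + φA _ = _
        rw [hφg, add_zero]
      · have h1 : ψA (f i) = ψA (h i) ^ Q := Subtype.ext (hfi i hi)
        rw [AlgHom.comp_apply, AlgHom.comp_apply, h1, map_pow]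
    · have h1 : ψA θ' = ψA (θ i0) ^ Q + ⟨ω₁, hωA⟩ := by
        apply Subtype.ext
        change ψ θ' = ψ (θ i0) ^ Q + ω₁
        rw [hω₁]; ring
      rw [AlgHom.comp_apply, AlgHom.comp_apply, h1, map_add, map_pow]
      change _ + φA _ = _
      rw [hφω, add_zero]
  -- the constants `β`
  set T : Set (AlgebraicClosure (ZMod p)) :=
    (⋃ i : Fin (e + 1), {b | x i = algebraMap _ E b ∨
      ¬ IntAt (AlgebraicClosure (ZMod p)) (gg Q x φ) (x i - algebraMap _ E b)⁻¹}) ∪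
    (fun b => b ^ Q) ⁻¹' {b | φ (Fin.last e) = algebraMap _ E b ∨
      ¬ IntAt (AlgebraicClosure (ZMod p)) (gg Q x φ) (φ (Fin.last e) - algebraMap _ E b)⁻¹} with hT
  have hTfin : T.Finite := by
    refine (Set.finite_iUnion fun i => finite_not_intAt hE hgtr (x i)).union ?_
    refine (finite_not_intAt hE hgtr (φ (Fin.last e))).preimage ?_
    intro b _ b' _ hbb
    have : CharP (AlgebraicClosure (ZMod p)) p :=
      charP_of_injective_algebraMap (algebraMap (ZMod p) (AlgebraicClosure (ZMod p))).injective p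
    exact iterateFrobenius_inj (AlgebraicClosure (ZMod p)) p r
      (by rw [iterateFrobenius_def, iterateFrobenius_def]; exact hbb)
  obtain ⟨β, hβT, hβW⟩ := hlev (AlgebraicClosure (ZMod p)) E ψ r T (by omega) hTfin hE hx6 htr hfi
  have hβ1 : ∀ l, ∀ i, x i ≠ algebraMap _ E (β l) ∧
      IntAt (AlgebraicClosure (ZMod p)) (gg Q x φ) (x i - algebraMap _ E (β l))⁻¹ := by
    intro l i
    have h2 : β l ∉ T := hβT l
    rw [hT, Set.mem_union, not_or, Set.mem_iUnion] at h2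
    have h3 := h2.1
    push Not at h3
    have h4 := h3 i
    simp only [Set.mem_ofPred_eq, not_or, not_not] at h4
    exact h4
  have hβ2 : IntAt (AlgebraicClosure (ZMod p)) (gg Q x φ)
      (φ (Fin.last e) - algebraMap _ E (β 0) ^ Q)⁻¹ := by
    have h2 : β 0 ∉ T := hβT 0
    rw [hT, Set.mem_union, not_or] at h2
    have h3 := h2.2
    simp only [Set.mem_preimage, Set.mem_ofPred_eq, not_or, not_not] at h3
    rw [← map_pow]
    exact h3.2
  obtain ⟨W, hw, hWβ⟩ := exists_wconf (p := p) (r := r) hQ hc1 hconf hgtr K β hβ1 hβ2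
  have hgW : gg Q x φ ∈ W := hw.isW.choose
  obtain ⟨yK, hyK, hyK0, hyKd, hyKe⟩ := hβW W hw.isW (fun l hl i => ⟨(hβ1 l i).1, hWβ l hl i⟩)
  -- nilpotency
  obtain ⟨hy0, hnil⟩ := nil_core (k := AlgebraicClosure (ZMod p)) x (β 0) W
    (fun i => ⟨(hβ1 0 i).1, hw.inv i⟩) D₀ hx0 (gg Q x φ)
    (om c Q φ (fun i => ψ (θ i)) (ψ θ') (β 0) i0) ω₁ (uP φ (algebraMap _ E (β 0) ^ Q)) Q c hgW
    (om_mem (p := p) (r := r) hQ hconf hw i0)
    (wconf_mem (p := p) (r := r) hQ hconf hw).2.2.2.2.2.2.2.2 rfl a a' h1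
    (by
      intro S hSk hSx hSd
      have hψS := hint0 E ψ S hSx hx0 hSd
      have hAS : ∀ y ∈ A, IsIntegral S y := by
        intro y hy
        induction hy using Algebra.adjoin_induction with
        | mem y hy =>
          rcases hy with ⟨r, rfl⟩ | hy
          · exact hψS r
          · rw [Set.mem_singleton_iff.1 hy]
            exact isIntegral_zero
        | algebraMap c => exact isIntegral_algebraMap (x := (⟨_, hSk c⟩ : S))
        | add y z _ _ hy hz => exact hy.add hz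
        | mul y z _ _ hy hz => exact hy.mul hz
      exact ⟨hAS a ha, hAS a' ha'⟩)
  -- the auxiliary elements
  have hΦ := hphi (AlgebraicClosure (ZMod p)) 𝔽 E M x φ (fun i => ψ (θ i)) (ψ θ') (β 0) W G r
    (by omega) hconf hw hG hGx htr (hclaimC _ E ψ r (by omega) hE htop hfi hx4) hlt
    (hdeg D₀ _ _ (hC1f_le _) (hC1f _ _ E ψ hE (hx1 _ (Finset.mem_univ _))))
    (fun i => hdeg D₀ _ _ (hC1θ_le i) (hC1θ i _ E ψ hE (hx2 i (Finset.mem_univ i))))
    (hdeg D₀ C1' _ (by omega) (hC1' _ E ψ hE hx3))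
  choose Φ hΦ0 hΦW hΦg hΦd using hΦ
  have hgK : dg (AlgebraicClosure (ZMod p)) E (gg Q x φ) ≤ Q ^ K := by
    calc dg _ E (gg Q x φ) ≤ 2 * Q * N := hg2
      _ ≤ 2 * Q * (C' * Q ^ e) := Nat.mul_le_mul_left _ hN
      _ = (2 * C') * (Q * Q ^ e) := by ring
      _ ≤ Q * (Q * Q ^ e) := Nat.mul_le_mul_right _ (by omega)
      _ = Q ^ K := by rw [hK]; ring
  have hcon := contra hE hw.isW (fun i => om c Q φ (fun i => ψ (θ i)) (ψ θ') (β 0) i)
    (fun i => om_mem (p := p) (r := r) hQ hconf hw i)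
    (prod_om_mem (p := p) (r := r) hQ hconf hw) i0 _ hy0 hnil Φ
    (fun i _ => ⟨hΦ0 i, hΦW i, hΦg i⟩) (Q ^ K) hgK yK hyK hyK0 hyKe
  refine last_arith δ C₁ C6 C7 Q N _ _ _ hNpos hδ hg1 hcon ?_ ?_ (by omega)
  · exact hyKd.trans (Nat.mul_le_mul_left _ hHN)
  · rw [Finset.mul_sum]
    calc ∑ i ∈ Finset.univ.erase i0, 2 * δ ^ 2 * dg (AlgebraicClosure (ZMod p)) E (Φ i)
        ≤ ∑ _i ∈ Finset.univ.erase i0, ((2 * δ + 1) * Q + C6) * N :=
          Finset.sum_le_sum fun i _ => hΦd i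
      _ = (δ - 1) * (((2 * δ + 1) * Q + C6) * N) := by
        rw [Finset.sum_const, Finset.card_erase_of_mem (Finset.mem_univ _), Finset.card_univ,
          Fintype.card_fin, smul_eq_mul]

end Pool.Agent.TLW
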