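import Pool.Agent.TLW.Fam
import Pool.Agent.TLW.Prim
import Pool.Agent.TLW.Blow
import Pool.Agent.TLW.AbsIrr
import Pool.Agent.TLW.Descend
import Pool.Agent.TLW.Last

set_option autoImplicit false

namespace Pool.Agent.TLW

open Polynomial Pool.Agent.LFZ

/-- splitting into linear factors indexed by `Fin` -/
theorem main_split {L : Type} [Field L] [IsAlgClosed L] (P : Polynomial L) (hP : P.Monic) {δ : ℕ}
    (hδ : P.natDegree = δ) : ∃ θ : Fin δ → L, P = ∏ i, (X - C (θ i)) := by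
  have hs := IsAlgClosed.splits P
  have h1 := hs.eq_prod_roots_of_monic hP
  have hc : P.roots.card = δ := by rw [← hδ]; exact hs.natDegree_eq_card_roots.symm
  obtain ⟨l, hl⟩ := Quotient.exists_rep P.roots
  have hl' : (l : Multiset L) = P.roots := hl
  have hlen : l.length = δ := by rw [← hc, ← hl']; simp
  subst hlen
  refine ⟨fun i => l.get i, ?_⟩
  conv_lhs => rw [h1, ← hl']
  rw [Multiset.map_coe, Multiset.prod_coe]
  rw [← List.prod_ofFn]
  congr 1
  apply List.ext_get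
  · simp
  · intro n h1 h2
    simp

theorem main_point {k σ : Type} [Field k] [Infinite k] (D : MvPolynomial σ k) (hD : D ≠ 0) :
    ∃ y : σ → k, MvPolynomial.aeval y D ≠ 0 := by
  by_contra hcon
  push Not at hcon
  apply hD
  apply MvPolynomial.funext
  intro y
  have := hcon y
  rw [MvPolynomial.aeval_eq_eval] at this
  simpa using this

theorem main_shape {e : ℕ} {𝔽 : Type} [Field 𝔽] (M : Polynomial (MvPolynomial (Fin (e + 1)) 𝔽))
    (hM : M.Monic) : ∃ c0 : ℕ, Shape M.natDegree c0 M := by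
  refine ⟨(Finset.range (M.natDegree + 1)).sup fun r => (M.coeff r).totalDegree, hM, rfl, ?_⟩
  intro r
  by_cases hr : r ≤ M.natDegree
  · exact Finset.le_sup (f := fun r => (M.coeff r).totalDegree)
      (Finset.mem_range.2 (Nat.lt_succ_of_le hr))
  · rw [Polynomial.coeff_eq_zero_of_natDegree_lt (not_le.1 hr)]
    simp

/-- algebraicity over `k(y)` passes to a ring `B` containing generators -/
theorem main_alg {p : ℕ} [Fact p.Prime] {L : Type} [Field L]
    [Algebra (AlgebraicClosure (ZMod p)) L] [Algebra (ZMod p) L]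
    [IsScalarTower (ZMod p) (AlgebraicClosure (ZMod p)) L] {B : Type} [CommRing B] [IsDomain B]
    [Algebra (ZMod p) B] [Algebra B L] [IsScalarTower (ZMod p) B L]
    (S : Set L)
    (hS : ∀ x ∈ S, IsAlgebraic B x) (x : L)
    (hx : IsAlgebraic (IntermediateField.adjoin (AlgebraicClosure (ZMod p)) S) x) :
    IsAlgebraic B x := by
  have hk : ∀ c : AlgebraicClosure (ZMod p), IsAlgebraic B (algebraMap _ L c) := by
    intro c
    have h1 : IsAlgebraic (ZMod p) c := Algebra.IsAlgebraic.isAlgebraic c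
    have h2 : IsAlgebraic (ZMod p) (algebraMap (AlgebraicClosure (ZMod p)) L c) := h1.algebraMap
    exact h2.extendScalars (algebraMap (ZMod p) B).injective
  have hK : ∀ z ∈ IntermediateField.adjoin (AlgebraicClosure (ZMod p)) S, IsAlgebraic B z := by
    intro z hz
    induction hz using IntermediateField.adjoin_induction with
    | mem x hx => exact hS x hx
    | algebraMap c => exact hk c
    | add x y _ _ h1 h2 => exact h1.add h2
    | inv x _ h1 => exact h1.inv
    | mul x y _ _ h1 h2 => exact h1.mul h2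
  let K := IntermediateField.adjoin (AlgebraicClosure (ZMod p)) S
  let A : Subalgebra B L := Subalgebra.algebraicClosure B L
  -- the algebraic closure of `B` in `L` contains `K`
  have hKA : ∀ z : K, (z : L) ∈ A := fun z => hK z z.2
  obtain ⟨P, hP0, hP⟩ := hx
  have hxA : IsAlgebraic A x := by
    let j : K →+* A := 
      { toFun := fun z => ⟨z, hKA z⟩
        map_one' := rfl
        map_zero' := rfl
        map_add' := fun _ _ => rfl
        map_mul' := fun _ _ => rfl }
    refine ⟨P.map j, ?_, ?_⟩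
    · rw [Ne, Polynomial.map_eq_zero_iff j.injective]
      exact hP0
    · rw [Polynomial.aeval_def, Polynomial.eval₂_map]
      rw [Polynomial.aeval_def] at hP
      exact hP
  have : Algebra.IsAlgebraic B A := ⟨fun a => by
    have : IsAlgebraic B (algebraMap A L a) := a.2
    exact (isAlgebraic_algebraMap_iff (FaithfulSMul.algebraMap_injective A L)).1 this⟩
  exact hxA.restrictScalars B

/-- evaluation of `P ∈ 𝔽[Y][Θ]` at `(y, θ)` as a ring homomorphism -/
noncomputable def mainEv {σ 𝔽 R : Type} [Field 𝔽] [CommRing R] (c : 𝔽 →+* R) (y : σ → R) (θ : R) :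
    Polynomial (MvPolynomial σ 𝔽) →+* R :=
  Polynomial.eval₂RingHom (MvPolynomial.eval₂Hom c y) θ

theorem mainEv_comp {σ 𝔽 R S : Type} [Field 𝔽] [CommRing R] [CommRing S] (c : 𝔽 →+* R)
    (y : σ → R) (θ : R) (g : R →+* S) (P : Polynomial (MvPolynomial σ 𝔽)) :
    g (mainEv c y θ P) = mainEv (g.comp c) (fun i => g (y i)) (g θ) P := by
  have : g.comp (mainEv c y θ) = mainEv (g.comp c) (fun i => g (y i)) (g θ) := by
    apply Polynomial.ringHom_ext
    · intro a
      simp only [mainEv, RingHom.comp_apply, coe_eval₂RingHom, eval₂_C]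
      exact MvPolynomial.hom_eval₂ _ _ _ _
    · simp [mainEv]
  exact RingHom.congr_fun this P

/-- transfer of the relation -/
theorem main_transfer {p : ℕ} [Fact p.Prime] {k R 𝔽 σ : Type} [Field k] [CharP k p]
    [CommRing R] [Field 𝔽] (c : 𝔽 →+* R) (φ : R →+* k) (Q : ℕ) (N : ℕ) (hQ : Q = p ^ N)
    (hfix : ∀ a : 𝔽, a ^ Q = a) (y y' : σ → R) (θ θ' : R)
    (hy : ∀ i, φ (y' i) = φ (y i) ^ Q) (hθ : φ θ' = φ θ ^ Q)
    (P : Polynomial (MvPolynomial σ 𝔽)) :
    φ (mainEv c y' θ' P) = φ (mainEv c y θ P) ^ Q := by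
  subst hQ
  rw [mainEv_comp]
  have h1 : φ (mainEv c y θ P) ^ p ^ N = ((iterateFrobenius k p N).comp φ) (mainEv c y θ P) := by
    simp [iterateFrobenius_def]
  rw [h1, mainEv_comp]
  congr 1
  have e1 : φ.comp c = ((iterateFrobenius k p N).comp φ).comp c := by
    ext a
    simp only [RingHom.comp_apply, iterateFrobenius_def]
    rw [← map_pow, ← map_pow, hfix]
  have e2 : (fun i => φ (y' i)) = fun i => ((iterateFrobenius k p N).comp φ) (y i) := by
    funext i
    rw [hy]; simp [iterateFrobenius_def]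
  have e3 : φ θ' = ((iterateFrobenius k p N).comp φ) θ := by
    rw [hθ]; simp [iterateFrobenius_def]
  rw [e1, e2, e3]

/-- the conclusion for one element -/
theorem main_elem {p : ℕ} [Fact p.Prime] {k R 𝔽 σ : Type} [Field k] [CharP k p]
    [CommRing R] [Field 𝔽] (c : 𝔽 →+* R) (φ : R →+* k) (Q : ℕ) (N : ℕ) (hQ : Q = p ^ N)
    (hfix : ∀ a : 𝔽, a ^ Q = a) (y y' : σ → R) (θ θ' : R)
    (hy : ∀ i, φ (y' i) = φ (y i) ^ Q) (hθ : φ θ' = φ θ ^ Q)
    (H b : Polynomial (MvPolynomial σ 𝔽)) (ν : ℕ) (h f : R)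
    (hb : φ (mainEv c y' θ' b) ≠ 0)
    (h1 : mainEv c y θ b * h ^ (p ^ ν) = mainEv c y θ H)
    (h2 : mainEv c y' θ' b * f ^ (p ^ ν) = mainEv c y' θ' H) :
    φ f = φ h ^ Q := by
  have t1 := main_transfer c φ Q N hQ hfix y y' θ θ' hy hθ b
  have t2 := main_transfer c φ Q N hQ hfix y y' θ θ' hy hθ H
  rw [← h1, ← h2, map_mul, map_mul, mul_pow, ← t1, map_pow, map_pow] at t2
  have t3 := mul_left_cancel₀ hb t2
  rw [← pow_mul, mul_comm (p ^ ν) Q, pow_mul] at t3
  exact iterateFrobenius_inj k p ν (by simpa [iterateFrobenius_def] using t3)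

theorem main_fix {p : ℕ} [Fact p.Prime] (F : IntermediateField (ZMod p) (AlgebraicClosure (ZMod p)))
    [Finite F] {s : ℕ} (hs : Nat.card F = p ^ s) (a : F) (m : ℕ) : a ^ (p ^ (s * m)) = a := by
  have : Fintype F := Fintype.ofFinite F
  rw [Nat.card_eq_fintype_card] at hs
  induction m with
  | zero => simp
  | succ m ih =>
    rw [Nat.mul_succ, pow_add, pow_mul, ih, ← hs, FiniteField.pow_card]

theorem main_closed {k L : Type} [Field k] [IsAlgClosed k] [Field L] [Algebra k L] (x : L)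
    (hx : IsAlgebraic k x) : ∃ c : k, algebraMap k L c = x := by
  have hq : (minpoly k x).leadingCoeff = 1 := minpoly.monic hx.isIntegral
  have h : (minpoly k x).degree = 1 := IsAlgClosed.degree_eq_one_of_irreducible k
    (minpoly.irreducible hx.isIntegral)
  have : aeval x (minpoly k x) = 0 := minpoly.aeval k x
  rw [eq_X_add_C_of_degree_eq_one h, hq, C_1, one_mul, aeval_add, aeval_X, aeval_C,
    add_eq_zero_iff_eq_neg] at this
  exact ⟨-(minpoly k x).coeff 0, by rw [map_neg]; exact this.symm⟩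

/-- the case of transcendence degree zero -/
theorem main_zero {p : ℕ} [Fact p.Prime] {L : Type} [Field L]
    [Algebra (AlgebraicClosure (ZMod p)) L] [Algebra (ZMod p) L]
    [IsScalarTower (ZMod p) (AlgebraicClosure (ZMod p)) L] (R₀ : Subalgebra (ZMod p) L)
    {ι : Type} [Finite ι] (f h : ι → R₀)
    (hfh : SameRel (AlgebraicClosure (ZMod p)) (fun i => (f i : L)) (fun i => (h i : L)))
    (halg : ∀ r : R₀, IsAlgebraic (AlgebraicClosure (ZMod p)) (r : L)) :
    ∃ s C : ℕ, 0 < s ∧ ∀ m : ℕ, C ≤ m → ∃ φ : R₀ →ₐ[ZMod p] AlgebraicClosure (ZMod p),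
      ∀ i, φ (f i) = φ (h i) ^ (p ^ (s * m)) := by
  have hk : ∀ r : R₀, ∃ c : AlgebraicClosure (ZMod p), algebraMap _ L c = r := by
    intro r
    exact main_closed _ (halg r)
  have hinj : Function.Injective (algebraMap (AlgebraicClosure (ZMod p)) L) :=
    (algebraMap (AlgebraicClosure (ZMod p)) L).injective
  choose g hg using hk
  let φ : R₀ →ₐ[ZMod p] AlgebraicClosure (ZMod p) :=
    { toFun := g
      map_one' := hinj (by rw [hg]; simp)
      map_zero' := hinj (by rw [hg]; simp)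
      map_add' := fun x y => hinj (by rw [hg, map_add, hg, hg]; simp)
      map_mul' := fun x y => hinj (by rw [hg, map_mul, hg, hg]; simp)
      commutes' := fun r => hinj (by
        rw [hg, ← IsScalarTower.algebraMap_apply (ZMod p) (AlgebraicClosure (ZMod p)) L]; rfl) }
  have hφ : ∀ r, algebraMap (AlgebraicClosure (ZMod p)) L (φ r) = r := hg
  have hfg : ∀ i, φ (f i) = φ (h i) := by
    intro i
    have h1 := (hfh (MvPolynomial.X i - MvPolynomial.C (φ (h i)))).2 (by
      simp [hφ, ← MvPolynomial.algebraMap_eq])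
    have h2 : (f i : L) = algebraMap _ L (φ (h i)) := by
      simpa [sub_eq_zero, ← MvPolynomial.algebraMap_eq] using h1
    exact hinj (by rw [hφ, h2])
  obtain ⟨F, s, hfin, hs, hcard, hF⟩ := exists_finite_subfield (Set.range fun i => φ (h i))
    (Set.finite_range _)
  refine ⟨s, 0, hs, fun m _ => ⟨φ, fun i => ?_⟩⟩
  rw [hfg]
  have := main_fix F hcard ⟨φ (h i), hF ⟨i, rfl⟩⟩ m
  have h3 := congrArg (fun z : F => (z : AlgebraicClosure (ZMod p))) this
  simpa using h3.symm

theorem mainEv_map {σ 𝔽 k R : Type} [Field 𝔽] [Field k] [CommRing R] (j : 𝔽 →+* k) (c : k →+* R)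
    (y : σ → R) (θ : R) (P : Polynomial (MvPolynomial σ 𝔽)) :
    mainEv c y θ (P.map (MvPolynomial.map j)) = mainEv (c.comp j) y θ P := by
  simp only [mainEv, coe_eval₂RingHom, Polynomial.eval₂_map]
  congr 1
  apply MvPolynomial.ringHom_ext
  · intro a; simp
  · intro i; simp

theorem mainEv_eq {σ k L : Type} [Field k] [Field L] [Algebra k L] (y : σ → L) (θ : L)
    (P : Polynomial (MvPolynomial σ k)) :
    mainEv (algebraMap k L) y θ P = (evG y P).eval θ := by
  simp only [mainEv, coe_eval₂RingHom, evG, Polynomial.eval_map]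
  rfl

theorem mainEv_C {σ k L : Type} [Field k] [Field L] [Algebra k L] (y : σ → L) (θ : L)
    (b : MvPolynomial σ k) :
    mainEv (algebraMap k L) y θ (C b) = MvPolynomial.aeval y b := by
  simp only [mainEv, coe_eval₂RingHom, Polynomial.eval₂_C]
  rfl

/-- the constant specialisation descends -/
theorem main_const {e : ℕ} {𝔽 k : Type} [Field 𝔽] [Field k] (j : 𝔽 →+* k)
    (M' : Polynomial (MvPolynomial (Fin (e + 1)) 𝔽)) (M : Polynomial (MvPolynomial (Fin (e + 1)) k))
    (hM : M'.map (MvPolynomial.map j) = M) (M₀ : Polynomial k)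
    (h0 : M.map ((MvPolynomial.aeval (fun i => if i = Fin.last e then 0 else
      (MvPolynomial.X i : MvPolynomial (Fin (e + 1)) k)) :
      MvPolynomial (Fin (e + 1)) k →ₐ[k] MvPolynomial (Fin (e + 1)) k) :
      MvPolynomial (Fin (e + 1)) k →+* MvPolynomial (Fin (e + 1)) k) = M₀.map MvPolynomial.C) :
    (M'.map MvPolynomial.constantCoeff).map j = M₀ ∧
    M'.map ((MvPolynomial.aeval (fun i => if i = Fin.last e then 0 else
      (MvPolynomial.X i : MvPolynomial (Fin (e + 1)) 𝔽)) :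
      MvPolynomial (Fin (e + 1)) 𝔽 →ₐ[𝔽] MvPolynomial (Fin (e + 1)) 𝔽) :
      MvPolynomial (Fin (e + 1)) 𝔽 →+* MvPolynomial (Fin (e + 1)) 𝔽) =
      (M'.map MvPolynomial.constantCoeff).map MvPolynomial.C := by
  have h1 : (M'.map MvPolynomial.constantCoeff).map j = M₀ := by
    have h2 := congrArg (Polynomial.map MvPolynomial.constantCoeff) h0
    rw [Polynomial.map_map, Polynomial.map_map, ← hM, Polynomial.map_map] at h2
    have e1 : ((MvPolynomial.constantCoeff : MvPolynomial (Fin (e + 1)) k →+* k).comp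
        (MvPolynomial.C : k →+* MvPolynomial (Fin (e + 1)) k)) = RingHom.id k := by
      ext a; simp
    rw [e1, Polynomial.map_id] at h2
    rw [← h2, Polynomial.map_map]
    congr 1
    apply MvPolynomial.ringHom_ext
    · intro a; simp [← MvPolynomial.algebraMap_eq]
    · intro i
      by_cases hi : i = Fin.last e <;> simp [hi]
  refine ⟨h1, ?_⟩
  have hinj : Function.Injective (Polynomial.map (MvPolynomial.map j :
      MvPolynomial (Fin (e + 1)) 𝔽 →+* MvPolynomial (Fin (e + 1)) k)) :=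
    Polynomial.map_injective _ (MvPolynomial.map_injective _ j.injective)
  apply hinj
  rw [Polynomial.map_map, Polynomial.map_map]
  have e2 : (MvPolynomial.map j : MvPolynomial (Fin (e + 1)) 𝔽 →+* _).comp MvPolynomial.C
      = (MvPolynomial.C : k →+* MvPolynomial (Fin (e + 1)) k).comp j := by
    ext a; simp
  rw [e2, ← Polynomial.map_map j MvPolynomial.C, h1, ← h0, ← hM, Polynomial.map_map]
  congr 1
  apply MvPolynomial.ringHom_ext
  · intro a; simp [← MvPolynomial.algebraMap_eq]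
  · intro i
    by_cases hi : i = Fin.last e <;> simp [hi]

theorem main_cs_finite {σ k : Type} [Field k] (P : Polynomial (MvPolynomial σ k)) :
    {c : k | ∃ i m, (P.coeff i).coeff m = c}.Finite := by
  have : {c : k | ∃ i m, (P.coeff i).coeff m = c} ⊆
      insert 0 (⋃ i ∈ P.support, (P.coeff i).coeff '' ((P.coeff i).support : Set (σ →₀ ℕ))) := by
    rintro c ⟨i, m, rfl⟩
    by_cases h : (P.coeff i).coeff m = 0
    · left; exact h
    · right
      have h1 : P.coeff i ≠ 0 := by rintro h1; rw [h1] at h; simp at h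
      simp only [Set.mem_iUnion]
      refine ⟨i, Polynomial.mem_support_iff.2 h1, ?_⟩
      exact Set.mem_image_of_mem _ (MvPolynomial.mem_support_iff.2 h)
  refine Set.Finite.subset ?_ this
  refine Set.Finite.insert _ ?_
  refine Set.Finite.biUnion (Finset.finite_toSet _) ?_
  intro i _
  exact (Finset.finite_toSet _).image _

/-- the last step of the assembly: everything is given over a finite field `𝔽` and inside a finitely
generated algebra `R₁` -/
theorem main_final {p : ℕ} [Fact p.Prime] {L : Type} [Field L]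
    [Algebra (AlgebraicClosure (ZMod p)) L] [Algebra (ZMod p) L]
    [IsScalarTower (ZMod p) (AlgebraicClosure (ZMod p)) L]
    (R₀ R₁ : Subalgebra (ZMod p) L) (hR : R₀ ≤ R₁) (hR₁ : R₁.FG)
    {κ : Type} (F H : κ → R₀) {e : ℕ} (y y' w w' : Fin (e + 1) → L)
    (y₀ : Fin (e + 1) → AlgebraicClosure (ZMod p))
    (hw : AlgebraicIndependent (AlgebraicClosure (ZMod p)) w)
    (hw' : AlgebraicIndependent (AlgebraicClosure (ZMod p)) w')
    (hyw : ∀ i, y i = algebraMap _ L (y₀ i) + (if i = Fin.last e then w i else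
      w i * w (Fin.last e)))
    (hyw' : ∀ i, y' i = algebraMap _ L (y₀ i) + (if i = Fin.last e then w' i else
      w' i * w' (Fin.last e)))
    (𝔽 : IntermediateField (ZMod p) (AlgebraicClosure (ZMod p))) [Finite 𝔽] {s : ℕ} (hs : 0 < s)
    (hcard : Nat.card 𝔽 = p ^ s) (hy₀ : ∀ i, y₀ i ∈ 𝔽)
    (Mh : Polynomial (MvPolynomial (Fin (e + 1)) (AlgebraicClosure (ZMod p))))
    (M' : Polynomial (MvPolynomial (Fin (e + 1)) 𝔽)) {δ c0 : ℕ}
    (hMM : M'.map (MvPolynomial.map (algebraMap 𝔽 (AlgebraicClosure (ZMod p)))) = Mh)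
    (hM' : Shape δ c0 M') (G : MvPolynomial (Fin (e + 1)) 𝔽) (hG0 : G ≠ 0) (hG : IrrOff G M')
    (Θ : Fin δ → L) (hΘ : evG w Mh = ∏ i, (X - C (Θ i))) (θ' : L) (hθ' : (evG w' Mh).eval θ' = 0)
    (i0 : Fin δ)
    (ν : ℕ) (P : κ → Polynomial (MvPolynomial (Fin (e + 1)) 𝔽))
    (b : κ → Polynomial (MvPolynomial (Fin (e + 1)) 𝔽))
    (Pk : κ → Polynomial (MvPolynomial (Fin (e + 1)) (AlgebraicClosure (ZMod p))))
    (bk : κ → MvPolynomial (Fin (e + 1)) (AlgebraicClosure (ZMod p)))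
    (hP : ∀ i, (P i).map (MvPolynomial.map (algebraMap 𝔽 (AlgebraicClosure (ZMod p)))) = Pk i)
    (hb : ∀ i, (b i).map (MvPolynomial.map (algebraMap 𝔽 (AlgebraicClosure (ZMod p)))) = C (bk i))
    (hb0 : ∀ i, MvPolynomial.aeval y' (bk i) ≠ 0)
    (hrel : ∀ i, MvPolynomial.aeval y (bk i) * (H i : L) ^ (p ^ ν) = (evG y (Pk i)).eval (Θ i0))
    (hrel' : ∀ i, MvPolynomial.aeval y' (bk i) * (F i : L) ^ (p ^ ν) = (evG y' (Pk i)).eval θ')
    (m𝔽 : ∀ c : 𝔽, algebraMap (AlgebraicClosure (ZMod p)) L c ∈ R₁)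
    (mw : ∀ i, w i ∈ R₁) (mw' : ∀ i, w' i ∈ R₁) (mΘ : ∀ i, Θ i ∈ R₁) (mθ' : θ' ∈ R₁)
    (mb : ∀ i, (MvPolynomial.aeval y' (bk i))⁻¹ ∈ R₁)
    (halg : ∀ r ∈ R₁, IsAlgebraic (IntermediateField.adjoin (AlgebraicClosure (ZMod p))
      (Set.range y)) r) :
    ∃ s C : ℕ, 0 < s ∧ ∀ m : ℕ, C ≤ m → ∃ φ : R₀ →ₐ[ZMod p] AlgebraicClosure (ZMod p),
      ∀ i, φ (F i) = φ (H i) ^ (p ^ (s * m)) := by
  -- the algebra structure
  let c : 𝔽 →+* R₁ :=
    { toFun := fun a => ⟨algebraMap (AlgebraicClosure (ZMod p)) L a, m𝔽 a⟩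
      map_one' := by ext; simp
      map_zero' := by ext; simp
      map_add' := fun a b => by ext; simp
      map_mul' := fun a b => by ext; simp }
  let _ : Algebra 𝔽 R₁ := c.toAlgebra
  have hcalg : algebraMap 𝔽 R₁ = c := rfl
  have hcval : ∀ a : 𝔽, ((c a : R₁) : L) = algebraMap (AlgebraicClosure (ZMod p)) L a :=
    fun a => rfl
  have : Algebra.FiniteType (ZMod p) R₁ := (Subalgebra.fg_iff_finiteType R₁).1 hR₁
  let w₁ : Fin (e + 1) → R₁ := fun i => ⟨w i, mw i⟩
  let w₁' : Fin (e + 1) → R₁ := fun i => ⟨w' i, mw' i⟩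
  let Θ₁ : Fin δ → R₁ := fun i => ⟨Θ i, mΘ i⟩
  let θ₁' : R₁ := ⟨θ', mθ'⟩
  have hvinj : Function.Injective (R₁.val : R₁ →+* L) := Subtype.val_injective
  -- algebraic independence
  have hpk : Function.Injective (algebraMap (ZMod p) (AlgebraicClosure (ZMod p))) :=
    (algebraMap (ZMod p) (AlgebraicClosure (ZMod p))).injective
  have hw₁ : AlgebraicIndependent (ZMod p) w₁ := by
    have h1 := hw.restrictScalars hpk
    exact AlgebraicIndependent.of_comp R₁.val h1
  have hw₁' : AlgebraicIndependent (ZMod p) w₁' := by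
    have h1 := hw'.restrictScalars hpk
    exact AlgebraicIndependent.of_comp R₁.val h1
  -- evaluation of polynomials over `𝔽` in `R₁` and in `L`
  have hev : ∀ (v : Fin (e + 1) → R₁) (v' : Fin (e + 1) → L) (hv : ∀ i, (v i : L) = v' i)
      (N : Polynomial (MvPolynomial (Fin (e + 1)) 𝔽)),
      (evM v N).map (R₁.val : R₁ →+* L) =
        evG v' (N.map (MvPolynomial.map (algebraMap 𝔽 (AlgebraicClosure (ZMod p))))) := by
    intro v v' hv N
    simp only [evM, evG, Polynomial.map_map]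
    congr 1
    apply MvPolynomial.ringHom_ext
    · intro a
      simp [hcalg, hcval]
    · intro i
      simp [hv]
  have hθ₁ : evM w₁ M' = ∏ i, (X - C (Θ₁ i)) := by
    apply Polynomial.map_injective _ hvinj
    rw [hev w₁ w (fun i => rfl), hMM, hΘ, Polynomial.map_prod]
    refine Finset.prod_congr rfl fun i _ => ?_
    simp [Θ₁]
  have hθ₁' : (evM w₁' M').eval θ₁' = 0 := by
    apply hvinj
    rw [map_zero, ← hθ', ← hMM, ← hev w₁' w' (fun i => rfl), Polynomial.eval_map,
      ← Polynomial.eval₂_at_apply]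
    rfl
  -- algebraicity
  let B : Subalgebra (ZMod p) R₁ := Algebra.adjoin (ZMod p) (Set.range w₁)
  have hBw : ∀ i, IsAlgebraic B (w i) := by
    intro i
    have h1 : w i = algebraMap B L ⟨w₁ i, Algebra.subset_adjoin ⟨i, rfl⟩⟩ := rfl
    rw [h1]
    exact isAlgebraic_algebraMap _
  have hBk : ∀ a : AlgebraicClosure (ZMod p), IsAlgebraic B (algebraMap _ L a) := by
    intro a
    refine main_alg (p := p) (∅ : Set L) (by simp) _ ?_
    exact isAlgebraic_algebraMap
      (⟨algebraMap _ L a, IntermediateField.algebraMap_mem _ a⟩ :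
        IntermediateField.adjoin (AlgebraicClosure (ZMod p)) (∅ : Set L))
  have hBy : ∀ i, IsAlgebraic B (y i) := by
    intro i
    rw [hyw i]
    refine (hBk _).add ?_
    split_ifs
    · exact hBw _
    · exact (hBw _).mul (hBw _)
  have halg₁ : ∀ r : R₁, IsAlgebraic B r := by
    intro r
    have h1 : IsAlgebraic B (r : L) := by
      refine main_alg (p := p) (Set.range y) ?_ _ (halg r r.2)
      rintro _ ⟨i, rfl⟩
      exact hBy i
    exact (isAlgebraic_algebraMap_iff (A := L) (R := B) (S := R₁) Subtype.val_injective).1 h1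
  obtain ⟨C₀, hC₀⟩ := stepanov hcard w₁' w₁ hw₁' hw₁ halg₁ M' hM' G hG0 hG Θ₁ hθ₁ θ₁' hθ₁' i0
  refine ⟨s, C₀, hs, fun m hm => ?_⟩
  obtain ⟨φ, hφ1, hφ2⟩ := hC₀ m hm
  refine ⟨φ.comp (Subalgebra.inclusion hR), fun i => ?_⟩
  have mF : ∀ i, (F i : L) ∈ R₁ := fun i => hR (F i).2
  have mH : ∀ i, (H i : L) ∈ R₁ := fun i => hR (H i).2
  set Q := p ^ (s * m) with hQ
  have hfix : ∀ a : 𝔽, a ^ Q = a := fun a => main_fix 𝔽 hcard a m
  -- the elements `y`
  let cy : Fin (e + 1) → R₁ := fun i => c ⟨y₀ i, hy₀ i⟩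
  let y₁ : Fin (e + 1) → R₁ := fun i => cy i + (if i = Fin.last e then w₁ i else
      w₁ i * w₁ (Fin.last e))
  let y₁' : Fin (e + 1) → R₁ := fun i => cy i + (if i = Fin.last e then w₁' i else
      w₁' i * w₁' (Fin.last e))
  have hy₁ : ∀ i, ((y₁ i : R₁) : L) = y i := by
    intro i
    rw [hyw]
    simp only [y₁, cy]
    split_ifs <;> simp [hcval, w₁]
  have hy₁' : ∀ i, ((y₁' i : R₁) : L) = y' i := by
    intro i
    rw [hyw']
    simp only [y₁', cy]
    split_ifs <;> simp [hcval, w₁']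
  have hφc : ∀ a : 𝔽, φ (c a) = φ (c a) ^ Q := by
    intro a
    rw [← map_pow, ← map_pow, hfix]
  have hφy : ∀ i, φ (y₁' i) = φ (y₁ i) ^ Q := by
    intro i
    have h1 : φ (y₁ i) ^ Q = φ (cy i) ^ Q + φ (if i = Fin.last e then w₁ i else
      w₁ i * w₁ (Fin.last e)) ^ Q := by
      simp only [y₁, map_add, hQ]
      exact add_pow_char_pow _ _ _ _
    rw [h1, ← hφc]
    simp only [y₁', map_add]
    congr 1
    split_ifs
    · exact hφ1 _
    · rw [map_mul, map_mul, mul_pow, hφ1, hφ1]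
  -- evaluation
  have hmain : ∀ (v : Fin (e + 1) → R₁) (v' : Fin (e + 1) → L) (hv : ∀ i, (v i : L) = v' i)
      (t : R₁) (N : Polynomial (MvPolynomial (Fin (e + 1)) 𝔽)),
      ((mainEv c v t N : R₁) : L) =
        mainEv (algebraMap (AlgebraicClosure (ZMod p)) L) v' (t : L)
          (N.map (MvPolynomial.map (algebraMap 𝔽 (AlgebraicClosure (ZMod p))))) := by
    intro v v' hv t N
    rw [mainEv_map]
    have h1 := mainEv_comp c v t (R₁.val : R₁ →+* L) N
    have h2 : (fun i => (R₁.val : R₁ →+* L) (v i)) = v' := by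
      funext i; exact hv i
    rw [h2] at h1
    exact h1
  refine main_elem (p := p) c (φ : R₁ →+* AlgebraicClosure (ZMod p)) Q (s * m) hQ hfix y₁ y₁'
    (Θ₁ i0) θ₁' hφy hφ2 (P i) (b i) ν (Subalgebra.inclusion hR (H i))
    (Subalgebra.inclusion hR (F i)) ?_ ?_ ?_
  · intro h0
    have h1 : (mainEv c y₁' θ₁' (b i)) * ⟨_, mb i⟩ = 1 := by
      apply hvinj
      rw [map_mul, map_one]
      have h2 : ((R₁.val : R₁ →+* L) (mainEv c y₁' θ₁' (b i))) =
          MvPolynomial.aeval y' (bk i) := by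
        have h3 := hmain y₁' y' hy₁' θ₁' (b i)
        rw [hb, mainEv_C] at h3
        exact h3
      rw [h2]
      exact mul_inv_cancel₀ (hb0 i)
    have h2 := congrArg (φ : R₁ →+* AlgebraicClosure (ZMod p)) h1
    rw [map_mul, map_one, h0, zero_mul] at h2
    exact zero_ne_one h2
  · apply hvinj
    have h3 := hmain y₁ y hy₁ (Θ₁ i0) (b i)
    have h4 := hmain y₁ y hy₁ (Θ₁ i0) (P i)
    rw [hb, mainEv_C] at h3
    rw [hP, mainEv_eq] at h4
    have h5 := hrel i
    rw [map_mul, map_pow]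
    calc _ = MvPolynomial.aeval y (bk i) * (H i : L) ^ (p ^ ν) := by rw [← h3]; rfl
      _ = _ := by rw [h5]; exact h4.symm
  · apply hvinj
    have h3 := hmain y₁' y' hy₁' θ₁' (b i)
    have h4 := hmain y₁' y' hy₁' θ₁' (P i)
    rw [hb, mainEv_C] at h3
    rw [hP, mainEv_eq] at h4
    have h5 := hrel' i
    rw [map_mul, map_pow]
    calc _ = MvPolynomial.aeval y' (bk i) * (F i : L) ^ (p ^ ν) := by rw [← h3]; rfl
      _ = _ := by rw [h5]; exact h4.symm

/-- positive transcendence degree, algebraically closed ambient field -/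
theorem main_pos {p : ℕ} [Fact p.Prime] {L : Type} [Field L] [IsAlgClosed L]
    [Algebra (AlgebraicClosure (ZMod p)) L] [Algebra (ZMod p) L]
    [IsScalarTower (ZMod p) (AlgebraicClosure (ZMod p)) L] (R₀ : Subalgebra (ZMod p) L)
    (hR : R₀.FG) {κ : Type} [Finite κ] (F H : κ → R₀)
    (hFH : SameRel (AlgebraicClosure (ZMod p)) (fun i => (F i : L)) (fun i => (H i : L)))
    {e : ℕ} (Y : Fin (e + 1) → κ)
    (hHy : AlgebraicIndependent (AlgebraicClosure (ZMod p)) (fun i => (H (Y i) : L)))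
    (hFy : AlgebraicIndependent (AlgebraicClosure (ZMod p)) (fun i => (F (Y i) : L)))
    (halg : ∀ r : R₀, IsAlgebraic (IntermediateField.adjoin (AlgebraicClosure (ZMod p))
      (Set.range fun i => (H (Y i) : L))) (r : L)) :
    ∃ s C : ℕ, 0 < s ∧ ∀ m : ℕ, C ≤ m → ∃ φ : R₀ →ₐ[ZMod p] AlgebraicClosure (ZMod p),
      ∀ i, φ (F i) = φ (H i) ^ (p ^ (s * m)) := by
  obtain ⟨ν, M, Hh, b, θ, θ', hM, hmin, ⟨A, B, D, hD, hbez⟩, hθ, hθ', hrel⟩ :=
    exists_prim (p := p) (fun i => (F i : L)) (fun i => (H i : L)) hFH Y hHy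
      (fun i => halg (H i))
  set y : Fin (e + 1) → L := fun i => (H (Y i) : L) with hy
  set y' : Fin (e + 1) → L := fun i => (F (Y i) : L) with hy'
  obtain ⟨y₀, hy₀⟩ := main_point D hD
  -- `M₀`
  have hM₀ : (evG y₀ M).Monic := hM.map _
  have hdeg0 : M.natDegree ≠ 0 := by
    intro h0
    have h1 : M = 1 := Polynomial.eq_one_of_monic_natDegree_zero hM h0
    rw [h1] at hθ
    simp [evG] at hθ
  have hM₀deg : (evG y₀ M).natDegree = M.natDegree := hM.natDegree_map _
  obtain ⟨θ₀, hθ₀⟩ := IsAlgClosed.exists_root (evG y₀ M) (by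
    intro h
    rw [Polynomial.degree_eq_natDegree hM₀.ne_zero, hM₀deg] at h
    exact hdeg0 (by exact_mod_cast h))
  have hsimple : (derivative (evG y₀ M)).eval θ₀ ≠ 0 := by
    intro h0
    have h1 := congrArg (fun P => (evG y₀ P).eval θ₀) hbez
    simp only [evG, Polynomial.map_add, Polynomial.map_mul, Polynomial.eval_add,
      Polynomial.eval_mul, Polynomial.map_C, Polynomial.eval_C] at h1
    rw [← Polynomial.derivative_map] at h1
    have h2 : (Polynomial.map ((MvPolynomial.aeval y₀ : MvPolynomial (Fin (e + 1))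
      (AlgebraicClosure (ZMod p)) →ₐ[_] _) : MvPolynomial (Fin (e + 1))
      (AlgebraicClosure (ZMod p)) →+* AlgebraicClosure (ZMod p)) M).eval θ₀ = 0 := hθ₀
    have h3 : (derivative (Polynomial.map ((MvPolynomial.aeval y₀ : MvPolynomial (Fin (e + 1))
      (AlgebraicClosure (ZMod p)) →ₐ[_] _) : MvPolynomial (Fin (e + 1))
      (AlgebraicClosure (ZMod p)) →+* AlgebraicClosure (ZMod p)) M)).eval θ₀ = 0 := h0
    rw [h2, h3, mul_zero, mul_zero, add_zero] at h1
    exact hy₀ h1.symm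
  -- blow up
  obtain ⟨hb1, hb2, hb3, hb4, hb5, hb6, hb7⟩ := blow_facts M hM y₀ y hHy
  obtain ⟨-, -, hc3, hc4, hc5, hc6, -⟩ := blow_facts M hM y₀ y' hFy
  have hirr : Irreducible (blowM y₀ M) := blow_irreducible M hM y₀ y hHy θ hθ hmin
  -- the finite field
  obtain ⟨𝔽, s, hfin, hs, hcard, hS⟩ := exists_finite_subfield
    ({c | ∃ i m, ((blowM y₀ M).coeff i).coeff m = c} ∪
      (⋃ i, {c | ∃ j m, ((Hh i).coeff j).coeff m = c}) ∪
      (⋃ i, {c | ∃ j m, ((C (b i) : Polynomial (MvPolynomial (Fin (e + 1))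
        (AlgebraicClosure (ZMod p)))).coeff j).coeff m = c}) ∪ Set.range y₀ ∪ {θ₀})
    (by
      refine (((main_cs_finite _).union (Set.finite_iUnion fun i => main_cs_finite _)).union
        (Set.finite_iUnion fun i => main_cs_finite _)).union (Set.finite_range _) |>.union
        (Set.finite_singleton _))
  obtain ⟨M', hM'1, hM'2, hM'3, hM'4⟩ := exists_descend 𝔽 (blowM y₀ M) (fun i m =>
    hS (Or.inl (Or.inl (Or.inl (Or.inl ⟨i, m, rfl⟩)))))
  have hPd := fun i => exists_descend 𝔽 (Hh i) (fun j m =>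
    hS (Or.inl (Or.inl (Or.inl (Or.inr (Set.mem_iUnion.2 ⟨i, j, m, rfl⟩))))))
  have hbd := fun i => exists_descend 𝔽 (C (b i)) (fun j m =>
    hS (Or.inl (Or.inl (Or.inr (Set.mem_iUnion.2 ⟨i, j, m, rfl⟩)))))
  choose P hP _ _ _ using hPd
  choose b' hb' _ _ _ using hbd
  have hy₀𝔽 : ∀ i, y₀ i ∈ 𝔽 := fun i => hS (Or.inl (Or.inr ⟨i, rfl⟩))
  have hθ₀𝔽 : θ₀ ∈ 𝔽 := hS (Or.inr rfl)
  -- absolute irreducibility
  obtain ⟨hk1, hk2⟩ := main_const (algebraMap 𝔽 (AlgebraicClosure (ZMod p))) M' (blowM y₀ M) hM'1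
    (evG y₀ M) hb7
  obtain ⟨G, hG0, hG⟩ := exists_irrOff M' (hM'3 hb1) (hM'4 hb1 hirr) _ hk2 ⟨θ₀, hθ₀𝔽⟩
    (by
      apply (algebraMap 𝔽 (AlgebraicClosure (ZMod p))).injective
      rw [map_zero, ← Polynomial.eval₂_at_apply, ← Polynomial.eval_map, hk1]
      exact hθ₀)
    (by
      intro h0
      apply hsimple
      rw [← hk1, Polynomial.derivative_map, Polynomial.eval_map]
      have h1 := congrArg (algebraMap 𝔽 (AlgebraicClosure (ZMod p))) h0
      rw [map_zero, ← Polynomial.eval₂_at_apply] at h1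
      exact h1)
  obtain ⟨c0, hc0⟩ := main_shape M' (hM'3 hb1)
  -- the roots
  have hMy : (evG y M).Monic := hM.map _
  obtain ⟨Θ, hΘ⟩ := main_split (evG y M) hMy (δ := M'.natDegree) (by
    rw [hM'2, hb2]; exact hM.natDegree_map _)
  have hi0 : ∃ i0, Θ i0 = θ := by
    rw [hΘ, Polynomial.eval_prod, Finset.prod_eq_zero_iff] at hθ
    obtain ⟨i, -, hi⟩ := hθ
    refine ⟨i, ?_⟩
    simp only [Polynomial.eval_sub, Polynomial.eval_X, Polynomial.eval_C] at hi
    exact (sub_eq_zero.1 hi).symm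
  obtain ⟨i0, hi0⟩ := hi0
  -- the algebra `R₁`
  obtain ⟨T₀, hT₀⟩ := hR
  set T₁ : Set L := (fun c : 𝔽 => algebraMap (AlgebraicClosure (ZMod p)) L c) '' Set.univ ∪
    Set.range (blowPt y₀ y) ∪ Set.range (blowPt y₀ y') ∪ Set.range Θ ∪ {θ'} ∪
    Set.range (fun i => (MvPolynomial.aeval y' (b i))⁻¹) with hT₁
  have hT₁fin : T₁.Finite := by
    have : Finite 𝔽 := hfin
    exact (((((Set.finite_univ.image _).union (Set.finite_range _)).union
      (Set.finite_range _)).union (Set.finite_range _)).union (Set.finite_singleton _)).union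
      (Set.finite_range _)
  let R₁ : Subalgebra (ZMod p) L := Algebra.adjoin (ZMod p) ((T₀ : Set L) ∪ T₁)
  have hR₀₁ : R₀ ≤ R₁ := by
    rw [← hT₀]
    exact Algebra.adjoin_mono Set.subset_union_left
  have hT₁R : T₁ ⊆ R₁ := fun x hx => Algebra.subset_adjoin (Or.inr hx)
  have hR₁ : R₁.FG := Subalgebra.fg_def.2 ⟨_, (T₀.finite_toSet.union hT₁fin), rfl⟩
  -- algebraicity
  set K := IntermediateField.adjoin (AlgebraicClosure (ZMod p)) (Set.range y) with hK
  let 𝒞 : IntermediateField K L := algebraicClosure K L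
  have hmem : ∀ x : L, x ∈ 𝒞 ↔ IsAlgebraic K x := fun x => mem_algebraicClosure_iff
  have hkC : ∀ a : AlgebraicClosure (ZMod p), algebraMap _ L a ∈ 𝒞 := by
    intro a
    rw [hmem]
    exact isAlgebraic_algebraMap (⟨algebraMap _ L a, IntermediateField.algebraMap_mem _ a⟩ : K)
  have hyC : ∀ i, y i ∈ 𝒞 := fun i => (hmem _).2 (halg _)
  have hyC' : ∀ i, y' i ∈ 𝒞 := fun i => (hmem _).2 (halg _)
  have hblC : ∀ v : Fin (e + 1) → L, (∀ i, v i ∈ 𝒞) → ∀ i, blowPt y₀ v i ∈ 𝒞 := by
    intro v hv i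
    simp only [blowPt]
    split_ifs
    · exact sub_mem (hv _) (hkC _)
    · exact div_mem (sub_mem (hv _) (hkC _)) (sub_mem (hv _) (hkC _))
  have haevC : ∀ v : Fin (e + 1) → L, (∀ i, v i ∈ 𝒞) →
      ∀ N : MvPolynomial (Fin (e + 1)) (AlgebraicClosure (ZMod p)),
        MvPolynomial.aeval v N ∈ 𝒞 := by
    intro v hv N
    induction N using MvPolynomial.induction_on with
    | C a => simpa [← MvPolynomial.algebraMap_eq] using hkC a
    | add P Q hP hQ => rw [map_add]; exact add_mem hP hQ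
    | mul_X P i hP => rw [map_mul, MvPolynomial.aeval_X]; exact mul_mem hP (hv i)
  have hrootC : ∀ v : Fin (e + 1) → L, (∀ i, v i ∈ 𝒞) → ∀ t : L, (evG v M).eval t = 0 →
      t ∈ 𝒞 := by
    intro v hv t ht
    have h1 : IsAlgebraic 𝒞 t := by
      let g : MvPolynomial (Fin (e + 1)) (AlgebraicClosure (ZMod p)) →+* 𝒞 :=
        { toFun := fun N => ⟨MvPolynomial.aeval v N, haevC v hv N⟩
          map_one' := by ext; simp
          map_zero' := by ext; simp
          map_add' := fun a b => by ext; simp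
          map_mul' := fun a b => by ext; simp }
      refine ⟨M.map g, (hM.map g).ne_zero, ?_⟩
      rw [Polynomial.aeval_def, Polynomial.eval₂_map]
      rw [evG, Polynomial.eval_map] at ht
      exact ht
    exact (hmem _).2 (h1.restrictScalars K)
  have hT₁C : T₁ ⊆ 𝒞 := by
    rintro x (((((⟨c, -, rfl⟩ | ⟨i, rfl⟩) | ⟨i, rfl⟩) | ⟨i, rfl⟩) | rfl) | ⟨i, rfl⟩)
    · exact hkC _
    · exact hblC _ hyC _
    · exact hblC _ hyC' _
    · refine hrootC y hyC _ ?_
      rw [hΘ, Polynomial.eval_prod]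
      exact Finset.prod_eq_zero (Finset.mem_univ i) (by simp)
    · exact hrootC y' hyC' _ hθ'
    · exact inv_mem (haevC _ hyC' _)
  have hR₁C : ∀ r ∈ R₁, r ∈ 𝒞 := by
    intro r hr
    induction hr using Algebra.adjoin_induction with
    | mem x hx =>
      rcases hx with hx | hx
      · have hx' : x ∈ R₀ := by rw [← hT₀]; exact Algebra.subset_adjoin hx
        exact (hmem _).2 (halg ⟨x, hx'⟩)
      · exact hT₁C hx
    | algebraMap c =>
      rw [IsScalarTower.algebraMap_apply (ZMod p) (AlgebraicClosure (ZMod p)) L]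
      exact hkC _
    | add x y _ _ h1 h2 => exact add_mem h1 h2
    | mul x y _ _ h1 h2 => exact mul_mem h1 h2
  refine main_final R₀ R₁ hR₀₁ hR₁ F H y y' (blowPt y₀ y) (blowPt y₀ y') y₀ hb3 hc3 hb6 hc6 𝔽 hs
    hcard hy₀𝔽 (blowM y₀ M) M' hM'1 hc0 G hG0 hG Θ (by rw [hb5, hΘ]) θ' (by rw [hc5]; exact hθ') i0
    ν P b' Hh b hP hb' ?_ ?_ ?_ ?_ ?_ ?_ ?_ ?_ ?_ ?_
  · intro i h0
    exact (hrel i).1 ((hFy.eq_zero_of_aeval_eq_zero _ h0))
  · intro i; rw [hi0]; exact (hrel i).2.1
  · intro i; exact (hrel i).2.2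
  · intro c; exact hT₁R (Or.inl (Or.inl (Or.inl (Or.inl (Or.inl ⟨c, Set.mem_univ _, rfl⟩)))))
  · intro i; exact hT₁R (Or.inl (Or.inl (Or.inl (Or.inl (Or.inr ⟨i, rfl⟩)))))
  · intro i; exact hT₁R (Or.inl (Or.inl (Or.inl (Or.inr ⟨i, rfl⟩))))
  · intro i; exact hT₁R (Or.inl (Or.inl (Or.inr ⟨i, rfl⟩)))
  · exact hT₁R (Or.inl (Or.inr rfl))
  · intro i; exact hT₁R (Or.inr ⟨i, rfl⟩)
  · intro r hr; exact (hmem r).1 (hR₁C r hr)

/-- Theorem (H) inside an algebraically closed field -/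
theorem main_closed_case {p : ℕ} [Fact p.Prime] {L : Type} [Field L] [IsAlgClosed L]
    [Algebra (AlgebraicClosure (ZMod p)) L] [Algebra (ZMod p) L]
    [IsScalarTower (ZMod p) (AlgebraicClosure (ZMod p)) L] (R₀ : Subalgebra (ZMod p) L)
    (hR : R₀.FG) {ι : Type} [Finite ι] (f h : ι → R₀)
    (hfh : SameRel (AlgebraicClosure (ZMod p)) (fun i => (f i : L)) (fun i => (h i : L))) :
    ∃ s C : ℕ, 0 < s ∧ ∀ m : ℕ, C ≤ m → ∃ φ : R₀ →ₐ[ZMod p] AlgebraicClosure (ZMod p),
      ∀ i, φ (f i) = φ (h i) ^ (p ^ (s * m)) := by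
  obtain ⟨κ, hκ, F, H, j, n, Y, hj, hFH, hHy, hFy, halg⟩ :=
    exists_complete (p := p) R₀ hR f h hfh
  have key : ∃ s C : ℕ, 0 < s ∧ ∀ m : ℕ, C ≤ m →
      ∃ φ : R₀ →ₐ[ZMod p] AlgebraicClosure (ZMod p),
      ∀ i, φ (F i) = φ (H i) ^ (p ^ (s * m)) := by
    rcases n with _ | e
    · refine main_zero R₀ F H hFH fun r => ?_
      have h1 := halg r
      have h2 : (Set.range fun i : Fin 0 => (H (Y i) : L)) = ∅ := Set.range_eq_empty _
      rw [h2] at h1
      rw [IntermediateField.adjoin_empty] at h1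
      have : Algebra.IsAlgebraic (AlgebraicClosure (ZMod p))
          (⊥ : IntermediateField (AlgebraicClosure (ZMod p)) L) := ⟨fun x => by
        obtain ⟨c, hc⟩ := IntermediateField.mem_bot.1 x.2
        have h3 : x = algebraMap (AlgebraicClosure (ZMod p)) _ c := by
          apply Subtype.ext
          rw [← hc]; rfl
        rw [h3]
        exact isAlgebraic_algebraMap c⟩
      exact h1.restrictScalars (AlgebraicClosure (ZMod p))
    · exact main_pos R₀ hR F H hFH Y hHy hFy halg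
  obtain ⟨s, C, hs, hC⟩ := key
  refine ⟨s, C, hs, fun m hm => ?_⟩
  obtain ⟨φ, hφ⟩ := hC m hm
  refine ⟨φ, fun i => ?_⟩
  rw [← (hj i).1, ← (hj i).2]
  exact hφ (j i)

/-- **Theorem (H)** -/
theorem twisted {p : ℕ} [Fact p.Prime] {L : Type} [Field L]
    [Algebra (AlgebraicClosure (ZMod p)) L] [Algebra (ZMod p) L]
    [IsScalarTower (ZMod p) (AlgebraicClosure (ZMod p)) L] (R₀ : Subalgebra (ZMod p) L)
    (hR : R₀.FG) {ι : Type} [Finite ι] (f h : ι → R₀)
    (hfh : SameRel (AlgebraicClosure (ZMod p)) (fun i => (f i : L)) (fun i => (h i : L))) :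
    ∃ s C : ℕ, 0 < s ∧ ∀ m : ℕ, C ≤ m → ∃ φ : R₀ →ₐ[ZMod p] AlgebraicClosure (ZMod p),
      ∀ i, φ (f i) = φ (h i) ^ (p ^ (s * m)) := by
  let ψ : L →ₐ[ZMod p] AlgebraicClosure L :=
    IsScalarTower.toAlgHom (ZMod p) L (AlgebraicClosure L)
  have hψ : ∀ x, ψ x = algebraMap L (AlgebraicClosure L) x := fun x => rfl
  have hψinj : Function.Injective ψ := (algebraMap L (AlgebraicClosure L)).injective
  let R : Subalgebra (ZMod p) (AlgebraicClosure L) := R₀.map ψ
  let eqv : R₀ ≃ₐ[ZMod p] R := Subalgebra.equivMapOfInjective R₀ ψ hψinj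
  have heqv : ∀ r : R₀, ((eqv r : R) : AlgebraicClosure L) = algebraMap L _ (r : L) := fun r => rfl
  have hrel : SameRel (AlgebraicClosure (ZMod p))
      (fun i => ((eqv (f i) : R) : AlgebraicClosure L))
      (fun i => ((eqv (h i) : R) : AlgebraicClosure L)) := by
    intro P
    have h1 : ∀ g : ι → R₀, MvPolynomial.aeval
        (fun i => ((eqv (g i) : R) : AlgebraicClosure L)) P =
        algebraMap L (AlgebraicClosure L) (MvPolynomial.aeval (fun i => (g i : L)) P) := by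
      intro g
      exact MvPolynomial.aeval_algebraMap_apply (AlgebraicClosure L) (fun i => (g i : L)) P
    have hinj : Function.Injective (algebraMap L (AlgebraicClosure L)) :=
      (algebraMap L (AlgebraicClosure L)).injective
    rw [h1 f, h1 h, map_eq_zero_iff _ hinj, map_eq_zero_iff _ hinj]
    exact hfh P
  obtain ⟨s, C, hs, hC⟩ := main_closed_case R (hR.map ψ) (fun i => eqv (f i))
    (fun i => eqv (h i)) hrel
  refine ⟨s, C, hs, fun m hm => ?_⟩
  obtain ⟨φ, hφ⟩ := hC m hm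
  exact ⟨φ.comp eqv.toAlgHom, fun i => hφ i⟩

end Pool.Agent.TLW
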