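import Pool.Agent.TLW.Defs

set_option autoImplicit false

namespace Pool.Agent.TLW

open Polynomial Pool.Agent.LFZ

section

variable {k E : Type} [Field k] [Field E] [Algebra k E]

theorem exists_R (e δ : ℕ) (hδ : 1 ≤ δ) :
    ∃ R : ℕ, 2 ≤ R ∧ (e * R + 1) ^ e * (6 * δ) ^ (R - 1) ≤ (6 * δ + 1) ^ (R - 1) := by
  have hδ' : (0 : ℝ) < 6 * δ := by
    have : (1 : ℝ) ≤ δ := by exact_mod_cast hδ
    linarith
  set r : ℝ := (6 * δ + 1) / (6 * δ) with hr
  have hr1 : 1 < r := by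
    rw [hr, one_lt_div hδ']
    linarith
  have hr0 : 0 < r := by linarith
  have hT := tendsto_pow_const_div_const_pow_of_one_lt e hr1
  have hpos : (0 : ℝ) < 1 / ((e + 1) ^ e * r) := by positivity
  have hev := (hT.eventually (gt_mem_nhds hpos)).and (Filter.eventually_ge_atTop 2)
  obtain ⟨R, hR1, hR2⟩ := hev.exists
  refine ⟨R, hR2, ?_⟩
  have hRpow : 0 < r ^ R := by positivity
  have h1 : (R : ℝ) ^ e * ((e + 1) ^ e * r) < r ^ R := by
    rw [div_lt_div_iff₀ hRpow (by positivity)] at hR1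
    linarith
  have hR2' : (2 : ℝ) ≤ R := by exact_mod_cast hR2
  have h2 : ((e : ℝ) * R + 1) ^ e ≤ (R : ℝ) ^ e * (e + 1) ^ e := by
    rw [← mul_pow]
    apply pow_le_pow_left₀ (by positivity)
    nlinarith [(Nat.cast_nonneg e : (0 : ℝ) ≤ e)]
  have h3 : r ^ R = r ^ (R - 1) * r := by
    rw [← pow_succ]
    congr 1
    omega
  have h4 : ((e : ℝ) * R + 1) ^ e ≤ r ^ (R - 1) := by
    have h5 : ((e : ℝ) * R + 1) ^ e * r < r ^ (R - 1) * r := by
      rw [← h3]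
      calc ((e : ℝ) * R + 1) ^ e * r ≤ ((R : ℝ) ^ e * (e + 1) ^ e) * r :=
            mul_le_mul_of_nonneg_right h2 hr0.le
        _ = (R : ℝ) ^ e * ((e + 1) ^ e * r) := by ring
        _ < r ^ R := h1
    exact (lt_of_mul_lt_mul_right h5 hr0.le).le
  have h6 : ((e : ℝ) * R + 1) ^ e * (6 * δ) ^ (R - 1) ≤ (6 * δ + 1) ^ (R - 1) := by
    calc ((e : ℝ) * R + 1) ^ e * (6 * δ) ^ (R - 1) ≤ r ^ (R - 1) * (6 * δ) ^ (R - 1) :=
          mul_le_mul_of_nonneg_right h4 (by positivity)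
      _ = (6 * δ + 1) ^ (R - 1) := by
          rw [← mul_pow, hr, div_mul_cancel₀ _ hδ'.ne']
  exact_mod_cast h6

end

section

theorem count_ineq {δ c0 B A Q' dn dm : ℕ} (hδ : 1 ≤ δ) (hc0 : 1 ≤ c0)
    (hB : B = 4 * δ * (c0 * δ + 1)) (hA : (2 * δ + 1) * Q' < 2 * δ ^ 2 * (A + 1))
    (h : 6 * δ * dm ≤ (6 * δ + 1) * dn) (hdn : 0 < dn) :
    δ * (A + 1 + (B - 1 + c0 * δ) * Q') * dm < B * δ * ((A + 1) * δ) * dn := by
  have hB1 : 1 ≤ B := by
    rw [hB]
    have : 0 < 4 * δ * (c0 * δ + 1) := by positivity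
    omega
  obtain ⟨b, hb⟩ : ∃ b, B = b + 1 := ⟨B - 1, by omega⟩
  have hb' : B - 1 = b := by omega
  rw [hb']
  have hc1 : 1 ≤ c0 * δ := Nat.one_le_iff_ne_zero.2 (by positivity)
  generalize c0 * δ = c at *
  generalize hadef : A + 1 = a at *
  -- pass to integers
  have hδZ : (1 : ℤ) ≤ δ := by exact_mod_cast hδ
  have hcZ : (1 : ℤ) ≤ c := by exact_mod_cast hc1
  have hBZ : (b : ℤ) + 1 = 4 * δ * (c + 1) := by
    rw [hb] at hB
    exact_mod_cast hB
  have hAZ : (2 * (δ : ℤ) + 1) * Q' < 2 * (δ : ℤ) ^ 2 * a := by exact_mod_cast hA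
  have hhZ : 6 * (δ : ℤ) * dm ≤ (6 * δ + 1) * dn := by exact_mod_cast h
  have hdnZ : (0 : ℤ) < dn := by exact_mod_cast hdn
  have hqZ : (0 : ℤ) ≤ Q' := Int.natCast_nonneg _
  have haZ : (0 : ℤ) ≤ a := Int.natCast_nonneg _
  have hbZ : (0 : ℤ) ≤ b := Int.natCast_nonneg _
  suffices hmain : (δ : ℤ) * (a + (b + c) * Q') * dm < (b + 1) * δ * (a * δ) * dn by
    rw [hb]
    exact_mod_cast hmain
  generalize (δ : ℤ) = d at *
  generalize (c : ℤ) = c at *
  generalize (b : ℤ) = b at *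
  generalize (a : ℤ) = a at *
  generalize (Q' : ℤ) = q at *
  generalize (dn : ℤ) = n at *
  generalize (dm : ℤ) = m at *
  have hd2 : d ≤ d ^ 2 := by nlinarith
  have hd3 : d ^ 2 ≤ d ^ 3 := by nlinarith [sq_nonneg d]
  have hK : 0 < 6 * d ^ 2 * (b + 1) - 6 * d - 1 := by
    rw [hBZ]
    have : d ^ 3 * (c + 1) ≥ d ^ 3 * 2 := by
      apply mul_le_mul_of_nonneg_left (by linarith) (by positivity)
    nlinarith
  have key1 : 2 * d ^ 2 * ((6 * d + 1) * (b + c)) ≤ (2 * d + 1) * (6 * d ^ 2 * (b + 1) - 6 * d - 1) := by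
    have hb2 : b = 4 * d * (c + 1) - 1 := by linarith
    rw [hb2]
    have e1 : (2 * d + 1) * (6 * d ^ 2 * (4 * d * (c + 1) - 1 + 1) - 6 * d - 1)
        - 2 * d ^ 2 * ((6 * d + 1) * (4 * d * (c + 1) - 1 + c))
        = (4 * d ^ 3 * c - 2 * d ^ 2 * c) + 28 * d ^ 3 - 10 * d ^ 2 - 8 * d - 1 := by ring
    have e2 : d ^ 2 * c ≤ d ^ 3 * c := mul_le_mul_of_nonneg_right hd3 (by linarith)
    have e3 : 0 ≤ d ^ 2 * c := by positivity
    nlinarith
  have hd2pos : 0 < 2 * d ^ 2 := by positivity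
  have key2 : (6 * d + 1) * (b + c) * q < a * (6 * d ^ 2 * (b + 1) - 6 * d - 1) := by
    have e1 : 2 * d ^ 2 * ((6 * d + 1) * (b + c) * q)
        ≤ (2 * d + 1) * q * (6 * d ^ 2 * (b + 1) - 6 * d - 1) := by
      calc 2 * d ^ 2 * ((6 * d + 1) * (b + c) * q) = 2 * d ^ 2 * ((6 * d + 1) * (b + c)) * q := by ring
        _ ≤ (2 * d + 1) * (6 * d ^ 2 * (b + 1) - 6 * d - 1) * q :=
            mul_le_mul_of_nonneg_right key1 hqZ
        _ = (2 * d + 1) * q * (6 * d ^ 2 * (b + 1) - 6 * d - 1) := by ring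
    have e2 : (2 * d + 1) * q * (6 * d ^ 2 * (b + 1) - 6 * d - 1)
        < 2 * d ^ 2 * a * (6 * d ^ 2 * (b + 1) - 6 * d - 1) := mul_lt_mul_of_pos_right hAZ hK
    have e3 : 2 * d ^ 2 * ((6 * d + 1) * (b + c) * q)
        < 2 * d ^ 2 * (a * (6 * d ^ 2 * (b + 1) - 6 * d - 1)) := by
      calc _ < 2 * d ^ 2 * a * (6 * d ^ 2 * (b + 1) - 6 * d - 1) := lt_of_le_of_lt e1 e2
        _ = _ := by ring
    exact lt_of_mul_lt_mul_left e3 hd2pos.le
  have key3 : (6 * d + 1) * (a + (b + c) * q) < 6 * d ^ 2 * (b + 1) * a := by nlinarith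
  have key4 : 6 * d * (d * (a + (b + c) * q) * m) < 6 * d * ((b + 1) * d * (a * d) * n) := by
    calc 6 * d * (d * (a + (b + c) * q) * m) = d * (a + (b + c) * q) * (6 * d * m) := by ring
      _ ≤ d * (a + (b + c) * q) * ((6 * d + 1) * n) := by
          apply mul_le_mul_of_nonneg_left hhZ
          have : 0 ≤ (b + c) * q := mul_nonneg (by linarith) hqZ
          exact mul_nonneg (by linarith) (by linarith)
      _ = d * n * ((6 * d + 1) * (a + (b + c) * q)) := by ring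
      _ < d * n * (6 * d ^ 2 * (b + 1) * a) := by
          apply mul_lt_mul_of_pos_left key3
          exact mul_pos (by linarith) hdnZ
      _ = 6 * d * ((b + 1) * d * (a * d) * n) := by ring
  exact lt_of_mul_lt_mul_left key4 (by linarith)

end

end Pool.Agent.TLW
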