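import Pool.Agent.TLW.Defs

set_option autoImplicit false

namespace Pool.Agent.TLW

open Polynomial Pool.Agent.LFZ

section

variable {k E ι : Type} [Field k] [Field E] [Algebra k E] [Fintype ι]

theorem box_mono {z : ι → E} {d d' : ι → ℕ} (h : ∀ i, d i ≤ d' i) : Box k z d ≤ Box k z d' := by
  refine Submodule.span_mono ?_
  rintro y ⟨α, hα, rfl⟩
  exact ⟨α, fun i => (hα i).trans (h i), rfl⟩

theorem box_algebraMap (z : ι → E) (d : ι → ℕ) (c : k) : algebraMap k E c ∈ Box k z d := by
  have h1 : (1 : E) ∈ Box k z d := by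
    refine Submodule.subset_span ⟨fun _ => 0, fun _ => Nat.zero_le _, ?_⟩
    simp
  rw [Algebra.algebraMap_eq_smul_one]
  exact Submodule.smul_mem _ _ h1

theorem box_self (z : ι → E) (d : ι → ℕ) (i : ι) (h : 1 ≤ d i) : z i ∈ Box k z d := by
  classical
  refine Submodule.subset_span ⟨fun j => if j = i then 1 else 0, fun j => ?_, ?_⟩
  · by_cases hj : j = i
    · subst hj
      simpa using h
    · simp [hj]
  · rw [Finset.prod_eq_single i]
    · simp
    · intro j _ hj
      simp [hj]
    · intro h
      exact absurd (Finset.mem_univ i) h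

theorem box_mul {z : ι → E} {d d' : ι → ℕ} {a b : E} (ha : a ∈ Box k z d) (hb : b ∈ Box k z d') :
    a * b ∈ Box k z (fun i => d i + d' i) := by
  have h1 := Submodule.mul_mem_mul ha hb
  rw [Box, Box, Submodule.span_mul_span] at h1
  refine Submodule.span_le.2 ?_ h1
  rintro y hy
  rw [Set.mem_mul] at hy
  obtain ⟨u, ⟨α, hα, rfl⟩, v, ⟨α', hα', rfl⟩, rfl⟩ := hy
  refine Submodule.subset_span ⟨fun i => α i + α' i, fun i => add_le_add (hα i) (hα' i), ?_⟩
  rw [← Finset.prod_mul_distrib]
  exact Finset.prod_congr rfl fun i _ => (pow_add _ _ _).symm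

theorem box_pow {z : ι → E} {d : ι → ℕ} {a : E} (ha : a ∈ Box k z d) (n : ℕ) :
    a ^ n ∈ Box k z (fun i => n * d i) := by
  induction n with
  | zero =>
    rw [pow_zero, ← map_one (algebraMap k E)]
    exact box_algebraMap _ _ _
  | succ n ih =>
    rw [pow_succ]
    have := box_mul ih ha
    refine box_mono (fun i => ?_) this
    exact le_of_eq (by ring)

theorem box_prod {z : ι → E} {J : Type} (s : Finset J) (d : J → ι → ℕ) (a : J → E)
    (ha : ∀ j ∈ s, a j ∈ Box k z (d j)) : ∏ j ∈ s, a j ∈ Box k z (fun i => ∑ j ∈ s, d j i) := by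
  classical
  induction s using Finset.induction_on with
  | empty =>
    rw [Finset.prod_empty, ← map_one (algebraMap k E)]
    exact box_algebraMap _ _ _
  | insert j s hj ih =>
    rw [Finset.prod_insert hj]
    have h1 := box_mul (ha j (Finset.mem_insert_self _ _))
      (ih fun i hi => ha i (Finset.mem_insert_of_mem hi))
    refine box_mono (fun i => ?_) h1
    rw [Finset.sum_insert hj]

/-- Frobenius powers -/
theorem box_frob {p : ℕ} [Fact p.Prime] [CharP E p] {z : ι → E} {d : ι → ℕ} {a : E}
    (ha : a ∈ Box k z d) (μ : ℕ) : a ^ (p ^ μ) ∈ Box k (fun i => z i ^ (p ^ μ)) d := by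
  rw [Box] at ha
  induction ha using Submodule.span_induction with
  | mem y hy =>
    obtain ⟨α, hα, rfl⟩ := hy
    refine Submodule.subset_span ⟨α, hα, ?_⟩
    rw [← Finset.prod_pow]
    exact Finset.prod_congr rfl fun i _ => by rw [← pow_mul, ← pow_mul, mul_comm]
  | zero =>
    rw [zero_pow (pow_pos (Fact.out : p.Prime).pos _).ne']
    exact Submodule.zero_mem _
  | add x y _ _ hx hy =>
    rw [add_pow_char_pow]
    exact Submodule.add_mem _ hx hy
  | smul c x _ hx =>
    rw [_root_.smul_pow]
    exact Submodule.smul_mem _ _ hx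

/-- substitution -/
theorem box_subst {ι' : Type} [Fintype ι'] {z : ι → E} {d : ι → ℕ} {z' : ι' → E}
    (D : ι → ι' → ℕ) (hz : ∀ i, z i ∈ Box k z' (D i)) {a : E} (ha : a ∈ Box k z d) :
    a ∈ Box k z' (fun j => ∑ i, d i * D i j) := by
  have h1 : Box k z d ≤ Box k z' (fun j => ∑ i, d i * D i j) := by
    refine Submodule.span_le.2 ?_
    rintro y ⟨α, hα, rfl⟩
    have h2 := box_prod (z := z') Finset.univ (fun i j => α i * D i j) (fun i => z i ^ α i)
      (fun i _ => box_pow (hz i) (α i))
    exact box_mono (fun j => Finset.sum_le_sum fun i _ => Nat.mul_le_mul_right _ (hα i)) h2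
  exact h1 ha

/-- Moebius change: if `w ∈ Box z d` then `∏ Z^d * w ∈ Box Z d` with `Z = 1 / (z - b)` -/
theorem box_moeb {z : ι → E} {d : ι → ℕ} (b : k) (hb : ∀ i, z i ≠ algebraMap k E b) {a : E}
    (ha : a ∈ Box k z d) :
    (∏ i, ((z i - algebraMap k E b)⁻¹) ^ d i) * a ∈ Box k (fun i => (z i - algebraMap k E b)⁻¹) d
    := by
  classical
  rw [Box] at ha
  induction ha using Submodule.span_induction with
  | mem y hy =>
    obtain ⟨α, hα, rfl⟩ := hy
    set Z : ι → E := fun i => (z i - algebraMap k E b)⁻¹ with hZ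
    have h1 : (∏ i, ((z i - algebraMap k E b)⁻¹) ^ d i) * ∏ i, z i ^ α i =
        ∏ i, (Z i ^ (d i - α i) * (1 + algebraMap k E b * Z i) ^ α i) := by
      rw [← Finset.prod_mul_distrib]
      refine Finset.prod_congr rfl fun i _ => ?_
      have h2 : d i = (d i - α i) + α i := (Nat.sub_add_cancel (hα i)).symm
      have h3 : (z i - algebraMap k E b)⁻¹ * z i = 1 + algebraMap k E b * Z i := by
        have := sub_ne_zero.2 (hb i)
        rw [hZ]
        field_simp
        ring
      conv_lhs => rw [h2, pow_add, mul_assoc, ← mul_pow, h3]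
    rw [h1]
    have h4 : ∀ i ∈ (Finset.univ : Finset ι), Z i ^ (d i - α i) *
        (1 + algebraMap k E b * Z i) ^ α i ∈ Box k Z (fun j => if j = i then d i else 0) := by
      intro i _
      have h5 : Z i ∈ Box k Z (fun j => if j = i then 1 else 0) :=
        box_self Z _ i (by simp)
      have h6 : (1 + algebraMap k E b * Z i) ∈ Box k Z (fun j => if j = i then 1 else 0) := by
        refine Submodule.add_mem _ ?_ ?_
        · rw [← map_one (algebraMap k E)]
          exact box_algebraMap _ _ _
        · rw [← Algebra.smul_def]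
          exact Submodule.smul_mem _ _ h5
      refine box_mono (fun j => ?_) (box_mul (box_pow h5 (d i - α i)) (box_pow h6 (α i)))
      by_cases hj : j = i
      · subst hj
        have := hα j
        simp only [if_true]
        omega
      · simp [hj]
    have h7 := box_prod (Finset.univ) (fun i j => if j = i then d i else 0) _ h4
    refine box_mono (fun j => ?_) h7
    simp
  | zero =>
    rw [mul_zero]
    exact Submodule.zero_mem _
  | add x y _ _ hx hy =>
    rw [mul_add]
    exact Submodule.add_mem _ hx hy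
  | smul c x _ hx =>
    rw [mul_smul_comm]
    exact Submodule.smul_mem _ _ hx

/-- values of the simplex spaces -/
theorem LL_le_box {e : ℕ} (x : Fin e → E) (n : ℕ) : LL k x n ≤ Box k x (fun _ => n) := by
  refine Submodule.span_mono ?_
  rintro y ⟨α, hα, rfl⟩
  refine ⟨α, fun i => ?_, rfl⟩
  exact (Finset.single_le_sum (f := α) (fun j _ => Nat.zero_le _) (Finset.mem_univ i)).trans hα

end

end Pool.Agent.TLW
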