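import Pool.Agent.TLW.Box
import Pool.Agent.LFZ.Deg3

set_option autoImplicit false

namespace Pool.Agent.TLW

open Polynomial Pool.Agent.LFZ

section

variable {k E ι : Type} [Field k] [Infinite k] [Field E] [Algebra k E] [Fintype ι]

omit [Infinite k] in
theorem BoxDg_box_le (z : ι → E) (d : ι → ℕ) (W : Subalgebra k E) (hz : ∀ i, z i ∈ W) :
    ∀ w ∈ Box k z d, w ∈ W := by
  intro w hw
  have : Box k z d ≤ Subalgebra.toSubmodule W := by
    rw [Box, Submodule.span_le]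
    rintro y ⟨α, -, rfl⟩
    exact W.prod_mem fun i _ => W.pow_mem (hz i) _
  exact this hw

/-- choice of `β` and `W` -/
theorem BoxDg_setup (hE : IsFF k E) (z : ι → E) {u : E} (hu : Transcendental k u) :
    ∃ β : k, (∀ i, z i ≠ algebraMap k E β) ∧ ∃ W : Subalgebra k E, IsW k u W ∧
      ∀ i, (z i - algebraMap k E β)⁻¹ ∈ W := by
  classical
  obtain ⟨β, -, hβ⟩ := exists_beta hE hu (Finset.univ.image z)
  have hβ' : ∀ i, z i ≠ algebraMap k E β ∧ IntAt k u (z i - algebraMap k E β)⁻¹ :=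
    fun i => hβ (z i) (Finset.mem_image_of_mem z (Finset.mem_univ i))
  obtain ⟨W, hW, hT⟩ := exists_isW hE hu
    (Set.range fun i => (z i - algebraMap k E β)⁻¹) (Set.toFinite _) (by
      rintro y ⟨i, rfl⟩
      exact (hβ' i).2)
  exact ⟨β, fun i => (hβ' i).1, W, hW, fun i => hT _ ⟨i, rfl⟩⟩

/-- (D1) -/
theorem dg_le_of_mem_box (hE : IsFF k E) (z : ι → E) (d : ι → ℕ) {w : E} (hw : w ∈ Box k z d) :
    dg k E w ≤ ∑ i, d i * dg k E (z i) := by
  classical
  by_cases hwa : IsAlgebraic k w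
  · rw [dg_eq_zero_of_isAlgebraic hwa]
    exact Nat.zero_le _
  have hw0 : w ≠ 0 := by
    rintro rfl
    exact hwa isAlgebraic_zero
  have hu : Transcendental k w⁻¹ := fun h => hwa (IsAlgebraic.inv_iff.1 h)
  obtain ⟨β, hβ, W, hW, hZ⟩ := BoxDg_setup hE z hu
  set Z : ι → E := fun i => (z i - algebraMap k E β)⁻¹ with hZdef
  have hmem : (∏ i, Z i ^ d i) * w ∈ W :=
    BoxDg_box_le Z d W hZ _ (box_moeb β hβ hw)
  have key := hW.dg_le hE (Finset.univ : Finset (Σ i, Fin (d i))) (fun p => Z p.1)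
    (fun p _ => ⟨hZ p.1, inv_ne_zero (sub_ne_zero.2 (hβ p.1))⟩)
    ⟨_, hmem, by
      rw [Fintype.prod_sigma, mul_comm w⁻¹, mul_assoc _ w, mul_inv_cancel₀ hw0, mul_one]
      refine Finset.prod_congr rfl fun i _ => ?_
      simp only [Finset.prod_const, Finset.card_univ, Fintype.card_fin]⟩
  rw [dg_inv, Fintype.sum_sigma] at key
  refine key.trans (le_of_eq (Finset.sum_congr rfl fun i _ => ?_))
  simp only [Finset.sum_const, Finset.card_univ, Fintype.card_fin, smul_eq_mul]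
  rw [hZdef, dg_moeb]

/-- (D2) -/
theorem dg_root_box (hE : IsFF k E) (z : ι → E) (d : ι → ℕ) (P : Polynomial E) (hP : P ≠ 0)
    (hc : ∀ s, P.coeff s ∈ Box k z d) {t : E} (ht : P.eval t = 0) :
    dg k E t ≤ ∑ i, d i * dg k E (z i) := by
  classical
  by_cases hta : IsAlgebraic k t
  · rw [dg_eq_zero_of_isAlgebraic hta]
    exact Nat.zero_le _
  have ht0 : t ≠ 0 := by
    rintro rfl
    exact hta isAlgebraic_zero
  have hu : Transcendental k t⁻¹ := fun h => hta (IsAlgebraic.inv_iff.1 h)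
  obtain ⟨β, hβ, W, hW, hZ⟩ := BoxDg_setup hE z hu
  set Z : ι → E := fun i => (z i - algebraMap k E β)⁻¹ with hZdef
  have huW : t⁻¹ ∈ W := hW.1
  set c : ℕ → E := fun s => (∏ i, Z i ^ d i) * P.coeff s with hcdef
  have hcB : ∀ s, c s ∈ Box k Z d := fun s => box_moeb β hβ (hc s)
  have hcW : ∀ s, c s ∈ W := fun s => BoxDg_box_le Z d W hZ _ (hcB s)
  set S := P.natDegree with hS
  have hcS : c S ≠ 0 := by
    refine mul_ne_zero (Finset.prod_ne_zero_iff.2 fun i _ => pow_ne_zero _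
      (inv_ne_zero (sub_ne_zero.2 (hβ i)))) ?_
    exact Polynomial.leadingCoeff_ne_zero.2 hP
  have hsum : ∑ s ∈ Finset.range (S + 1), c s * t⁻¹ ^ (S - s) = 0 := by
    have h1 : ∀ s ∈ Finset.range (S + 1), c s * t⁻¹ ^ (S - s) =
        ((∏ i, Z i ^ d i) * t⁻¹ ^ S) * (P.coeff s * t ^ s) := by
      intro s hs
      have hs' : s ≤ S := by
        rw [Finset.mem_range] at hs
        omega
      have e3 : t⁻¹ ^ S = t⁻¹ ^ (S - s) * t⁻¹ ^ s := by
        rw [← pow_add, Nat.sub_add_cancel hs']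
      have e4 : t⁻¹ ^ s * t ^ s = 1 := by
        rw [← mul_pow, inv_mul_cancel₀ ht0, one_pow]
      rw [e3]
      calc c s * t⁻¹ ^ (S - s) = ((∏ i, Z i ^ d i) * t⁻¹ ^ (S - s) * P.coeff s) * 1 := by
            rw [hcdef]; ring
        _ = _ := by rw [← e4]; ring
    rw [Finset.sum_congr rfl h1, ← Finset.mul_sum, ← Polynomial.eval_eq_sum_range, ht, mul_zero]
  have hprod : ∃ w ∈ W, ∏ i ∈ ({()} : Finset Unit), (fun _ => c S) i = t⁻¹ * w := by
    refine ⟨- ∑ s ∈ Finset.range S, c s * t⁻¹ ^ (S - s - 1), ?_, ?_⟩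
    · exact W.neg_mem (W.sum_mem fun s _ => W.mul_mem (hcW s) (W.pow_mem huW _))
    · rw [Finset.prod_singleton]
      rw [Finset.sum_range_succ, Nat.sub_self, pow_zero, mul_one, add_comm] at hsum
      rw [eq_neg_of_add_eq_zero_left hsum, mul_neg, Finset.mul_sum]
      congr 1
      refine Finset.sum_congr rfl fun s hs => ?_
      rw [Finset.mem_range] at hs
      have e5 : S - s = (S - s - 1) + 1 := by omega
      conv_lhs => rw [e5, pow_succ]
      ring
  have key := hW.dg_le hE ({()} : Finset Unit) (fun _ => c S) (fun _ _ => ⟨hcW S, hcS⟩) hprod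
  rw [Finset.sum_singleton, dg_inv] at key
  refine key.trans ((dg_le_of_mem_box hE Z d (hcB S)).trans (le_of_eq ?_))
  refine Finset.sum_congr rfl fun i _ => ?_
  rw [hZdef, dg_moeb]

end

end Pool.Agent.TLW
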