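import Pool.Agent.TLW.Defs

set_option autoImplicit false

namespace Pool.Agent.TLW

open Polynomial Pool.Agent.LFZ

section

variable {k E : Type} [Field k] [Field E] [Algebra k E]

theorem LL_mono {e : ℕ} (x : Fin e → E) {m n : ℕ} (h : m ≤ n) : LL k x m ≤ LL k x n := by
  apply Submodule.span_mono
  rintro y ⟨α, h1, h2⟩
  exact ⟨α, h1.trans h, h2⟩

theorem LL_mon_mem {e : ℕ} (x : Fin e → E) {n : ℕ} (α : Fin e → ℕ) (h : ∑ i, α i ≤ n) :
    ∏ i, x i ^ α i ∈ LL k x n := Submodule.subset_span ⟨α, h, rfl⟩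

theorem LL_one_mem {e : ℕ} (x : Fin e → E) (n : ℕ) : (1 : E) ∈ LL k x n := by
  have := LL_mon_mem (k := k) x (n := n) (fun _ => 0) (by simp)
  simpa using this

theorem LL_mul {e : ℕ} (x : Fin e → E) {m n : ℕ} {a b : E} (ha : a ∈ LL k x m)
    (hb : b ∈ LL k x n) : a * b ∈ LL k x (m + n) := by
  have h1 : a * b ∈ LL k x m * LL k x n := Submodule.mul_mem_mul ha hb
  refine (?_ : LL k x m * LL k x n ≤ LL k x (m + n)) h1
  rw [LL, LL, Submodule.span_mul_span]
  apply Submodule.span_le.2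
  rintro y ⟨u, ⟨α, hα, rfl⟩, v, ⟨β, hβ, rfl⟩, rfl⟩
  have h2 := LL_mon_mem (k := k) x (n := m + n) (fun i => α i + β i)
    (by rw [Finset.sum_add_distrib]; omega)
  simpa [pow_add, Finset.prod_mul_distrib] using h2

instance LL_finite {e : ℕ} (x : Fin e → E) (n : ℕ) : Module.Finite k (LL k x n) := by
  apply FiniteDimensional.span_of_finite
  have h1 : ((Fintype.piFinset fun _ : Fin e => Finset.range (n + 1)) : Set (Fin e → ℕ)).Finite :=
    Finset.finite_toSet _
  refine (h1.image fun α => ∏ i, x i ^ α i).subset ?_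
  rintro y ⟨α, hα, rfl⟩
  refine ⟨α, ?_, rfl⟩
  rw [Finset.mem_coe, Fintype.mem_piFinset]
  intro i
  rw [Finset.mem_range]
  have : α i ≤ ∑ j, α j := Finset.single_le_sum (fun _ _ => Nat.zero_le _) (Finset.mem_univ i)
  omega

theorem LL_growth {e : ℕ} (x : Fin e → E) (R n : ℕ) :
    Module.finrank k (LL k x (R * n)) ≤ (e * R + 1) ^ e * Module.finrank k (LL k x n) := by
  classical
  set b : ℕ := n / e + 1 with hb
  let L : ((Fin e → Fin (e * R + 1)) → LL k x n) →ₗ[k] E :=
    ∑ γ : Fin e → Fin (e * R + 1), (LinearMap.mulLeft k (∏ i, x i ^ (b * (γ i : ℕ)))) ∘ₗ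
      (LL k x n).subtype ∘ₗ LinearMap.proj γ
  have hL : ∀ v, L v = ∑ γ : Fin e → Fin (e * R + 1), (∏ i, x i ^ (b * (γ i : ℕ))) * (v γ : E) := by
    intro v
    simp [L, LinearMap.sum_apply]
  have h1 : LL k x (R * n) ≤ LinearMap.range L := by
    apply Submodule.span_le.2
    rintro y ⟨α, hα, rfl⟩
    have hbpos : 0 < b := Nat.succ_pos _
    have hγ : ∀ i, α i / b < e * R + 1 := by
      intro i
      have he : 0 < e := i.pos
      have h2 : α i ≤ ∑ j, α j :=
        Finset.single_le_sum (fun _ _ => Nat.zero_le _) (Finset.mem_univ i)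
      have h3 : n < e * b := by
        rw [hb]
        exact Nat.lt_mul_div_succ n he
      rw [Nat.lt_succ_iff, Nat.div_le_iff_le_mul_add_pred hbpos]
      have h4 : R * n ≤ R * (e * b) := Nat.mul_le_mul_left _ h3.le
      have h5 : R * (e * b) = b * (e * R) := by ring
      omega
    have hρ : ∑ i, α i % b ≤ n := by
      calc ∑ i, α i % b ≤ ∑ _i : Fin e, n / e := by
            apply Finset.sum_le_sum
            intro i _
            have := Nat.mod_lt (α i) hbpos
            omega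
        _ = e * (n / e) := by simp
        _ ≤ n := Nat.mul_div_le n e
    refine ⟨fun γ => if γ = fun i => ⟨α i / b, hγ i⟩ then
      ⟨∏ i, x i ^ (α i % b), LL_mon_mem x _ hρ⟩ else 0, ?_⟩
    rw [hL]
    rw [Finset.sum_eq_single (fun i => (⟨α i / b, hγ i⟩ : Fin (e * R + 1)))]
    · simp only [if_true]
      rw [← Finset.prod_mul_distrib]
      apply Finset.prod_congr rfl
      intro i _
      rw [← pow_add, Nat.div_add_mod]
    · intro γ _ hne
      simp [hne]
    · intro h
      exact absurd (Finset.mem_univ _) h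
  calc Module.finrank k (LL k x (R * n)) ≤ Module.finrank k (LinearMap.range L) :=
        Submodule.finrank_mono h1
    _ ≤ Module.finrank k ((Fin e → Fin (e * R + 1)) → LL k x n) := LinearMap.finrank_range_le L
    _ = (e * R + 1) ^ e * Module.finrank k (LL k x n) := by
        rw [Module.finrank_pi_fintype]
        simp

theorem exists_window {e δ R : ℕ} (hδ : 1 ≤ δ) (hR : 2 ≤ R)
    (hRe : (e * R + 1) ^ e * (6 * δ) ^ (R - 1) ≤ (6 * δ + 1) ^ (R - 1)) (x : Fin e → E) (m : ℕ) :
    ∃ n0, n0 ≤ R * m ∧ 6 * δ * Module.finrank k (LL k x (n0 + m)) ≤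
      (6 * δ + 1) * Module.finrank k (LL k x n0) := by
  by_contra hcon
  push Not at hcon
  set D : ℕ → ℕ := fun i => Module.finrank k (LL k x (i * m)) with hD
  have hstep : ∀ i, i ≤ R → (6 * δ + 1) * D i < 6 * δ * D (i + 1) := by
    intro i hi
    have := hcon (i * m) (Nat.mul_le_mul_right m hi)
    simp only [hD]
    rwa [← Nat.succ_mul] at this
  have hiter : ∀ j, 1 ≤ j → j ≤ R → (6 * δ + 1) ^ j * D 1 < (6 * δ) ^ j * D (j + 1) := by
    intro j hj
    induction j, hj using Nat.le_induction with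
    | base =>
      intro h
      simpa using hstep 1 h
    | succ j hj ih =>
      intro h
      have h1 := ih (by omega)
      have h2 := hstep (j + 1) h
      calc (6 * δ + 1) ^ (j + 1) * D 1 = (6 * δ + 1) * ((6 * δ + 1) ^ j * D 1) := by ring
        _ < (6 * δ + 1) * ((6 * δ) ^ j * D (j + 1)) := Nat.mul_lt_mul_of_pos_left h1 (by omega)
        _ = (6 * δ) ^ j * ((6 * δ + 1) * D (j + 1)) := by ring
        _ < (6 * δ) ^ j * (6 * δ * D (j + 1 + 1)) :=
            Nat.mul_lt_mul_of_pos_left h2 (by positivity)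
        _ = (6 * δ) ^ (j + 1) * D (j + 1 + 1) := by ring
  have h1 := hiter (R - 1) (by omega) (by omega)
  have h2 : R - 1 + 1 = R := by omega
  rw [h2] at h1
  have h3 : D R ≤ (e * R + 1) ^ e * D 1 := by
    have h1 : D 1 = Module.finrank k (LL k x m) :=
      congr_arg (fun t => Module.finrank k (LL k x t)) (one_mul m)
    rw [h1]
    exact LL_growth (k := k) x R m
  have h4 : (6 * δ) ^ (R - 1) * D R ≤ (6 * δ + 1) ^ (R - 1) * D 1 := by
    calc (6 * δ) ^ (R - 1) * D R ≤ (6 * δ) ^ (R - 1) * ((e * R + 1) ^ e * D 1) :=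
          Nat.mul_le_mul_left _ h3
      _ = ((e * R + 1) ^ e * (6 * δ) ^ (R - 1)) * D 1 := by ring
      _ ≤ (6 * δ + 1) ^ (R - 1) * D 1 := Nat.mul_le_mul_right _ hRe
  omega

end

end Pool.Agent.TLW
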