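import Pool.Agent.TLW.Defs

set_option autoImplicit false

namespace Pool.Agent.TLW

open Polynomial Pool.Agent.LFZ

section

theorem exists_norm {A : Type} [CommRing A] [IsDomain A] (m P : Polynomial A) (hm : m.Monic)
    (hprime : Prime m) (hP : P ≠ 0) (hdeg : P.natDegree < m.natDegree) (𝓟 : ℕ → AddSubgroup A)
    (h1 : (1 : A) ∈ 𝓟 0) (hmul : ∀ i j a b, a ∈ 𝓟 i → b ∈ 𝓟 j → a * b ∈ 𝓟 (i + j)) (n : ℕ)
    (hn : ∀ r < m.natDegree, ∀ i, ((P * X ^ r) %ₘ m).coeff i ∈ 𝓟 n) :
    ∃ ρ : A, ρ ≠ 0 ∧ ρ ∈ 𝓟 (m.natDegree * n) ∧ ∃ P' Q' : Polynomial A, C ρ = P * P' + m * Q' := by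
  classical
  set δ := m.natDegree with hδ
  have hδ0 : 0 < δ := by omega
  set N : Matrix (Fin δ) (Fin δ) A := fun r i => ((P * X ^ (r : ℕ)) %ₘ m).coeff i with hN
  have hlt : ∀ F : Polynomial A, (F %ₘ m).degree < (δ : ℕ) := by
    intro F
    have := degree_modByMonic_lt F hm
    rwa [degree_eq_natDegree hm.ne_zero] at this
  have hsum : ∀ F : Polynomial A, F %ₘ m = ∑ i : Fin δ, C ((F %ₘ m).coeff i) * X ^ (i : ℕ) := by
    intro F
    rw [Fin.sum_univ_eq_sum_range (fun i => C ((F %ₘ m).coeff i) * X ^ i) δ]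
    by_cases h0 : F %ₘ m = 0
    · simp [h0]
    · have hh : (F %ₘ m).natDegree < δ := by
        have := hlt F
        rwa [degree_eq_natDegree h0, Nat.cast_lt] at this
      exact as_sum_range_C_mul_X_pow' _ hh
  have hrow : ∀ r : Fin δ, ∑ i : Fin δ, C (N r i) * X ^ (i : ℕ) =
      P * X ^ (r : ℕ) - m * ((P * X ^ (r : ℕ)) /ₘ m) := by
    intro r
    rw [hN]
    simp only
    rw [← hsum, modByMonic_eq_sub_mul_div]
  refine ⟨N.det, ?_, ?_, ?_⟩
  · intro hdet
    obtain ⟨v, hv, hv0⟩ := Matrix.exists_vecMul_eq_zero_iff.mpr hdet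
    set V : Polynomial A := ∑ r : Fin δ, C (v r) * X ^ (r : ℕ) with hV
    have hVc : ∀ r : Fin δ, V.coeff r = v r := by
      intro r
      rw [hV, finset_sum_coeff]
      simp only [coeff_C_mul, coeff_X_pow]
      rw [Finset.sum_eq_single r]
      · simp
      · intro b _ hb
        have : (r : ℕ) ≠ b := fun h => hb (Fin.ext h.symm)
        simp [this]
      · simp
    have hV0 : V ≠ 0 := by
      intro h
      apply hv
      funext r
      rw [← hVc r, h]
      simp
    have hVd : V.degree < (δ : ℕ) := by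
      rw [hV]
      refine lt_of_le_of_lt (degree_sum_le _ _) ?_
      rw [Finset.sup_lt_iff (by simpa using (WithBot.bot_lt_coe δ))]
      intro r _
      exact lt_of_le_of_lt (degree_C_mul_X_pow_le _ _) (by exact_mod_cast r.2)
    have hdvd : m ∣ P * V := by
      have e : P * V = m * ∑ r : Fin δ, C (v r) * ((P * X ^ (r : ℕ)) /ₘ m) +
          ∑ r : Fin δ, C (v r) * ∑ i : Fin δ, C (N r i) * X ^ (i : ℕ) := by
        rw [hV, Finset.mul_sum, Finset.mul_sum, ← Finset.sum_add_distrib]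
        refine Finset.sum_congr rfl fun r _ => ?_
        rw [hrow r]
        ring
      have e2 : ∑ r : Fin δ, C (v r) * ∑ i : Fin δ, C (N r i) * X ^ (i : ℕ) = 0 := by
        have e3 : ∑ r : Fin δ, C (v r) * ∑ i : Fin δ, C (N r i) * X ^ (i : ℕ) =
            ∑ i : Fin δ, C (Matrix.vecMul v N i) * X ^ (i : ℕ) := by
          simp only [Finset.mul_sum]
          rw [Finset.sum_comm]
          refine Finset.sum_congr rfl fun i _ => ?_
          rw [Matrix.vecMul, dotProduct, map_sum, Finset.sum_mul]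
          refine Finset.sum_congr rfl fun r _ => ?_
          rw [C_mul]
          ring
        rw [e3, hv0]
        simp
      rw [e, e2, add_zero]
      exact dvd_mul_right _ _
    rcases hprime.dvd_or_dvd hdvd with h | h
    · have := natDegree_le_of_dvd h hP
      omega
    · have h5 := degree_le_of_dvd h hV0
      rw [degree_eq_natDegree hm.ne_zero] at h5
      exact absurd (lt_of_le_of_lt h5 hVd) (lt_irrefl _)
  · -- grading
    have hprod : ∀ (s : Finset (Fin δ)) (f : Fin δ → A), (∀ i, f i ∈ 𝓟 n) →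
        ∏ i ∈ s, f i ∈ 𝓟 (s.card * n) := by
      intro s f hf
      induction s using Finset.induction_on with
      | empty => simpa using h1
      | insert a s ha ih =>
        rw [Finset.prod_insert ha, Finset.card_insert_of_notMem ha]
        have := hmul _ _ _ _ (hf a) ih
        have e : (s.card + 1) * n = n + s.card * n := by ring
        rwa [e]
    rw [Matrix.det_apply]
    refine AddSubgroup.sum_mem _ fun σ _ => ?_
    have h2 := hprod Finset.univ (fun i => N (σ i) i) (fun i => hn _ (σ i).2 _)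
    rw [Finset.card_univ, Fintype.card_fin] at h2
    rcases Int.units_eq_one_or (Equiv.Perm.sign σ) with h | h
    · rw [h, one_smul]
      exact h2
    · rw [h, Units.smul_def]
      simpa using AddSubgroup.neg_mem _ h2
  · -- ideal membership
    refine ⟨∑ s : Fin δ, C (N.adjugate ⟨0, hδ0⟩ s) * X ^ (s : ℕ),
      -∑ s : Fin δ, C (N.adjugate ⟨0, hδ0⟩ s) * ((P * X ^ (s : ℕ)) /ₘ m), ?_⟩
    have e1 : P * ∑ s : Fin δ, C (N.adjugate ⟨0, hδ0⟩ s) * X ^ (s : ℕ) +
        m * -∑ s : Fin δ, C (N.adjugate ⟨0, hδ0⟩ s) * ((P * X ^ (s : ℕ)) /ₘ m) =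
        ∑ s : Fin δ, C (N.adjugate ⟨0, hδ0⟩ s) * ∑ i : Fin δ, C (N s i) * X ^ (i : ℕ) := by
      rw [mul_neg, Finset.mul_sum, Finset.mul_sum, ← sub_eq_add_neg, ← Finset.sum_sub_distrib]
      refine Finset.sum_congr rfl fun s _ => ?_
      rw [hrow s]
      ring
    rw [e1]
    have e2 : ∑ s : Fin δ, C (N.adjugate ⟨0, hδ0⟩ s) * ∑ i : Fin δ, C (N s i) * X ^ (i : ℕ) =
        ∑ i : Fin δ, C ((N.adjugate * N) ⟨0, hδ0⟩ i) * X ^ (i : ℕ) := by
      simp only [Finset.mul_sum]
      rw [Finset.sum_comm]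
      refine Finset.sum_congr rfl fun i _ => ?_
      rw [Matrix.mul_apply, map_sum, Finset.sum_mul]
      refine Finset.sum_congr rfl fun r _ => ?_
      rw [C_mul]
      ring
    rw [e2, Matrix.adjugate_mul, Finset.sum_eq_single ⟨0, hδ0⟩]
    · simp
    · intro b _ hb
      simp [Matrix.one_apply, Ne.symm hb]
    · simp

end

end Pool.Agent.TLW
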