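import Pool.Agent.TLW.Grow

set_option autoImplicit false

namespace Pool.Agent.TLW

open Polynomial Pool.Agent.LFZ

section

theorem Pows_mod {R : Type} [CommRing R] [Nontrivial R] (M : R[X]) (hM : M.Monic) (p : R[X])
    (hp : p.natDegree ≤ M.natDegree) : p %ₘ M = p - C (p.coeff M.natDegree) * M := by
  refine (div_modByMonic_unique (C (p.coeff M.natDegree)) _ hM ⟨by ring, ?_⟩).2
  rw [degree_eq_natDegree hM.ne_zero, degree_lt_iff_coeff_zero]
  intro m hm
  rw [coeff_sub, coeff_C_mul]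
  rcases Nat.eq_or_lt_of_le hm with h | h
  · rw [← h, hM.coeff_natDegree, mul_one, sub_self]
  · rw [coeff_eq_zero_of_natDegree_lt (hp.trans_lt h), coeff_eq_zero_of_natDegree_lt h]
    ring

theorem Pows_succ {R : Type} [CommRing R] [Nontrivial R] (M : R[X]) (hM : M.Monic)
    (hM1 : M.natDegree ≠ 0) (n : ℕ) :
    (X : R[X]) ^ (n + 1) %ₘ M = X * (X ^ n %ₘ M) -
      C ((X ^ n %ₘ M).coeff (M.natDegree - 1)) * M := by
  have h1 : (X : R[X]) ^ (n + 1) %ₘ M = (X * (X ^ n %ₘ M)) %ₘ M := by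
    have e : (X : R[X]) ^ (n + 1) = X * (X ^ n %ₘ M) + (X * (X ^ n /ₘ M)) * M := by
      have := modByMonic_add_div (X ^ n : R[X]) M
      calc (X : R[X]) ^ (n + 1) = X * X ^ n := by rw [pow_succ, mul_comm]
        _ = X * (X ^ n %ₘ M + M * (X ^ n /ₘ M)) := by rw [this]
        _ = _ := by ring
    rw [e, add_modByMonic, mul_self_modByMonic hM, add_zero]
  have hlt := natDegree_modByMonic_lt (X ^ n : R[X]) hM (by
    intro h; apply hM1; rw [h, natDegree_one])
  rw [h1, Pows_mod M hM]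
  · obtain ⟨d, hd⟩ : ∃ d, M.natDegree = d + 1 := ⟨M.natDegree - 1, by omega⟩
    rw [hd, coeff_X_mul, Nat.add_sub_cancel]
  · refine natDegree_mul_le.trans ?_
    have := natDegree_X_le (R := R)
    omega

theorem totalDegree_modByMonic {σ 𝔽 : Type} [Field 𝔽] (M : Polynomial (MvPolynomial σ 𝔽))
    (hM : M.Monic) (c0 : ℕ) (hc : ∀ r, (M.coeff r).totalDegree ≤ c0) (n r : ℕ) :
    (((X : Polynomial (MvPolynomial σ 𝔽)) ^ n %ₘ M).coeff r).totalDegree ≤ c0 * n := by
  by_cases hM1 : M.natDegree = 0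
  · have h1 : M = 1 := (Monic.natDegree_eq_zero hM).1 hM1
    rw [h1, modByMonic_one, coeff_zero, MvPolynomial.totalDegree_zero]
    exact Nat.zero_le _
  · induction n generalizing r with
    | zero =>
      rw [pow_zero, Pows_mod M hM 1 (by simp), coeff_one, if_neg hM1]
      simp only [map_zero, zero_mul, sub_zero, coeff_one]
      split_ifs <;> simp
    | succ n ih =>
      rw [Pows_succ M hM hM1, coeff_sub, coeff_C_mul]
      refine (MvPolynomial.totalDegree_sub _ _).trans (max_le ?_ ?_)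
      · cases r with
        | zero => simp
        | succ r =>
          rw [coeff_X_mul]
          exact (ih r).trans (Nat.mul_le_mul_left _ (by omega))
      · refine (MvPolynomial.totalDegree_mul _ _).trans ?_
        have h1 := ih (M.natDegree - 1)
        have h2 := hc r
        rw [Nat.mul_add, Nat.mul_one]
        omega

theorem specM_monic {e : ℕ} {𝔽 Ω : Type} [Field 𝔽] [Field Ω] [Algebra 𝔽 Ω] {δ c0 : ℕ}
    {M : Polynomial (MvPolynomial (Fin (e + 1)) 𝔽)} (hM : Shape δ c0 M) (η : Fin (e + 1) → Ω) :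
    (specM η M).Monic ∧ (specM η M).natDegree = δ := by
  refine ⟨hM.monic.map _, ?_⟩
  rw [specM, hM.monic.natDegree_map, hM.deg]

theorem Pows_spec {e : ℕ} {𝔽 Ω : Type} [Field 𝔽] [Field Ω] [Algebra 𝔽 Ω] {δ c0 : ℕ}
    {M : Polynomial (MvPolynomial (Fin (e + 1)) 𝔽)} (hM : Shape δ c0 M) (η : Fin (e + 1) → Ω)
    (n r : ℕ) : ((X : Polynomial (Polynomial Ω)) ^ n %ₘ specM η M).coeff r =
      MvPolynomial.aeval (line η) (((X : Polynomial (MvPolynomial (Fin (e + 1)) 𝔽)) ^ n %ₘ
        M).coeff r) := by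
  have h := map_modByMonic ((MvPolynomial.aeval (line η) :
    MvPolynomial (Fin (e + 1)) 𝔽 →ₐ[𝔽] Polynomial Ω) :
      MvPolynomial (Fin (e + 1)) 𝔽 →+* Polynomial Ω) (p := X ^ n) hM.monic
  rw [Polynomial.map_pow, map_X] at h
  rw [specM, ← h, coeff_map]
  rfl

/-- degree in `T` of the coefficients of `Θ^n mod M(η,T,Θ)` -/
theorem natDegree_specM_pow {e : ℕ} {𝔽 Ω : Type} [Field 𝔽] [Field Ω] [Algebra 𝔽 Ω] {δ c0 : ℕ}
    {M : Polynomial (MvPolynomial (Fin (e + 1)) 𝔽)} (hM : Shape δ c0 M) (η : Fin (e + 1) → Ω)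
    (n r : ℕ) :
    (((X : Polynomial (Polynomial Ω)) ^ n %ₘ specM η M).coeff r).natDegree ≤ c0 * n := by
  rw [Pows_spec hM]
  have htot := totalDegree_modByMonic M hM.monic c0 hM.tot n r
  set P := ((X : Polynomial (MvPolynomial (Fin (e + 1)) 𝔽)) ^ n %ₘ M).coeff r with hP
  rw [MvPolynomial.aeval_def, MvPolynomial.eval₂_eq']
  refine natDegree_sum_le_of_forall_le _ _ ?_
  intro α hα
  refine natDegree_mul_le.trans ?_
  have h0 : (algebraMap 𝔽 (Polynomial Ω) (P.coeff α)).natDegree = 0 := by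
    rw [IsScalarTower.algebraMap_apply 𝔽 Ω (Polynomial Ω)]
    exact natDegree_C _
  rw [h0, zero_add]
  refine (natDegree_prod_le _ _).trans ?_
  have h1 : ∀ i, ((line η i) ^ α i).natDegree ≤ α i := by
    intro i
    refine natDegree_pow_le.trans ?_
    have : (line η i).natDegree ≤ 1 := by
      unfold line
      split_ifs
      · exact natDegree_X_le
      · rw [natDegree_C]; omega
    calc α i * (line η i).natDegree ≤ α i * 1 := Nat.mul_le_mul_left _ this
      _ = α i := mul_one _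
  refine (Finset.sum_le_sum fun i _ => h1 i).trans ?_
  refine le_trans ?_ htot
  have h2 := MvPolynomial.le_totalDegree hα
  rw [Finsupp.sum_fintype _ _ (fun _ => rfl)] at h2
  exact h2

/-- the coefficients of `Θ^n mod M(η,T,Θ)` -/
theorem coeff_specM_pow {e : ℕ} {k 𝔽 E : Type} [Field k] [Field 𝔽] [Field E] [Algebra k E]
    [Algebra 𝔽 k] [Algebra 𝔽 E] [IsScalarTower 𝔽 k E] {δ c0 : ℕ}
    {M : Polynomial (MvPolynomial (Fin (e + 1)) 𝔽)} (hM : Shape δ c0 M) (x : Fin (e + 1) → E)
    (n r s : ℕ) :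
    (((X : Polynomial (Polynomial E)) ^ n %ₘ specM x M).coeff r).coeff s ∈
      LL k (lt x) (c0 * n) := by
  rw [Pows_spec hM]
  have htot := totalDegree_modByMonic M hM.monic c0 hM.tot n r
  set P := ((X : Polynomial (MvPolynomial (Fin (e + 1)) 𝔽)) ^ n %ₘ M).coeff r with hP
  rw [MvPolynomial.aeval_def, MvPolynomial.eval₂_eq', finset_sum_coeff]
  refine Submodule.sum_mem _ fun α hα => ?_
  have h2 := MvPolynomial.le_totalDegree hα
  rw [Finsupp.sum_fintype _ _ (fun _ => rfl), Fin.sum_univ_castSucc] at h2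
  have h3 : ∏ i, line x i ^ α i = C (∏ i : Fin e, lt x i ^ α i.castSucc) * X ^ α (Fin.last e) := by
    rw [Fin.prod_univ_castSucc]
    congr 1
    · rw [map_prod]
      refine Finset.prod_congr rfl fun i _ => ?_
      rw [line, if_neg (Fin.castSucc_lt_last i).ne, map_pow]
      rfl
    · rw [line, if_pos rfl]
  rw [h3, IsScalarTower.algebraMap_apply 𝔽 E (Polynomial E), ← mul_assoc,
    show algebraMap E (Polynomial E) = C from rfl, ← map_mul, coeff_C_mul_X_pow]
  split_ifs
  · rw [IsScalarTower.algebraMap_apply 𝔽 k E, ← Algebra.smul_def]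
    refine Submodule.smul_mem _ _ (Submodule.subset_span ⟨fun i => α i.castSucc, ?_, rfl⟩)
    show ∑ i : Fin e, α i.castSucc ≤ c0 * n
    omega
  · exact Submodule.zero_mem _

/-- evaluation `T = x_e`, `Θ = z` of multiples of `M(x,T,Θ)` vanishes at the roots of `M(x,Θ)` -/
theorem eval_specM {e : ℕ} {𝔽 E : Type} [Field 𝔽] [Field E] [Algebra 𝔽 E]
    (M : Polynomial (MvPolynomial (Fin (e + 1)) 𝔽)) (x : Fin (e + 1) → E) (z : E) :
    eval₂ (evalRingHom (x (Fin.last e))) z (specM x M) = (evM x M).eval z := by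
  rw [specM, evM, eval₂_map, eval_map]
  congr 1
  refine MvPolynomial.ringHom_ext ?_ ?_
  · intro c
    simp only [RingHom.comp_apply, RingHom.coe_coe, MvPolynomial.algHom_C]
    rw [IsScalarTower.algebraMap_apply 𝔽 E (Polynomial E)]
    exact eval_C
  · intro i
    simp only [RingHom.comp_apply, RingHom.coe_coe, MvPolynomial.aeval_X, line]
    split_ifs with h
    · rw [coe_evalRingHom, eval_X, h]
    · rw [coe_evalRingHom, eval_C]

/-- `specM` only depends on the coordinates `< e` -/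
theorem specM_congr {e : ℕ} {𝔽 E : Type} [Field 𝔽] [Field E] [Algebra 𝔽 E]
    (M : Polynomial (MvPolynomial (Fin (e + 1)) 𝔽)) (x y : Fin (e + 1) → E)
    (h : ∀ i, i ≠ Fin.last e → x i = y i) : specM x M = specM y M := by
  have : line x = line y := by
    funext i
    unfold line
    split_ifs with hi
    · rfl
    · rw [h i hi]
  rw [specM, specM, this]

end

end Pool.Agent.TLW
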