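import Pool.Agent.TLW.BoxDg
import Pool.Agent.TLW.Grow
import Pool.Agent.TLW.Pows
import Pool.Agent.TLW.Norm

set_option autoImplicit false

namespace Pool.Agent.TLW

open Polynomial Pool.Agent.LFZ

section

/-- polynomials in `T` with coefficients in `LL n` -/
def ClaimA_P (k : Type) {E : Type} [Field k] [Field E] [Algebra k E] {e : ℕ} (x : Fin e → E)
    (n : ℕ) : AddSubgroup (Polynomial E) where
  carrier := {q | ∀ s, q.coeff s ∈ LL k x n}
  add_mem' := by
    intro a b ha hb s
    rw [coeff_add]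
    exact Submodule.add_mem _ (ha s) (hb s)
  zero_mem' := by
    intro s
    rw [coeff_zero]
    exact Submodule.zero_mem _
  neg_mem' := by
    intro a ha s
    rw [coeff_neg]
    exact Submodule.neg_mem _ (ha s)

theorem ClaimA_mem {k : Type} {E : Type} [Field k] [Field E] [Algebra k E] {e : ℕ} (x : Fin e → E)
    (n : ℕ) (q : Polynomial E) : q ∈ ClaimA_P k x n ↔ ∀ s, q.coeff s ∈ LL k x n := Iff.rfl

theorem ClaimA_mono {k : Type} {E : Type} [Field k] [Field E] [Algebra k E] {e : ℕ} (x : Fin e → E)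
    {m n : ℕ} (h : m ≤ n) {q : Polynomial E} (hq : q ∈ ClaimA_P k x m) : q ∈ ClaimA_P k x n :=
  fun s => LL_mono x h (hq s)

theorem ClaimA_mul {k : Type} {E : Type} [Field k] [Field E] [Algebra k E] {e : ℕ} (x : Fin e → E)
    {m n : ℕ} {a b : Polynomial E} (ha : a ∈ ClaimA_P k x m) (hb : b ∈ ClaimA_P k x n) :
    a * b ∈ ClaimA_P k x (m + n) := by
  intro s
  rw [coeff_mul]
  exact Submodule.sum_mem _ fun i _ => LL_mul x (ha _) (hb _)

theorem ClaimA_coeff {E : Type} [Field E] (m a : Polynomial (Polynomial E)) (r i : ℕ) :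
    ((a * X ^ r) %ₘ m).coeff i =
      ∑ s ∈ Finset.range (a.natDegree + 1), a.coeff s *
        ((X : Polynomial (Polynomial E)) ^ (s + r) %ₘ m).coeff i := by
  have h0 : a * X ^ r = ∑ s ∈ Finset.range (a.natDegree + 1),
      (a.coeff s) • (X : Polynomial (Polynomial E)) ^ (s + r) := by
    conv_lhs => rw [a.as_sum_range_C_mul_X_pow, Finset.sum_mul]
    refine Finset.sum_congr rfl fun s _ => ?_
    rw [smul_eq_C_mul, pow_add, mul_assoc]
  have h2 := map_sum (Polynomial.modByMonicHom m)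
      (fun s => ((a.coeff s) • (X : Polynomial (Polynomial E)) ^ (s + r)))
      (Finset.range (a.natDegree + 1))
  simp only [Polynomial.modByMonicHom_apply] at h2
  rw [h0, h2, finset_sum_coeff]
  refine Finset.sum_congr rfl fun s _ => ?_
  rw [smul_modByMonic, coeff_smul, smul_eq_mul]

theorem claimA {e : ℕ} {k 𝔽 E : Type} [Field k] [Infinite k] [Field 𝔽] [Field E] [Algebra k E]
    [Algebra 𝔽 k] [Algebra 𝔽 E] [IsScalarTower 𝔽 k E] (hE : IsFF k E) {δ c0 : ℕ}
    {M : Polynomial (MvPolynomial (Fin (e + 1)) 𝔽)} (hM : Shape δ c0 M) (x : Fin (e + 1) → E)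
    (hirr : Irreducible (specM x M)) (n0 : ℕ) (a : Polynomial (Polynomial E)) (ha : a ≠ 0)
    (hdeg : a.natDegree < δ) (hcoef : ∀ r s, (a.coeff r).coeff s ∈ LL k (lt x) n0) (z : E)
    (hz : (evM x M).eval z = 0)
    (h0 : eval₂ (evalRingHom (x (Fin.last e))) z a = 0) :
    dg k E (x (Fin.last e)) ≤ δ * (n0 + 2 * c0 * δ) * ∑ i, dg k E (lt x i) := by
  have hmon := (specM_monic hM x).1
  have hnd := (specM_monic hM x).2
  obtain ⟨ρ, hρ0, hρ, P', Q', hPQ⟩ := exists_norm (specM x M) a hmon hirr.prime ha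
    (by rw [hnd]; exact hdeg) (ClaimA_P k (lt x))
    (by
      intro s
      rw [coeff_one]
      split_ifs
      · exact LL_one_mem _ _
      · exact Submodule.zero_mem _)
    (fun i j a b ha hb => ClaimA_mul (lt x) ha hb) (n0 + 2 * c0 * δ)
    (by
      intro r hr i
      rw [hnd] at hr
      rw [ClaimA_coeff]
      refine AddSubgroup.sum_mem _ fun s hs => ?_
      rw [Finset.mem_range] at hs
      refine ClaimA_mono (lt x) ?_ (ClaimA_mul (lt x) (m := n0) (n := c0 * (s + r))
        (fun t => hcoef s t) (fun t => coeff_specM_pow hM x (s + r) i t))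
      have h1 : c0 * (s + r) ≤ c0 * (2 * δ) := Nat.mul_le_mul_left _ (by omega)
      have h2 : c0 * (2 * δ) = 2 * c0 * δ := by ring
      omega)
  have hev : ρ.eval (x (Fin.last e)) = 0 := by
    have h1 := congrArg (eval₂ (evalRingHom (x (Fin.last e))) z) hPQ
    rw [eval₂_C, eval₂_add, eval₂_mul, eval₂_mul, h0, eval_specM, hz, zero_mul, zero_mul,
      add_zero] at h1
    exact h1
  rw [hnd] at hρ
  have h3 := dg_root_box hE (lt x) (fun _ => δ * (n0 + 2 * c0 * δ)) ρ hρ0
    (fun s => LL_le_box (lt x) _ (hρ s)) hev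
  rw [← Finset.mul_sum] at h3
  exact h3

end

end Pool.Agent.TLW
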