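import Pool.Agent.TLW.Pows
import Pool.Agent.TLW.Norm

set_option autoImplicit false

namespace Pool.Agent.TLW

open Polynomial Pool.Agent.LFZ

section

/-- the purely inseparable part of Claim B -/
private theorem claimB_insep {p : ℕ} [Fact p.Prime] {E : Type} [Field E] [CharP E p]
    (μ ν b1 : ℕ) (hμ : p ^ ν * b1 < p ^ μ) (y : E) (F : Subfield E)
    (hF : ∀ x : E, x ^ p ^ μ ∈ F) (hF' : ∀ c ∈ F, ∃ z : E, z ^ p ^ μ = c)
    (ρ : Polynomial F) (hρ : ρ ≠ 0) (hdeg : ρ.natDegree ≤ b1)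
    (hev : eval₂ (algebraMap F E) y ρ = 0)
    (hν : ∀ z : E, y ≠ z ^ (p ^ ν)) : False := by
  have : CharP F p := (algebraMap F E).charP (algebraMap F E).injective p
  have : ExpChar F p := ExpChar.prime Fact.out
  have : IsPurelyInseparable F E := by
    rw [isPurelyInseparable_iff_pow_mem F p]
    intro x
    exact ⟨μ, ⟨⟨x ^ (p ^ μ), hF x⟩, rfl⟩⟩
  obtain ⟨n, c, hc⟩ := IsPurelyInseparable.minpoly_eq_X_pow_sub_C F p y
  have hev' : aeval y ρ = 0 := hev
  have h1 : (minpoly F y).natDegree ≤ ρ.natDegree :=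
    Polynomial.natDegree_le_natDegree (minpoly.degree_le_of_ne_zero F y hρ hev')
  have hpn : (minpoly F y).natDegree = p ^ n := by
    rw [hc]
    exact natDegree_X_pow_sub_C
  have hlt : ν + n < μ := by
    have h2 : p ^ (ν + n) < p ^ μ := by
      calc p ^ (ν + n) = p ^ ν * p ^ n := pow_add _ _ _
        _ ≤ p ^ ν * b1 := Nat.mul_le_mul_left _ (by omega)
        _ < p ^ μ := hμ
    exact (Nat.pow_lt_pow_iff_right (Fact.out : p.Prime).one_lt).mp h2
  have h3 : aeval y (minpoly F y) = 0 := minpoly.aeval F y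
  rw [hc] at h3
  simp only [map_sub, map_pow, aeval_X, aeval_C] at h3
  obtain ⟨z, hz⟩ := hF' c c.2
  have h4 : y ^ p ^ n = z ^ p ^ μ := by
    rw [sub_eq_zero] at h3
    rw [h3]
    exact hz.symm
  have h5 : z ^ p ^ μ = (((z ^ p ^ (μ - n - ν)) ^ p ^ ν)) ^ p ^ n := by
    rw [← pow_mul, ← pow_mul, ← pow_add, ← pow_add]
    congr 2
    omega
  rw [h5] at h4
  exact hν _ (iterateFrobenius_inj E p n h4)

/-- degree bound in `T` for `P Θ^r mod M` -/
private theorem claimB_deg {e : ℕ} {𝔽 Ω : Type} [Field 𝔽] [Field Ω] [Algebra 𝔽 Ω] {δ c0 : ℕ}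
    {M : Polynomial (MvPolynomial (Fin (e + 1)) 𝔽)} (hM : Shape δ c0 M) (η : Fin (e + 1) → Ω)
    (B : ℕ) (a : Fin δ → Polynomial Ω) (ha : ∀ l, (a l).natDegree ≤ B - 1) (r : ℕ) (hr : r < δ)
    (i : ℕ) : (((∑ l : Fin δ, C (a l) * (X : Polynomial (Polynomial Ω)) ^ l.val) * X ^ r %ₘ
      specM η M).coeff i).natDegree ≤ B - 1 + 2 * c0 * δ := by
  have hmon := (specM_monic hM η).1
  have h1 : ((∑ l : Fin δ, C (a l) * (X : Polynomial (Polynomial Ω)) ^ l.val) * X ^ r %ₘ
      specM η M) = ∑ l : Fin δ, C (a l) * (X ^ (l.val + r) %ₘ specM η M) := by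
    rw [Finset.sum_mul]
    have h2 : ∀ l : Fin δ, C (a l) * (X : Polynomial (Polynomial Ω)) ^ l.val * X ^ r =
        (a l) • X ^ (l.val + r) := by
      intro l
      rw [smul_eq_C_mul, pow_add, mul_assoc]
    rw [Finset.sum_congr rfl fun l _ => h2 l]
    have h3 : ∀ q : Polynomial (Polynomial Ω), q %ₘ specM η M = modByMonicHom (specM η M) q :=
      fun q => rfl
    rw [h3, map_sum]
    refine Finset.sum_congr rfl fun l _ => ?_
    rw [map_smul, ← h3, smul_eq_C_mul]
  rw [h1, finsetSum_coeff]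
  refine Polynomial.natDegree_sum_le_of_forall_le _ _ fun l _ => ?_
  rw [coeff_C_mul]
  refine natDegree_mul_le.trans ?_
  have h4 := natDegree_specM_pow hM η (l.val + r) i
  have h5 : c0 * (l.val + r) ≤ 2 * c0 * δ := by
    have h6 : l.val + r ≤ 2 * δ := by
      have := l.2
      omega
    calc c0 * (l.val + r) ≤ c0 * (2 * δ) := Nat.mul_le_mul_left _ h6
      _ = 2 * c0 * δ := by ring
  have h7 := ha l
  omega

theorem claimB {p : ℕ} [Fact p.Prime] {e : ℕ} {𝔽 E : Type} [Field 𝔽] [Finite 𝔽] [Field E]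
    [CharP E p] [Algebra 𝔽 E] {δ c0 : ℕ}
    {M : Polynomial (MvPolynomial (Fin (e + 1)) 𝔽)} (hM : Shape δ c0 M)
    {G : MvPolynomial (Fin (e + 1)) 𝔽} (hG : IrrOff G M)
    (B μ ν : ℕ) (hμ : p ^ ν * (δ * (B - 1 + 2 * c0 * δ)) < p ^ μ)
    (φ : Fin (e + 1) → E) (θ' : E) (hroot : (evM φ M).eval θ' = 0)
    (η : Fin (e + 1) → E) (hη : ∀ i, ∃ z, η i = z ^ (p ^ μ))
    (hηφ : ∀ i, i ≠ Fin.last e → η i = φ i) (hGη : MvPolynomial.aeval η G ≠ 0)
    (hν : ∀ z : E, φ (Fin.last e) ≠ z ^ (p ^ ν))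
    (b : Fin B → Fin δ → E) (hb : ∃ l l', b l l' ≠ 0) :
    ∑ l, ∑ l', b l l' ^ (p ^ μ) * φ (Fin.last e) ^ l.val * θ' ^ l'.val ≠ 0 := by
  intro hsum
  -- the subfield of `p^μ`-th powers
  obtain ⟨F, hF, hF'⟩ : ∃ F : Subfield E, (∀ x : E, x ^ p ^ μ ∈ F) ∧
      (∀ c ∈ F, ∃ z : E, z ^ p ^ μ = c) := by
    refine ⟨(iterateFrobenius E p μ).fieldRange, fun x => ⟨x, rfl⟩, ?_⟩
    rintro c ⟨z, hz⟩
    exact ⟨z, hz⟩
  have hchar : CharP 𝔽 p := (algebraMap 𝔽 E).charP (algebraMap 𝔽 E).injective p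
  have hFF : ∀ c : 𝔽, algebraMap 𝔽 E c ∈ F := by
    intro c
    have hinj := iterateFrobenius_inj 𝔽 p μ
    obtain ⟨d, hd⟩ := (Finite.injective_iff_surjective.mp hinj) c
    have : algebraMap 𝔽 E c = (algebraMap 𝔽 E d) ^ p ^ μ := by
      rw [← hd, ← map_pow]
      rfl
    rw [this]
    exact hF _
  letI alg : Algebra 𝔽 F := ((algebraMap 𝔽 E).codRestrict F.toSubring hFF).toAlgebra
  have tower : IsScalarTower 𝔽 F E := IsScalarTower.of_algebraMap_eq fun c => rfl
  have hηF : ∀ i, η i ∈ F := by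
    intro i
    obtain ⟨z, hz⟩ := hη i
    rw [hz]
    exact hF z
  set ηF : Fin (e + 1) → F := fun i => ⟨η i, hηF i⟩ with hηFdef
  have hGF : MvPolynomial.aeval ηF G ≠ 0 := by
    intro h
    apply hGη
    have h2 : algebraMap F E (MvPolynomial.aeval ηF G) = MvPolynomial.aeval η G := by
      have := MvPolynomial.aeval_algebraMap_apply E ηF G
      rw [← this]
      rfl
    rw [← h2, h, map_zero]
  have hirr : Irreducible (specM ηF M) := hG F ηF hGF
  have hprime : Prime (specM ηF M) := hirr.prime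
  obtain ⟨hmon, hnat⟩ := specM_monic hM ηF
  -- the polynomial `P`
  set a : Fin δ → Polynomial F := fun l' => ∑ l : Fin B,
    C (⟨b l l' ^ p ^ μ, hF _⟩ : F) * X ^ l.val with ha
  set P : Polynomial (Polynomial F) := ∑ l' : Fin δ, C (a l') * X ^ l'.val with hP
  have hacoef : ∀ (l' : Fin δ) (l : Fin B), (a l').coeff l.val = (⟨b l l' ^ p ^ μ, hF _⟩ : F) := by
    intro l' l
    simp only [ha, finsetSum_coeff, coeff_C_mul, coeff_X_pow]
    rw [Finset.sum_eq_single l]
    · simp
    · intro l2 _ hl2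
      rw [if_neg, mul_zero]
      intro h
      exact hl2 (Fin.ext h.symm)
    · intro h
      exact absurd (Finset.mem_univ _) h
  have hPcoef : ∀ l' : Fin δ, P.coeff l'.val = a l' := by
    intro l'
    simp only [hP, finsetSum_coeff, coeff_C_mul, coeff_X_pow]
    rw [Finset.sum_eq_single l']
    · simp
    · intro l2 _ hl2
      rw [if_neg, mul_zero]
      intro h
      exact hl2 (Fin.ext h.symm)
    · intro h
      exact absurd (Finset.mem_univ _) h
  obtain ⟨l0, l0', hb0⟩ := hb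
  have hPne : P ≠ 0 := by
    intro h
    have h1 := hPcoef l0'
    rw [h, coeff_zero] at h1
    have h2 := hacoef l0' l0
    rw [← h1, coeff_zero] at h2
    have h3 : b l0 l0' ^ p ^ μ = 0 := by
      have := congrArg (algebraMap F E) h2
      rw [map_zero] at this
      exact this.symm
    exact hb0 (eq_zero_of_pow_eq_zero h3)
  have hδ : 0 < δ := lt_of_le_of_lt (Nat.zero_le _) l0'.2
  have hPdeg : P.natDegree < (specM ηF M).natDegree := by
    rw [hnat]
    have h1 : P.natDegree ≤ δ - 1 := by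
      refine Polynomial.natDegree_sum_le_of_forall_le _ _ fun l _ => ?_
      refine (natDegree_C_mul_X_pow_le _ _).trans ?_
      have := l.2
      omega
    omega
  have hadeg : ∀ l', (a l').natDegree ≤ B - 1 := by
    intro l'
    refine Polynomial.natDegree_sum_le_of_forall_le _ _ fun l _ => ?_
    refine (natDegree_C_mul_X_pow_le _ _).trans ?_
    have := l.2
    omega
  obtain ⟨ρ, hρ, hρdeg, P', Q', hid⟩ := exists_norm (specM ηF M) P hmon hprime hPne hPdeg
    (fun n => (Polynomial.degreeLE F n).toAddSubgroup)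
    (by
      change (1 : Polynomial F) ∈ Polynomial.degreeLE F ((0 : ℕ) : WithBot ℕ)
      rw [Polynomial.mem_degreeLE]
      exact Polynomial.degree_one_le)
    (by
      intro i j u v hu hv
      change u ∈ Polynomial.degreeLE F ((i : ℕ) : WithBot ℕ) at hu
      change v ∈ Polynomial.degreeLE F ((j : ℕ) : WithBot ℕ) at hv
      change u * v ∈ Polynomial.degreeLE F (((i + j : ℕ)) : WithBot ℕ)
      rw [Polynomial.mem_degreeLE] at hu hv ⊢
      refine (Polynomial.degree_mul_le u v).trans ?_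
      push_cast
      exact add_le_add hu hv)
    (B - 1 + 2 * c0 * δ)
    (by
      intro r hr i
      change _ ∈ Polynomial.degreeLE F (((B - 1 + 2 * c0 * δ : ℕ)) : WithBot ℕ)
      rw [Polynomial.mem_degreeLE]
      rw [hnat] at hr
      exact Polynomial.degree_le_of_natDegree_le (claimB_deg hM ηF B a hadeg r hr i))
  rw [hnat] at hρdeg
  have hρnat : ρ.natDegree ≤ δ * (B - 1 + 2 * c0 * δ) := by
    change ρ ∈ Polynomial.degreeLE F (((δ * (B - 1 + 2 * c0 * δ) : ℕ)) : WithBot ℕ) at hρdeg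
    rw [Polynomial.mem_degreeLE] at hρdeg
    exact Polynomial.natDegree_le_of_degree_le hρdeg
  -- evaluation
  set ev1 : Polynomial F →+* E := eval₂RingHom (algebraMap F E) (φ (Fin.last e)) with hev1
  set ev2 : Polynomial (Polynomial F) →+* E := eval₂RingHom ev1 θ' with hev2
  have hevP : ev2 P = 0 := by
    have h1 : ev2 P = ∑ l' : Fin δ, ∑ l : Fin B, b l l' ^ (p ^ μ) * φ (Fin.last e) ^ l.val *
        θ' ^ l'.val := by
      simp only [hP, map_sum, map_mul, map_pow]
      refine Finset.sum_congr rfl fun l' _ => ?_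
      have h2 : ev2 X = θ' := by simp [hev2]
      have h3 : ev2 (C (a l')) = ev1 (a l') := by simp [hev2]
      have h4 : ev1 X = φ (Fin.last e) := by simp [hev1]
      have h5 : ∀ c : F, ev1 (C c) = (c : E) := by
        intro c
        simp [hev1]
        rfl
      rw [h2, h3]
      simp only [ha, map_sum, map_mul, map_pow]
      rw [Finset.sum_mul]
      refine Finset.sum_congr rfl fun l _ => ?_
      rw [h4, h5]
    rw [h1, Finset.sum_comm]
    exact hsum
  have hevM : ev2 (specM ηF M) = 0 := by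
    have h1 : eval₂ (evalRingHom (φ (Fin.last e))) θ' (specM φ M) = 0 := by
      rw [eval_specM]
      exact hroot
    have h2 : specM η M = specM φ M := specM_congr M η φ hηφ
    have h3 : specM η M = (specM ηF M).map (mapRingHom (algebraMap F E)) := by
      unfold specM
      rw [Polynomial.map_map]
      congr 1
      apply MvPolynomial.ringHom_ext
      · intro c
        simp
        rfl
      · intro i
        simp only [RingHom.coe_coe, MvPolynomial.aeval_X, RingHom.comp_apply, line]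
        split_ifs
        · simp
        · simp only [coe_mapRingHom, map_C]
          rfl
    rw [← h2, h3, eval₂_map] at h1
    rw [hev2, coe_eval₂RingHom]
    convert h1 using 2
    apply Polynomial.ringHom_ext
    · intro c
      simp [hev1]
    · simp [hev1]
  have hevρ : eval₂ (algebraMap F E) (φ (Fin.last e)) ρ = 0 := by
    have h1 := congrArg ev2 hid
    rw [map_add, map_mul, map_mul, hevP, hevM, zero_mul, zero_mul, add_zero] at h1
    have h2 : ev2 (C ρ) = ev1 ρ := by simp [hev2]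
    rw [h2] at h1
    exact h1
  exact claimB_insep μ ν _ hμ (φ (Fin.last e)) F hF hF' ρ hρ hρnat hevρ hν

end

end Pool.Agent.TLW
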