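import Pool.Agent.LFZ.Defs

/-!
# MP_08a057_al : definitions for the full twisted Lang-Weil theorem (existence of points)
-/

set_option autoImplicit false

namespace Pool.Agent.TLW

open Polynomial Pool.Agent.LFZ

/-! ## Polynomials `M ∈ 𝔽[Y_0,…,Y_e][Θ]` and their specialisations -/

section Spec

variable {e : ℕ} {𝔽 : Type} [Field 𝔽]

/-- the point `(η_0, …, η_(e-1), T)` with coordinates in `Ω[T]` (`η_e` is not used) -/
noncomputable def line {Ω : Type} [Field Ω] (η : Fin (e + 1) → Ω) : Fin (e + 1) → Polynomial Ω :=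
  fun i => if i = Fin.last e then X else C (η i)

/-- the polynomial `M (η_0, …, η_(e-1), T, Θ)` in `Ω[T][Θ]` -/
noncomputable def specM {Ω : Type} [Field Ω] [Algebra 𝔽 Ω] (η : Fin (e + 1) → Ω)
    (M : Polynomial (MvPolynomial (Fin (e + 1)) 𝔽)) : Polynomial (Polynomial Ω) :=
  M.map ((MvPolynomial.aeval (line η) :
    MvPolynomial (Fin (e + 1)) 𝔽 →ₐ[𝔽] Polynomial Ω) : MvPolynomial (Fin (e + 1)) 𝔽 →+* Polynomial Ω)

/-- the polynomial `M (x, Θ)` in `E[Θ]` -/
noncomputable def evM {E : Type} [CommRing E] [Algebra 𝔽 E] (x : Fin (e + 1) → E)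
    (M : Polynomial (MvPolynomial (Fin (e + 1)) 𝔽)) : Polynomial E :=
  M.map ((MvPolynomial.aeval x :
    MvPolynomial (Fin (e + 1)) 𝔽 →ₐ[𝔽] E) : MvPolynomial (Fin (e + 1)) 𝔽 →+* E)

/-- `M` stays irreducible on all lines `(η_0, …, η_(e-1), T)` with `G(η) ≠ 0` -/
def IrrOff (G : MvPolynomial (Fin (e + 1)) 𝔽) (M : Polynomial (MvPolynomial (Fin (e + 1)) 𝔽)) :
    Prop :=
  ∀ (Ω : Type) [Field Ω] [Algebra 𝔽 Ω] (η : Fin (e + 1) → Ω),
    MvPolynomial.aeval η G ≠ 0 → Irreducible (specM η M)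

/-- `M` is monic of degree `δ` with coefficients of total degree at most `c0` -/
structure Shape (δ c0 : ℕ) (M : Polynomial (MvPolynomial (Fin (e + 1)) 𝔽)) : Prop where
  monic : M.Monic
  deg : M.natDegree = δ
  tot : ∀ r, (M.coeff r).totalDegree ≤ c0

end Spec

/-! ## Spans of monomials -/

section Spans

variable (k : Type) {E : Type} [Field k] [Field E] [Algebra k E]

/-- the span of the monomials of degree at most `d i` in `z i` -/
def Box {ι : Type} [Fintype ι] (z : ι → E) (d : ι → ℕ) : Submodule k E :=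
  Submodule.span k {y | ∃ α : ι → ℕ, (∀ i, α i ≤ d i) ∧ y = ∏ i, z i ^ α i}

/-- the span of the monomials of total degree at most `n` in the `x i` -/
def LL {e : ℕ} (x : Fin e → E) (n : ℕ) : Submodule k E :=
  Submodule.span k {y | ∃ α : Fin e → ℕ, ∑ i, α i ≤ n ∧ y = ∏ i, x i ^ α i}

end Spans

/-! ## The data of the last stage -/

section Data

/-- the product of the `1 / (y i - b)` -/
noncomputable def uP {E : Type} [Field E] {m : ℕ} (y : Fin m → E) (b : E) : E :=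
  ∏ i, (y i - b)⁻¹

/-- all coordinates but the last -/
def lt {E : Type} {e : ℕ} (x : Fin (e + 1) → E) : Fin e → E := fun i => x i.castSucc

/-- field data of the last stage: `φ i = x i ^ Q` for `i < e`; `M(x,Θ) = ∏ (Θ - θ i)`;
`M(φ,θ') = 0`. -/
structure Conf {e : ℕ} (k 𝔽 : Type) {E : Type} [Field k] [Field 𝔽] [Field E] [Algebra k E]
    [Algebra 𝔽 E] (δ c0 Q : ℕ) (M : Polynomial (MvPolynomial (Fin (e + 1)) 𝔽))
    (x φ : Fin (e + 1) → E) (θ : Fin δ → E) (θ' : E) : Prop where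
  ff : IsFF k E
  shape : Shape δ c0 M
  fixed : ∀ c : 𝔽, c ^ Q = c
  frob : ∀ i : Fin (e + 1), i ≠ Fin.last e → φ i = x i ^ Q
  split : evM x M = ∏ i, (X - C (θ i))
  root : (evM φ M).eval θ' = 0

/-- the element `g = φ_e - x_e ^ Q` -/
def gg {e : ℕ} {E : Type} [Field E] (Q : ℕ) (x φ : Fin (e + 1) → E) : E :=
  φ (Fin.last e) - x (Fin.last e) ^ Q

/-- the ring `W` contains `1/(x i - b)`, `u^c0 θ i` and `u'^c0 θ'` -/
structure WConf {e : ℕ} (k : Type) {E : Type} [Field k] [Field E] [Algebra k E]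
    {δ : ℕ} (c0 Q : ℕ) (x φ : Fin (e + 1) → E) (θ : Fin δ → E) (θ' : E) (b : k)
    (W : Subalgebra k E) : Prop where
  isW : IsW k (gg Q x φ) W
  ne : ∀ i, x i ≠ algebraMap k E b
  inv : ∀ i, (x i - algebraMap k E b)⁻¹ ∈ W
  th : ∀ i, uP x (algebraMap k E b) ^ c0 * θ i ∈ W
  th' : uP φ (algebraMap k E b ^ Q) ^ c0 * θ' ∈ W

/-- the element `ω̃_i = u'^c0 (θ' - θ_i ^ Q)` -/
noncomputable def om {e : ℕ} {k E : Type} [Field k] [Field E] [Algebra k E] {δ : ℕ} (c0 Q : ℕ)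
    (φ : Fin (e + 1) → E) (θ : Fin δ → E) (θ' : E) (b : k) (i : Fin δ) : E :=
  uP φ (algebraMap k E b ^ Q) ^ c0 * (θ' - θ i ^ Q)

end Data

/-! ## The auxiliary elements -/

section Aux

/-- the element `Φ = Σ a_{l,l'}(x_e, z)^P φ_e^l θ'^l'` -/
noncomputable def PhiRaw {e δ B : ℕ} {E : Type} [Field E] (P : ℕ) (x φ : Fin (e + 1) → E)
    (z θ' : E) (a : Fin B → Fin δ → Polynomial (Polynomial E)) : E :=
  ∑ l, ∑ l', eval₂ (evalRingHom (x (Fin.last e))) z (a l l') ^ P * φ (Fin.last e) ^ l.val *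
    θ' ^ l'.val

/-- the denominator of `Φ` -/
noncomputable def PhiDen {e : ℕ} {k E : Type} [Field k] [Field E] [Algebra k E]
    (δ c0 B A n0 P Q : ℕ) (x φ : Fin (e + 1) → E) (b : k) : E :=
  (uP (lt x) (algebraMap k E b) ^ n0 * ((x (Fin.last e) - algebraMap k E b)⁻¹) ^ A *
    uP x (algebraMap k E b) ^ (c0 * δ)) ^ P *
  ((φ (Fin.last e) - algebraMap k E b ^ Q)⁻¹) ^ B *
  uP φ (algebraMap k E b ^ Q) ^ (c0 * δ)

end Aux

/-- the last stage over `k` itself -/
def SStage {p e : ℕ} [Fact p.Prime] {R₀ : Type} [CommRing R₀] [Algebra (ZMod p) R₀]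
    (f h : Fin (e + 1) → R₀) (Q N : ℕ) (D : MvPolynomial (Fin (e + 1)) (ZMod p)) : Prop :=
  ∃ (E : Type) (_ : Field E) (_ : Algebra (AlgebraicClosure (ZMod p)) E)
    (_ : Algebra (ZMod p) E) (_ : IsScalarTower (ZMod p) (AlgebraicClosure (ZMod p)) E)
    (ψ : R₀ →ₐ[ZMod p] E),
    (∀ i, i ≠ Fin.last e → ψ (f i) = ψ (h i) ^ Q) ∧
    MvPolynomial.aeval (fun i => ψ (h i)) D ≠ 0 ∧
    IsFF (AlgebraicClosure (ZMod p)) E ∧
    Transcendental (AlgebraicClosure (ZMod p)) (ψ (h (Fin.last e))) ∧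
    dg (AlgebraicClosure (ZMod p)) E (ψ (h (Fin.last e))) ≤ N ∧
    IntermediateField.adjoin (AlgebraicClosure (ZMod p)) (Set.range ψ) = ⊤

/-! ## Part I -/

/-- the families `f` and `h` satisfy the same polynomial relations over `k` -/
def SameRel (k : Type) {L ι : Type} [Field k] [Field L] [Algebra k L] (f h : ι → L) : Prop :=
  ∀ P : MvPolynomial ι k, MvPolynomial.aeval f P = 0 ↔ MvPolynomial.aeval h P = 0

/-- evaluation of the coefficients of `P ∈ k[Y][Θ]` at the point `y` -/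
noncomputable def evG {k L σ : Type} [Field k] [Field L] [Algebra k L] (y : σ → L)
    (P : Polynomial (MvPolynomial σ k)) : Polynomial L :=
  P.map ((MvPolynomial.aeval y : MvPolynomial σ k →ₐ[k] L) : MvPolynomial σ k →+* L)

/-- blow-up of `M` at the point `y₀` : `Y_i = y₀_i + W_i T` (`i < e`), `Y_e = y₀_e + T` -/
noncomputable def blowM {e : ℕ} {k : Type} [Field k] (y₀ : Fin (e + 1) → k)
    (M : Polynomial (MvPolynomial (Fin (e + 1)) k)) : Polynomial (MvPolynomial (Fin (e + 1)) k) :=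
  M.map ((MvPolynomial.aeval (fun i => MvPolynomial.C (y₀ i) +
    (if i = Fin.last e then MvPolynomial.X (Fin.last e) else
      MvPolynomial.X i * MvPolynomial.X (Fin.last e))) :
    MvPolynomial (Fin (e + 1)) k →ₐ[k] MvPolynomial (Fin (e + 1)) k) :
    MvPolynomial (Fin (e + 1)) k →+* MvPolynomial (Fin (e + 1)) k)

/-- the new coordinates -/
noncomputable def blowPt {e : ℕ} {k L : Type} [Field k] [Field L] [Algebra k L]
    (y₀ : Fin (e + 1) → k) (y : Fin (e + 1) → L) : Fin (e + 1) → L :=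
  fun i => if i = Fin.last e then y i - algebraMap k L (y₀ i) else
    (y i - algebraMap k L (y₀ i)) / (y (Fin.last e) - algebraMap k L (y₀ (Fin.last e)))

end Pool.Agent.TLW
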