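import Pool.Agent.TLW.Defs

set_option autoImplicit false

namespace Pool.Agent.TLW

open Polynomial Pool.Agent.LFZ

lemma hensel_const {R : Type} [CommRing R] (Q : Polynomial (PowerSeries R)) (z : PowerSeries R) :
    PowerSeries.constantCoeff (R := R) (Q.eval z)
      = (Q.map (PowerSeries.constantCoeff (R := R))).eval
        (PowerSeries.constantCoeff (R := R) z) := by
  rw [Polynomial.eval_map, Polynomial.eval₂_at_apply]

lemma hensel_step {R : Type} [CommRing R] (P : Polynomial (PowerSeries R)) (r u : R)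
    (h1 : u * (derivative (P.map (PowerSeries.constantCoeff (R := R)))).eval r = 1)
    (n : ℕ) (z : PowerSeries R) (hz : PowerSeries.constantCoeff (R := R) z = r)
    (hd : (PowerSeries.X : PowerSeries R) ^ (n + 1) ∣ P.eval z) :
    ∃ z' : PowerSeries R, (PowerSeries.constantCoeff (R := R) z' = r ∧
      (PowerSeries.X : PowerSeries R) ^ (n + 1 + 1) ∣ P.eval z') ∧
      (PowerSeries.X : PowerSeries R) ^ (n + 1) ∣ z' - z := by
  obtain ⟨w, hw⟩ := hd
  set w0 : R := PowerSeries.constantCoeff (R := R) w with hw0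
  refine ⟨z + PowerSeries.C (-(u * w0)) * PowerSeries.X ^ (n + 1), ⟨?_, ?_⟩, ?_⟩
  · simp [hz]
  · obtain ⟨k, hk⟩ := Polynomial.binomExpansion P z
      (PowerSeries.C (-(u * w0)) * PowerSeries.X ^ (n + 1))
    rw [hk, hw]
    have hX : (PowerSeries.X : PowerSeries R) ∣
        w + P.derivative.eval z * PowerSeries.C (-(u * w0)) := by
      rw [PowerSeries.X_dvd_iff, map_add, map_mul, hensel_const, hz, ← Polynomial.derivative_map,
        PowerSeries.constantCoeff_C, ← hw0]
      linear_combination (-w0) * h1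
    obtain ⟨q, hq⟩ := hX
    refine ⟨q + k * PowerSeries.C (-(u * w0)) ^ 2 * PowerSeries.X ^ n, ?_⟩
    have e1 : PowerSeries.X ^ (n + 1) * w +
        P.derivative.eval z * (PowerSeries.C (-(u * w0)) * PowerSeries.X ^ (n + 1))
        = PowerSeries.X ^ (n + 1) * (w + P.derivative.eval z * PowerSeries.C (-(u * w0))) := by
      ring
    rw [e1, hq]
    ring
  · rw [add_sub_cancel_left]
    exact Dvd.intro_left _ rfl

/-- Hensel's lemma for power series: a simple root modulo `X` lifts. -/
theorem powerSeries_hensel {R : Type} [CommRing R] (P : Polynomial (PowerSeries R)) (r u : R)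
    (h0 : (P.map (PowerSeries.constantCoeff (R := R))).eval r = 0)
    (h1 : u * (derivative (P.map (PowerSeries.constantCoeff (R := R)))).eval r = 1) :
    ∃ z : PowerSeries R, PowerSeries.constantCoeff (R := R) z = r ∧ P.eval z = 0 := by
  have step := hensel_step P r u h1
  choose f hf using step
  let s : ∀ n : ℕ, {z : PowerSeries R // PowerSeries.constantCoeff (R := R) z = r ∧
      (PowerSeries.X : PowerSeries R) ^ (n + 1) ∣ P.eval z} := fun n =>
    Nat.rec ⟨PowerSeries.C r, by simp, by
      have hb : (PowerSeries.X : PowerSeries R) ^ 1 ∣ eval (PowerSeries.C r) P := by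
        rw [pow_one, PowerSeries.X_dvd_iff, hensel_const, PowerSeries.constantCoeff_C]
        exact h0
      exact hb⟩ (fun n z => ⟨f n z.1 z.2.1 z.2.2, (hf n z.1 z.2.1 z.2.2).1⟩) n
  have hs : ∀ n, (PowerSeries.X : PowerSeries R) ^ (n + 1) ∣ (s (n + 1)).1 - (s n).1 := fun n =>
    (hf n (s n).1 (s n).2.1 (s n).2.2).2
  have hmn : ∀ m n, m ≤ n → (PowerSeries.X : PowerSeries R) ^ (m + 1) ∣ (s n).1 - (s m).1 := by
    intro m n h
    induction n, h using Nat.le_induction with
    | base => simp
    | succ n hn ih =>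
      have h2 : (PowerSeries.X : PowerSeries R) ^ (m + 1) ∣ (s (n + 1)).1 - (s n).1 :=
        (pow_dvd_pow _ (by omega)).trans (hs n)
      have := dvd_add h2 ih
      rwa [sub_add_sub_cancel] at this
  let z : PowerSeries R := PowerSeries.mk fun m => PowerSeries.coeff (R := R) m (s m).1
  have hz : ∀ n, (PowerSeries.X : PowerSeries R) ^ (n + 1) ∣ z - (s n).1 := by
    intro n
    rw [PowerSeries.X_pow_dvd_iff]
    intro m hm
    have h3 := hmn m n (by omega)
    rw [PowerSeries.X_pow_dvd_iff] at h3
    have h4 := h3 m (by omega)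
    rw [map_sub, sub_eq_zero] at h4
    rw [map_sub, PowerSeries.coeff_mk, h4, sub_self]
  refine ⟨z, ?_, ?_⟩
  · have h7 := hz 0
    rw [PowerSeries.X_pow_dvd_iff] at h7
    have h8 := h7 0 (by omega)
    rw [PowerSeries.coeff_zero_eq_constantCoeff_apply, map_sub, sub_eq_zero] at h8
    rw [h8]
    exact (s 0).2.1
  · ext m
    have h5 : (PowerSeries.X : PowerSeries R) ^ (m + 1) ∣ P.eval z := by
      have h6 := (hz m).trans (Polynomial.sub_dvd_eval_sub z (s m).1 P)
      have := dvd_add h6 (s m).2.2
      rwa [sub_add_cancel] at this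
    rw [PowerSeries.X_pow_dvd_iff] at h5
    rw [h5 m (by omega), map_zero]

end Pool.Agent.TLW
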