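import Pool.Agent.TLW.Defs
import Pool.Agent.LFZ.Wring

set_option autoImplicit false

namespace Pool.Agent.TLW

open Polynomial Pool.Agent.LFZ

section

variable {κ E : Type} [Field κ] [Field E] [Algebra κ E]

/-- the local ring of `u = 0`, as a subring of `E` -/
def intAtRing (κ : Type) {E : Type} [Field κ] [Field E] [Algebra κ E] (u : E) : Subring E where
  carrier := {y | ∃ a b : κ[X], b.eval 0 ≠ 0 ∧ y * aeval u b = aeval u a}
  mul_mem' := by
    rintro y z ⟨a, b, hb, h⟩ ⟨a', b', hb', h'⟩
    refine ⟨a * a', b * b', by rw [eval_mul]; exact mul_ne_zero hb hb', ?_⟩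
    rw [map_mul, map_mul, ← h, ← h']
    ring
  one_mem' := ⟨1, 1, by simp, by simp⟩
  add_mem' := by
    rintro y z ⟨a, b, hb, h⟩ ⟨a', b', hb', h'⟩
    refine ⟨a * b' + a' * b, b * b', by rw [eval_mul]; exact mul_ne_zero hb hb', ?_⟩
    rw [map_add, map_mul, map_mul, map_mul, ← h, ← h']
    ring
  zero_mem' := ⟨0, 1, by simp, by simp⟩
  neg_mem' := by
    rintro y ⟨a, b, hb, h⟩
    refine ⟨-a, b, hb, ?_⟩
    rw [map_neg, ← h]
    ring

theorem mem_intAtRing {u y : E} :
    y ∈ intAtRing κ u ↔ ∃ a b : κ[X], b.eval 0 ≠ 0 ∧ y * aeval u b = aeval u a := Iff.rfl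

theorem aeval_mem_intAtRing (u : E) (a : κ[X]) : aeval u a ∈ intAtRing κ u :=
  ⟨a, 1, by simp, by simp⟩

theorem intAt_aeval_ne {u : E} (hu : Transcendental κ u) {b : κ[X]} (hb : b ≠ 0) :
    aeval u b ≠ 0 := fun h => hb (transcendental_iff.1 hu b h)

theorem intAt_clear {u : E} (hu : Transcendental κ u) (q : E[X])
    (hq : ∀ i, q.coeff i ∈ intAtRing κ u) :
    ∃ (s : κ[X]) (P : κ[X][X]), s.eval 0 ≠ 0 ∧
      P.map ((aeval u : κ[X] →ₐ[κ] E) : κ[X] →+* E) = C (aeval u s) * q := by
  classical
  choose a b hb hab using hq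
  obtain ⟨N, hN⟩ : ∃ N : ℕ, q = ∑ i ∈ Finset.range N, C (q.coeff i) * X ^ i :=
    ⟨q.natDegree + 1, q.as_sum_range_C_mul_X_pow⟩
  refine ⟨∏ i ∈ Finset.range N, b i,
    ∑ i ∈ Finset.range N, C (a i * ∏ j ∈ (Finset.range N).erase i, b j) * X ^ i, ?_, ?_⟩
  · rw [eval_prod]
    exact Finset.prod_ne_zero_iff.2 fun i _ => hb i
  · have h1 : C (aeval u (∏ i ∈ Finset.range N, b i)) * q =
        ∑ i ∈ Finset.range N, C (aeval u (∏ i ∈ Finset.range N, b i)) *
          (C (q.coeff i) * X ^ i) := by
      rw [← Finset.mul_sum, ← hN]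
    rw [h1, Polynomial.map_sum]
    refine Finset.sum_congr rfl fun i hi => ?_
    rw [Polynomial.map_mul, Polynomial.map_pow, map_X, map_C, ← mul_assoc, ← C_mul]
    congr 2
    rw [← Finset.mul_prod_erase _ _ hi, map_mul, RingHom.coe_coe, map_mul, ← hab i]
    ring

theorem intAt_iff {u : E} (hu : Transcendental κ u) (x : E) :
    IntAt κ u x ↔ IsIntegral (intAtRing κ u) x := by
  constructor
  · rintro ⟨P, hP, hPx⟩
    set f : κ[X] →+* E := ((aeval u : κ[X] →ₐ[κ] E) : κ[X] →+* E) with hf
    have hinj : Function.Injective f := by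
      rw [injective_iff_map_eq_zero]
      intro a ha
      exact transcendental_iff.1 hu a ha
    have hlc0 : P.leadingCoeff ≠ 0 := by
      intro h
      rw [h] at hP
      simp at hP
    have hlc : f P.leadingCoeff ≠ 0 := fun h => hlc0 (hinj (by rw [h, map_zero]))
    have hlc2 : (P.map f).leadingCoeff = f P.leadingCoeff :=
      leadingCoeff_map_of_leadingCoeff_ne_zero _ hlc
    have hinvmem : (f P.leadingCoeff)⁻¹ ∈ intAtRing κ u := by
      refine ⟨1, P.leadingCoeff, hP, ?_⟩
      rw [map_one]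
      exact inv_mul_cancel₀ hlc
    set q : E[X] := C (f P.leadingCoeff)⁻¹ * P.map f with hq
    have hmon : q.Monic := monic_C_mul_of_mul_leadingCoeff_eq_one (by
      rw [hlc2, inv_mul_cancel₀ hlc])
    have hc : ((q.coeffs : Finset E) : Set E) ⊆ intAtRing κ u := by
      intro c hc
      rw [Finset.mem_coe, Polynomial.mem_coeffs_iff] at hc
      obtain ⟨n, _, rfl⟩ := hc
      rw [hq, coeff_C_mul, coeff_map]
      exact (intAtRing κ u).mul_mem hinvmem (aeval_mem_intAtRing u _)
    refine ⟨q.toSubring _ hc, (monic_toSubring _ _ _).2 hmon, ?_⟩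
    have h1 : (q.toSubring _ hc).map (Subring.subtype (intAtRing κ u)) = q :=
      Polynomial.map_toSubring _ _ _
    have h2 : eval₂ (algebraMap (intAtRing κ u) E) x (q.toSubring _ hc) = eval x q := by
      conv_rhs => rw [← h1, eval_map]
      rfl
    rw [h2, hq, eval_mul, eval_map, hPx, mul_zero]
  · rintro ⟨q, hq, hqx⟩
    set f : κ[X] →+* E := ((aeval u : κ[X] →ₐ[κ] E) : κ[X] →+* E) with hf
    have hinj : Function.Injective f := by
      rw [injective_iff_map_eq_zero]
      intro a ha
      exact transcendental_iff.1 hu a ha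
    set q' : E[X] := q.map (algebraMap (intAtRing κ u) E) with hq'
    have hmon : q'.Monic := hq.map _
    obtain ⟨s, P, hs, hPs⟩ := intAt_clear hu q' (fun i => by
      rw [hq', coeff_map]
      exact (q.coeff i).2)
    have hs0 : s ≠ 0 := by
      rintro rfl
      simp at hs
    have hsu : aeval u s ≠ 0 := intAt_aeval_ne hu hs0
    have h1 : f P.leadingCoeff = aeval u s := by
      have h2 : (P.map f).leadingCoeff = f P.leadingCoeff := leadingCoeff_map_of_injective hinj P
      rw [← h2, hPs, leadingCoeff_mul, leadingCoeff_C, hmon.leadingCoeff, mul_one]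
    have h2 : P.leadingCoeff = s := hinj h1
    refine ⟨P, by rw [h2]; exact hs, ?_⟩
    rw [← hf, ← eval_map, hPs, eval_mul, hq', eval_map, hqx, mul_zero]

theorem intAt_of_isIntegral {u : E} (hu : Transcendental κ u) (S : Subring E)
    (hS : ∀ s ∈ S, IntAt κ u s) {z : E} (hz : IsIntegral S z) : IntAt κ u z := by
  rw [intAt_iff hu]
  have hS' : ∀ s ∈ S, s ∈ (integralClosure (intAtRing κ u) E).toSubring := by
    intro s hs
    exact (intAt_iff hu s).1 (hS s hs)
  obtain ⟨p, hp, hpz⟩ := hz
  have hint : IsIntegral (integralClosure (intAtRing κ u) E) z := by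
    refine ⟨p.map (Subring.inclusion (hS' : S ≤ (integralClosure (intAtRing κ u) E).toSubring)),
      hp.map _, ?_⟩
    have : eval₂ (algebraMap (integralClosure (intAtRing κ u) E) E) z
        (p.map (Subring.inclusion (hS' : S ≤ (integralClosure (intAtRing κ u) E).toSubring))) =
        eval₂ (algebraMap S E) z p := by
      rw [eval₂_map]
      rfl
    rw [this]
    exact hpz
  exact isIntegral_trans (R := intAtRing κ u) (A := integralClosure (intAtRing κ u) E) z hint

theorem intAt_adjoin {u : E} (hu : Transcendental κ u) (T : Set E) (hT : ∀ x ∈ T, IntAt κ u x) :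
    ∀ s ∈ Algebra.adjoin κ T, IntAt κ u s := by
  intro s hs
  rw [intAt_iff hu]
  induction hs using Algebra.adjoin_induction with
  | mem x hx => exact (intAt_iff hu x).1 (hT x hx)
  | algebraMap c =>
    have h : algebraMap κ E c ∈ intAtRing κ u := by
      have := aeval_mem_intAtRing (κ := κ) u (C c)
      rwa [aeval_C] at this
    exact isIntegral_algebraMap (R := intAtRing κ u) (x := ⟨_, h⟩)
  | add x y _ _ hx hy => exact hx.add hy
  | mul x y _ _ hx hy => exact hx.mul hy

theorem intAt_self {u : E} (hu : Transcendental κ u) : IntAt κ u u := by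
  rw [intAt_iff hu]
  have h : u ∈ intAtRing κ u := by
    have := aeval_mem_intAtRing (κ := κ) u X
    rwa [aeval_X] at this
  exact isIntegral_algebraMap (R := intAtRing κ u) (x := ⟨_, h⟩)

end

end Pool.Agent.TLW
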