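import Pool.Agent.TLW.Pows
import Pool.Agent.TLW.Grow

set_option autoImplicit false

namespace Pool.Agent.TLW

open Polynomial Pool.Agent.LFZ

section

/-- coefficient of `T^s` in `T^d` times the coefficient of `Θ^r` in `Θ^n mod m` -/
noncomputable def LinAlg_W {E : Type} [Field E] (m : Polynomial (Polynomial E)) (n r s d : ℕ) : E :=
  (X ^ d * ((X : Polynomial (Polynomial E)) ^ n %ₘ m).coeff r).coeff s

theorem LinAlg_W_mem {e : ℕ} {k 𝔽 E : Type} [Field k] [Field 𝔽] [Field E] [Algebra k E]
    [Algebra 𝔽 k] [Algebra 𝔽 E] [IsScalarTower 𝔽 k E] {δ c0 : ℕ}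
    {M : Polynomial (MvPolynomial (Fin (e + 1)) 𝔽)} (hM : Shape δ c0 M) (x : Fin (e + 1) → E)
    (n r s d : ℕ) : LinAlg_W (specM x M) n r s d ∈ LL k (lt x) (c0 * n) := by
  unfold LinAlg_W
  rw [coeff_X_pow_mul']
  split_ifs
  · exact coeff_specM_pow hM x n r _
  · exact Submodule.zero_mem _

theorem LinAlg_W_zero {e : ℕ} {𝔽 E : Type} [Field 𝔽] [Field E]
    [Algebra 𝔽 E] {δ c0 : ℕ}
    {M : Polynomial (MvPolynomial (Fin (e + 1)) 𝔽)} (hM : Shape δ c0 M) (x : Fin (e + 1) → E)
    (n r s d : ℕ) (h : c0 * n + d < s) : LinAlg_W (specM x M) n r s d = 0 := by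
  unfold LinAlg_W
  rw [coeff_X_pow_mul']
  split_ifs
  · refine coeff_eq_zero_of_natDegree_lt ?_
    have := natDegree_specM_pow hM x n r
    omega
  · rfl

/-- the coefficients of the reduction of the auxiliary polynomial -/
theorem LinAlg_coeff {ι E : Type} [Fintype ι] [Field E] (m : Polynomial (Polynomial E))
    (u : ι → E) (d n : ι → ℕ) (r s : ℕ) :
    (((∑ i, C (C (u i) * X ^ d i) * X ^ n i : Polynomial (Polynomial E)) %ₘ m).coeff r).coeff s =
      ∑ i, u i * LinAlg_W m (n i) r s (d i) := by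
  have h1 : (∑ i, C (C (u i) * X ^ d i) * X ^ n i : Polynomial (Polynomial E)) %ₘ m =
      ∑ i, (C (u i) * X ^ d i) • (X ^ n i %ₘ m) := by
    have h2 := map_sum (Polynomial.modByMonicHom m)
      (fun i => (C (C (u i) * X ^ d i) * X ^ n i : Polynomial (Polynomial E))) Finset.univ
    simp only [Polynomial.modByMonicHom_apply] at h2
    rw [h2]
    refine Finset.sum_congr rfl fun i _ => ?_
    rw [← Polynomial.smul_eq_C_mul, Polynomial.smul_modByMonic]
  rw [h1, finset_sum_coeff, finset_sum_coeff]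
  refine Finset.sum_congr rfl fun i _ => ?_
  rw [coeff_smul, smul_eq_mul, mul_assoc, coeff_C_mul]
  rfl

/-- one coordinate of the linear map -/
noncomputable def LinAlg_f {ι k E : Type} [Fintype ι] [Field k] [Field E] [Algebra k E]
    (L : Submodule k E) (c : ι → E) : (ι → L) →ₗ[k] E :=
  ∑ i, (LinearMap.mulRight k (c i)) ∘ₗ L.subtype ∘ₗ (LinearMap.proj i)

theorem LinAlg_f_apply {ι k E : Type} [Fintype ι] [Field k] [Field E] [Algebra k E]
    (L : Submodule k E) (c : ι → E) (u : ι → L) :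
    LinAlg_f L c u = ∑ i, (u i : E) * c i := by
  simp [LinAlg_f]

/-- more unknowns than equations -/
theorem LinAlg_exists {ι κ k E : Type} [Fintype ι] [Fintype κ] [Field k] [Field E] [Algebra k E]
    (L L' : Submodule k E) [Module.Finite k L] [Module.Finite k L'] (c : κ → ι → E)
    (hc : ∀ j i, ∀ a ∈ L, a * c j i ∈ L')
    (h : Fintype.card κ * Module.finrank k L' < Fintype.card ι * Module.finrank k L) :
    ∃ u : ι → E, (∀ i, u i ∈ L) ∧ (∃ i, u i ≠ 0) ∧ ∀ j, ∑ i, u i * c j i = 0 := by
  classical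
  let F : (ι → L) →ₗ[k] (κ → L') := LinearMap.pi fun j => (LinAlg_f L (c j)).codRestrict L'
    (fun u => by
      rw [LinAlg_f_apply]
      exact Submodule.sum_mem _ fun i _ => hc j i _ (u i).2)
  have hker : LinearMap.ker F ≠ ⊥ := by
    refine F.ker_ne_bot_of_finrank_lt ?_
    rw [Module.finrank_pi_fintype, Module.finrank_pi_fintype]
    simpa using h
  obtain ⟨u, hu, hu0⟩ := Submodule.exists_mem_ne_zero_of_ne_bot hker
  refine ⟨fun i => (u i : E), fun i => (u i).2, ?_, fun j => ?_⟩
  · by_contra hcon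
    push Not at hcon
    apply hu0
    funext i
    exact Subtype.ext (hcon i)
  · have h1 := congrFun (LinearMap.mem_ker.1 hu) j
    have h2 := congrArg Subtype.val h1
    have h3 : ((F u j : L') : E) = LinAlg_f L (c j) u := rfl
    rw [h3, LinAlg_f_apply] at h2
    exact h2

theorem exists_aux {e : ℕ} {k 𝔽 E : Type} [Field k] [Field 𝔽] [Field E] [Algebra k E]
    [Algebra 𝔽 k] [Algebra 𝔽 E] [IsScalarTower 𝔽 k E] {δ c0 : ℕ}
    {M : Polynomial (MvPolynomial (Fin (e + 1)) 𝔽)} (hM : Shape δ c0 M) (x : Fin (e + 1) → E)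
    (B A Q' n0 : ℕ) (hB : 1 ≤ B) (hδ : 1 ≤ δ) (hQ' : δ ≤ Q')
    (hcount : δ * (A + 1 + (B - 1 + c0 * δ) * Q') *
        Module.finrank k (LL k (lt x) (n0 + c0 * δ * Q')) <
      B * δ * ((A + 1) * δ) * Module.finrank k (LL k (lt x) n0)) :
    ∃ a : Fin B → Fin δ → Polynomial (Polynomial E), (∃ l l', a l l' ≠ 0) ∧
      (∀ l l', (a l l').natDegree < δ) ∧ (∀ l l' r, ((a l l').coeff r).natDegree ≤ A) ∧
      (∀ l l' r s, ((a l l').coeff r).coeff s ∈ LL k (lt x) n0) ∧
      specM x M ∣ ∑ l, ∑ l', a l l' * C X ^ (l.val * Q') * X ^ (l'.val * Q') := by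
  classical
  set D := A + 1 + (B - 1 + c0 * δ) * Q' with hD
  let ι := Fin B × Fin δ × Fin (A + 1) × Fin δ
  let κ := Fin δ × Fin D
  let dd : ι → ℕ := fun i => i.2.2.1.val + i.1.val * Q'
  let nn : ι → ℕ := fun i => i.2.2.2.val + i.2.1.val * Q'
  have hnn : ∀ i : ι, nn i ≤ δ * Q' := by
    intro i
    have h1 : i.2.2.2.val ≤ δ - 1 := by have := i.2.2.2.isLt; omega
    have h2 : i.2.1.val ≤ δ - 1 := by have := i.2.1.isLt; omega
    obtain ⟨m, hm⟩ : ∃ m, δ = m + 1 := ⟨δ - 1, by omega⟩
    have h3 : i.2.1.val * Q' ≤ m * Q' := Nat.mul_le_mul_right _ (by omega)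
    have h4 : δ * Q' = m * Q' + Q' := by rw [congrArg (· * Q') hm, add_mul, one_mul]
    show i.2.2.2.val + i.2.1.val * Q' ≤ δ * Q'
    omega
  have hdd : ∀ i : ι, dd i ≤ A + (B - 1) * Q' := by
    intro i
    have h1 : i.2.2.1.val ≤ A := by have := i.2.2.1.isLt; omega
    have h2 : i.1.val * Q' ≤ (B - 1) * Q' :=
      Nat.mul_le_mul_right _ (by have := i.1.isLt; omega)
    show i.2.2.1.val + i.1.val * Q' ≤ _
    omega
  obtain ⟨u, hu1, hu2, hu3⟩ := LinAlg_exists (ι := ι) (κ := κ) (LL k (lt x) n0)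
    (LL k (lt x) (n0 + c0 * δ * Q'))
    (fun j i => LinAlg_W (specM x M) (nn i) j.1.val j.2.val (dd i))
    (by
      intro j i a ha
      have h1 := LL_mul (lt x) ha (LinAlg_W_mem hM x (nn i) j.1.val j.2.val (dd i))
      refine LL_mono (lt x) ?_ h1
      have h2 : c0 * nn i ≤ c0 * (δ * Q') := Nat.mul_le_mul_left _ (hnn i)
      rw [← mul_assoc] at h2
      omega)
    (by
      have e1 : Fintype.card κ = δ * D := by simp [κ]
      have e2 : Fintype.card ι = B * δ * ((A + 1) * δ) := by simp [ι, mul_assoc]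
      rw [e1, e2]
      exact hcount)
  let a : Fin B → Fin δ → Polynomial (Polynomial E) := fun l l' =>
    ∑ s' : Fin δ, monomial s'.val (∑ s : Fin (A + 1), monomial s.val (u (l, l', s, s')))
  have hcoeff1 : ∀ l l' (r : ℕ), (a l l').coeff r =
      if h : r < δ then ∑ s : Fin (A + 1), monomial s.val (u (l, l', s, ⟨r, h⟩)) else 0 := by
    intro l l' r
    show (∑ s' : Fin δ, monomial s'.val
      (∑ s : Fin (A + 1), monomial s.val (u (l, l', s, s')))).coeff r = _
    rw [finset_sum_coeff]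
    split_ifs with h
    · rw [Finset.sum_eq_single ⟨r, h⟩]
      · rw [coeff_monomial, if_pos rfl]
      · intro b _ hb
        rw [coeff_monomial, if_neg]
        intro hbr
        exact hb (Fin.ext hbr)
      · intro hh; exact absurd (Finset.mem_univ _) hh
    · refine Finset.sum_eq_zero fun b _ => ?_
      rw [coeff_monomial, if_neg]
      intro hbr
      exact h (hbr ▸ b.isLt)
  have hcoeff2 : ∀ l l' (s' : Fin δ) (s : ℕ),
      (∑ s : Fin (A + 1), monomial s.val (u (l, l', s, s')) : Polynomial E).coeff s =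
      if h : s < A + 1 then u (l, l', ⟨s, h⟩, s') else 0 := by
    intro l l' s' s
    rw [finset_sum_coeff]
    split_ifs with h
    · rw [Finset.sum_eq_single ⟨s, h⟩]
      · rw [coeff_monomial, if_pos rfl]
      · intro b _ hb
        rw [coeff_monomial, if_neg]
        intro hbr
        exact hb (Fin.ext hbr)
      · intro hh; exact absurd (Finset.mem_univ _) hh
    · refine Finset.sum_eq_zero fun b _ => ?_
      rw [coeff_monomial, if_neg]
      intro hbr
      exact h (hbr ▸ b.isLt)
  refine ⟨a, ?_, ?_, ?_, ?_, ?_⟩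
  · obtain ⟨⟨l, l', s, s'⟩, hi⟩ := hu2
    refine ⟨l, l', fun h0 => hi ?_⟩
    have h1 := congrArg (fun q : Polynomial (Polynomial E) => (q.coeff s'.val).coeff s.val) h0
    simp only [coeff_zero] at h1
    rw [hcoeff1, dif_pos s'.isLt, hcoeff2, dif_pos s.isLt] at h1
    exact h1
  · intro l l'
    refine (Nat.lt_of_le_of_lt (natDegree_sum_le_of_forall_le (n := δ - 1) _ _ ?_) (by omega))
    intro b _
    refine (natDegree_monomial_le _).trans ?_
    have := b.isLt
    omega
  · intro l l' r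
    rw [hcoeff1]
    split_ifs with h
    · refine natDegree_sum_le_of_forall_le _ _ ?_
      intro b _
      refine (natDegree_monomial_le _).trans ?_
      have := b.isLt
      omega
    · simp
  · intro l l' r s
    rw [hcoeff1]
    split_ifs with h
    · rw [hcoeff2]
      split_ifs with h'
      · exact hu1 _
      · exact Submodule.zero_mem _
    · rw [coeff_zero]; exact Submodule.zero_mem _
  · have hsum : (∑ l, ∑ l', a l l' * C X ^ (l.val * Q') * X ^ (l'.val * Q') :
        Polynomial (Polynomial E)) = ∑ i : ι, C (C (u i) * X ^ dd i) * X ^ nn i := by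
      rw [Fintype.sum_prod_type]
      refine Finset.sum_congr rfl fun l _ => ?_
      rw [Fintype.sum_prod_type]
      refine Finset.sum_congr rfl fun l' _ => ?_
      rw [Fintype.sum_prod_type, Finset.sum_comm]
      show (∑ s' : Fin δ, monomial s'.val
        (∑ s : Fin (A + 1), monomial s.val (u (l, l', s, s')))) * _ * _ = _
      rw [Finset.sum_mul, Finset.sum_mul]
      refine Finset.sum_congr rfl fun s' _ => ?_
      rw [← C_mul_X_pow_eq_monomial, map_sum, Finset.sum_mul, Finset.sum_mul, Finset.sum_mul]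
      refine Finset.sum_congr rfl fun s _ => ?_
      rw [← C_mul_X_pow_eq_monomial]
      show _ = C (C (u (l, l', s, s')) * X ^ (s.val + l.val * Q')) *
        X ^ (s'.val + l'.val * Q')
      simp only [map_mul, map_pow]
      ring
    have hmon := (specM_monic hM x).1
    have hdeg := (specM_monic hM x).2
    rw [hsum, ← modByMonic_eq_zero_iff_dvd hmon]
    ext r s
    rw [LinAlg_coeff, coeff_zero, coeff_zero]
    by_cases hr : r < δ
    · by_cases hs : s < D
      · exact hu3 (⟨r, hr⟩, ⟨s, hs⟩)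
      · refine Finset.sum_eq_zero fun i _ => ?_
        rw [LinAlg_W_zero hM x, mul_zero]
        have h1 := hdd i
        have h2 : c0 * nn i ≤ c0 * (δ * Q') := Nat.mul_le_mul_left _ (hnn i)
        rw [← mul_assoc] at h2
        rw [add_mul] at hD
        omega
    · refine Finset.sum_eq_zero fun i _ => ?_
      have h1 : ((X : Polynomial (Polynomial E)) ^ nn i %ₘ specM x M).coeff r = 0 := by
        refine coeff_eq_zero_of_natDegree_lt ?_
        have h2 := natDegree_modByMonic_lt ((X : Polynomial (Polynomial E)) ^ nn i) hmon (by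
          intro h1
          rw [h1, natDegree_one] at hdeg
          omega)
        omega
      unfold LinAlg_W
      rw [h1, mul_zero, coeff_zero, mul_zero]

end

end Pool.Agent.TLW
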