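import Pool.Agent.TLW.BoxDg
import Pool.Agent.TLW.Grow

set_option autoImplicit false

namespace Pool.Agent.TLW

open Polynomial Pool.Agent.LFZ

section PhiDgAux

variable {k E : Type} [Field k] [Field E] [Algebra k E]

/-- products over disjoint families -/
theorem phidg_sum {ι ι' : Type} [Fintype ι] [Fintype ι'] {z : ι → E} {d : ι → ℕ} {z' : ι' → E}
    {d' : ι' → ℕ} {a b : E} (ha : a ∈ Box k z d) (hb : b ∈ Box k z' d') :
    a * b ∈ Box k (Sum.elim z z') (Sum.elim d d') := by
  have key : ∀ y ∈ {y | ∃ α : ι → ℕ, (∀ i, α i ≤ d i) ∧ y = ∏ i, z i ^ α i},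
      ∀ y' ∈ {y | ∃ α : ι' → ℕ, (∀ i, α i ≤ d' i) ∧ y = ∏ i, z' i ^ α i},
      y * y' ∈ Box k (Sum.elim z z') (Sum.elim d d') := by
    rintro y ⟨α, hα, rfl⟩ y' ⟨α', hα', rfl⟩
    refine Submodule.subset_span ⟨Sum.elim α α', ?_, ?_⟩
    · rintro (i | i)
      · exact hα i
      · exact hα' i
    · rw [Fintype.prod_sum_type]
      rfl
  unfold Box at ha hb
  induction ha using Submodule.span_induction with
  | mem y hy =>
    induction hb using Submodule.span_induction with
    | mem y' hy' => exact key y hy y' hy'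
    | zero => rw [mul_zero]; exact Submodule.zero_mem _
    | add u v _ _ hu hv => rw [mul_add]; exact Submodule.add_mem _ hu hv
    | smul c u _ hu => rw [mul_smul_comm]; exact Submodule.smul_mem _ _ hu
  | zero => rw [zero_mul]; exact Submodule.zero_mem _
  | add u v _ _ hu hv => rw [add_mul]; exact Submodule.add_mem _ hu hv
  | smul c u _ hu => rw [smul_mul_assoc]; exact Submodule.smul_mem _ _ hu

/-- powers of one variable -/
theorem phidg_pow {ι : Type} [Fintype ι] (z : ι → E) (d : ι → ℕ) (i : ι) {n : ℕ} (h : n ≤ d i) :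
    z i ^ n ∈ Box k z d := by
  classical
  refine Submodule.subset_span ⟨Pi.single i n, ?_, ?_⟩
  · intro j
    by_cases hj : j = i
    · subst hj; simpa using h
    · simp [Pi.single_eq_of_ne hj]
  · rw [Finset.prod_eq_single i]
    · simp
    · intro j _ hj; simp [Pi.single_eq_of_ne hj]
    · intro hi; exact absurd (Finset.mem_univ i) hi

/-- spans in the first coordinates -/
theorem phidg_lt {e : ℕ} (x : Fin (e + 1) → E) (n0 : ℕ) (d : Fin (e + 1) → ℕ)
    (hd : ∀ j : Fin e, n0 ≤ d j.castSucc) {c : E} (hc : c ∈ LL k (lt x) n0) : c ∈ Box k x d := by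
  classical
  have h1 : c ∈ Box k (lt x) (fun _ => n0) := LL_le_box _ _ hc
  have h2 := box_subst (k := k) (z' := x) (fun (j : Fin e) (i : Fin (e + 1)) =>
    if i = j.castSucc then 1 else 0) (fun j => box_self x _ j.castSucc (by simp)) h1
  refine box_mono ?_ h2
  intro i
  refine Fin.lastCases ?_ (fun j => ?_) i
  · have : ∀ j : Fin e, (if Fin.last e = j.castSucc then 1 else 0 : ℕ) = 0 := fun j =>
      if_neg (Fin.castSucc_lt_last j).ne'
    simp [this]
  · have h3 : ∑ j' : Fin e, n0 * (if j.castSucc = j'.castSucc then 1 else 0 : ℕ) = n0 := by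
      rw [Finset.sum_eq_single j]
      · simp
      · intro j' _ hj'
        rw [if_neg, mul_zero]
        intro h
        exact hj' (Fin.castSucc_injective _ h).symm
      · intro h; exact absurd (Finset.mem_univ j) h
    rw [h3]
    exact hd j

theorem phidg_uP {m : ℕ} (y : Fin m → E) (b : E) (n : ℕ) :
    uP y b ^ n ∈ Box k (fun i => (y i - b)⁻¹) (fun _ => n) := by
  refine Submodule.subset_span ⟨fun _ => n, fun _ => le_rfl, ?_⟩
  unfold uP
  rw [← Finset.prod_pow]

end PhiDgAux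

section

variable {e δ c0 Q : ℕ} {k 𝔽 E : Type} [Field k] [Field 𝔽] [Field E] [Algebra k E]
  [Algebra 𝔽 k] [Algebra 𝔽 E] [IsScalarTower 𝔽 k E]
  {M : Polynomial (MvPolynomial (Fin (e + 1)) 𝔽)} {x φ : Fin (e + 1) → E} {θ : Fin δ → E} {θ' : E}
  {b : k} {W : Subalgebra k E}

theorem phi_dg {p μ r' : ℕ} [Fact p.Prime] [CharP E p] [Infinite k] (hQ : Q = p ^ μ * p ^ r')
    (hc : Conf k 𝔽 δ c0 Q M x φ θ θ') (hb : ∀ i, x i ≠ algebraMap k E b)
    (hb' : φ (Fin.last e) ≠ algebraMap k E b ^ Q)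
    (B A n0 : ℕ) (a : Fin B → Fin δ → Polynomial (Polynomial E))
    (hdeg : ∀ l l', (a l l').natDegree < δ) (hA : ∀ l l' r, ((a l l').coeff r).natDegree ≤ A)
    (hcoef : ∀ l l' r s, ((a l l').coeff r).coeff s ∈ LL k (lt x) n0) (i : Fin δ) :
    dg k E (PhiDen δ c0 B A n0 (p ^ μ) Q x φ b * PhiRaw (p ^ μ) x φ (θ i) θ' a) ≤
      p ^ μ * ((n0 + c0 * δ) * ∑ j, dg k E (lt x j) + (A + c0 * δ) * dg k E (x (Fin.last e)) +
        δ * dg k E (θ i)) + c0 * δ * (Q * ∑ j, dg k E (lt x j)) +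
      (B + c0 * δ) * dg k E (φ (Fin.last e)) + δ * dg k E θ' := by
  classical
  set β : E := algebraMap k E b with hβ
  have hp : p.Prime := Fact.out
  have hp0 : 0 < p := hp.pos
  have hQ0 : Q ≠ 0 := by rw [hQ]; positivity
  have hQp : Q = p ^ (μ + r') := by rw [hQ, pow_add]
  have hβQ : algebraMap k E (b ^ Q) = β ^ Q := by rw [hβ, map_pow]
  -- the second family avoids `β ^ Q`
  have hφ : ∀ j, φ j ≠ algebraMap k E (b ^ Q) := by
    intro j
    rw [hβQ]
    by_cases hj : j = Fin.last e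
    · subst hj; exact hb'
    · rw [hc.frob j hj]
      intro h
      apply hb j
      have h1 : (x j - β) ^ Q = 0 := by
        rw [hQp] at h ⊢
        rw [sub_pow_char_pow, h, sub_self]
      exact sub_eq_zero.mp (pow_eq_zero_iff hQ0 |>.mp h1)
  -- families and exponents
  set d1 : Fin (e + 1) → ℕ := fun j => if j = Fin.last e then A else n0 with hd1
  set d2 : Fin (e + 1) → ℕ := fun j => if j = Fin.last e then B else 0 with hd2
  set Z : Fin (e + 1) → E := fun j => (x j - β)⁻¹ with hZ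
  set Z' : Fin (e + 1) → E := fun j => (φ j - algebraMap k E (b ^ Q))⁻¹ with hZ'
  have hd1l : d1 (Fin.last e) = A := by simp [hd1]
  have hd1c : ∀ j : Fin e, d1 j.castSucc = n0 := fun j => by
    simp [hd1, (Fin.castSucc_lt_last j).ne]
  have hd2l : d2 (Fin.last e) = B := by simp [hd2]
  have hd2c : ∀ j : Fin e, d2 j.castSucc = 0 := fun j => by
    simp [hd2, (Fin.castSucc_lt_last j).ne]
  have hprod1 : ∏ j, Z j ^ d1 j = uP (lt x) β ^ n0 * ((x (Fin.last e) - β)⁻¹) ^ A := by
    rw [Fin.prod_univ_castSucc, hd1l]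
    congr 1
    unfold uP
    rw [← Finset.prod_pow]
    refine Finset.prod_congr rfl fun j _ => ?_
    rw [hd1c j]
    rfl
  have hprod2 : ∏ j, Z' j ^ d2 j = ((φ (Fin.last e) - β ^ Q)⁻¹) ^ B := by
    rw [Fin.prod_univ_castSucc, hd2l]
    have : ∏ j : Fin e, Z' j.castSucc ^ d2 j.castSucc = 1 :=
      Finset.prod_eq_one fun j _ => by rw [hd2c j, pow_zero]
    rw [this, one_mul, hZ']
    simp only [hβQ]
  -- first factor
  have hfac1 : ∀ l l', (uP (lt x) β ^ n0 * ((x (Fin.last e) - β)⁻¹) ^ A * uP x β ^ (c0 * δ)) *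
      eval₂ (evalRingHom (x (Fin.last e))) (θ i) (a l l') ∈
      Box k (Sum.elim Z (fun _ : Unit => θ i))
        (Sum.elim (fun j => d1 j + c0 * δ) (fun _ : Unit => δ)) := by
    intro l l'
    rw [eval₂_eq_sum_range, Finset.mul_sum]
    refine Submodule.sum_mem _ fun r hr => ?_
    have hr' : r ≤ δ := by
      rw [Finset.mem_range] at hr
      have := hdeg l l'
      omega
    have h1 : evalRingHom (x (Fin.last e)) ((a l l').coeff r) ∈ Box k x d1 := by
      rw [coe_evalRingHom, eval_eq_sum_range]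
      refine Submodule.sum_mem _ fun s hs => ?_
      have hs' : s ≤ A := by
        rw [Finset.mem_range] at hs
        have := hA l l' r
        omega
      have h2 : ((a l l').coeff r).coeff s ∈
          Box k x (fun j => if j = Fin.last e then 0 else n0) :=
        phidg_lt x n0 _ (fun j => by simp [(Fin.castSucc_lt_last j).ne]) (hcoef l l' r s)
      have h3 : x (Fin.last e) ^ s ∈ Box k x (fun j => if j = Fin.last e then A else 0) :=
        phidg_pow x _ (Fin.last e) (by simpa using hs')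
      refine box_mono ?_ (box_mul h2 h3)
      intro j
      by_cases hj : j = Fin.last e <;> simp [hd1, hj]
    have h4 := box_moeb (k := k) b hb h1
    change (∏ j, Z j ^ d1 j) * _ ∈ Box k Z d1 at h4
    rw [hprod1] at h4
    have h5 : uP x β ^ (c0 * δ) ∈ Box k Z (fun _ => c0 * δ) := phidg_uP x β _
    have h6 : θ i ^ r ∈ Box k (fun _ : Unit => θ i) (fun _ : Unit => δ) :=
      phidg_pow (fun _ : Unit => θ i) (fun _ : Unit => δ) () hr'
    have h7 := phidg_sum (box_mul h4 h5) h6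
    convert h7 using 1
    ring
  have hfac2 : ∀ l : Fin B, ∀ l' : Fin δ, ((φ (Fin.last e) - β ^ Q)⁻¹) ^ B *
      uP φ (β ^ Q) ^ (c0 * δ) * (φ (Fin.last e) ^ l.val * θ' ^ l'.val) ∈
      Box k (Sum.elim Z' (fun _ : Unit => θ'))
        (Sum.elim (fun j => d2 j + c0 * δ) (fun _ : Unit => δ)) := by
    intro l l'
    have h3 : φ (Fin.last e) ^ l.val ∈ Box k φ d2 :=
      phidg_pow φ _ (Fin.last e) (by rw [hd2l]; exact l.isLt.le)
    have h4 := box_moeb (k := k) (b ^ Q) hφ h3
    change (∏ j, Z' j ^ d2 j) * _ ∈ Box k Z' d2 at h4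
    rw [hprod2] at h4
    have h5 : uP φ (β ^ Q) ^ (c0 * δ) ∈ Box k Z' (fun _ => c0 * δ) := by
      rw [← hβQ]
      exact phidg_uP φ _ _
    have h6 : θ' ^ l'.val ∈ Box k (fun _ : Unit => θ') (fun _ : Unit => δ) :=
      phidg_pow (fun _ : Unit => θ') (fun _ : Unit => δ) () l'.isLt.le
    have h7 := phidg_sum (box_mul h4 h5) h6
    convert h7 using 1
    ring
  -- the element is in one box
  have hmem : PhiDen δ c0 B A n0 (p ^ μ) Q x φ b * PhiRaw (p ^ μ) x φ (θ i) θ' a ∈
      Box k (Sum.elim (fun j => Sum.elim Z (fun _ : Unit => θ i) j ^ (p ^ μ))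
          (Sum.elim Z' (fun _ : Unit => θ')))
        (Sum.elim (Sum.elim (fun j => d1 j + c0 * δ) (fun _ : Unit => δ))
          (Sum.elim (fun j => d2 j + c0 * δ) (fun _ : Unit => δ))) := by
    unfold PhiRaw
    rw [Finset.mul_sum]
    refine Submodule.sum_mem _ fun l _ => ?_
    rw [Finset.mul_sum]
    refine Submodule.sum_mem _ fun l' _ => ?_
    have h7 := phidg_sum (box_frob (hfac1 l l') μ) (hfac2 l l')
    convert h7 using 1
    unfold PhiDen
    rw [mul_pow _ (eval₂ _ _ _)]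
    ring
  refine (dg_le_of_mem_box hc.ff _ _ hmem).trans (le_of_eq ?_)
  have hPpos : p ^ μ ≠ 0 := pow_ne_zero _ hp0.ne'
  have hZdg : ∀ j, dg k E (Z j) = dg k E (x j) := fun j => dg_moeb _ _
  have hZ'dg : ∀ j, dg k E (Z' j) = dg k E (φ j) := fun j => dg_moeb _ _
  have hφdg : ∀ j : Fin e, dg k E (φ j.castSucc) = Q * dg k E (lt x j) := fun j => by
    rw [hc.frob _ (Fin.castSucc_lt_last j).ne, dg_pow hc.ff _ hQ0]
    rfl
  simp only [Fintype.sum_sum_type, Sum.elim_inl, Sum.elim_inr, Finset.univ_unique,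
    Finset.sum_singleton]
  rw [Fin.sum_univ_castSucc, Fin.sum_univ_castSucc]
  simp only [dg_pow hc.ff _ hPpos, hZdg, hZ'dg, hφdg, hd1c, hd1l, hd2c, hd2l]
  have hs1 : ∑ j : Fin e, (n0 + c0 * δ) * (p ^ μ * dg k E (x j.castSucc))
      = p ^ μ * ((n0 + c0 * δ) * ∑ j, dg k E (lt x j)) := by
    rw [Finset.mul_sum, Finset.mul_sum]
    refine Finset.sum_congr rfl fun j _ => ?_
    change _ = p ^ μ * ((n0 + c0 * δ) * dg k E (x j.castSucc))
    ring
  have hs2 : ∑ j : Fin e, (0 + c0 * δ) * (Q * dg k E (lt x j))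
      = c0 * δ * (Q * ∑ j, dg k E (lt x j)) := by
    rw [Finset.mul_sum, Finset.mul_sum, zero_add]
  rw [hs1, hs2]
  ring

end

end Pool.Agent.TLW
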