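import Pool.Agent.TLW.PhiMem
import Pool.Agent.TLW.PhiDg
import Pool.Agent.TLW.ClaimA
import Pool.Agent.TLW.ClaimB
import Pool.Agent.TLW.LinAlg
import Pool.Agent.TLW.Arith

set_option autoImplicit false

namespace Pool.Agent.TLW

open Polynomial Pool.Agent.LFZ

section

variable {e δ c0 Q : ℕ} {k 𝔽 E : Type} [Field k] [Field 𝔽] [Field E] [Algebra k E]
  [Algebra 𝔽 k] [Algebra 𝔽 E] [IsScalarTower 𝔽 k E]
  {M : Polynomial (MvPolynomial (Fin (e + 1)) 𝔽)} {x φ : Fin (e + 1) → E} {θ : Fin δ → E} {θ' : E}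
  {b : k} {W : Subalgebra k E}

/-- Frobenius and polynomials with coefficients fixed by it -/
theorem phi24_frob {p r : ℕ} [Fact p.Prime] {σ 𝔽 E : Type} [Field 𝔽] [Field E] [CharP E p]
    [Algebra 𝔽 E] (hfix : ∀ c : 𝔽, c ^ (p ^ r) = c) (x : σ → E) (G : MvPolynomial σ 𝔽) :
    MvPolynomial.aeval (fun i => x i ^ (p ^ r)) G = MvPolynomial.aeval x G ^ (p ^ r) := by
  have h1 : (iterateFrobenius E p r) (MvPolynomial.aeval x G)
      = MvPolynomial.aeval (fun i => x i ^ (p ^ r)) G := by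
    rw [MvPolynomial.aeval_def, MvPolynomial.aeval_def, MvPolynomial.hom_eval₂]
    congr 1
    ext c
    rw [RingHom.comp_apply, iterateFrobenius_def, ← map_pow, hfix]
  rw [← h1, iterateFrobenius_def]

/-- the arithmetic of the heights -/
theorem phi24_arith {δ c0 C4 C5 R B A n0 P Q' S N tθ tφ tθ' Q D : ℕ} (hQ' : 1 ≤ Q')
    (hQ : Q = P * Q') (hn0 : n0 ≤ R * (c0 * δ * Q')) (hA : 2 * δ ^ 2 * A ≤ (2 * δ + 1) * Q')
    (hS : Q * S ≤ C4 * N) (hθ : tθ ≤ C5 * N) (hφ : tφ ≤ C5 * N) (hθ' : tθ' ≤ C5 * N)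
    (hD : D ≤ P * ((n0 + c0 * δ) * S + (A + c0 * δ) * N + δ * tθ) + c0 * δ * (Q * S) +
      (B + c0 * δ) * tφ + δ * tθ') :
    2 * δ ^ 2 * D ≤ ((2 * δ + 1) * Q + 2 * δ ^ 2 * ((R + 1) * (c0 * δ) * C4 + P * (c0 * δ) +
      P * δ * C5 + c0 * δ * C4 + (B + c0 * δ) * C5 + δ * C5)) * N := by
  have h1 : P * ((n0 + c0 * δ) * S) ≤ (R + 1) * (c0 * δ) * (C4 * N) := by
    have h2 : n0 + c0 * δ ≤ (R + 1) * (c0 * δ) * Q' := by
      have h3 : c0 * δ ≤ c0 * δ * Q' := Nat.le_mul_of_pos_right _ hQ'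
      calc n0 + c0 * δ ≤ R * (c0 * δ * Q') + c0 * δ * Q' := add_le_add hn0 h3
        _ = (R + 1) * (c0 * δ) * Q' := by ring
    calc P * ((n0 + c0 * δ) * S) ≤ P * ((R + 1) * (c0 * δ) * Q' * S) := by gcongr
      _ = (R + 1) * (c0 * δ) * (Q * S) := by rw [hQ]; ring
      _ ≤ (R + 1) * (c0 * δ) * (C4 * N) := by gcongr
  have h4 : 2 * δ ^ 2 * (P * (A * N)) ≤ (2 * δ + 1) * Q * N := by
    calc 2 * δ ^ 2 * (P * (A * N)) = (2 * δ ^ 2 * A) * (P * N) := by ring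
      _ ≤ ((2 * δ + 1) * Q') * (P * N) := by gcongr
      _ = (2 * δ + 1) * Q * N := by rw [hQ]; ring
  have h5 : D ≤ P * (A * N) + ((R + 1) * (c0 * δ) * (C4 * N) + P * (c0 * δ) * N +
      P * δ * (C5 * N) + c0 * δ * (C4 * N) + (B + c0 * δ) * (C5 * N) + δ * (C5 * N)) := by
    calc D ≤ P * ((n0 + c0 * δ) * S + (A + c0 * δ) * N + δ * tθ) + c0 * δ * (Q * S) +
          (B + c0 * δ) * tφ + δ * tθ' := hD
      _ = P * (A * N) + (P * ((n0 + c0 * δ) * S) + P * (c0 * δ) * N + P * δ * tθ +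
          c0 * δ * (Q * S) + (B + c0 * δ) * tφ + δ * tθ') := by ring
      _ ≤ _ := by gcongr
  calc 2 * δ ^ 2 * D ≤ 2 * δ ^ 2 * (P * (A * N) + ((R + 1) * (c0 * δ) * (C4 * N) +
      P * (c0 * δ) * N + P * δ * (C5 * N) + c0 * δ * (C4 * N) + (B + c0 * δ) * (C5 * N) +
      δ * (C5 * N))) := by gcongr
    _ = 2 * δ ^ 2 * (P * (A * N)) + 2 * δ ^ 2 * ((R + 1) * (c0 * δ) * C4 + P * (c0 * δ) +
      P * δ * C5 + c0 * δ * C4 + (B + c0 * δ) * C5 + δ * C5) * N := by ring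
    _ ≤ (2 * δ + 1) * Q * N + 2 * δ ^ 2 * ((R + 1) * (c0 * δ) * C4 + P * (c0 * δ) +
      P * δ * C5 + c0 * δ * C4 + (B + c0 * δ) * C5 + δ * C5) * N := by gcongr
    _ = _ := by ring

/-- (2.4) -/
theorem exists_phi {p : ℕ} [Fact p.Prime] (e δ c0 ν C4 C5 : ℕ) (hδ : 1 ≤ δ) (hc0 : 1 ≤ c0) :
    ∃ C6 Q0 : ℕ, ∀ (k 𝔽 E : Type) [Field k] [Infinite k] [Field 𝔽] [Finite 𝔽] [Field E] [CharP E p]
      [Algebra k E] [Algebra 𝔽 k] [Algebra 𝔽 E] [IsScalarTower 𝔽 k E]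
      (M : Polynomial (MvPolynomial (Fin (e + 1)) 𝔽)) (x φ : Fin (e + 1) → E) (θ : Fin δ → E)
      (θ' : E) (b : k) (W : Subalgebra k E) (G : MvPolynomial (Fin (e + 1)) 𝔽) (r : ℕ),
      Q0 ≤ p ^ r → Conf k 𝔽 δ c0 (p ^ r) M x φ θ θ' → WConf k c0 (p ^ r) x φ θ θ' b W →
      IrrOff G M → MvPolynomial.aeval x G ≠ 0 →
      Transcendental k (x (Fin.last e)) →
      (∀ z : E, φ (Fin.last e) ≠ z ^ (p ^ ν)) →
      p ^ r * ∑ j, dg k E (lt x j) ≤ C4 * dg k E (x (Fin.last e)) →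
      dg k E (φ (Fin.last e)) ≤ C5 * dg k E (x (Fin.last e)) →
      (∀ i, dg k E (θ i) ≤ C5 * dg k E (x (Fin.last e))) →
      dg k E θ' ≤ C5 * dg k E (x (Fin.last e)) →
      ∀ i : Fin δ, ∃ Φ : E, Φ ≠ 0 ∧ Φ ∈ W ∧
        (∃ w ∈ W, ∃ w' ∈ W, Φ = gg (p ^ r) x φ * w + om c0 (p ^ r) φ θ θ' b i * w') ∧
        2 * δ ^ 2 * dg k E Φ ≤ ((2 * δ + 1) * p ^ r + C6) * dg k E (x (Fin.last e)) := by
  have hp : p.Prime := Fact.out
  have hp2 : 2 ≤ p := hp.two_le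
  obtain ⟨R, hR2, hR⟩ := exists_R e δ hδ
  set B : ℕ := 4 * δ * (c0 * δ + 1) with hB
  set b1 : ℕ := δ * (B - 1 + 2 * c0 * δ) with hb1
  set b2 : ℕ := δ * (R + 2) * (c0 * δ) * C4 with hb2
  obtain ⟨μ, hμ⟩ : ∃ μ : ℕ, p ^ ν * b1 + b2 < p ^ μ :=
    ⟨p ^ ν * b1 + b2, Nat.lt_pow_self hp.one_lt⟩
  have hμ1 : p ^ ν * b1 < p ^ μ := by omega
  have hμ2 : b2 < p ^ μ := by omega
  have hcδ : 1 ≤ c0 * δ := Nat.mul_pos hc0 hδ
  have hB1 : 1 ≤ B := by rw [hB]; exact Nat.mul_pos (by omega) (by omega)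
  have hb1pos : 1 ≤ b1 := by
    rw [hb1]
    refine Nat.mul_pos hδ ?_
    have : 1 ≤ 2 * c0 * δ := by
      have : 2 * c0 * δ = 2 * (c0 * δ) := by ring
      omega
    omega
  refine ⟨2 * δ ^ 2 * ((R + 1) * (c0 * δ) * C4 + p ^ μ * (c0 * δ) +
      p ^ μ * δ * C5 + c0 * δ * C4 + (B + c0 * δ) * C5 + δ * C5), p ^ μ * δ, ?_⟩
  intro k 𝔽 E _ _ _ _ _ _ _ _ _ _ M x φ θ θ' b W G r hQ0 hc hw hirr hG htr hν hS hφd hθd hθ'd i
  -- the exponents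
  have hμr : μ ≤ r := by
    have h1 : p ^ μ ≤ p ^ r := (Nat.le_mul_of_pos_right _ hδ).trans hQ0
    exact (Nat.pow_le_pow_iff_right hp.one_lt).mp h1
  set r' : ℕ := r - μ with hr'
  have hrr : r = μ + r' := by omega
  have hQ : p ^ r = p ^ μ * p ^ r' := by rw [hrr, pow_add]
  have hPpos : 0 < p ^ μ := Nat.pow_pos hp.pos
  set Q' : ℕ := p ^ r' with hQ'
  have hQ'1 : 1 ≤ Q' := Nat.one_le_pow _ _ hp.pos
  have hδQ' : δ ≤ Q' := by
    rw [hQ] at hQ0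
    exact Nat.le_of_mul_le_mul_left hQ0 hPpos
  have hνr : ν ≤ r := by
    have h1 : p ^ ν ≤ p ^ r := by
      calc p ^ ν ≤ p ^ ν * b1 := Nat.le_mul_of_pos_right _ hb1pos
        _ ≤ p ^ μ := hμ1.le
        _ ≤ p ^ r := Nat.pow_le_pow_right hp.pos hμr
    exact (Nat.pow_le_pow_iff_right hp.one_lt).mp h1
  -- the window
  set N : ℕ := dg k E (x (Fin.last e)) with hN
  have hN0 : 0 < N := dg_pos hc.ff htr
  set S : ℕ := ∑ j, dg k E (lt x j) with hSdef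
  obtain ⟨n0, hn0, hwin⟩ := exists_window (k := k) hδ hR2 hR (lt x) (c0 * δ * Q')
  set A : ℕ := ((2 * δ + 1) * Q') / (2 * δ ^ 2) with hA
  have hδ2 : 0 < 2 * δ ^ 2 := by positivity
  have hA1 : (2 * δ + 1) * Q' < 2 * δ ^ 2 * (A + 1) := Nat.lt_mul_div_succ _ hδ2
  have hA2 : 2 * δ ^ 2 * A ≤ (2 * δ + 1) * Q' := Nat.mul_div_le _ _
  have hdn : 0 < Module.finrank k (LL k (lt x) n0) := by
    have hne : Nontrivial (LL k (lt x) n0) :=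
      ⟨⟨⟨1, LL_one_mem (lt x) n0⟩, 0, fun h => one_ne_zero (congrArg Subtype.val h)⟩⟩
    exact Module.finrank_pos
  have hcount := count_ineq hδ hc0 hB hA1 hwin hdn
  obtain ⟨a, ⟨l0, l0', ha0⟩, hdeg, hAa, hcoef, hdvd⟩ :=
    exists_aux hc.shape x B A Q' n0 hB1 hδ hδQ' hcount
  -- nonvanishing
  have hthroot : ∀ j, (evM x M).eval (θ j) = 0 := by
    intro j
    rw [hc.split, eval_prod]
    exact Finset.prod_eq_zero (Finset.mem_univ j) (by simp)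
  have hirrx : Irreducible (specM x M) := hirr E x hG
  have hsmall : δ * (n0 + 2 * c0 * δ) * S < N := by
    by_contra hcon
    push Not at hcon
    have h1 : p ^ r * N ≤ δ * (n0 + 2 * c0 * δ) * (p ^ r * S) := by
      calc p ^ r * N ≤ p ^ r * (δ * (n0 + 2 * c0 * δ) * S) := Nat.mul_le_mul_left _ hcon
        _ = δ * (n0 + 2 * c0 * δ) * (p ^ r * S) := by ring
    have h2 : n0 + 2 * c0 * δ ≤ (R + 2) * (c0 * δ) * Q' := by
      have h3 : c0 * δ ≤ c0 * δ * Q' := Nat.le_mul_of_pos_right _ hQ'1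
      calc n0 + 2 * c0 * δ = n0 + 2 * (c0 * δ) := by ring
        _ ≤ R * (c0 * δ * Q') + 2 * (c0 * δ * Q') := by gcongr
        _ = (R + 2) * (c0 * δ) * Q' := by ring
    have h4 : δ * (n0 + 2 * c0 * δ) * (p ^ r * S) ≤ b2 * (Q' * N) := by
      calc δ * (n0 + 2 * c0 * δ) * (p ^ r * S)
          ≤ δ * ((R + 2) * (c0 * δ) * Q') * (C4 * N) := by gcongr
        _ = b2 * (Q' * N) := by rw [hb2]; ring
    have h5 : b2 * (Q' * N) < p ^ μ * (Q' * N) :=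
      Nat.mul_lt_mul_of_pos_right hμ2 (Nat.mul_pos hQ'1 hN0)
    have h6 : p ^ μ * (Q' * N) = p ^ r * N := by rw [hQ]; ring
    omega
  have hA0 : eval₂ (evalRingHom (x (Fin.last e))) (θ i) (a l0 l0') ≠ 0 := by
    intro h0
    have h1 := claimA hc.ff hc.shape x hirrx n0 (a l0 l0') ha0 (hdeg _ _) (hcoef _ _) (θ i)
      (hthroot i) h0
    exact absurd h1 (not_le.mpr hsmall)
  have hraw : PhiRaw (p ^ μ) x φ (θ i) θ' a ≠ 0 := by
    have h1 := claimB (M := M) hc.shape hirr B μ ν hμ1 φ θ' hc.root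
      (fun j => x j ^ (p ^ r)) (fun j => ⟨x j ^ Q', by rw [← pow_mul, hQ, mul_comm]⟩)
      (fun j hj => (hc.frob j hj).symm)
      (by rw [phi24_frob hc.fixed]; exact pow_ne_zero _ hG) hν
      (fun l l' => eval₂ (evalRingHom (x (Fin.last e))) (θ i) (a l l')) ⟨l0, l0', hA0⟩
    exact h1
  have hφne := fun j => (wconf_inv' (p := p) (r := r) rfl hc hw j).1
  obtain ⟨-, -, -, -, -, -, hup', hup, -⟩ := wconf_mem (p := p) (r := r) rfl hc hw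
  have hden : PhiDen δ c0 B A n0 (p ^ μ) (p ^ r) x φ b ≠ 0 := by
    unfold PhiDen
    refine mul_ne_zero (mul_ne_zero (pow_ne_zero _ (mul_ne_zero (mul_ne_zero
      (pow_ne_zero _ ?_) (pow_ne_zero _ ?_)) (pow_ne_zero _ hup))) (pow_ne_zero _ ?_))
      (pow_ne_zero _ hup')
    · unfold uP
      exact Finset.prod_ne_zero_iff.mpr fun j _ => inv_ne_zero (sub_ne_zero.mpr (hw.ne _))
    · exact inv_ne_zero (sub_ne_zero.mpr (hw.ne _))
    · exact inv_ne_zero (sub_ne_zero.mpr (hφne _))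
  obtain ⟨w, hwW, w', hw'W, hmem⟩ := phi_mem hQ hc hw B A n0 a hdeg hAa hcoef hdvd i
  refine ⟨PhiDen δ c0 B A n0 (p ^ μ) (p ^ r) x φ b * PhiRaw (p ^ μ) x φ (θ i) θ' a,
    mul_ne_zero hden hraw, ?_, ⟨w, hwW, w', hw'W, hmem⟩, ?_⟩
  · rw [hmem]
    obtain ⟨hgW, -⟩ := hw.isW
    exact W.add_mem (W.mul_mem hgW hwW) (W.mul_mem (om_mem (p := p) (r := r) rfl hc hw i) hw'W)
  · exact phi24_arith hQ'1 hQ hn0 hA2 hS (hθd i) hφd hθ'd
      (phi_dg hQ hc hw.ne (hφne _) B A n0 a hdeg hAa hcoef i)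

end

end Pool.Agent.TLW
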