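import Pool.Agent.TLW.WFacts
import Pool.Agent.TLW.Pows
import Pool.Agent.TLW.Grow

set_option autoImplicit false

namespace Pool.Agent.TLW

open Polynomial Pool.Agent.LFZ

section Aux

variable {k E : Type} [Field k] [Field E] [Algebra k E] {W : Subalgebra k E}

theorem PhiMem_pow {y a : E} (hy : y ∈ W) (ha : y * a ∈ W) {n N : ℕ} (h : n ≤ N) :
    y ^ N * a ^ n ∈ W := by
  have e1 : y ^ N * a ^ n = y ^ (N - n) * (y * a) ^ n := by
    rw [mul_pow, ← mul_assoc, ← pow_add, Nat.sub_add_cancel h]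
  rw [e1]
  exact W.mul_mem (W.pow_mem hy _) (W.pow_mem ha _)

theorem PhiMem_geom {y a c : E} (hy : y ∈ W) (ha : y * a ∈ W) (hc : y * c ∈ W) {l N : ℕ}
    (h : l ≤ N + 1) : y ^ N * ∑ j ∈ Finset.range l, a ^ j * c ^ (l - 1 - j) ∈ W := by
  rw [Finset.mul_sum]
  refine W.sum_mem fun j hj => ?_
  rw [Finset.mem_range] at hj
  have e1 : y ^ N * (a ^ j * c ^ (l - 1 - j)) = y ^ (N - (l - 1)) * (y * a) ^ j *
      (y * c) ^ (l - 1 - j) := by
    have e2 : N = (N - (l - 1)) + j + (l - 1 - j) := by omega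
    conv_lhs => rw [e2, pow_add, pow_add]
    rw [mul_pow, mul_pow]
    ring
  rw [e1]
  exact W.mul_mem (W.mul_mem (W.pow_mem hy _) (W.pow_mem ha _)) (W.pow_mem hc _)

theorem PhiMem_LL {e : ℕ} (y : Fin e → E) (b : k) (hb : ∀ i, y i ≠ algebraMap k E b)
    (hW : ∀ i, (y i - algebraMap k E b)⁻¹ ∈ W) (n : ℕ) {c : E} (hc : c ∈ LL k y n) :
    uP y (algebraMap k E b) ^ n * c ∈ W := by
  rw [LL] at hc
  induction hc using Submodule.span_induction with
  | mem c hc =>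
    obtain ⟨α, hα, rfl⟩ := hc
    rw [uP, ← Finset.prod_pow, ← Finset.prod_mul_distrib]
    refine W.prod_mem fun i _ => PhiMem_pow (hW i) ?_ ?_
    · have h1 : (y i - algebraMap k E b)⁻¹ * y i = 1 + algebraMap k E b *
          (y i - algebraMap k E b)⁻¹ := by
        have := sub_ne_zero.2 (hb i)
        field_simp
        ring
      rw [h1]
      exact W.add_mem W.one_mem (W.mul_mem (W.algebraMap_mem _) (hW i))
    · exact (Finset.single_le_sum (f := α) (fun j _ => Nat.zero_le _) (Finset.mem_univ i)).trans hα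
  | zero =>
    rw [mul_zero]
    exact W.zero_mem
  | add x y _ _ hx hy =>
    rw [mul_add]
    exact W.add_mem hx hy
  | smul c x _ hx =>
    rw [mul_smul_comm]
    exact W.smul_mem hx _

end Aux

section

variable {e δ c0 Q : ℕ} {k 𝔽 E : Type} [Field k] [Field 𝔽] [Field E] [Algebra k E]
  [Algebra 𝔽 k] [Algebra 𝔽 E] [IsScalarTower 𝔽 k E]
  {M : Polynomial (MvPolynomial (Fin (e + 1)) 𝔽)} {x φ : Fin (e + 1) → E} {θ : Fin δ → E} {θ' : E}
  {b : k} {W : Subalgebra k E}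

omit [Algebra 𝔽 k] [IsScalarTower 𝔽 k E] in
/-- the values of the coefficients -/
theorem PhiMem_coef (hw : WConf k c0 Q x φ θ θ' b W) (hu : uP x (algebraMap k E b) ∈ W)
    (A n0 : ℕ) (a : Polynomial (Polynomial E)) (hdeg : a.natDegree < δ)
    (hA : ∀ r, (a.coeff r).natDegree ≤ A) (hcoef : ∀ r s, (a.coeff r).coeff s ∈ LL k (lt x) n0)
    (i : Fin δ) :
    uP (lt x) (algebraMap k E b) ^ n0 * ((x (Fin.last e) - algebraMap k E b)⁻¹) ^ A *
      uP x (algebraMap k E b) ^ (c0 * δ) * eval₂ (evalRingHom (x (Fin.last e))) (θ i) a ∈ W := by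
  rw [eval₂_eq_sum_range, Finset.mul_sum]
  refine W.sum_mem fun r hr => ?_
  rw [Finset.mem_range] at hr
  rw [coe_evalRingHom, eval_eq_sum_range, Finset.sum_mul, Finset.mul_sum]
  refine W.sum_mem fun s hs => ?_
  rw [Finset.mem_range] at hs
  have e1 : uP (lt x) (algebraMap k E b) ^ n0 * ((x (Fin.last e) - algebraMap k E b)⁻¹) ^ A *
      uP x (algebraMap k E b) ^ (c0 * δ) * ((a.coeff r).coeff s * x (Fin.last e) ^ s * θ i ^ r) =
      (uP (lt x) (algebraMap k E b) ^ n0 * (a.coeff r).coeff s) *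
      (((x (Fin.last e) - algebraMap k E b)⁻¹) ^ A * x (Fin.last e) ^ s) *
      ((uP x (algebraMap k E b) ^ c0) ^ δ * θ i ^ r) := by
    rw [← pow_mul]
    ring
  rw [e1]
  refine W.mul_mem (W.mul_mem ?_ ?_) ?_
  · exact PhiMem_LL (lt x) b (fun j => hw.ne _) (fun j => hw.inv _) n0 (hcoef r s)
  · refine PhiMem_pow (hw.inv _) ?_ ((by omega : s ≤ (a.coeff r).natDegree).trans (hA r))
    have h1 : (x (Fin.last e) - algebraMap k E b)⁻¹ * x (Fin.last e) = 1 + algebraMap k E b *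
        (x (Fin.last e) - algebraMap k E b)⁻¹ := by
      have := sub_ne_zero.2 (hw.ne (Fin.last e))
      field_simp
      ring
    rw [h1]
    exact W.add_mem W.one_mem (W.mul_mem (W.algebraMap_mem _) (hw.inv _))
  · exact PhiMem_pow (W.pow_mem hu _) (hw.th i) (by omega)

omit [Algebra 𝔽 k] [IsScalarTower 𝔽 k E] in
/-- (2.7) -/
theorem PhiMem_rel {p μ r' : ℕ} [Fact p.Prime] [CharP E p] (hQ : Q = p ^ μ * p ^ r')
    (hc : Conf k 𝔽 δ c0 Q M x φ θ θ') (B : ℕ) (a : Fin B → Fin δ → Polynomial (Polynomial E))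
    (hdvd : specM x M ∣ ∑ l, ∑ l', a l l' * C X ^ (l.val * p ^ r') * X ^ (l'.val * p ^ r'))
    (i : Fin δ) :
    ∑ l, ∑ l', eval₂ (evalRingHom (x (Fin.last e))) (θ i) (a l l') ^ (p ^ μ) *
      (x (Fin.last e) ^ Q) ^ l.val * (θ i ^ Q) ^ l'.val = 0 := by
  have h0 : eval₂ (evalRingHom (x (Fin.last e))) (θ i) (specM x M) = 0 := by
    have h1 : eval₂ (evalRingHom (x (Fin.last e))) (θ i) (specM x M) = (evM x M).eval (θ i) := by
      rw [specM, evM, eval₂_map, eval_map]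
      congr 1
      refine MvPolynomial.ringHom_ext (fun c => ?_) (fun j => ?_)
      · simp only [RingHom.comp_apply, RingHom.coe_coe, MvPolynomial.algHom_C]
        rw [coe_evalRingHom, Polynomial.algebraMap_apply, eval_C]
      · simp only [RingHom.comp_apply, RingHom.coe_coe, MvPolynomial.aeval_X]
        rw [coe_evalRingHom, line]
        by_cases hj : j = Fin.last e
        · rw [if_pos hj, eval_X, hj]
        · rw [if_neg hj, eval_C]
    rw [h1, hc.split, eval_prod]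
    exact Finset.prod_eq_zero (Finset.mem_univ i) (by simp)
  obtain ⟨q, hq⟩ := hdvd
  have h2 := congrArg (eval₂ (evalRingHom (x (Fin.last e))) (θ i)) hq
  rw [eval₂_mul, h0, zero_mul, eval₂_finsetSum] at h2
  have h3 := congrArg (fun z => z ^ (p ^ μ)) h2
  beta_reduce at h3
  rw [zero_pow (pow_pos (Fact.out : p.Prime).pos _).ne', sum_pow_char_pow] at h3
  rw [← h3]
  refine Finset.sum_congr rfl fun l _ => ?_
  rw [eval₂_finsetSum, sum_pow_char_pow]
  refine Finset.sum_congr rfl fun l' _ => ?_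
  rw [eval₂_mul, eval₂_mul, eval₂_pow, eval₂_pow, eval₂_X, eval₂_C, coe_evalRingHom, eval_X,
    mul_pow, mul_pow, hQ]
  simp only [← pow_mul]
  congr 2
  · congr 1
    ring
  · ring

theorem phi_mem {p μ r' : ℕ} [Fact p.Prime] [CharP E p] (hQ : Q = p ^ μ * p ^ r')
    (hc : Conf k 𝔽 δ c0 Q M x φ θ θ') (hw : WConf k c0 Q x φ θ θ' b W)
    (B A n0 : ℕ) (a : Fin B → Fin δ → Polynomial (Polynomial E))
    (hdeg : ∀ l l', (a l l').natDegree < δ) (hA : ∀ l l' r, ((a l l').coeff r).natDegree ≤ A)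
    (hcoef : ∀ l l' r s, ((a l l').coeff r).coeff s ∈ LL k (lt x) n0)
    (hdvd : specM x M ∣ ∑ l, ∑ l', a l l' * C X ^ (l.val * p ^ r') * X ^ (l'.val * p ^ r'))
    (i : Fin δ) :
    ∃ w ∈ W, ∃ w' ∈ W, PhiDen δ c0 B A n0 (p ^ μ) Q x φ b * PhiRaw (p ^ μ) x φ (θ i) θ' a =
      gg Q x φ * w + om c0 Q φ θ θ' b i * w' := by
  have hQ' : Q = p ^ (μ + r') := by rw [hQ, pow_add]
  obtain ⟨hux, -, huφ, -, -, huθ, -, -, -⟩ := wconf_mem hQ' hc hw
  obtain ⟨hφne, hX'W, -⟩ := wconf_inv' hQ' hc hw (Fin.last e)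
  have hrel := PhiMem_rel hQ hc B a hdvd i
  set t := x (Fin.last e) with ht
  set f := φ (Fin.last e) with hf
  set τ := θ i ^ Q with hτ
  set g := gg Q x φ with hg
  set X' := (f - algebraMap k E b ^ Q)⁻¹ with hX'
  set u' := uP φ (algebraMap k E b ^ Q) with hu'
  set D0 := uP (lt x) (algebraMap k E b) ^ n0 * ((t - algebraMap k E b)⁻¹) ^ A *
    uP x (algebraMap k E b) ^ (c0 * δ) with hD0
  have hgW : g ∈ W := hw.isW.1
  have hgdef : g = f - t ^ Q := rfl
  have hX'f : X' * f ∈ W := by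
    have h1 : X' * f = 1 + algebraMap k E (b ^ Q) * X' := by
      have := sub_ne_zero.2 hφne
      rw [hX', map_pow]
      field_simp
      ring
    rw [h1]
    exact W.add_mem W.one_mem (W.mul_mem (W.algebraMap_mem _) hX'W)
  have hX't : X' * t ^ Q ∈ W := by
    have h1 : X' * t ^ Q = X' * f - X' * g := by
      rw [hgdef]; ring
    rw [h1]
    exact W.sub_mem hX'f (W.mul_mem hX'W hgW)
  have huc : u' ^ c0 ∈ W := W.pow_mem huφ _
  -- each term
  have key : ∀ (l : Fin B) (l' : Fin δ), ∃ w ∈ W, ∃ w' ∈ W,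
      X' ^ B * u' ^ (c0 * δ) * (f ^ l.val * θ' ^ l'.val - (t ^ Q) ^ l.val * τ ^ l'.val) =
        g * w + om c0 Q φ θ θ' b i * w' := by
    intro l l'
    have hl := l.2
    have hl' := l'.2
    refine ⟨(X' ^ B * ∑ j ∈ Finset.range l.val, f ^ j * (t ^ Q) ^ (l.val - 1 - j)) *
        ((u' ^ c0) ^ δ * θ' ^ l'.val), W.mul_mem (PhiMem_geom hX'W hX'f hX't (by omega))
        (PhiMem_pow huc hw.th' hl'.le),
      (X' ^ B * (t ^ Q) ^ l.val) * ((u' ^ c0) ^ (δ - 1) *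
        ∑ j ∈ Finset.range l'.val, θ' ^ j * τ ^ (l'.val - 1 - j)),
      W.mul_mem (PhiMem_pow hX'W hX't hl.le) (PhiMem_geom huc hw.th' (huθ i) (by omega)), ?_⟩
    have h1 := geom_sum₂_mul f (t ^ Q) l.val
    have h2 := geom_sum₂_mul θ' τ l'.val
    have h3 : (u' ^ c0) ^ δ = u' ^ c0 * (u' ^ c0) ^ (δ - 1) := by
      rw [← pow_succ']
      congr 1
      omega
    have h4 : om c0 Q φ θ θ' b i = u' ^ c0 * (θ' - τ) := rfl
    rw [h4, hgdef, pow_mul]
    calc X' ^ B * (u' ^ c0) ^ δ * (f ^ l.val * θ' ^ l'.val - (t ^ Q) ^ l.val * τ ^ l'.val)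
        = X' ^ B * (f ^ l.val - (t ^ Q) ^ l.val) * ((u' ^ c0) ^ δ * θ' ^ l'.val) +
          X' ^ B * (t ^ Q) ^ l.val * ((u' ^ c0) ^ δ * (θ' ^ l'.val - τ ^ l'.val)) := by ring
      _ = _ := by
        rw [← h1, ← h2, h3]
        ring
  choose w hw1 w' hw2 hww using key
  have hco : ∀ l l', D0 * eval₂ (evalRingHom t) (θ i) (a l l') ∈ W := fun l l' =>
    PhiMem_coef hw hux A n0 (a l l') (hdeg l l') (hA l l') (hcoef l l') i
  refine ⟨∑ l, ∑ l', (D0 * eval₂ (evalRingHom t) (θ i) (a l l')) ^ (p ^ μ) * w l l',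
    W.sum_mem fun l _ => W.sum_mem fun l' _ => W.mul_mem (W.pow_mem (hco l l') _) (hw1 l l'),
    ∑ l, ∑ l', (D0 * eval₂ (evalRingHom t) (θ i) (a l l')) ^ (p ^ μ) * w' l l',
    W.sum_mem fun l _ => W.sum_mem fun l' _ => W.mul_mem (W.pow_mem (hco l l') _) (hw2 l l'), ?_⟩
  have h5 : PhiDen δ c0 B A n0 (p ^ μ) Q x φ b * PhiRaw (p ^ μ) x φ (θ i) θ' a =
      ∑ l, ∑ l', (D0 * eval₂ (evalRingHom t) (θ i) (a l l')) ^ (p ^ μ) *
        (X' ^ B * u' ^ (c0 * δ) * (f ^ l.val * θ' ^ l'.val - (t ^ Q) ^ l.val * τ ^ l'.val)) := by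
    have h6 : PhiDen δ c0 B A n0 (p ^ μ) Q x φ b = D0 ^ (p ^ μ) * (X' ^ B * u' ^ (c0 * δ)) := by
      rw [PhiDen]
      ring
    have h7 : PhiRaw (p ^ μ) x φ (θ i) θ' a = PhiRaw (p ^ μ) x φ (θ i) θ' a -
        ∑ l, ∑ l', eval₂ (evalRingHom t) (θ i) (a l l') ^ (p ^ μ) *
          (t ^ Q) ^ l.val * τ ^ l'.val := by
      rw [hrel, sub_zero]
    rw [h7, PhiRaw, ← Finset.sum_sub_distrib, h6, Finset.mul_sum]
    refine Finset.sum_congr rfl fun l _ => ?_
    rw [← Finset.sum_sub_distrib, Finset.mul_sum]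
    refine Finset.sum_congr rfl fun l' _ => ?_
    rw [mul_pow]
    ring
  rw [h5, Finset.mul_sum, Finset.mul_sum, ← Finset.sum_add_distrib]
  refine Finset.sum_congr rfl fun l _ => ?_
  rw [Finset.mul_sum, Finset.mul_sum, ← Finset.sum_add_distrib]
  refine Finset.sum_congr rfl fun l' _ => ?_
  rw [hww l l']
  ring

end

end Pool.Agent.TLW
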