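import Pool.Agent.TLW.Defs
import Pool.Agent.LFZ.WH

set_option autoImplicit false

namespace Pool.Agent.TLW

open Polynomial Pool.Agent.LFZ

section

/-- restriction to a subfield -/
theorem sstage_sub {k E : Type} [Field k] [Field E] [Algebra k E] (F : IntermediateField k E)
    (z : F) (hz : Transcendental k (z : E))
    (hfin : FiniteDimensional (IntermediateField.adjoin k {(z : E)}) E) :
    Transcendental k z ∧ FiniteDimensional (IntermediateField.adjoin k {z}) F ∧
      Module.finrank (IntermediateField.adjoin k {z}) F ≤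
        Module.finrank (IntermediateField.adjoin k {(z : E)}) E := by
  have htr : Transcendental k z := by
    intro h
    apply hz
    have := h.algebraMap (A := E)
    exact this
  refine ⟨htr, ?_⟩
  set K₁ : IntermediateField k F := IntermediateField.adjoin k {z} with hK₁
  set K₂ : IntermediateField k E := IntermediateField.adjoin k {(z : E)} with hK₂
  have hlift : IntermediateField.lift K₁ = K₂ := IntermediateField.lift_adjoin_simple k F z
  have hle : K₂ ≤ F := by
    rw [hK₂, IntermediateField.adjoin_simple_le_iff]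
    exact z.2
  let F' : IntermediateField K₂ E := IntermediateField.extendScalars hle
  have hF' : ∀ a : E, a ∈ F' ↔ a ∈ F := fun a => IntermediateField.mem_extendScalars hle
  let e₁ : K₂ ≃+* K₁ :=
    { toFun := fun a => ⟨⟨a.1, hle a.2⟩, by
        have h1 : a.1 ∈ IntermediateField.lift K₁ := by rw [hlift]; exact a.2
        exact (IntermediateField.mem_lift (E := K₁) ⟨a.1, hle a.2⟩).1 h1⟩
      invFun := fun b => ⟨b.1.1, by
        have h1 : b.1.1 ∈ IntermediateField.lift K₁ := (IntermediateField.mem_lift b.1).2 b.2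
        rwa [hlift] at h1⟩
      left_inv := fun a => rfl
      right_inv := fun b => rfl
      map_mul' := fun a b => rfl
      map_add' := fun a b => rfl }
  let e₂ : F' ≃+* F :=
    { toFun := fun a => ⟨a.1, (hF' a.1).1 a.2⟩
      invFun := fun a => ⟨a.1, (hF' a.1).2 a.2⟩
      left_inv := fun a => rfl
      right_inv := fun b => rfl
      map_mul' := fun a b => rfl
      map_add' := fun a b => rfl }
  have hfin' : FiniteDimensional K₂ F' := inferInstance
  have hle' : Module.finrank K₂ F' ≤ Module.finrank K₂ E :=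
    Submodule.finrank_le (Subalgebra.toSubmodule F'.toSubalgebra)
  constructor
  · exact Module.Finite.of_equiv_equiv e₁ e₂ rfl
  · rw [← Algebra.finrank_eq_of_equiv_equiv e₁ e₂ rfl]
    exact hle'

theorem sstage_set {e : ℕ} : {i : Fin (e + 1) | (Fin.last e).val ≤ i.val} = {Fin.last e} := by
  ext i
  simp only [Set.mem_ofPred_eq, Set.mem_singleton_iff, Fin.ext_iff, Fin.val_last]
  have := i.2
  omega

theorem exists_sstage {p e : ℕ} [Fact p.Prime] {R₀ : Type} [CommRing R₀] [IsDomain R₀]
    [Algebra (ZMod p) R₀] [Algebra.FiniteType (ZMod p) R₀] (f h : Fin (e + 1) → R₀)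
    (hf : AlgebraicIndependent (ZMod p) f) (hh : AlgebraicIndependent (ZMod p) h)
    (halg : ∀ r : R₀, IsAlgebraic (Algebra.adjoin (ZMod p) (Set.range h)) r) :
    ∃ C' : ℕ, ∀ D : MvPolynomial (Fin (e + 1)) (ZMod p), D ≠ 0 → ∃ C : ℕ, ∀ r : ℕ, C ≤ p ^ r →
      SStage f h (p ^ r) (C' * (p ^ r) ^ e) D := by
  obtain ⟨C', hC'⟩ := exists_stage f h hf hh halg e (Nat.le_succ e)
  refine ⟨C', fun D hD => ?_⟩
  obtain ⟨C, hC⟩ := hC' D hD
  refine ⟨C, fun r hr => ?_⟩
  obtain ⟨E, i1, i2, i3, i4, ψ, h1, h2, h3, h4, h5⟩ := hC r hr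
  set k := AlgebraicClosure (ZMod p) with hk
  have hset : {i : Fin (e + 1) | e ≤ i.val} = {Fin.last e} := sstage_set
  have htr : Transcendental k (ψ (h (Fin.last e))) := by
    have := h3.transcendental ⟨Fin.last e, by simp⟩
    exact this
  have hfield : fieldOf k (fun i => ψ (h i)) {i : Fin (e + 1) | e ≤ i.val}
      = IntermediateField.adjoin k {ψ (h (Fin.last e))} := by
    rw [hset]
    unfold fieldOf
    rw [Set.image_singleton]
  rw [hfield] at h4 h5
  set F : IntermediateField k E := IntermediateField.adjoin k (Set.range ψ) with hF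
  have hψF : ∀ a, ψ a ∈ F := fun a => IntermediateField.subset_adjoin k _ ⟨a, rfl⟩
  let ψ' : R₀ →ₐ[ZMod p] F :=
    { toFun := fun a => ⟨ψ a, hψF a⟩
      map_one' := Subtype.ext (map_one ψ)
      map_zero' := Subtype.ext (map_zero ψ)
      map_mul' := fun a b => Subtype.ext (map_mul ψ a b)
      map_add' := fun a b => Subtype.ext (map_add ψ a b)
      commutes' := fun c => Subtype.ext (ψ.commutes c) }
  have hψ' : ∀ a, ((ψ' a : F) : E) = ψ a := fun a => rfl
  obtain ⟨g1, g2, g3⟩ := sstage_sub F (ψ' (h (Fin.last e))) htr h4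
  refine ⟨F, inferInstance, inferInstance, inferInstance, inferInstance, ψ', ?_, ?_, ?_, g1, ?_, ?_⟩
  · intro i hi
    apply Subtype.ext
    have hi' : i.val < e := by
      have := i.2
      rcases Nat.lt_or_ge i.val e with hlt | hge
      · exact hlt
      · exact absurd (Fin.ext (by rw [Fin.val_last]; omega)) hi
    have := h1 i hi'
    rw [hψ', this]
    rfl
  · intro h0
    apply h2
    have e1 : MvPolynomial.aeval (fun i => ψ (h i)) D = ψ (MvPolynomial.aeval h D) := by
      rw [MvPolynomial.comp_aeval_apply]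
    have e2 : MvPolynomial.aeval (fun i => ψ' (h i)) D = ψ' (MvPolynomial.aeval h D) := by
      rw [MvPolynomial.comp_aeval_apply]
    rw [e1, ← hψ', ← e2, h0]
    rfl
  · exact ⟨_, g1, g2⟩
  · rw [dg_of_transcendental g1]
    exact g3.trans h5
  · rw [eq_top_iff]
    intro y _
    have hy : (y : E) ∈ IntermediateField.adjoin k (Set.range ψ) := y.2
    have hr : Set.range ψ = F.val '' Set.range ψ' := by
      ext b
      constructor
      · rintro ⟨a, rfl⟩
        exact ⟨ψ' a, ⟨a, rfl⟩, rfl⟩
      · rintro ⟨_, ⟨a, rfl⟩, rfl⟩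
        exact ⟨a, rfl⟩
    have hmap : IntermediateField.adjoin k (Set.range ψ)
        = (IntermediateField.adjoin k (Set.range ψ')).map F.val := by
      rw [IntermediateField.adjoin_map, ← hr]
    rw [hmap] at hy
    obtain ⟨y', hy', he⟩ := hy
    have : y' = y := Subtype.ext he
    rw [← this]
    exact hy'

/-- the hypotheses of `nonvanish` for `j = last` -/
theorem last_facts {e : ℕ} {k E : Type} [Field k] [Field E] [Algebra k E] (hE : IsFF k E)
    (x : Fin (e + 1) → E) (ht : Transcendental k (x (Fin.last e))) :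
    AlgebraicIndependent k
      (fun i : {i : Fin (e + 1) | (Fin.last e).val ≤ i.val} => x i) ∧
    FiniteDimensional (fieldOf k x {i : Fin (e + 1) | (Fin.last e).val ≤ i.val}) E := by
  constructor
  · rw [sstage_set]
    rw [algebraicIndependent_unique_type_iff]
    exact ht
  · rw [sstage_set]
    unfold fieldOf
    rw [Set.image_singleton]
    exact hE.finite ht

end

end Pool.Agent.TLW
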