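import Pool.Agent.TLW.IntAt
import Pool.Agent.LFZ.CoreNil

set_option autoImplicit false

namespace Pool.Agent.TLW

open Polynomial Pool.Agent.LFZ

section WFaux

variable {E : Type} [Field E]

theorem wf_inv_mul_mem (S : Subring E) (y b : E) (hb : b ∈ S) (hy : (y - b)⁻¹ ∈ S) :
    (y - b)⁻¹ * y ∈ S := by
  by_cases h : y = b
  · subst h
    simp
  · have h0 : y - b ≠ 0 := sub_ne_zero.2 h
    have : (y - b)⁻¹ * y = 1 + b * (y - b)⁻¹ := by
      field_simp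
      ring
    rw [this]
    exact S.add_mem S.one_mem (S.mul_mem hb hy)

theorem wf_uP_mem (S : Subring E) {m : ℕ} (y : Fin m → E) (b : E)
    (hy : ∀ i, (y i - b)⁻¹ ∈ S) : uP y b ∈ S :=
  S.prod_mem fun i _ => hy i

theorem wf_uP_mul_mem (S : Subring E) {m : ℕ} (y : Fin m → E) (b : E) (hb : b ∈ S)
    (hy : ∀ i, (y i - b)⁻¹ ∈ S) (i : Fin m) : uP y b * y i ∈ S := by
  have h1 := Finset.mul_prod_erase Finset.univ (fun i => (y i - b)⁻¹) (Finset.mem_univ i)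
  have h2 : uP y b * y i = (∏ j ∈ Finset.univ.erase i, (y j - b)⁻¹) * ((y i - b)⁻¹ * y i) := by
    unfold uP
    rw [← h1]
    ring
  rw [h2]
  exact S.mul_mem (S.prod_mem fun j _ => hy j) (wf_inv_mul_mem S _ b hb (hy i))

theorem wf_isIntegral_scale (S : Subring E) (P : Polynomial E) (hP : P.Monic) (s z : E)
    (hs : ∀ r < P.natDegree, P.coeff r * s ^ (P.natDegree - r) ∈ S) (hz : P.eval z = 0) :
    IsIntegral S (s * z) := by
  have hc : (((scaleRoots P s).coeffs : Finset E) : Set E) ⊆ S := by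
    intro a ha
    rw [Finset.mem_coe, Polynomial.mem_coeffs_iff] at ha
    obtain ⟨n, hn, rfl⟩ := ha
    rw [coeff_scaleRoots]
    have hn' : n ≤ P.natDegree := by
      have := le_natDegree_of_mem_supp _ hn
      rwa [natDegree_scaleRoots] at this
    rcases lt_or_eq_of_le hn' with h | h
    · exact hs n h
    · rw [h, Nat.sub_self, pow_zero, mul_one]
      have : P.coeff P.natDegree = 1 := hP
      rw [this]
      exact S.one_mem
  refine ⟨(scaleRoots P s).toSubring S hc, ?_, ?_⟩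
  · rw [monic_toSubring]
    exact (monic_scaleRoots_iff s).2 hP
  · have h1 : ((scaleRoots P s).toSubring S hc).map (Subring.subtype S) = scaleRoots P s :=
      Polynomial.map_toSubring _ _ _
    have h2 : eval₂ (algebraMap S E) (s * z) ((scaleRoots P s).toSubring S hc) =
        eval (s * z) (scaleRoots P s) := by
      conv_rhs => rw [← h1, eval_map]
      rfl
    rw [h2]
    have h3 := scaleRoots_eval₂_eq_zero (p := P) (f := RingHom.id E) (r := z) (s := s)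
      (by simpa [eval₂_id] using hz)
    simpa [eval₂_id] using h3

end WFaux

section

variable {e δ c0 Q : ℕ} {k 𝔽 E : Type} [Field k] [Field 𝔽] [Field E] [Algebra k E]
  [Algebra 𝔽 k] [Algebra 𝔽 E] [IsScalarTower 𝔽 k E]
  {M : Polynomial (MvPolynomial (Fin (e + 1)) 𝔽)} {x φ : Fin (e + 1) → E} {θ : Fin δ → E} {θ' : E}
  {b : k} {W : Subalgebra k E}

theorem wf_shape_integral (hM : Shape δ c0 M) (S : Subring E)
    (hS : ∀ c : 𝔽, algebraMap 𝔽 E c ∈ S) (y : Fin (e + 1) → E) (u z : E) (hu : u ∈ S)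
    (huy : ∀ i, u * y i ∈ S) (hz : (evM y M).eval z = 0) : IsIntegral S (u ^ c0 * z) := by
  have hmon : (evM y M).Monic := hM.monic.map _
  have hdeg : (evM y M).natDegree = δ := by
    unfold evM
    rw [hM.monic.natDegree_map, hM.deg]
  apply wf_isIntegral_scale S (evM y M) hmon (u ^ c0) z _ hz
  intro r hr
  rw [hdeg] at hr ⊢
  have h1 : (evM y M).coeff r = MvPolynomial.aeval y (M.coeff r) := by
    unfold evM
    rw [coeff_map]
    rfl
  have h2 := pow_mul_aeval_mem S hS u hu y huy (M.coeff r) c0 (hM.tot r)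
  have h3 : (evM y M).coeff r * (u ^ c0) ^ (δ - r) =
      (u ^ c0 * MvPolynomial.aeval y (M.coeff r)) * (u ^ c0) ^ (δ - r - 1) := by
    rw [h1]
    have : δ - r = (δ - r - 1) + 1 := by omega
    conv_lhs => rw [this, pow_succ]
    ring
  rw [h3]
  exact S.mul_mem h2 (S.pow_mem (S.pow_mem hu _) _)

/-- `1/(φ_i - b^Q) ∈ W` and it is `1/(x_i - b)^Q` times a unit of `W` -/
theorem wconf_inv' {p r : ℕ} [Fact p.Prime] [CharP E p] (hQ : Q = p ^ r)
    (hc : Conf k 𝔽 δ c0 Q M x φ θ θ') (hw : WConf k c0 Q x φ θ θ' b W) (i : Fin (e + 1)) :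
    φ i ≠ algebraMap k E b ^ Q ∧ (φ i - algebraMap k E b ^ Q)⁻¹ ∈ W ∧
      ∃ v ∈ W, v ≠ 0 ∧ v⁻¹ ∈ W ∧
        (φ i - algebraMap k E b ^ Q)⁻¹ = ((x i - algebraMap k E b)⁻¹) ^ Q * v := by
  set β := algebraMap k E b with hβ
  have hne : x i - β ≠ 0 := sub_ne_zero.2 (hw.ne i)
  have hX : (x i - β)⁻¹ ∈ W := hw.inv i
  have hfr : (x i - β) ^ Q = x i ^ Q - β ^ Q := by
    rw [hQ]
    exact sub_pow_char_pow (x i) β r
  by_cases hi : i = Fin.last e
  · obtain ⟨hg, _, _, hunit⟩ := hw.isW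
    set X := (x i - β)⁻¹ with hXdef
    have hXQ : X ^ Q ∈ W := W.pow_mem hX Q
    obtain ⟨v', hv'⟩ := (hunit ⟨X ^ Q, hXQ⟩).exists_right_inv
    have hv1 : (1 + gg Q x φ * X ^ Q) * (v' : E) = 1 := by
      have := congrArg (Subtype.val) hv'
      simpa using this
    have h1 : (1 + gg Q x φ * X ^ Q) ≠ 0 := fun h => by rw [h, zero_mul] at hv1; exact zero_ne_one hv1
    have hX0 : X ^ Q ≠ 0 := pow_ne_zero _ (inv_ne_zero hne)
    have h2 : φ i - β ^ Q = (X ^ Q)⁻¹ * (1 + gg Q x φ * X ^ Q) := by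
      have e1 : (X ^ Q)⁻¹ = (x i - β) ^ Q := by rw [hXdef, inv_pow, inv_inv]
      have e2 : (X ^ Q)⁻¹ * (1 + gg Q x φ * X ^ Q) = (X ^ Q)⁻¹ + gg Q x φ := by
        field_simp
      rw [e2, e1, hfr, hi]
      unfold gg
      ring
    have hv2 : (v' : E) = (1 + gg Q x φ * X ^ Q)⁻¹ := eq_inv_of_mul_eq_one_right hv1
    have h3 : (φ i - β ^ Q)⁻¹ = X ^ Q * v' := by
      rw [h2, mul_inv, inv_inv, hv2]
    refine ⟨?_, ?_, v', v'.2, ?_, ?_, h3⟩
    · rw [← sub_ne_zero, h2]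
      exact mul_ne_zero (inv_ne_zero hX0) h1
    · rw [h3]
      exact W.mul_mem hXQ v'.2
    · rw [hv2]
      exact inv_ne_zero h1
    · rw [hv2, inv_inv]
      exact W.add_mem W.one_mem (W.mul_mem hg hXQ)
  · have h1 : φ i - β ^ Q = (x i - β) ^ Q := by rw [hc.frob i hi, hfr]
    refine ⟨?_, ?_, 1, W.one_mem, one_ne_zero, by simpa using W.one_mem, ?_⟩
    · rw [← sub_ne_zero, h1]
      exact pow_ne_zero _ hne
    · rw [h1, ← inv_pow]
      exact W.pow_mem hX Q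
    · rw [h1, mul_one, inv_pow]

/-- products of `u`, `u x_i` etc. -/
theorem wconf_mem {p r : ℕ} [Fact p.Prime] [CharP E p] (hQ : Q = p ^ r)
    (hc : Conf k 𝔽 δ c0 Q M x φ θ θ') (hw : WConf k c0 Q x φ θ θ' b W) :
    uP x (algebraMap k E b) ∈ W ∧ (∀ i, uP x (algebraMap k E b) * x i ∈ W) ∧
    uP φ (algebraMap k E b ^ Q) ∈ W ∧ (∀ i, uP φ (algebraMap k E b ^ Q) * φ i ∈ W) ∧
    (∀ i, uP φ (algebraMap k E b ^ Q) * x i ^ Q ∈ W) ∧
    (∀ i, uP φ (algebraMap k E b ^ Q) ^ c0 * θ i ^ Q ∈ W) ∧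
    uP φ (algebraMap k E b ^ Q) ≠ 0 ∧ uP x (algebraMap k E b) ≠ 0 ∧
    (∃ v ∈ W, v ≠ 0 ∧ v⁻¹ ∈ W ∧
      uP φ (algebraMap k E b ^ Q) = uP x (algebraMap k E b) ^ Q * v) := by
  set β := algebraMap k E b with hβ
  have hβW : β ∈ W := W.algebraMap_mem b
  have hall := fun i => wconf_inv' hQ hc hw i
  rw [← hβ] at hall
  have h1 : uP x β ∈ W := wf_uP_mem W.toSubring x β hw.inv
  have h2 : ∀ i, uP x β * x i ∈ W := wf_uP_mul_mem W.toSubring x β hβW hw.inv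
  have h3 : uP φ (β ^ Q) ∈ W := wf_uP_mem W.toSubring φ (β ^ Q) (fun i => (hall i).2.1)
  have h4 : ∀ i, uP φ (β ^ Q) * φ i ∈ W :=
    wf_uP_mul_mem W.toSubring φ (β ^ Q) (W.pow_mem hβW Q) (fun i => (hall i).2.1)
  have h5 : ∀ i, uP φ (β ^ Q) * x i ^ Q ∈ W := by
    intro i
    by_cases hi : i = Fin.last e
    · obtain ⟨hg, _⟩ := hw.isW
      have : uP φ (β ^ Q) * x i ^ Q = uP φ (β ^ Q) * φ i - uP φ (β ^ Q) * gg Q x φ := by
        rw [hi]
        unfold gg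
        ring
      rw [this]
      exact W.sub_mem (h4 i) (W.mul_mem h3 hg)
    · rw [← hc.frob i hi]
      exact h4 i
  have h7 : uP φ (β ^ Q) ≠ 0 :=
    Finset.prod_ne_zero_iff.2 fun i _ => inv_ne_zero (sub_ne_zero.2 (hall i).1)
  have h8 : uP x β ≠ 0 :=
    Finset.prod_ne_zero_iff.2 fun i _ => inv_ne_zero (sub_ne_zero.2 (hw.ne i))
  have h9 : ∃ v ∈ W, v ≠ 0 ∧ v⁻¹ ∈ W ∧ uP φ (β ^ Q) = uP x β ^ Q * v := by
    choose v hv1 hv2 hv3 hv4 using fun i => (hall i).2.2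
    refine ⟨∏ i, v i, W.prod_mem fun i _ => hv1 i, Finset.prod_ne_zero_iff.2 fun i _ => hv2 i,
      ?_, ?_⟩
    · rw [← Finset.prod_inv_distrib]
      exact W.prod_mem fun i _ => hv3 i
    · unfold uP
      rw [← Finset.prod_pow, ← Finset.prod_mul_distrib]
      exact Finset.prod_congr rfl fun i _ => hv4 i
  refine ⟨h1, h2, h3, h4, h5, ?_, h7, h8, h9⟩
  intro i
  obtain ⟨v, hv1, _, _, hv4⟩ := h9
  have : uP φ (β ^ Q) ^ c0 * θ i ^ Q = (uP x β ^ c0 * θ i) ^ Q * v ^ c0 := by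
    rw [hv4]
    ring
  rw [this]
  exact W.mul_mem (W.pow_mem (hw.th i) Q) (W.pow_mem hv1 c0)

theorem om_mem {p r : ℕ} [Fact p.Prime] [CharP E p] (hQ : Q = p ^ r)
    (hc : Conf k 𝔽 δ c0 Q M x φ θ θ') (hw : WConf k c0 Q x φ θ θ' b W) (i : Fin δ) :
    om c0 Q φ θ θ' b i ∈ W := by
  have h := (wconf_mem hQ hc hw).2.2.2.2.2.1 i
  unfold om
  rw [mul_sub]
  exact W.sub_mem hw.th' h

/-- existence of `W` -/
theorem exists_wconf {p r : ℕ} [Fact p.Prime] [CharP E p] (hQ : Q = p ^ r) (hc0 : 1 ≤ c0)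
    (hc : Conf k 𝔽 δ c0 Q M x φ θ θ') (hg : Transcendental k (gg Q x φ)) (K : ℕ) (β : ℕ → k)
    (hβ : ∀ l, ∀ i, x i ≠ algebraMap k E (β l) ∧
      IntAt k (gg Q x φ) (x i - algebraMap k E (β l))⁻¹)
    (hβ' : IntAt k (gg Q x φ) (φ (Fin.last e) - algebraMap k E (β 0) ^ Q)⁻¹) :
    ∃ W : Subalgebra k E, WConf k c0 Q x φ θ θ' (β 0) W ∧
      ∀ l ≤ K, ∀ i, (x i - algebraMap k E (β l))⁻¹ ∈ W := by
  set b0 := algebraMap k E (β 0) with hb0
  -- the ring of coefficients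
  set T0 : Set E := Set.range (fun i => (x i - b0)⁻¹) ∪ {(φ (Fin.last e) - b0 ^ Q)⁻¹} with hT0
  have hT0i : ∀ y ∈ T0, IntAt k (gg Q x φ) y := by
    rintro y (⟨i, rfl⟩ | hy)
    · exact (hβ 0 i).2
    · rw [Set.mem_singleton_iff] at hy
      rw [hy]
      exact hβ'
  set A := Algebra.adjoin k T0 with hA
  have hAi : ∀ s ∈ A.toSubring, IntAt k (gg Q x φ) s := fun s hs => intAt_adjoin hg T0 hT0i s hs
  have hbA : b0 ∈ A.toSubring := A.algebraMap_mem _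
  have hXA : ∀ i, (x i - b0)⁻¹ ∈ A.toSubring := fun i =>
    Algebra.subset_adjoin (Or.inl ⟨i, rfl⟩)
  have hYA : ∀ i, (φ i - b0 ^ Q)⁻¹ ∈ A.toSubring := by
    intro i
    by_cases hi : i = Fin.last e
    · rw [hi]
      exact Algebra.subset_adjoin (Or.inr rfl)
    · have h1 : φ i - b0 ^ Q = (x i - b0) ^ Q := by
        rw [hc.frob i hi, hQ]
        exact (sub_pow_char_pow (x i) b0 r).symm
      rw [h1, ← inv_pow]
      exact A.toSubring.pow_mem (hXA i) Q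
  have h𝔽 : ∀ c : 𝔽, algebraMap 𝔽 E c ∈ A.toSubring := by
    intro c
    rw [IsScalarTower.algebraMap_apply 𝔽 k E]
    exact A.algebraMap_mem _
  have hZ : ∀ i, IntAt k (gg Q x φ) (uP x b0 ^ c0 * θ i) := by
    intro i
    refine intAt_of_isIntegral hg A.toSubring hAi ?_
    refine wf_shape_integral hc.shape A.toSubring h𝔽 x (uP x b0) (θ i)
      (wf_uP_mem _ x b0 hXA) (wf_uP_mul_mem _ x b0 hbA hXA) ?_
    rw [hc.split, eval_prod]
    exact Finset.prod_eq_zero (Finset.mem_univ i) (by simp)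
  have hZ' : IntAt k (gg Q x φ) (uP φ (b0 ^ Q) ^ c0 * θ') := by
    refine intAt_of_isIntegral hg A.toSubring hAi ?_
    exact wf_shape_integral hc.shape A.toSubring h𝔽 φ (uP φ (b0 ^ Q)) θ'
      (wf_uP_mem _ φ _ hYA) (wf_uP_mul_mem _ φ _ (A.toSubring.pow_mem hbA Q) hYA) hc.root
  -- the set
  set T : Set E := Set.range (fun v : Fin (K + 1) × Fin (e + 1) =>
      (x v.2 - algebraMap k E (β v.1))⁻¹) ∪
    (Set.range (fun i => uP x b0 ^ c0 * θ i) ∪ {uP φ (b0 ^ Q) ^ c0 * θ'}) with hT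
  have hTfin : T.Finite := (Set.finite_range _).union ((Set.finite_range _).union
    (Set.finite_singleton _))
  have hTi : ∀ y ∈ T, IntAt k (gg Q x φ) y := by
    rintro y (⟨v, rfl⟩ | ⟨i, rfl⟩ | hy)
    · exact (hβ v.1 v.2).2
    · exact hZ i
    · rw [Set.mem_singleton_iff] at hy
      rw [hy]
      exact hZ'
  obtain ⟨W, hW, hTW⟩ := exists_isW hc.ff hg T hTfin hTi
  have hinv : ∀ l ≤ K, ∀ i, (x i - algebraMap k E (β l))⁻¹ ∈ W := by
    intro l hl i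
    exact hTW _ (Or.inl ⟨(⟨l, by omega⟩, i), rfl⟩)
  refine ⟨W, ⟨hW, fun i => (hβ 0 i).1, fun i => hinv 0 (Nat.zero_le _) i, fun i => ?_, ?_⟩, hinv⟩
  · exact hTW _ (Or.inr (Or.inl ⟨i, rfl⟩))
  · exact hTW _ (Or.inr (Or.inr rfl))

end

end Pool.Agent.TLW
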